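import Pool.Agent.LR.EDefs

/-!
# LR/Auto: the half twists as elements of `AutE`, the multitwists `δ = σ₂ σ₄`, `δ' = σ₁ σ₃`, and `v₀`
-/

namespace Pool.Agent.LR

@[simp] theorem sg1_s1 : sg1 s1 = s1 * s2 * s1 := by simp [sg1]
@[simp] theorem sg1_s2 : sg1 s2 = s1 := by simp [sg1]
@[simp] theorem sg1_s3 : sg1 s3 = s3 := by simp [sg1]
@[simp] theorem sg1_s4 : sg1 s4 = s4 := by simp [sg1]
@[simp] theorem sg1_s5 : sg1 s5 = s5 := by simp [sg1]
@[simp] theorem sg1_s6 : sg1 s6 = s6 := by simp [sg1]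
@[simp] theorem sg1_symm_s1 : sg1.symm s1 = s2 := by simp [sg1]
@[simp] theorem sg1_symm_s2 : sg1.symm s2 = s2 * s1 * s2 := by simp [sg1]
@[simp] theorem sg1_symm_s3 : sg1.symm s3 = s3 := by simp [sg1]
@[simp] theorem sg1_symm_s4 : sg1.symm s4 = s4 := by simp [sg1]
@[simp] theorem sg1_symm_s5 : sg1.symm s5 = s5 := by simp [sg1]
@[simp] theorem sg1_symm_s6 : sg1.symm s6 = s6 := by simp [sg1]

@[simp] theorem sg2_s1 : sg2 s1 = s1 := by simp [sg2]
@[simp] theorem sg2_s2 : sg2 s2 = s2 * s3 * s2 := by simp [sg2]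
@[simp] theorem sg2_s3 : sg2 s3 = s2 := by simp [sg2]
@[simp] theorem sg2_s4 : sg2 s4 = s4 := by simp [sg2]
@[simp] theorem sg2_s5 : sg2 s5 = s5 := by simp [sg2]
@[simp] theorem sg2_s6 : sg2 s6 = s6 := by simp [sg2]
@[simp] theorem sg2_symm_s1 : sg2.symm s1 = s1 := by simp [sg2]
@[simp] theorem sg2_symm_s2 : sg2.symm s2 = s3 := by simp [sg2]
@[simp] theorem sg2_symm_s3 : sg2.symm s3 = s3 * s2 * s3 := by simp [sg2]
@[simp] theorem sg2_symm_s4 : sg2.symm s4 = s4 := by simp [sg2]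
@[simp] theorem sg2_symm_s5 : sg2.symm s5 = s5 := by simp [sg2]
@[simp] theorem sg2_symm_s6 : sg2.symm s6 = s6 := by simp [sg2]

@[simp] theorem sg3_s1 : sg3 s1 = s1 := by simp [sg3]
@[simp] theorem sg3_s2 : sg3 s2 = s2 := by simp [sg3]
@[simp] theorem sg3_s3 : sg3 s3 = s3 * s4 * s3 := by simp [sg3]
@[simp] theorem sg3_s4 : sg3 s4 = s3 := by simp [sg3]
@[simp] theorem sg3_s5 : sg3 s5 = s5 := by simp [sg3]
@[simp] theorem sg3_s6 : sg3 s6 = s6 := by simp [sg3]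
@[simp] theorem sg3_symm_s1 : sg3.symm s1 = s1 := by simp [sg3]
@[simp] theorem sg3_symm_s2 : sg3.symm s2 = s2 := by simp [sg3]
@[simp] theorem sg3_symm_s3 : sg3.symm s3 = s4 := by simp [sg3]
@[simp] theorem sg3_symm_s4 : sg3.symm s4 = s4 * s3 * s4 := by simp [sg3]
@[simp] theorem sg3_symm_s5 : sg3.symm s5 = s5 := by simp [sg3]
@[simp] theorem sg3_symm_s6 : sg3.symm s6 = s6 := by simp [sg3]

@[simp] theorem sg4_s1 : sg4 s1 = s1 := by simp [sg4]
@[simp] theorem sg4_s2 : sg4 s2 = s2 := by simp [sg4]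
@[simp] theorem sg4_s3 : sg4 s3 = s3 := by simp [sg4]
@[simp] theorem sg4_s4 : sg4 s4 = s4 * s5 * s4 := by simp [sg4]
@[simp] theorem sg4_s5 : sg4 s5 = s4 := by simp [sg4]
@[simp] theorem sg4_s6 : sg4 s6 = s6 := by simp [sg4]
@[simp] theorem sg4_symm_s1 : sg4.symm s1 = s1 := by simp [sg4]
@[simp] theorem sg4_symm_s2 : sg4.symm s2 = s2 := by simp [sg4]
@[simp] theorem sg4_symm_s3 : sg4.symm s3 = s3 := by simp [sg4]
@[simp] theorem sg4_symm_s4 : sg4.symm s4 = s5 := by simp [sg4]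
@[simp] theorem sg4_symm_s5 : sg4.symm s5 = s5 * s4 * s5 := by simp [sg4]
@[simp] theorem sg4_symm_s6 : sg4.symm s6 = s6 := by simp [sg4]

@[simp] theorem sg5_s1 : sg5 s1 = s1 := by simp [sg5]
@[simp] theorem sg5_s2 : sg5 s2 = s2 := by simp [sg5]
@[simp] theorem sg5_s3 : sg5 s3 = s3 := by simp [sg5]
@[simp] theorem sg5_s4 : sg5 s4 = s4 := by simp [sg5]
@[simp] theorem sg5_s5 : sg5 s5 = s5 * s6 * s5 := by simp [sg5]
@[simp] theorem sg5_s6 : sg5 s6 = s5 := by simp [sg5]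
@[simp] theorem sg5_symm_s1 : sg5.symm s1 = s1 := by simp [sg5]
@[simp] theorem sg5_symm_s2 : sg5.symm s2 = s2 := by simp [sg5]
@[simp] theorem sg5_symm_s3 : sg5.symm s3 = s3 := by simp [sg5]
@[simp] theorem sg5_symm_s4 : sg5.symm s4 = s4 := by simp [sg5]
@[simp] theorem sg5_symm_s5 : sg5.symm s5 = s6 := by simp [sg5]
@[simp] theorem sg5_symm_s6 : sg5.symm s6 = s6 * s5 * s6 := by simp [sg5]


theorem mulAut_inv_apply (φ : MulAut E) (x : E) : φ⁻¹ x = φ.symm x := rfl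

/-- membership in `AutE` from the values on the generators -/
theorem mem_AutE {φ : MulAut E} (a1 : IsHT (φ s1)) (a2 : IsHT (φ s2)) (a3 : IsHT (φ s3))
    (a4 : IsHT (φ s4)) (a5 : IsHT (φ s5)) (a6 : IsHT (φ s6)) (b1 : IsHT (φ.symm s1))
    (b2 : IsHT (φ.symm s2)) (b3 : IsHT (φ.symm s3)) (b4 : IsHT (φ.symm s4))
    (b5 : IsHT (φ.symm s5)) (b6 : IsHT (φ.symm s6)) : φ ∈ AutE := by
  apply mem_AutE_of
  · intro i
    fin_cases i <;> assumption
  · intro i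
    fin_cases i <;> assumption

theorem isHT_s1 : IsHT s1 := isHT_gen 0
theorem isHT_s2 : IsHT s2 := isHT_gen 1
theorem isHT_s3 : IsHT s3 := isHT_gen 2
theorem isHT_s4 : IsHT s4 := isHT_gen 3
theorem isHT_s5 : IsHT s5 := isHT_gen 4
theorem isHT_s6 : IsHT s6 := isHT_gen 5

theorem IsHT.sandwich {s t : E} (hs : IsHT s) (ht : IsHT t) : IsHT (s * t * s) := by
  have h : s⁻¹ = s := inv_eq_of_mul_eq_one_left hs.mul_self
  have := ht.conj s
  rwa [h] at this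

theorem sg1_mem : sg1 ∈ AutE := by
  apply mem_AutE <;> simp only [sg1_s1, sg1_s2, sg1_s3, sg1_s4, sg1_s5, sg1_s6, sg1_symm_s1, sg1_symm_s2, sg1_symm_s3, sg1_symm_s4, sg1_symm_s5, sg1_symm_s6] <;>
    first
    | exact isHT_s1
    | exact isHT_s2
    | exact isHT_s3
    | exact isHT_s4
    | exact isHT_s5
    | exact isHT_s6
    | exact isHT_s1.sandwich isHT_s2
    | exact isHT_s2.sandwich isHT_s1

/-- the half twist `σ_1` -/
def sa1 : AutE := ⟨sg1, sg1_mem⟩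

theorem sg2_mem : sg2 ∈ AutE := by
  apply mem_AutE <;> simp only [sg2_s1, sg2_s2, sg2_s3, sg2_s4, sg2_s5, sg2_s6, sg2_symm_s1, sg2_symm_s2, sg2_symm_s3, sg2_symm_s4, sg2_symm_s5, sg2_symm_s6] <;>
    first
    | exact isHT_s1
    | exact isHT_s2
    | exact isHT_s3
    | exact isHT_s4
    | exact isHT_s5
    | exact isHT_s6
    | exact isHT_s2.sandwich isHT_s3
    | exact isHT_s3.sandwich isHT_s2

/-- the half twist `σ_2` -/
def sa2 : AutE := ⟨sg2, sg2_mem⟩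

theorem sg3_mem : sg3 ∈ AutE := by
  apply mem_AutE <;> simp only [sg3_s1, sg3_s2, sg3_s3, sg3_s4, sg3_s5, sg3_s6, sg3_symm_s1, sg3_symm_s2, sg3_symm_s3, sg3_symm_s4, sg3_symm_s5, sg3_symm_s6] <;>
    first
    | exact isHT_s1
    | exact isHT_s2
    | exact isHT_s3
    | exact isHT_s4
    | exact isHT_s5
    | exact isHT_s6
    | exact isHT_s3.sandwich isHT_s4
    | exact isHT_s4.sandwich isHT_s3

/-- the half twist `σ_3` -/
def sa3 : AutE := ⟨sg3, sg3_mem⟩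

theorem sg4_mem : sg4 ∈ AutE := by
  apply mem_AutE <;> simp only [sg4_s1, sg4_s2, sg4_s3, sg4_s4, sg4_s5, sg4_s6, sg4_symm_s1, sg4_symm_s2, sg4_symm_s3, sg4_symm_s4, sg4_symm_s5, sg4_symm_s6] <;>
    first
    | exact isHT_s1
    | exact isHT_s2
    | exact isHT_s3
    | exact isHT_s4
    | exact isHT_s5
    | exact isHT_s6
    | exact isHT_s4.sandwich isHT_s5
    | exact isHT_s5.sandwich isHT_s4

/-- the half twist `σ_4` -/
def sa4 : AutE := ⟨sg4, sg4_mem⟩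

theorem sg5_mem : sg5 ∈ AutE := by
  apply mem_AutE <;> simp only [sg5_s1, sg5_s2, sg5_s3, sg5_s4, sg5_s5, sg5_s6, sg5_symm_s1, sg5_symm_s2, sg5_symm_s3, sg5_symm_s4, sg5_symm_s5, sg5_symm_s6] <;>
    first
    | exact isHT_s1
    | exact isHT_s2
    | exact isHT_s3
    | exact isHT_s4
    | exact isHT_s5
    | exact isHT_s6
    | exact isHT_s5.sandwich isHT_s6
    | exact isHT_s6.sandwich isHT_s5

/-- the half twist `σ_5` -/
def sa5 : AutE := ⟨sg5, sg5_mem⟩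

/-- the multitwist `δ = σ₂ σ₄` -/
def dh : AutE := sa2 * sa4

/-- the multitwist `δ' = σ₁ σ₃` -/
def dh' : AutE := sa1 * sa3

/-- the mapping class `v₀ = (δ δ')²` -/
def v0 : AutE := (dh * dh') * (dh * dh')

theorem dh_apply (x : E) : dh.1 x = sg2 (sg4 x) := rfl
theorem dh'_apply (x : E) : dh'.1 x = sg1 (sg3 x) := rfl
theorem v0_apply (x : E) : v0.1 x = dh.1 (dh'.1 (dh.1 (dh'.1 x))) := rfl

@[simp] theorem dh_s1 : dh.1 s1 = s1 := by simp [dh_apply]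
@[simp] theorem dh_s2 : dh.1 s2 = s2 * s3 * s2 := by simp [dh_apply]
@[simp] theorem dh_s3 : dh.1 s3 = s2 := by simp [dh_apply]
@[simp] theorem dh_s4 : dh.1 s4 = s4 * s5 * s4 := by simp [dh_apply]
@[simp] theorem dh_s5 : dh.1 s5 = s4 := by simp [dh_apply]
@[simp] theorem dh_s6 : dh.1 s6 = s6 := by simp [dh_apply]

@[simp] theorem dh'_s1 : dh'.1 s1 = s1 * s2 * s1 := by simp [dh'_apply]
@[simp] theorem dh'_s2 : dh'.1 s2 = s1 := by simp [dh'_apply]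
@[simp] theorem dh'_s3 : dh'.1 s3 = s3 * s4 * s3 := by simp [dh'_apply]
@[simp] theorem dh'_s4 : dh'.1 s4 = s3 := by simp [dh'_apply]
@[simp] theorem dh'_s5 : dh'.1 s5 = s5 := by simp [dh'_apply]
@[simp] theorem dh'_s6 : dh'.1 s6 = s6 := by simp [dh'_apply]

theorem prod4 : s1 * s2 * s3 * s4 = s6 * s5 := by
  have h := prod_gen
  have h2 : s1 * s2 * s3 * s4 = (s1 * s2 * s3 * s4 * s5 * s6) * s6⁻¹ * s5⁻¹ := by group
  rw [h2, h]; simp

@[simp] theorem v0_s1 : v0.1 s1 = s6 * s5 * s6 := by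
  rw [v0_apply]
  simp only [dh'_s1, map_mul, dh_s1, dh_s2, dh'_s2, dh'_s3, dh_s3, dh_s4]
  have : s1 * s2 * s3 * s4 * s5 * (s1 * s2 * s3 * s4)⁻¹ = s6 * s5 * s6 := by
    rw [prod4]; simp [mul_assoc]
  rw [← this]
  simp [mul_assoc]
@[simp] theorem v0_s2 : v0.1 s2 = s1 * s2 * s3 * s2 * s1 := by
  rw [v0_apply]; simp [mul_assoc]
@[simp] theorem v0_s3 : v0.1 s3 = s1 * s2 * s4 * s2 * s1 := by
  rw [v0_apply]; simp [mul_assoc]
@[simp] theorem v0_s4 : v0.1 s4 = s1 := by rw [v0_apply]; simp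
@[simp] theorem v0_s5 : v0.1 s5 = s2 := by rw [v0_apply]; simp
@[simp] theorem v0_s6 : v0.1 s6 = s6 := by rw [v0_apply]; simp

theorem aut_ext {φ ψ : AutE} (a1 : φ.1 s1 = ψ.1 s1) (a2 : φ.1 s2 = ψ.1 s2) (a3 : φ.1 s3 = ψ.1 s3)
    (a4 : φ.1 s4 = ψ.1 s4) (a5 : φ.1 s5 = ψ.1 s5) (a6 : φ.1 s6 = ψ.1 s6) : φ = ψ := by
  apply Subtype.ext
  apply MulEquiv.toMonoidHom_injective
  exact ehom_ext a1 a2 a3 a4 a5 a6

/-- `v₀ δ = δ' v₀` -/
theorem v0_dh : v0 * dh = dh' * v0 := by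
  have e1 : ∀ x, (v0 * dh).1 x = v0.1 (dh.1 x) := fun _ => rfl
  have e2 : ∀ x, (dh' * v0).1 x = dh'.1 (v0.1 x) := fun _ => rfl
  apply aut_ext <;> simp [e1, e2, mul_assoc]

theorem v0_h4 : v0 • h4 = h1 := Subtype.ext v0_s4
theorem v0_h5 : v0 • h5 = h2 := Subtype.ext v0_s5
theorem v0_h2 : v0 • h2 = (s1 * s2) • h3 := Subtype.ext (by
  rw [aut_smul_val, smul_val]
  show v0.1 s2 = s1 * s2 * s3 * (s1 * s2)⁻¹
  simp [mul_assoc])
theorem v0_h3 : v0 • h3 = (s1 * s2) • h4 := Subtype.ext (by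
  rw [aut_smul_val, smul_val]
  show v0.1 s3 = s1 * s2 * s4 * (s1 * s2)⁻¹
  simp [mul_assoc])

/-- the subgroup `⟨δ, δ'⟩` -/
def Fh : Subgroup AutE := Subgroup.closure {dh, dh'}

theorem dh_mem : dh ∈ Fh := Subgroup.subset_closure (by simp)
theorem dh'_mem : dh' ∈ Fh := Subgroup.subset_closure (by simp)
theorem v0_mem : v0 ∈ Fh := mul_mem (mul_mem dh_mem dh'_mem) (mul_mem dh_mem dh'_mem)

/-! ### Lines of half-turns -/

theorem isHT_line {s t : E} (hs : IsHT s) (ht : IsHT t) (n : ℤ) : IsHT ((s * t) ^ n * s) := by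
  have hs1 : s⁻¹ = s := inv_eq_of_mul_eq_one_left hs.mul_self
  have ht1 : t⁻¹ = t := inv_eq_of_mul_eq_one_left ht.mul_self
  have key : ∀ m : ℤ, (s * t) ^ m * s = s * ((s * t) ^ m)⁻¹ := by
    intro m
    have h1 : s * (s * t) * s⁻¹ = (s * t)⁻¹ := by
      rw [mul_inv_rev, hs1, ht1, ← mul_assoc, hs.mul_self, one_mul]
    have h2 : s * (s * t) ^ m * s⁻¹ = ((s * t) ^ m)⁻¹ := by
      rw [← conj_zpow, h1, inv_zpow]
    have h3 : ((s * t) ^ m)⁻¹ = s * (s * t) ^ m * s := by rw [← h2, hs1]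
    rw [h3, ← mul_assoc, ← mul_assoc, hs.mul_self, one_mul]
  rcases Int.even_or_odd' n with ⟨m, hm | hm⟩
  · have : (s * t) ^ n * s = (s * t) ^ m * s * ((s * t) ^ m)⁻¹ := by
      calc (s * t) ^ n * s = (s * t) ^ m * ((s * t) ^ m * s) := by
            rw [hm, two_mul, zpow_add, mul_assoc]
        _ = (s * t) ^ m * (s * ((s * t) ^ m)⁻¹) := by rw [key]
        _ = (s * t) ^ m * s * ((s * t) ^ m)⁻¹ := by rw [mul_assoc]
    rw [this]; exact hs.conj _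
  · have : (s * t) ^ n * s = (s * t) ^ m * (s * t * s) * ((s * t) ^ m)⁻¹ := by
      have : n = m + 1 + m := by omega
      rw [this, zpow_add, zpow_add, zpow_one, mul_assoc _ _ s, key]
      simp only [mul_assoc]
    rw [this]; exact (hs.sandwich ht).conj _

/-- The line of half-turns through `s = line s t 0` and `t = line s t 1`. -/
def line (s t : HT) (k : ℤ) : HT := ⟨(s.1 * t.1) ^ (-k) * s.1, isHT_line s.2 t.2 _⟩

theorem line_zero (s t : HT) : line s t 0 = s := Subtype.ext (by simp [line])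

theorem HT.inv_val (s : HT) : s.1⁻¹ = s.1 := inv_eq_of_mul_eq_one_left s.2.mul_self

theorem line_one (s t : HT) : line s t 1 = t := Subtype.ext (by
  show (s.1 * t.1) ^ (-1 : ℤ) * s.1 = t.1
  rw [zpow_neg_one, mul_inv_rev, HT.inv_val, HT.inv_val, mul_assoc, s.2.mul_self, mul_one])

end Pool.Agent.LR
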