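import Pool.Agent.LR.Defs
import Pool.Agent.LR.Auto

/-!
# LR/Embed: the surface group as the subgroup of even elements of `E`

`j : Surf → E`, `a₁ ↦ s₁ s₂`, `b₁ ↦ s₃ s₂`, `a₂ ↦ s₄ s₅`, `b₂ ↦ s₆ s₅`.

PROOFS.
* `sem`: `Surf ⋊ ℤ/2` with the action of the hyperelliptic involution `hyp` (`hyp * hyp = 1`). The map `Θ`:
  `s₁ ↦ (1, ι)`, `s₂ ↦ (a₁⁻¹, ι)`, `s₃ ↦ (b₁ a₁⁻¹, ι)`, `s₄ ↦ (u⁻¹, ι)`, `s₅ ↦ (a₂⁻¹ u⁻¹, ι)`,
  `s₆ ↦ (b₂ a₂⁻¹ u⁻¹, ι)`. `(x, ι)² = (x * hyp x, 1)`, so one needs `x * hyp x = 1` for the six `x` (use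
  `hypHom_u`, and `hyp a₂ = u a₂⁻¹ u⁻¹`, `hyp b₂ = u a₂ b₂⁻¹ a₂⁻¹ u⁻¹`), and the product of the six elements is
  `(x₁ hyp(x₂) x₃ hyp(x₄) x₅ hyp(x₆), 1)`, which is `1` by the relation. Then `Θ ∘ j = inl` (check on the
  four generators), so `j` is injective. Alternatively construct the homomorphism to the semidirect product in
  any other way.
* `even_or_odd`: the set `{g | (∃ γ, g = j γ) ∨ ∃ γ, g = j γ * s1}` contains the generators
  (`s1 = j 1 * s1`, `s2 = j a₁⁻¹ * s1`, `s3 = j (b₁ a₁⁻¹) * s1`, `s4 = j u⁻¹ * s1`, `s5 = s4 * s5 ...`,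
  `s5 = j (a₂⁻¹ u⁻¹) * s1`, `s6 = j (b₂ a₂⁻¹ u⁻¹) * s1`) and is closed under products by `j_hyp`
  (`s1 * j γ = j (hyp γ) * s1`) and inverses.
* `not_even_and_odd`: the parity homomorphism `E → ℤ/2`, `sᵢ ↦ 1`, kills `j γ` (check on generators) and not `s1`.
* `exists_mul`: a half-turn is odd (parity homomorphism: it is a conjugate of a generator), so the product of
  two half-turns is even, hence not of the form `j γ * s1`.
* `exists_lift`: closure induction with `isLift_twist1, …, isLift_conj`, `IsLift.mul`, `IsLift.inv`, `IsLift.one`.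
* `isLift_twist`: check on generators (`Surf.hom_ext` applied to `j.comp _` and `_.comp j`). For `twist3` one
  needs `s₃ s₄ = s₂ s₁ s₆ s₅` (from `prod4`).
-/

namespace Pool.Agent.LR

namespace Surf

/-- The element `u = a₁ b₁⁻¹ a₁⁻¹ b₂`. -/
def u : Surf := a1 * b1⁻¹ * a1⁻¹ * b2

/-- The underlying endomorphism of the hyperelliptic involution. -/
def hypHom : Surf →* Surf :=
  hom a1⁻¹ (a1 * b1⁻¹ * a1⁻¹) (u * a2⁻¹ * u⁻¹) (u * a2 * b2⁻¹ * a2⁻¹ * u⁻¹)
    (eq_one_of_conj (w := a1 * b1⁻¹ * a1⁻¹) (by unfold u; group))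

theorem hypHom_u : hypHom u = u⁻¹ := by
  have h : b1 * u * a2 * b2⁻¹ * a2⁻¹ = 1 := by
    have h2 : b1 * u * a2 * b2⁻¹ * a2⁻¹ = (b1 * a1 * b1⁻¹ * a1⁻¹) *
      (a1 * b1 * a1⁻¹ * b1⁻¹ * (a2 * b2 * a2⁻¹ * b2⁻¹))⁻¹ * (b1 * a1 * b1⁻¹ * a1⁻¹)⁻¹ := by
      unfold u; group
    rw [h2, rel]; group
  have h3 : hypHom u = b1 * u * a2 * b2⁻¹ * a2⁻¹ * u⁻¹ := by
    conv_lhs => rw [u]
    simp only [map_mul, map_inv]
    simp only [hypHom, hom_a1, hom_b1, hom_b2]
    group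
  rw [h3, h, one_mul]

theorem hypHom_hypHom : hypHom.comp hypHom = MonoidHom.id Surf := by
  have hu := hypHom_u
  apply hom_ext
  · simp [hypHom]
  · simp [hypHom, mul_assoc]
  · have : hypHom a2 = u * a2⁻¹ * u⁻¹ := by simp [hypHom]
    rw [MonoidHom.comp_apply, this]
    simp only [map_mul, map_inv, hu, this]
    simp
  · have h1 : hypHom a2 = u * a2⁻¹ * u⁻¹ := by simp [hypHom]
    have h2 : hypHom b2 = u * a2 * b2⁻¹ * a2⁻¹ * u⁻¹ := by simp [hypHom]
    rw [MonoidHom.comp_apply, h2]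
    simp only [map_mul, map_inv, hu, h1, h2, MonoidHom.id_apply]
    group

/-- The hyperelliptic involution. -/
def hyp : MulAut Surf := MonoidHom.toMulEquiv hypHom hypHom hypHom_hypHom hypHom_hypHom

end Surf

open Surf

theorem j_rel : s1 * s2 * (s3 * s2) * (s1 * s2)⁻¹ * (s3 * s2)⁻¹ *
    (s4 * s5 * (s6 * s5) * (s4 * s5)⁻¹ * (s6 * s5)⁻¹) = 1 := by
  have h := prod_gen'
  have h2 : s1 * s2 * (s3 * s2) * (s1 * s2)⁻¹ * (s3 * s2)⁻¹ *
    (s4 * s5 * (s6 * s5) * (s4 * s5)⁻¹ * (s6 * s5)⁻¹) =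
    s1 * s2 * s3 * (s1 * (s2 * (s3 * (s4 * (s5 * s6))))) * (s4 * s5 * s6) := by
    simp [mul_assoc]
  rw [h2, h]
  simpa [mul_assoc] using h

/-- the embedding of the surface group -/
def j : Surf →* E := Surf.hom (s1 * s2) (s3 * s2) (s4 * s5) (s6 * s5) j_rel

@[simp] theorem j_a1 : j a1 = s1 * s2 := by simp [j]
@[simp] theorem j_b1 : j b1 = s3 * s2 := by simp [j]
@[simp] theorem j_a2 : j a2 = s4 * s5 := by simp [j]
@[simp] theorem j_b2 : j b2 = s6 * s5 := by simp [j]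

theorem Embed_hyp_a1 : hyp a1 = a1⁻¹ := by
  show hypHom a1 = _; simp [hypHom]
theorem Embed_hyp_b1 : hyp b1 = a1 * b1⁻¹ * a1⁻¹ := by
  show hypHom b1 = _; simp [hypHom]
theorem Embed_hyp_a2 : hyp a2 = u * a2⁻¹ * u⁻¹ := by
  show hypHom a2 = _; simp [hypHom]
theorem Embed_hyp_b2 : hyp b2 = u * a2 * b2⁻¹ * a2⁻¹ * u⁻¹ := by
  show hypHom b2 = _; simp [hypHom]
theorem Embed_hyp_u : hyp u = u⁻¹ := hypHom_u

theorem Embed_rel3 : s3 * s2 * s1 = s4 * s5 * s6 := by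
  have h := prod_gen
  have h2 : s3 * s2 * s1 = (s1 * s2 * s3)⁻¹ := by simp [mul_assoc]
  have h3 : s1 * s2 * s3 = s6 * s5 * s4 := by
    have h4 : s1 * s2 * s3 = (s1 * s2 * s3 * s4 * s5 * s6) * s6⁻¹ * s5⁻¹ * s4⁻¹ := by group
    rw [h4, h]; simp
  rw [h2, h3]; simp [mul_assoc]

theorem Embed_j_u : j u = s1 * s4 := by
  have h1 : j u = s1 * (s3 * s2 * s1) * (s6 * s5) := by
    unfold u
    simp only [map_mul, map_inv, j_a1, j_b1, j_b2, mul_inv_rev, s1_inv, s2_inv, s3_inv]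
    simp [mul_assoc]
  rw [h1, Embed_rel3]
  simp [mul_assoc]

theorem j_hyp (γ : Surf) : j (hyp γ) = s1 * j γ * s1 := by
  have h : j.comp hyp.toMonoidHom = (MulAut.conj s1).toMonoidHom.comp j := by
    apply Surf.hom_ext
    · show j (hyp a1) = s1 * j a1 * s1⁻¹
      rw [Embed_hyp_a1]; simp [mul_assoc]
    · show j (hyp b1) = s1 * j b1 * s1⁻¹
      rw [Embed_hyp_b1]; simp [mul_assoc]
    · show j (hyp a2) = s1 * j a2 * s1⁻¹
      rw [Embed_hyp_a2]
      simp only [map_mul, map_inv, Embed_j_u]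
      simp [mul_assoc]
    · show j (hyp b2) = s1 * j b2 * s1⁻¹
      rw [Embed_hyp_b2]
      simp only [map_mul, map_inv, Embed_j_u]
      simp [mul_assoc]
  have h2 := DFunLike.congr_fun h γ
  have h3 : j (hyp γ) = s1 * j γ * s1⁻¹ := h2
  rw [h3, s1_inv]

theorem Embed_hyp_hyp : hyp * hyp = 1 := by
  apply MulEquiv.ext
  intro x
  exact DFunLike.congr_fun hypHom_hypHom x

/-- the elements of the holomorph -/
def Embed_x : Fin 6 → Surf := ![1, a1⁻¹, b1 * a1⁻¹, u⁻¹, a2⁻¹ * u⁻¹, b2 * a2⁻¹ * u⁻¹]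

/-- the elements of the holomorph -/
def Embed_y (x : Surf) : Surf ⋊[MonoidHom.id (MulAut Surf)] (MulAut Surf) := ⟨x, hyp⟩

theorem Embed_y_mul (x x' : Surf) : Embed_y x * Embed_y x' = SemidirectProduct.inl (x * hyp x') := by
  apply SemidirectProduct.ext
  · rfl
  · show hyp * hyp = 1
    exact Embed_hyp_hyp

/-- the homomorphism to the holomorph -/
def Embed_T : E →* Surf ⋊[MonoidHom.id (MulAut Surf)] (MulAut Surf) :=
  ehom (fun i => Embed_y (Embed_x i)) (by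
    intro i
    rw [Embed_y_mul]
    have h : Embed_x i * hyp (Embed_x i) = 1 := by
      fin_cases i
      · show (1 : Surf) * hyp 1 = 1
        simp
      · show a1⁻¹ * hyp a1⁻¹ = 1
        simp [Embed_hyp_a1]
      · show b1 * a1⁻¹ * hyp (b1 * a1⁻¹) = 1
        simp [Embed_hyp_a1, Embed_hyp_b1, mul_assoc]
      · show u⁻¹ * hyp u⁻¹ = 1
        simp [Embed_hyp_u]
      · show a2⁻¹ * u⁻¹ * hyp (a2⁻¹ * u⁻¹) = 1
        simp [Embed_hyp_a2, Embed_hyp_u, mul_assoc]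
      · show b2 * a2⁻¹ * u⁻¹ * hyp (b2 * a2⁻¹ * u⁻¹) = 1
        simp [Embed_hyp_a2, Embed_hyp_b2, Embed_hyp_u, mul_assoc]
    rw [h, map_one]) (by
    rw [mul_assoc (Embed_y (Embed_x 0) * Embed_y (Embed_x 1) * Embed_y (Embed_x 2) *
      Embed_y (Embed_x 3)), mul_assoc (Embed_y (Embed_x 0) * Embed_y (Embed_x 1)),
      Embed_y_mul, Embed_y_mul, Embed_y_mul, ← map_mul, ← map_mul]
    have h : Embed_x 0 * hyp (Embed_x 1) * (Embed_x 2 * hyp (Embed_x 3)) *
        (Embed_x 4 * hyp (Embed_x 5)) = 1 := by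
      show (1 : Surf) * hyp a1⁻¹ * (b1 * a1⁻¹ * hyp u⁻¹) *
        (a2⁻¹ * u⁻¹ * hyp (b2 * a2⁻¹ * u⁻¹)) = 1
      simp only [map_mul, map_inv, Embed_hyp_a1, Embed_hyp_u, Embed_hyp_a2, Embed_hyp_b2]
      conv_lhs => unfold u
      group
    rw [h, map_one])

theorem Embed_T_j (γ : Surf) : Embed_T (j γ) = SemidirectProduct.inl γ := by
  have h : Embed_T.comp j = SemidirectProduct.inl := by
    apply Surf.hom_ext
    · show Embed_T (j a1) = _
      rw [j_a1, map_mul, Embed_T, ehom_s1, ehom_s2, Embed_y_mul]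
      congr 1
    · show Embed_T (j b1) = _
      rw [j_b1, map_mul, Embed_T, ehom_s3, ehom_s2, Embed_y_mul]
      congr 1
      show b1 * a1⁻¹ * hyp a1⁻¹ = b1
      simp [Embed_hyp_a1]
    · show Embed_T (j a2) = _
      rw [j_a2, map_mul, Embed_T, ehom_s4, ehom_s5, Embed_y_mul]
      congr 1
      show u⁻¹ * hyp (a2⁻¹ * u⁻¹) = a2
      simp [Embed_hyp_a2, Embed_hyp_u, mul_assoc]
    · show Embed_T (j b2) = _
      rw [j_b2, map_mul, Embed_T, ehom_s6, ehom_s5, Embed_y_mul]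
      congr 1
      show b2 * a2⁻¹ * u⁻¹ * hyp (a2⁻¹ * u⁻¹) = b2
      simp [Embed_hyp_a2, Embed_hyp_u, mul_assoc]
  exact DFunLike.congr_fun h γ

theorem j_injective : Function.Injective j := by
  intro x y h
  have h2 := congrArg Embed_T h
  rw [Embed_T_j, Embed_T_j] at h2
  exact SemidirectProduct.inl_injective h2

/-- the set of even and odd elements, as a subgroup -/
def Embed_S : Subgroup E where
  carrier := {g | (∃ γ, g = j γ) ∨ ∃ γ, g = j γ * s1}
  one_mem' := Or.inl ⟨1, by simp⟩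
  mul_mem' := by
    rintro _ _ (⟨γ, rfl⟩ | ⟨γ, rfl⟩) (⟨γ', rfl⟩ | ⟨γ', rfl⟩)
    · exact Or.inl ⟨γ * γ', by simp⟩
    · exact Or.inr ⟨γ * γ', by simp [mul_assoc]⟩
    · refine Or.inr ⟨γ * hyp γ', ?_⟩
      rw [map_mul, j_hyp]; simp [mul_assoc]
    · refine Or.inl ⟨γ * hyp γ', ?_⟩
      rw [map_mul, j_hyp]; simp [mul_assoc]
  inv_mem' := by
    rintro _ (⟨γ, rfl⟩ | ⟨γ, rfl⟩)
    · exact Or.inl ⟨γ⁻¹, by simp⟩
    · refine Or.inr ⟨hyp γ⁻¹, ?_⟩
      rw [j_hyp]; simp [mul_assoc]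

theorem even_or_odd (g : E) : (∃ γ, g = j γ) ∨ ∃ γ, g = j γ * s1 := by
  have key : (⊤ : Subgroup E) ≤ Embed_S := by
    rw [← PresentedGroup.closure_range_of, Subgroup.closure_le]
    have e2 : s2 ∈ Embed_S := Or.inr ⟨a1⁻¹, by simp [mul_assoc]⟩
    have e1 : s1 ∈ Embed_S := Or.inr ⟨1, by simp⟩
    have m1 : s1 * s2 ∈ Embed_S := Or.inl ⟨a1, by simp⟩
    have m3 : s3 * s2 ∈ Embed_S := Or.inl ⟨b1, by simp⟩
    have m4 : s4 * s5 ∈ Embed_S := Or.inl ⟨a2, by simp⟩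
    have m6 : s6 * s5 ∈ Embed_S := Or.inl ⟨b2, by simp⟩
    have m14 : s1 * s4 ∈ Embed_S := Or.inl ⟨u, Embed_j_u.symm⟩
    have e3 : s3 ∈ Embed_S := by
      have := Embed_S.mul_mem m3 e2
      simpa [mul_assoc] using this
    have e4 : s4 ∈ Embed_S := by
      have := Embed_S.mul_mem e1 m14
      simpa [mul_assoc] using this
    have e5 : s5 ∈ Embed_S := by
      have := Embed_S.mul_mem e4 m4
      simpa [mul_assoc] using this
    have e6 : s6 ∈ Embed_S := by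
      have := Embed_S.mul_mem m6 e5
      simpa [mul_assoc] using this
    rintro _ ⟨i, rfl⟩
    fin_cases i
    · exact e1
    · exact e2
    · exact e3
    · exact e4
    · exact e5
    · exact e6
  exact key (Subgroup.mem_top g)

/-- parity -/
def parity : E →* Multiplicative (ZMod 2) :=
  ehom (fun _ => Multiplicative.ofAdd 1) (fun _ => rfl) rfl

theorem Embed_parity_gen (i : Fin 6) : parity (gen i) = Multiplicative.ofAdd 1 := by
  simp [parity]

theorem Embed_two : (Multiplicative.ofAdd (1 : ZMod 2)) * Multiplicative.ofAdd 1 = 1 := rfl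

theorem Embed_ne : (Multiplicative.ofAdd (1 : ZMod 2)) ≠ 1 := by decide

theorem parity_j (γ : Surf) : parity (j γ) = 1 := by
  have h : parity.comp j = 1 := by
    apply Surf.hom_ext
    · show parity (j a1) = 1
      rw [j_a1, map_mul]
      exact (congrArg₂ _ (Embed_parity_gen 0) (Embed_parity_gen 1)).trans Embed_two
    · show parity (j b1) = 1
      rw [j_b1, map_mul]
      exact (congrArg₂ _ (Embed_parity_gen 2) (Embed_parity_gen 1)).trans Embed_two
    · show parity (j a2) = 1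
      rw [j_a2, map_mul]
      exact (congrArg₂ _ (Embed_parity_gen 3) (Embed_parity_gen 4)).trans Embed_two
    · show parity (j b2) = 1
      rw [j_b2, map_mul]
      exact (congrArg₂ _ (Embed_parity_gen 5) (Embed_parity_gen 4)).trans Embed_two
  exact DFunLike.congr_fun h γ

theorem not_even_and_odd (γ γ' : Surf) : j γ ≠ j γ' * s1 := by
  intro h
  have h2 := congrArg parity h
  rw [map_mul, parity_j, parity_j, one_mul] at h2
  have h3 : parity s1 = Multiplicative.ofAdd 1 := Embed_parity_gen 0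
  rw [h3] at h2
  exact Embed_ne h2.symm

theorem Embed_parity_HT (s : HT) : parity s.1 = Multiplicative.ofAdd 1 := by
  obtain ⟨_, ⟨i, x, rfl⟩⟩ := s
  show parity (x * gen i * x⁻¹) = _
  rw [map_mul, map_mul, map_inv, mul_comm, ← mul_assoc, inv_mul_cancel, one_mul, Embed_parity_gen]

theorem exists_mul (s t : HT) : ∃ γ, j γ = s.1 * t.1 := by
  rcases even_or_odd (s.1 * t.1) with ⟨γ, h⟩ | ⟨γ, h⟩
  · exact ⟨γ, h.symm⟩
  · exfalso
    have h2 := congrArg parity h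
    rw [map_mul, map_mul, parity_j, one_mul, Embed_parity_HT, Embed_parity_HT, Embed_two] at h2
    have h3 : parity s1 = Multiplicative.ofAdd 1 := Embed_parity_gen 0
    rw [h3] at h2
    exact Embed_ne h2.symm

/-- `φ` is a lift of `α` -/
def IsLift (α : MulAut Surf) (φ : AutE) : Prop := ∀ γ, j (α γ) = φ.1 (j γ)

theorem IsLift.one : IsLift 1 1 := fun _ => rfl

theorem IsLift.mul {α β : MulAut Surf} {φ ψ : AutE} (h : IsLift α φ) (h' : IsLift β ψ) :
    IsLift (α * β) (φ * ψ) := fun γ => by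
  show j (α (β γ)) = φ.1 (ψ.1 (j γ))
  rw [h, h']

theorem IsLift.inv {α : MulAut Surf} {φ : AutE} (h : IsLift α φ) : IsLift α⁻¹ φ⁻¹ := fun γ => by
  have h1 := h (α⁻¹ γ)
  rw [MulAut.apply_inv_self] at h1
  show j (α⁻¹ γ) = φ.1⁻¹ (j γ)
  rw [h1, MulAut.inv_apply_self]

theorem isLift_conj (x : Surf) : IsLift (MulAut.conj x) (inn (j x)) := fun γ => by
  show j (x * γ * x⁻¹) = j x * j γ * (j x)⁻¹
  simp

theorem Embed_isLift {α : MulAut Surf} {φ : AutE} (h1 : j (α a1) = φ.1 (j a1))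
    (h2 : j (α b1) = φ.1 (j b1)) (h3 : j (α a2) = φ.1 (j a2)) (h4 : j (α b2) = φ.1 (j b2)) :
    IsLift α φ := by
  have h : j.comp α.toMonoidHom = (φ.1 : MulAut E).toMonoidHom.comp j :=
    Surf.hom_ext h1 h2 h3 h4
  exact fun γ => DFunLike.congr_fun h γ

theorem Embed_rel4 : s3 * s4 = s2 * (s1 * (s6 * s5)) := by
  rw [← prod4]; simp [mul_assoc]

theorem Embed_rel4' (x : E) : s3 * (s4 * x) = s2 * (s1 * (s6 * (s5 * x))) := by
  rw [← mul_assoc, Embed_rel4]; simp only [mul_assoc]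

theorem isLift_twist1 : IsLift twist1 sa1 := by
  apply Embed_isLift
  · show j (twist1 a1) = sg1 (j a1)
    simp [twist1, mul_assoc]
  · show j (twist1 b1) = sg1 (j b1)
    simp [twist1, mul_assoc]
  · show j (twist1 a2) = sg1 (j a2)
    simp [twist1, mul_assoc]
  · show j (twist1 b2) = sg1 (j b2)
    simp [twist1, mul_assoc]
theorem isLift_twist2 : IsLift twist2 sa2 := by
  apply Embed_isLift
  · show j (twist2 a1) = sg2 (j a1)
    simp [twist2, mul_assoc]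
  · show j (twist2 b1) = sg2 (j b1)
    simp [twist2, mul_assoc]
  · show j (twist2 a2) = sg2 (j a2)
    simp [twist2, mul_assoc]
  · show j (twist2 b2) = sg2 (j b2)
    simp [twist2, mul_assoc]
theorem isLift_twist3 : IsLift twist3 sa3 := by
  apply Embed_isLift
  · show j (twist3 a1) = sg3 (j a1)
    simp [twist3, mul_assoc]
  · show j (twist3 b1) = sg3 (j b1)
    simp [twist3, mul_assoc, Embed_rel4']
  · show j (twist3 a2) = sg3 (j a2)
    have h := Embed_rel4' (s4 * s5)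
    rw [s4_cancel] at h
    simp [twist3, mul_assoc, h]
  · show j (twist3 b2) = sg3 (j b2)
    simp [twist3, mul_assoc]
theorem isLift_twist4 : IsLift twist4 sa4 := by
  apply Embed_isLift
  · show j (twist4 a1) = sg4 (j a1)
    simp [twist4, mul_assoc]
  · show j (twist4 b1) = sg4 (j b1)
    simp [twist4, mul_assoc]
  · show j (twist4 a2) = sg4 (j a2)
    simp [twist4, mul_assoc]
  · show j (twist4 b2) = sg4 (j b2)
    simp [twist4, mul_assoc]
theorem isLift_twist5 : IsLift twist5 sa5 := by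
  apply Embed_isLift
  · show j (twist5 a1) = sg5 (j a1)
    simp [twist5, mul_assoc]
  · show j (twist5 b1) = sg5 (j b1)
    simp [twist5, mul_assoc]
  · show j (twist5 a2) = sg5 (j a2)
    simp [twist5, mul_assoc]
  · show j (twist5 b2) = sg5 (j b2)
    simp [twist5, mul_assoc]

theorem isLift_delta : IsLift (deltaAut : MulAut Surf) dh := isLift_twist2.mul isLift_twist4
theorem isLift_delta' : IsLift (deltaAut' : MulAut Surf) dh' := isLift_twist1.mul isLift_twist3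

theorem exists_lift {α : MulAut Surf} (hα : α ∈ Mod) : ∃ φ, IsLift α φ := by
  induction hα using Subgroup.closure_induction with
  | mem x hx =>
    rcases hx with hx | ⟨g, rfl⟩
    · simp only [Set.mem_insert_iff, Set.mem_singleton_iff] at hx
      rcases hx with rfl | rfl | rfl | rfl | rfl
      · exact ⟨_, isLift_twist1⟩
      · exact ⟨_, isLift_twist2⟩
      · exact ⟨_, isLift_twist3⟩
      · exact ⟨_, isLift_twist4⟩
      · exact ⟨_, isLift_twist5⟩
    · exact ⟨_, isLift_conj g⟩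
  | one => exact ⟨1, IsLift.one⟩
  | mul x y _ _ hx hy =>
    obtain ⟨φ, hφ⟩ := hx
    obtain ⟨ψ, hψ⟩ := hy
    exact ⟨φ * ψ, hφ.mul hψ⟩
  | inv x _ hx =>
    obtain ⟨φ, hφ⟩ := hx
    exact ⟨φ⁻¹, hφ.inv⟩

/-- `(δ δ')⁵` is the inner automorphism of `s₆` -/
theorem dh_dh'_pow_five : (dh * dh') ^ 5 = inn s6 := by
  have e : (dh * dh') ^ 5 = v0 * v0 * (dh * dh') := by
    unfold v0
    simp only [pow_succ, pow_zero, one_mul, mul_assoc]
  have e1 : ∀ x, ((dh * dh') ^ 5).1 x = v0.1 (v0.1 (dh.1 (dh'.1 x))) := fun x => by rw [e]; rfl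
  have e2 : ∀ x, (inn s6).1 x = s6 * x * s6 := fun x => by
    show s6 * x * s6⁻¹ = _
    rw [s6_inv]
  have r3 := Embed_rel3
  have r4 := prod4
  -- the key relation
  have k1 : s6 * s5 * s6 * (s1 * s2 * s3 * s4 * (s3 * s2 * s1)) * (s6 * s5 * s6) = s6 * s4 * s6 := by
    rw [r4, r3]; simp [mul_assoc]
  have k2 : s6 * s5 * s6 * (s1 * s2 * s3 * s4 * (s3 * s4) * (s3 * s2 * s1)) * (s6 * s5 * s6) =
      s6 * s3 * s6 := by
    rw [r4, r3]; simp [mul_assoc]
  have b : v0.1 (s1 * s2 * s3 * s2 * s1) = s6 * s4 * s6 := by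
    rw [← k1]
    simp [mul_assoc]
  apply aut_ext
  · rw [e1, e2]
    have h : dh.1 (dh'.1 s1) = s1 * s2 * s3 * s2 * s1 := by simp [mul_assoc]
    rw [h, b]; simp [mul_assoc]
  · rw [e1, e2]; simp [mul_assoc]
  · rw [e1, e2]
    have h : v0.1 (dh.1 (dh'.1 s3)) = s1 * s2 * s3 * s2 * s3 * s2 * s1 := by simp [mul_assoc]
    rw [h, ← k2]
    simp [mul_assoc]
  · rw [e1, e2]
    have h : v0.1 (dh.1 (dh'.1 s4)) = s1 * s2 * s3 * s2 * s1 := by simp [mul_assoc]
    rw [h, b]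
  · rw [e1, e2]; simp [mul_assoc]
  · rw [e1, e2]; simp [mul_assoc]

end Pool.Agent.LR
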