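import Pool.Agent.LR.Values
import Pool.Agent.LR.Embed

/-!
# LR/Comm: an automorphism which fixes `K` up to scale commutes with the multitwist up to sign

`K` is a `Struct K k₁ (η k₁)`, `k₁ > 0`, `ψ ∈ AutE` and `K (ψ s) (ψ t)` is a `Struct _ k₁' (η k₁')`, `k₁' > 0`.

PROOFS.
* `comm_scale`. By `det` (for `K (ψ s) (ψ t)` and `c K`, `c = k₁' / k₁`, `Struct.scale`): `K (ψ s) (ψ t) = c K s t`. By
  `exists_min_value` (for the family of all pairs of half-turns with `K s t > 0`, nonempty because of `h1, h4`) there is a smallest positive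
  value `m = K s₀ t₀`. `K (ψ s₀) (ψ t₀) = c m ≥ m` and `K (ψ⁻¹ s₀) (ψ⁻¹ t₀) = c⁻¹ m ≥ m`, so `c = 1`.
In the following `K (ψ s) (ψ t) = K s t` (`inv`). For a half-turn `s` let `St s = {x | K s (x • s) = 0}`; then
`ψ (St s) = St (ψ • s)`, `St (g • s) = g (St s) g⁻¹`, and `St s = St t` if `K s t = 0`.
* `comm_vertex`: `∃ g, K (ψ • h1) (g • h1) = 0`. `ψ • h1` is some `g • hgen i`. If `i = 0` or `5` we are done. Otherwise
  `St (ψ • h1)` is `g (St h2) g⁻¹` or `g (St h4) g⁻¹`. It contains `ψ g₁`, `ψ g₂` (as `g₁, g₂ ∈ PX ⊆ St h1`), and squares of elements of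
  `St h2` are powers of `g₂` (`stab_2`; `(g₂^k s₂)² = 1` by `s2_conj_g2`), so they commute; so `ψ g₁²` and `ψ g₂²` commute, and `g₁²`,
  `g₂²` commute, contradiction to `nc_sq`. The same for `h4`.
* `comm_norm` (`K (ψ • h1) h1 = 0`):
  (1) `ψ z ∈ PX ↔ z ∈ PX`, by `stab_v` (`St h1 = PX`).
  (2) `K h1 (ψ • h2) = K (ψ • h1) (ψ • h2) = η k₁`, so `K (ψ • h2) (z₂ • h2) = 0` for some `z₂ ∈ PX` (`class2`); in the same way
      `K (ψ • h4) (z₁ • h4) = 0` (`class1`).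
  (3) `ψ g₂ = z₂ g₂^{ε₂} z₂⁻¹`, `ε₂ = ± 1`: `ψ g₂ ∈ St (ψ • h2) = z₂ (St h2) z₂⁻¹` and `ψ g₂ ∈ PX`; so `z₂⁻¹ ψ(g₂) z₂ ∈ St h2 ∩ PX` is
      `g₂^k` by `stab_2` (`g₂^k s₂ ∈ PX` would give `s₂ ∈ PX`, but `K h1 (s₂ • h1) = 2 K h2 h1 ≠ 0`). In the same way
      `ψ⁻¹ (z₂ g₂ z₂⁻¹) ∈ St h2 ∩ PX` is some `g₂^l`. So `g₂^(k l) = g₂`, `k l = 1` (`g2_inf`).
      Similarly `ψ g₁ = z₁ g₁^{ε₁} z₁⁻¹`.
  (4) `ε₁ = ε₂`: apply `qhom` to `ψ (g₂) ψ (g₁) = ψ (s₁) ψ (s₆)` (`g₂ g₁ = s₁ s₆` by `s6_eq`). The values of `qhom` on `PX` are rotations `r i`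
      (`qhom_PX`), they commute; `ψ s₁`, `ψ s₆` are involutions in `PX`, and `(r i)² = 1` implies `i = 0`. So
      `r ε₂ * r (-ε₁) = 1`.
  (5) `ψ * dh * ψ⁻¹ = dh ^ ε`. Both sides fix `PX` pointwise (`dh_zpow_PX`, (1)). Let `t' = ψ⁻¹ (z₂ s₂ z₂⁻¹)`. Then `t' ∈ St h2` (since
      `z₂ s₂ z₂⁻¹ ∈ St (z₂ • h2) = St (ψ • h2)`) and `t' ∉ PX` (otherwise `z₂ s₂ z₂⁻¹ ∈ PX`, `s₂ ∈ PX`). So `t' = g₂^k s₂`, and
      `dh t' = g₂ t'` (`dh_zpow_s2`, `dh g₂ = g₂`); hence `ψ dh ψ⁻¹ (z₂ s₂ z₂⁻¹) = ψ (g₂) z₂ s₂ z₂⁻¹ = z₂ g₂^ε s₂ z₂⁻¹`. As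
      `ψ dh ψ⁻¹` fixes `z₂`, `ψ dh ψ⁻¹ (s₂) = g₂^ε s₂ = dh^ε (s₂)`. The same for `s₄`. As `E` is generated by `PX`, `s₂`, `s₄`
      (`closure_PX_s2_s4`) the two automorphisms are equal.
* `comm`. `comm_vertex` gives `g`; `ψ' = inn g⁻¹ * ψ` satisfies the hypotheses of `comm_norm`: `ψ' dh ψ'⁻¹ = dh^ε`. So
  `ψ dh ψ⁻¹ = inn g * dh^ε * inn g⁻¹ = inn (g * dh^ε (g⁻¹)) * dh^ε`, and `parity (dh^ε (x)) = parity x` (`dh` preserves the parity of
  the generators).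
-/

namespace Pool.Agent.LR

open Real

variable {K : HT → HT → ℝ} {k1 : ℝ}

private theorem cm_hk2 (hk1 : 0 < k1) : 0 < goldenRatio * k1 := mul_pos goldenRatio_pos hk1

private theorem cm_congr {D : HT → HT → ℝ} (h : Good D) {s t : HT} (hst : D s t = 0) (x : E) :
    D s (x • s) = D t (x • t) := by
  rw [h.congr_left hst (x • s)]
  exact h.congr_right (by rw [h.inv, hst]) t

private theorem cm_conj {D : HT → HT → ℝ} (h : Good D) (g x : E) (s : HT) :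
    D (g • s) (x • g • s) = D s ((g⁻¹ * x * g) • s) := by
  rw [← h.inv g⁻¹, inv_smul_smul, mul_smul, mul_smul]

private theorem cm_psi {D : HT → HT → ℝ} {ψ : AutE} (hψ : ∀ s t, D (ψ • s) (ψ • t) = D s t)
    (x : E) (s : HT) : D (ψ • s) (ψ.1 x • ψ • s) = D s (x • s) := by
  rw [← aut_smul_smul, hψ]

theorem comm_scale (h : Struct K k1 (goldenRatio * k1)) (hk1 : 0 < k1) (ψ : AutE) {k1' : ℝ}
    (hk1' : 0 < k1') (h' : Struct (fun s t => K (ψ • s) (ψ • t)) k1' (goldenRatio * k1')) (s t : HT) :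
    K (ψ • s) (ψ • t) = K s t := by
  obtain ⟨c, hc⟩ : ∃ c : ℝ, c = k1' / k1 := ⟨_, rfl⟩
  have hcpos : 0 < c := by rw [hc]; exact div_pos hk1' hk1
  have e1 : c * k1 = k1' := by rw [hc]; field_simp
  have h2 := h.scale hcpos.le
  have e2 : c * (goldenRatio * k1) = goldenRatio * k1' := by rw [← e1]; ring
  rw [e2, e1] at h2
  have key : ∀ s t, K (ψ • s) (ψ • t) = c * K s t := fun s t =>
    det h' h2 hk1' (cm_hk2 hk1') s t
  have hp0 : 0 < K h1 h4 := by rw [h.hk1]; exact hk1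
  obtain ⟨⟨p, hp⟩, hmin⟩ := exists_min_value h hk1 (cm_hk2 hk1)
    (ι := {p : HT × HT // 0 < K p.1 p.2}) (fun p => p.1.1) (fun p => p.1.2) (fun p => p.2)
    ⟨(h1, h4), hp0⟩
  simp only at hmin
  have a1 : K p.1 p.2 ≤ c * K p.1 p.2 := by
    have hh : 0 < K (ψ • p.1) (ψ • p.2) := by rw [key]; exact mul_pos hcpos hp
    have := hmin ⟨(ψ • p.1, ψ • p.2), hh⟩
    simp only at this
    rwa [key] at this
  have a2 : c * K (ψ⁻¹ • p.1) (ψ⁻¹ • p.2) = K p.1 p.2 := by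
    rw [← key, smul_inv_smul, smul_inv_smul]
  have a3 : K p.1 p.2 ≤ K (ψ⁻¹ • p.1) (ψ⁻¹ • p.2) := by
    have hh : 0 < K (ψ⁻¹ • p.1) (ψ⁻¹ • p.2) := by
      by_contra hneg
      push Not at hneg
      have := mul_nonpos_of_nonneg_of_nonpos hcpos.le hneg
      rw [a2] at this
      linarith
    exact hmin ⟨(ψ⁻¹ • p.1, ψ⁻¹ • p.2), hh⟩
  have c1 : 1 ≤ c := by
    by_contra hneg
    push Not at hneg
    have := mul_lt_mul_of_pos_right hneg hp
    linarith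
  have c2 : c ≤ 1 := by
    by_contra hneg
    push Not at hneg
    have h5 : 0 < K (ψ⁻¹ • p.1) (ψ⁻¹ • p.2) := lt_of_lt_of_le hp a3
    have := mul_lt_mul_of_pos_right hneg h5
    linarith
  have c3 : c = 1 := le_antisymm c2 c1
  rw [key, c3, one_mul]

private theorem cm_commute (φ : MulAut E) {a b : E} (h : Commute (φ a) (φ b)) : Commute a b := by
  show a * b = b * a
  apply φ.injective
  rw [map_mul, map_mul]
  exact h.eq

/-- a commutation argument for the stabiliser of a centre -/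
private theorem cm_sq {D : HT → HT → ℝ} (hD : Good D) (ψ : AutE) (hψ : ∀ s t, D (ψ • s) (ψ • t) = D s t)
    (hPX : ∀ z ∈ PX, D h1 (z • h1) = 0) {m : HT} {g s : E}
    (hst : ∀ y : E, D m (y • m) = 0 → ∃ k : ℤ, y = g ^ k ∨ y = g ^ k * s)
    (hs : s * s = 1) (hc : ∀ k : ℤ, s * g ^ k * s = g ^ (-k)) {x : E} (hx : D (ψ • h1) (x • m) = 0) :
    False := by
  have key : ∀ z ∈ PX, ∃ k : ℤ, (MulAut.conj x⁻¹ * ψ.1) (z ^ 2) = g ^ k := by
    intro z hz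
    have e1 : (MulAut.conj x⁻¹ * ψ.1) z = x⁻¹ * ψ.1 z * x := by
      show x⁻¹ * ψ.1 z * x⁻¹⁻¹ = _
      rw [inv_inv]
    have h2 : D m ((x⁻¹ * ψ.1 z * x) • m) = 0 := by
      rw [← cm_conj hD, ← cm_congr hD hx, cm_psi hψ]
      exact hPX z hz
    rw [map_pow, e1]
    obtain ⟨k, hk | hk⟩ := hst _ h2
    · refine ⟨k * 2, ?_⟩
      rw [hk, zpow_mul, zpow_two, pow_two]
    · refine ⟨0, ?_⟩
      rw [hk, pow_two]
      have := hc k
      calc g ^ k * s * (g ^ k * s) = g ^ k * (s * g ^ k * s) := by simp only [mul_assoc]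
        _ = g ^ (0 : ℤ) := by rw [this, ← zpow_add, add_neg_cancel]
  obtain ⟨a, ha⟩ := key g1 g1_mem_PX
  obtain ⟨b, hb⟩ := key g2 g2_mem_PX
  have h3 : Commute ((MulAut.conj x⁻¹ * ψ.1) (g1 ^ 2)) ((MulAut.conj x⁻¹ * ψ.1) (g2 ^ 2)) := by
    rw [ha, hb]
    exact (Commute.refl g).zpow_zpow a b
  exact nc_sq (cm_commute _ h3)

theorem comm_vertex (h : Struct K k1 (goldenRatio * k1)) (hk1 : 0 < k1) (ψ : AutE)
    (hψ : ∀ s t, K (ψ • s) (ψ • t) = K s t) : ∃ g : E, K (ψ • h1) (g • h1) = 0 := by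
  have hk2 := cm_hk2 hk1
  obtain ⟨i, x, hx⟩ := (ψ • h1).2
  have e0 : ψ • h1 = x • (⟨gen i, isHT_gen i⟩ : HT) := Subtype.ext hx
  have c2 : K (ψ • h1) (x • h2) = 0 → False := fun hh =>
    cm_sq h.good ψ hψ h.hPX (fun y hy => stab_2 h hk1 hk2 hy) s2_mul_self s2_conj_g2 hh
  have c4 : K (ψ • h1) (x • h4) = 0 → False := fun hh =>
    cm_sq h.good ψ hψ h.hPX (fun y hy => stab_1 h hk1 hk2 hy) s4_mul_self s4_conj_g1 hh
  refine ⟨x, ?_⟩
  fin_cases i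
  · have e1 : ψ • h1 = x • h1 := e0
    rw [e1, h.good.self]
  · have e1 : ψ • h1 = x • h2 := e0
    exact (c2 (by rw [e1, h.good.self])).elim
  · have e1 : ψ • h1 = x • h3 := e0
    exact (c2 (by rw [e1, h.good.inv, h.good.symm, h.h23])).elim
  · have e1 : ψ • h1 = x • h4 := e0
    exact (c4 (by rw [e1, h.good.self])).elim
  · have e1 : ψ • h1 = x • h5 := e0
    exact (c4 (by rw [e1, h.good.inv, h.good.symm, h.h45])).elim
  · have e1 : ψ • h1 = x • h6 := e0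
    rw [e1, h.good.inv, h.good.symm, h.h16]

private theorem cm_dh_PX {z : E} (hz : z ∈ PX) : dh.1 z = z := by
  have := dh_zpow_PX 1 hz
  rwa [zpow_one] at this

/-- the common argument for `g₂`, `s₂` and for `g₁`, `s₄` -/
private theorem cm_one {D : HT → HT → ℝ} (hD : Good D) (ψ : AutE)
    (hψ : ∀ s t, D (ψ • s) (ψ • t) = D s t) (hP : ∀ z, ψ.1 z ∈ PX ↔ z ∈ PX) {m : HT} {g s : E}
    (hgP : g ∈ PX) (hst : ∀ y : E, D m (y • m) = 0 → ∃ k : ℤ, y = g ^ k ∨ y = g ^ k * s)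
    (hgm : D m (g • m) = 0) (hsm : D m (s • m) = 0) (hsP : s ∉ PX) (hinf : ∀ n : ℤ, g ^ n = 1 → n = 0)
    (hdh : dh.1 s = g * s) {z : E} (hz : z ∈ PX) (hzm : D (ψ • m) (z • m) = 0) :
    ∃ ε : ℤ, (ε = 1 ∨ ε = -1) ∧ ψ.1 g = z * g ^ ε * z⁻¹ ∧ (ψ * dh * ψ⁻¹).1 s = g ^ ε * s := by
  have lemA : ∀ y ∈ PX, D m (y • m) = 0 → ∃ k : ℤ, y = g ^ k := by
    intro y hy hym
    obtain ⟨k, hk | hk⟩ := hst y hym
    · exact ⟨k, hk⟩
    · exfalso
      apply hsP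
      have : s = (g ^ k)⁻¹ * y := by rw [hk]; group
      rw [this]
      exact mul_mem (inv_mem (Subgroup.zpow_mem _ hgP k)) hy
  have tr : ∀ y : E, D m (y • m) = D m ((z⁻¹ * ψ.1 y * z) • m) := by
    intro y
    rw [← cm_conj hD, ← cm_congr hD hzm, cm_psi hψ]
  -- the image of `g`
  obtain ⟨k, hk⟩ : ∃ k : ℤ, z⁻¹ * ψ.1 g * z = g ^ k := by
    apply lemA
    · exact mul_mem (mul_mem (inv_mem hz) ((hP g).2 hgP)) hz
    · rw [← tr, hgm]
  have hψg : ψ.1 g = z * g ^ k * z⁻¹ := by rw [← hk]; group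
  have e2 : ψ.1 (ψ.1⁻¹ (z * g * z⁻¹)) = z * g * z⁻¹ := MulAut.apply_inv_self _ _ _
  obtain ⟨l, hl⟩ : ∃ l : ℤ, ψ.1⁻¹ (z * g * z⁻¹) = g ^ l := by
    apply lemA
    · rw [← hP, e2]
      exact mul_mem (mul_mem hz hgP) (inv_mem hz)
    · rw [tr, e2]
      have : z⁻¹ * (z * g * z⁻¹) * z = g := by group
      rw [this, hgm]
  rw [hl, map_zpow, hψg, conj_zpow] at e2
  have e3 : (g ^ k) ^ l = g := by
    have := congrArg (fun y => z⁻¹ * y * z) e2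
    calc (g ^ k) ^ l = z⁻¹ * (z * (g ^ k) ^ l * z⁻¹) * z := by group
      _ = z⁻¹ * (z * g * z⁻¹) * z := this
      _ = g := by group
  have e4 : k * l - 1 = 0 := by
    apply hinf
    rw [zpow_sub, zpow_mul, e3, zpow_one, mul_inv_cancel]
  have hkl : k * l = 1 := by omega
  have hk1 : k = 1 ∨ k = -1 := Int.eq_one_or_neg_one_of_mul_eq_one hkl
  refine ⟨k, hk1, hψg, ?_⟩
  -- the conjugate of `dh`
  have e5 : ψ.1 (ψ.1⁻¹ (z * s * z⁻¹)) = z * s * z⁻¹ := MulAut.apply_inv_self _ _ _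
  obtain ⟨n, hn⟩ : ∃ n : ℤ, ψ.1⁻¹ (z * s * z⁻¹) = g ^ n * s := by
    have h6 : D m (ψ.1⁻¹ (z * s * z⁻¹) • m) = 0 := by
      rw [tr, e5]
      have : z⁻¹ * (z * s * z⁻¹) * z = s := by group
      rw [this, hsm]
    obtain ⟨n, hn | hn⟩ := hst _ h6
    · exfalso
      apply hsP
      have h7 : ψ.1 (ψ.1⁻¹ (z * s * z⁻¹)) ∈ PX := by
        rw [hP, hn]; exact Subgroup.zpow_mem _ hgP n
      rw [e5] at h7
      have : s = z⁻¹ * (z * s * z⁻¹) * z := by group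
      rw [this]
      exact mul_mem (mul_mem (inv_mem hz) h7) hz
    · exact ⟨n, hn⟩
  have e6 : dh.1 (ψ.1⁻¹ (z * s * z⁻¹)) = g * ψ.1⁻¹ (z * s * z⁻¹) := by
    rw [hn, map_mul, cm_dh_PX (Subgroup.zpow_mem _ hgP n), hdh, ← mul_assoc, ← mul_assoc,
      (Commute.refl g).zpow_left n |>.eq]
  have e7 : (ψ * dh * ψ⁻¹).1 (z * s * z⁻¹) = z * (g ^ k * s) * z⁻¹ := by
    show ψ.1 (dh.1 (ψ.1⁻¹ (z * s * z⁻¹))) = _
    rw [e6, map_mul, e5, hψg]; group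
  have e8 : (ψ * dh * ψ⁻¹).1 z = z := by
    have h9 : ψ.1⁻¹ z ∈ PX := by
      rw [← hP, MulAut.apply_inv_self]; exact hz
    show ψ.1 (dh.1 (ψ.1⁻¹ z)) = z
    rw [cm_dh_PX h9, MulAut.apply_inv_self]
  rw [map_mul, map_mul, map_inv, e8] at e7
  have := congrArg (fun y => z⁻¹ * y * z) e7
  calc (ψ * dh * ψ⁻¹).1 s = z⁻¹ * (z * (ψ * dh * ψ⁻¹).1 s * z⁻¹) * z := by group
    _ = z⁻¹ * (z * (g ^ k * s) * z⁻¹) * z := this
    _ = g ^ k * s := by group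

/-- values of `qhom` on conjugates -/
private theorem cm_q_conj {z y : E} (hz : z ∈ PX) (hy : y ∈ PX) : qhom (z * y * z⁻¹) = qhom y := by
  obtain ⟨i, hi⟩ := qhom_PX hz
  obtain ⟨j, hj⟩ := qhom_PX hy
  rw [map_mul, map_mul, map_inv, hi, hj, mul_inv_eq_iff_eq_mul, DihedralGroup.r_mul_r,
    DihedralGroup.r_mul_r, add_comm]

private theorem cm_q_inv {y : E} (hy : y ∈ PX) (h : y * y = 1) : qhom y = 1 := by
  obtain ⟨i, hi⟩ := qhom_PX hy
  have h2 := congrArg qhom h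
  rw [map_mul, map_one, hi, DihedralGroup.r_mul_r, DihedralGroup.one_def, DihedralGroup.r.injEq] at h2
  have h4 : ∀ a : ℤ, a + a = 0 → a = 0 := by intro a; omega
  have h3 : i = 0 := h4 i h2
  rw [hi, h3, DihedralGroup.one_def]

theorem comm_norm (h : Struct K k1 (goldenRatio * k1)) (hk1 : 0 < k1) (ψ : AutE)
    (hψ : ∀ s t, K (ψ • s) (ψ • t) = K s t) (h0 : K (ψ • h1) h1 = 0) :
    ∃ ε : ℤ, (ε = 1 ∨ ε = -1) ∧ ψ * dh * ψ⁻¹ = dh ^ ε := by
  have hk2 := cm_hk2 hk1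
  have hP : ∀ z, ψ.1 z ∈ PX ↔ z ∈ PX := by
    intro z
    constructor
    · intro hz
      apply stab_v h hk1 hk2
      rw [← cm_psi hψ, cm_congr h.good h0]
      exact h.hPX _ hz
    · intro hz
      apply stab_v h hk1 hk2
      rw [← cm_congr h.good h0, cm_psi hψ]
      exact h.hPX _ hz
  have hs2 : s2 ∉ PX := by
    intro hs
    have h3 := h.hPX _ hs
    have h4 : K h1 (h2.1 • h1) = 2 * K h2 h1 := h.good.stab_half h1 h2
    have h5 : K h1 (h2.1 • h1) = 0 := h3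
    rw [h5, h.good.symm, h.hk2] at h4
    linarith
  have hs4 : s4 ∉ PX := by
    intro hs
    have h3 := h.hPX _ hs
    have h4' : K h1 (h4.1 • h1) = 2 * K h4 h1 := h.good.stab_half h1 h4
    have h5 : K h1 (h4.1 • h1) = 0 := h3
    rw [h5, h.good.symm, h.hk1] at h4'
    linarith
  obtain ⟨z2, hz2, hz2'⟩ := class2 h hk1 (s := ψ • h2) (by
    rw [← h.good.congr_left h0, hψ, h.hk2])
  obtain ⟨z1, hz1, hz1'⟩ := class1 h hk1 (s := ψ • h4) (by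
    rw [← h.good.congr_left h0, hψ, h.hk1])
  have hs2m : s2 • h2 = h2 := Subtype.ext (by
    rw [smul_val]
    show s2 * s2 * s2⁻¹ = s2
    simp)
  have hs4m : s4 • h4 = h4 := Subtype.ext (by
    rw [smul_val]
    show s4 * s4 * s4⁻¹ = s4
    simp)
  obtain ⟨ε2, hε2, hg2, hd2⟩ := cm_one h.good ψ hψ hP g2_mem_PX (fun y hy => stab_2 h hk1 hk2 hy)
    (h.same2 (Subgroup.mem_zpowers g2)) (by rw [hs2m, h.good.self]) hs2 g2_inf
    (by have := dh_zpow_s2 1; simpa using this) hz2 hz2'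
  obtain ⟨ε1, hε1, hg1, hd1⟩ := cm_one h.good ψ hψ hP g1_mem_PX (fun y hy => stab_1 h hk1 hk2 hy)
    (h.same1 (Subgroup.mem_zpowers g1)) (by rw [hs4m, h.good.self]) hs4 g1_inf
    (by have := dh_zpow_s4 1; simpa using this) hz1 hz1'
  have hεε : ε1 = ε2 := by
    have e1 : g2 * g1 = s1 * s6 := by
      rw [s6_eq]
      simp only [mul_assoc, s1_cancel]
    have e2 := congrArg (fun y => qhom (ψ.1 y)) e1
    simp only [map_mul] at e2
    have e3 : qhom (ψ.1 s1) = 1 := cm_q_inv ((hP _).2 s1_mem_PX) (by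
      rw [← map_mul, s1_mul_self, map_one])
    have e4 : qhom (ψ.1 s6) = 1 := cm_q_inv ((hP _).2 s6_mem_PX) (by
      rw [← map_mul, s6_mul_self, map_one])
    rw [e3, e4, hg2, hg1, cm_q_conj hz2 (Subgroup.zpow_mem _ g2_mem_PX _),
      cm_q_conj hz1 (Subgroup.zpow_mem _ g1_mem_PX _), qhom_g2, qhom_g1, DihedralGroup.r_mul_r,
      one_mul, DihedralGroup.one_def, DihedralGroup.r.injEq] at e2
    have h4 : ∀ a b : ℤ, b + (-a) = 0 → a = b := by intro a b; omega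
    exact h4 ε1 ε2 e2
  subst hεε
  refine ⟨ε1, hε1, ?_⟩
  have key : ∀ x : E, (ψ * dh * ψ⁻¹).1 x = (dh ^ ε1).1 x := by
    have h9 : ((ψ * dh * ψ⁻¹).1 : E →* E).eqLocus ((dh ^ ε1).1 : E →* E) = ⊤ := by
      rw [eq_top_iff, ← closure_PX_s2_s4, Subgroup.closure_le]
      rintro x (hx | hx)
      · show (ψ * dh * ψ⁻¹).1 x = (dh ^ ε1).1 x
        rw [dh_zpow_PX ε1 hx]
        have h10 : ψ.1⁻¹ x ∈ PX := by
          rw [← hP, MulAut.apply_inv_self]; exact hx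
        show ψ.1 (dh.1 (ψ.1⁻¹ x)) = x
        rw [cm_dh_PX h10, MulAut.apply_inv_self]
      · rcases hx with rfl | hx
        · show (ψ * dh * ψ⁻¹).1 s2 = (dh ^ ε1).1 s2
          rw [hd2, dh_zpow_s2]
        · rw [Set.mem_singleton_iff] at hx
          subst hx
          show (ψ * dh * ψ⁻¹).1 s4 = (dh ^ ε1).1 s4
          rw [hd1, dh_zpow_s4]
    intro x
    have : x ∈ ((ψ * dh * ψ⁻¹).1 : E →* E).eqLocus ((dh ^ ε1).1 : E →* E) := by rw [h9]; trivial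
    exact this
  exact Subtype.ext (MulEquiv.ext key)

private theorem cm_parity_dh (y : E) : parity (dh.1 y) = parity y := by
  have h2 : parity.comp (dh.1 : E →* E) = parity := by
    apply ehom_ext
    · show parity (dh.1 s1) = _
      simp
    · show parity (dh.1 s2) = _
      rw [dh_s2, map_mul, map_mul]
      simp only [parity, ehom_s2, ehom_s3]
      rfl
    · show parity (dh.1 s3) = _
      rw [dh_s3]
      simp only [parity, ehom_s2, ehom_s3]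
    · show parity (dh.1 s4) = _
      rw [dh_s4, map_mul, map_mul]
      simp only [parity, ehom_s4, ehom_s5]
      rfl
    · show parity (dh.1 s5) = _
      rw [dh_s5]
      simp only [parity, ehom_s4, ehom_s5]
    · show parity (dh.1 s6) = _
      simp
  exact DFunLike.congr_fun h2 y

theorem comm (h : Struct K k1 (goldenRatio * k1)) (hk1 : 0 < k1) (ψ : AutE) {k1' : ℝ}
    (hk1' : 0 < k1') (h' : Struct (fun s t => K (ψ • s) (ψ • t)) k1' (goldenRatio * k1')) :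
    ∃ (ε : ℤ) (x : E), (ε = 1 ∨ ε = -1) ∧ parity x = 1 ∧ ψ * dh * ψ⁻¹ = inn x * dh ^ ε := by
  have hψ := comm_scale h hk1 ψ hk1' h'
  obtain ⟨g, hg⟩ := comm_vertex h hk1 ψ hψ
  obtain ⟨ε, hε, hc⟩ := comm_norm h hk1 (inn g⁻¹ * ψ) (by
    intro s t
    rw [mul_smul, mul_smul, inn_smul, inn_smul, h.good.inv, hψ]) (by
    rw [mul_smul, inn_smul, ← h.good.inv g, smul_inv_smul]
    exact hg)
  have inn_mul : ∀ a b : E, inn (a * b) = inn a * inn b := fun a b =>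
    Subtype.ext (by show MulAut.conj (a * b) = _; rw [map_mul]; rfl)
  have inn_one : inn 1 = 1 := Subtype.ext (by show MulAut.conj (1 : E) = 1; rw [map_one])
  have inn_inv : inn g⁻¹ = (inn g)⁻¹ := by
    rw [eq_inv_iff_mul_eq_one, ← inn_mul, inv_mul_cancel, inn_one]
  have conj_inn : ∀ (φ : AutE) (a : E), φ * inn a * φ⁻¹ = inn (φ.1 a) := by
    intro φ a
    apply Subtype.ext
    apply MulEquiv.ext
    intro y
    show φ.1 (a * (φ.1⁻¹ y) * a⁻¹) = φ.1 a * y * (φ.1 a)⁻¹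
    rw [map_mul, map_mul, map_inv, MulAut.apply_inv_self]
  refine ⟨ε, g * (dh ^ ε).1 g⁻¹, hε, ?_, ?_⟩
  · have hp : ∀ y : E, parity ((dh ^ ε).1 y) = parity y := by
      intro y
      rcases hε with rfl | rfl
      · rw [zpow_one]; exact cm_parity_dh y
      · rw [zpow_neg_one]
        have h3 := cm_parity_dh (dh.1⁻¹ y)
        rw [MulAut.apply_inv_self] at h3
        exact h3.symm
    rw [map_mul, hp, map_inv, mul_inv_cancel]
  · rw [inn_mul, ← conj_inn (dh ^ ε) g⁻¹, inn_inv]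
    rw [inn_inv, mul_inv_rev, inv_inv] at hc
    have : ψ * dh * ψ⁻¹ = inn g * ((inn g)⁻¹ * ψ * dh * (ψ⁻¹ * inn g)) * (inn g)⁻¹ := by group
    rw [this, hc]
    group

end Pool.Agent.LR
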