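import Pool.Agent.LR.ZHyp

/-!
# LR/RT: the real-tree lemma

`η = goldenRatio`, `η² = η + 1`, `L2 = η L1`, so `η L2 = L1 + L2`.

PROOF of `rt`. By `ZH.foot`: `D P (x k) = d + L2 |k - τ|`, `d ≥ 0`. If `d = 0` take `k = round τ`.
Suppose `d > 0`; we derive a contradiction. Put `u k = D (x (k+1)) (y k) = η d + (L1 + L2) |k - τ|` (by `V1`).

(1) `rt_feet`. Foot lemma for `y k` on the line `x`: `D (y k) (x j) = e k + L2 |j - t k|`.
  - `τ ≤ k` ⟹ `t k ≤ k + 1`: `u (k+1) = u k + L1 + L2` and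
    `u (k+1) = D (x (k+2)) (y (k+1)) ≤ D (x (k+2)) (y k) + L1`, so
    `|k + 2 - t k| ≥ |k + 1 - t k| + 1`, hence `k + 1 - t k ≥ 0`.
  - `k ≤ τ` ⟹ `t k ≥ k + 1`: `u (k-1) = u k + L1 + L2 ≤ D (x k) (y k) + L1`, so
    `|k - t k| ≥ |k + 1 - t k| + 1`, hence `k + 1 - t k ≤ 0`.
  - `k' ≤ τ ≤ k` ⟹ `t k = t k'`: otherwise by `two_point` `L1 (k - k') = e k + e k' + L2 |t k - t k'|`, while
    `u k + u k' = 2 η d + (L1 + L2) (k - k')` and
    `u k + u k' = e k + L2 (k + 1 - t k) + e k' + L2 (t k' - k' - 1) ≤ (L1 + L2) (k - k')`. Contradiction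
    with `d > 0`.
  - so all `t k` are equal (compare with `⌊τ⌋` and `⌈τ⌉`): `τ₂`.
  - foot lemma for `x 0` on the line `y`: `D (x 0) (y k) = e' + L1 |k - τ₁|`; put `B = e' - L2 |τ₂|`:
    `D (y k) (x j) = B + L1 |k - τ₁| + L2 |j - τ₂|` for all `k`, `j`.
(2) `rt_weights`. `B + L1 |k - τ₁| + L2 |k + 1 - τ₂| = η d + (L1 + L2) |k - τ|` for all integers `k`; large
  positive and large negative `k` give `B = η d` and `(L1 + L2) τ = L1 τ₁ + L2 (τ₂ - 1)`.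
(3) Case `τ = τ₂`: then `τ₁ = τ + η`. Take `k = ⌈τ⌉`, `s = k - τ ∈ [0, 1)`:
  `L1 (η - s) + L2 (s + 1) = (L1 + L2) s` gives `s = η > 1`, contradiction.
  Case `τ + 2 = τ₂`: then `τ₁ = τ - η`. Take `k = ⌊τ⌋`, `s = k - τ ∈ (-1, 0]`:
  `L1 (s + η) + L2 (1 - s) = -(L1 + L2) s` gives `s = -η < -1`, contradiction.
(4) `rt_half`. Case `τ ≠ τ₂`, `τ + 2 ≠ τ₂`. Notation `[Q]_x = (foot, height)` on the line `x`, etc.
  - `[a⁻¹ P]_x = (τ + 2, d)`, because `D (a⁻¹ P) (x k) = D P (a x k) = D P (x (k-2))`.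
  - `[P]_y = (τ₁, d')`, `d' = d + B + L2 |τ - τ₂|` (`two_point` on the line `x`), `[b P]_y = (τ₁ - 2, d')`,
    `[x j]_y = (τ₁, B + L2 |j - τ₂|)`, so `[b P]_x = (τ₂, d' + B + 2 L1)` (`two_point` on the line `y`),
    `[a b P]_x = (τ₂ - 2, d' + B + 2 L1)`.
  - `[a⁻¹ P]_y = (τ₁, d'')`, `d'' = d + B + L2 |τ + 2 - τ₂|`, `[b⁻¹ a⁻¹ P]_y = (τ₁ + 2, d'')`,
    `[b⁻¹ a⁻¹ P]_x = (τ₂, d'' + B + 2 L1)`.
  - `D P (a b P) = D (a⁻¹ P) (b P) = d + d' + B + 2 L1 + L2 |τ + 2 - τ₂|`,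
    `D ((a b)⁻¹ P) (a b P) = d'' + d' + 2 B + 4 L1 + 2 L2`.
  - `hP` gives `2 L2 = 2 d + L2 (|τ + 2 - τ₂| + |τ - τ₂|) ≥ 2 d + 2 L2`, so `d ≤ 0`.
-/

namespace Pool.Agent.LR

open Real

/-- step (1) -/
theorem rt_feet {X : Type*} {D : X → X → ℝ} (h : ZH D) {x y : ℤ → X} {L1 : ℝ} (hL1 : 0 < L1)
    (hx : ∀ i j : ℤ, D (x i) (x j) = goldenRatio * L1 * |(i : ℝ) - j|)
    (hy : ∀ i j : ℤ, D (y i) (y j) = L1 * |(i : ℝ) - j|) {P : X}
    (V1 : ∀ k : ℤ, D (x (k + 1)) (y k) = goldenRatio * D P (x k)) {d τ : ℝ} (hd : 0 < d)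
    (hPx : ∀ k : ℤ, D P (x k) = d + goldenRatio * L1 * |(k : ℝ) - τ|) :
    ∃ B τ1 τ2 : ℝ, ∀ k j : ℤ,
      D (y k) (x j) = B + L1 * |(k : ℝ) - τ1| + goldenRatio * L1 * |(j : ℝ) - τ2| := by
  have hη : goldenRatio ^ 2 = goldenRatio + 1 := goldenRatio_sq
  have hη0 : 0 < goldenRatio := goldenRatio_pos
  have hL2 : 0 < goldenRatio * L1 := mul_pos hη0 hL1
  choose e t he hyk using fun k => h.foot hL2 hx (y k)
  have hu : ∀ k : ℤ, e k + goldenRatio * L1 * |(k : ℝ) + 1 - t k| =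
      goldenRatio * d + (goldenRatio + 1) * L1 * |(k : ℝ) - τ| := by
    intro k
    have h1 := V1 k
    rw [h.symm, hyk, hPx] at h1
    push_cast at h1
    rw [h1, ← hη]; ring
  have hy1 : ∀ k : ℤ, D (y k) (y (k + 1)) = L1 := by
    intro k
    rw [hy]; push_cast
    rw [show (k : ℝ) - (k + 1) = -1 by ring, abs_neg, abs_one, mul_one]
  -- (a)
  have ha : ∀ k : ℤ, τ ≤ k → t k ≤ k + 1 := by
    intro k hk
    have h1 := h.tri (x (k + 1 + 1)) (y k) (y (k + 1))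
    rw [hy1, V1, h.symm (x (k + 1 + 1)), hyk, hPx] at h1
    push_cast at h1
    have h2 := hu k
    rw [abs_of_nonneg (show (0 : ℝ) ≤ (k : ℝ) + 1 - τ by linarith)] at h1
    rw [abs_of_nonneg (show (0 : ℝ) ≤ (k : ℝ) - τ by linarith)] at h2
    have h3 : goldenRatio * L1 * (|(k : ℝ) + 1 - t k| + 1) ≤ goldenRatio * L1 * |(k : ℝ) + 1 + 1 - t k| := by
      have : goldenRatio * (d + goldenRatio * L1 * ((k : ℝ) + 1 - τ)) =
          goldenRatio * d + (goldenRatio + 1) * L1 * ((k : ℝ) - τ) + (goldenRatio + 1) * L1 := by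
        rw [← hη]; ring
      rw [this] at h1
      linarith
    have h4 := le_of_mul_le_mul_left h3 hL2
    by_contra hlt
    push Not at hlt
    rw [abs_of_neg (by linarith)] at h4
    rcases abs_cases ((k : ℝ) + 1 + 1 - t k) with ⟨h5, _⟩ | ⟨h5, _⟩ <;> rw [h5] at h4 <;> linarith
  -- (b)
  have hb : ∀ k : ℤ, (k : ℝ) ≤ τ → (k : ℝ) + 1 ≤ t k := by
    intro k hk
    have h1 := h.tri (x k) (y k) (y (k - 1))
    have h0 := hy1 (k - 1)
    rw [show k - 1 + 1 = k by ring] at h0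
    have h00 := V1 (k - 1)
    rw [show k - 1 + 1 = k by ring] at h00
    rw [h.symm (y k) (y (k - 1)), h0, h00, h.symm (x k) (y k), hyk, hPx] at h1
    push_cast at h1
    have h2 := hu k
    rw [abs_of_nonpos (show (k : ℝ) - 1 - τ ≤ 0 by linarith)] at h1
    rw [abs_of_nonpos (show (k : ℝ) - τ ≤ 0 by linarith)] at h2
    have h3 : goldenRatio * L1 * (|(k : ℝ) + 1 - t k| + 1) ≤ goldenRatio * L1 * |(k : ℝ) - t k| := by
      have : goldenRatio * (d + goldenRatio * L1 * -((k : ℝ) - 1 - τ)) =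
          goldenRatio * d + (goldenRatio + 1) * L1 * -((k : ℝ) - τ) + (goldenRatio + 1) * L1 := by
        rw [← hη]; ring
      rw [this] at h1
      linarith
    have h4 := le_of_mul_le_mul_left h3 hL2
    by_contra hlt
    push Not at hlt
    rw [abs_of_pos (by linarith)] at h4
    rcases abs_cases ((k : ℝ) - t k) with ⟨h5, _⟩ | ⟨h5, _⟩ <;> rw [h5] at h4 <;> linarith
  -- (c)
  have hc : ∀ k k' : ℤ, (k' : ℝ) ≤ τ → τ ≤ k → t k = t k' := by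
    intro k k' hk' hk
    by_contra hne
    have h1 := h.two_point hL2 hx (hyk k) (hyk k') hne
    have hkk : (k' : ℝ) ≤ k := hk'.trans hk
    rw [hy, abs_of_nonneg (by linarith)] at h1
    have h2 := hu k
    have h3 := hu k'
    have a1 := ha k hk
    have b1 := hb k' hk'
    rw [abs_of_nonneg (show (0 : ℝ) ≤ (k : ℝ) + 1 - t k by linarith),
      abs_of_nonneg (show (0 : ℝ) ≤ (k : ℝ) - τ by linarith)] at h2
    rw [abs_of_nonpos (show (k' : ℝ) + 1 - t k' ≤ 0 by linarith),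
      abs_of_nonpos (show (k' : ℝ) - τ ≤ 0 by linarith)] at h3
    have h4 : goldenRatio * L1 * (t k' - t k) ≤ goldenRatio * L1 * |t k - t k'| := by
      apply mul_le_mul_of_nonneg_left _ hL2.le
      rw [abs_sub_comm]; exact le_abs_self _
    have h5 : 0 < goldenRatio * d := mul_pos hη0 hd
    nlinarith
  have hall : ∀ k : ℤ, t k = t ⌊τ⌋ := by
    intro k
    rcases le_total τ k with hk | hk
    · exact hc k ⌊τ⌋ (Int.floor_le _) hk
    · rw [← hc ⌈τ⌉ k hk (Int.le_ceil _)]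
      exact hc ⌈τ⌉ ⌊τ⌋ (Int.floor_le _) (Int.le_ceil _)
  obtain ⟨e', τ1, -, hx0⟩ := h.foot hL1 hy (x 0)
  refine ⟨e' - goldenRatio * L1 * |(0 : ℝ) - t ⌊τ⌋|, τ1, t ⌊τ⌋, fun k j => ?_⟩
  have h1 := hx0 k
  rw [h.symm, hyk, hall] at h1
  rw [hyk, hall]
  push_cast at h1
  linarith

/-- step (2) -/
theorem rt_weights {L1 d τ B τ1 τ2 : ℝ} (hL1 : 0 < L1)
    (h : ∀ k : ℤ, B + L1 * |(k : ℝ) - τ1| + goldenRatio * L1 * |((k : ℝ) + 1) - τ2| =
      goldenRatio * (d + goldenRatio * L1 * |(k : ℝ) - τ|)) :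
    B = goldenRatio * d ∧ (1 + goldenRatio) * τ = τ1 + goldenRatio * (τ2 - 1) := by
  have hη : goldenRatio ^ 2 = goldenRatio + 1 := goldenRatio_sq
  set m := max τ (max τ1 τ2) with hm
  set n := min τ (min τ1 τ2) with hn
  have m1 : τ ≤ m := le_max_left _ _
  have m2 : τ1 ≤ m := (le_max_left _ _).trans (le_max_right _ _)
  have m3 : τ2 ≤ m := (le_max_right _ _).trans (le_max_right _ _)
  have n1 : n ≤ τ := min_le_left _ _
  have n2 : n ≤ τ1 := (min_le_right _ _).trans (min_le_left _ _)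
  have n3 : n ≤ τ2 := (min_le_right _ _).trans (min_le_right _ _)
  have c1 : m ≤ (⌈m⌉ : ℝ) := Int.le_ceil _
  have c2 : ((⌊n⌋ : ℤ) : ℝ) ≤ n := Int.floor_le _
  have h1 := h ⌈m⌉
  have h2 := h (⌊n⌋ - 1)
  push_cast at h2
  rw [abs_of_nonneg (by linarith), abs_of_nonneg (by linarith), abs_of_nonneg (by linarith)] at h1
  rw [abs_of_nonpos (by linarith), abs_of_nonpos (by linarith), abs_of_nonpos (by linarith)] at h2
  have e1 : goldenRatio * (d + goldenRatio * L1 * ((⌈m⌉ : ℝ) - τ)) =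
      goldenRatio * d + (goldenRatio + 1) * L1 * ((⌈m⌉ : ℝ) - τ) := by rw [← hη]; ring
  have e2 : goldenRatio * (d + goldenRatio * L1 * -((⌊n⌋ : ℝ) - 1 - τ)) =
      goldenRatio * d + (goldenRatio + 1) * L1 * -((⌊n⌋ : ℝ) - 1 - τ) := by rw [← hη]; ring
  rw [e1] at h1
  rw [e2] at h2
  refine ⟨by linarith, ?_⟩
  have : L1 * ((1 + goldenRatio) * τ) = L1 * (τ1 + goldenRatio * (τ2 - 1)) := by linarith
  exact mul_left_cancel₀ hL1.ne' this

/-- step (3) -/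
theorem rt_exceptional {L1 d τ B τ1 τ2 : ℝ} (hL1 : 0 < L1)
    (h : ∀ k : ℤ, B + L1 * |(k : ℝ) - τ1| + goldenRatio * L1 * |((k : ℝ) + 1) - τ2| =
      goldenRatio * (d + goldenRatio * L1 * |(k : ℝ) - τ|)) : τ ≠ τ2 ∧ τ + 2 ≠ τ2 := by
  have hη : goldenRatio ^ 2 = goldenRatio + 1 := goldenRatio_sq
  have hη1 : 1 < goldenRatio := one_lt_goldenRatio
  obtain ⟨hB, hw⟩ := rt_weights hL1 h
  constructor
  · rintro rfl
    have ht : τ1 = τ + goldenRatio := by linarith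
    have h1 := h ⌈τ⌉
    have c1 : τ ≤ (⌈τ⌉ : ℝ) := Int.le_ceil _
    have c2 : (⌈τ⌉ : ℝ) < τ + 1 := Int.ceil_lt_add_one _
    rw [hB, ht, abs_of_nonpos (show (⌈τ⌉ : ℝ) - (τ + goldenRatio) ≤ 0 by linarith),
      abs_of_nonneg (show (0 : ℝ) ≤ (⌈τ⌉ : ℝ) + 1 - τ by linarith),
      abs_of_nonneg (show (0 : ℝ) ≤ (⌈τ⌉ : ℝ) - τ by linarith)] at h1
    have e1 : goldenRatio * (d + goldenRatio * L1 * ((⌈τ⌉ : ℝ) - τ)) =
      goldenRatio * d + (goldenRatio + 1) * L1 * ((⌈τ⌉ : ℝ) - τ) := by rw [← hη]; ring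
    rw [e1] at h1
    have h2 : L1 * (2 * (goldenRatio - ((⌈τ⌉ : ℝ) - τ))) = 0 := by linarith
    rcases mul_eq_zero.mp h2 with h3 | h3 <;> linarith
  · intro h0
    have ht2 : τ2 = τ + 2 := h0.symm
    subst ht2
    have ht : τ1 = τ - goldenRatio := by linarith
    have h1 := h ⌊τ⌋
    have c1 : (⌊τ⌋ : ℝ) ≤ τ := Int.floor_le _
    have c2 : τ < (⌊τ⌋ : ℝ) + 1 := Int.lt_floor_add_one _
    rw [hB, ht, abs_of_nonneg (show (0 : ℝ) ≤ (⌊τ⌋ : ℝ) - (τ - goldenRatio) by linarith),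
      abs_of_nonpos (show (⌊τ⌋ : ℝ) + 1 - (τ + 2) ≤ 0 by linarith),
      abs_of_nonpos (show (⌊τ⌋ : ℝ) - τ ≤ 0 by linarith)] at h1
    have e1 : goldenRatio * (d + goldenRatio * L1 * -((⌊τ⌋ : ℝ) - τ)) =
      goldenRatio * d + (goldenRatio + 1) * L1 * -((⌊τ⌋ : ℝ) - τ) := by rw [← hη]; ring
    rw [e1] at h1
    have h2 : L1 * (2 * (goldenRatio + ((⌊τ⌋ : ℝ) - τ))) = 0 := by linarith
    rcases mul_eq_zero.mp h2 with h3 | h3 <;> linarith

/-- step (4) -/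
theorem rt_half {X G : Type*} [Group G] [MulAction G X] {D : X → X → ℝ} (h : ZH D)
    (hinv : ∀ (g : G) (p q : X), D (g • p) (g • q) = D p q) {x y : ℤ → X} {L1 : ℝ} (hL1 : 0 < L1)
    (hx : ∀ i j : ℤ, D (x i) (x j) = goldenRatio * L1 * |(i : ℝ) - j|)
    (hy : ∀ i j : ℤ, D (y i) (y j) = L1 * |(i : ℝ) - j|) {P : X} {d τ B τ1 τ2 : ℝ}
    (hPx : ∀ k : ℤ, D P (x k) = d + goldenRatio * L1 * |(k : ℝ) - τ|)
    (hyx : ∀ k j : ℤ, D (y k) (x j) = B + L1 * |(k : ℝ) - τ1| + goldenRatio * L1 * |(j : ℝ) - τ2|)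
    {a b : G} (ha : ∀ k, a • x k = x (k - 2)) (hb : ∀ k, b • y k = y (k - 2))
    (hP : D ((a * b)⁻¹ • P) ((a * b) • P) = 2 * D P ((a * b) • P)) (h1 : τ ≠ τ2) (h2 : τ + 2 ≠ τ2) :
    d ≤ 0 := by
  have hL2 : 0 < goldenRatio * L1 := mul_pos goldenRatio_pos hL1
  have hinv' : ∀ (g : G) (p q : X), D (g⁻¹ • p) q = D p (g • q) := by
    intro g p q
    rw [← hinv g (g⁻¹ • p) q, smul_inv_smul]
  -- feet on the line `x`
  have A1 : ∀ k : ℤ, D (a⁻¹ • P) (x k) = d + goldenRatio * L1 * |(k : ℝ) - (τ + 2)| := by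
    intro k
    rw [hinv', ha, hPx]; push_cast
    rw [show (k : ℝ) - 2 - τ = (k : ℝ) - (τ + 2) by ring]
  have Y1 : ∀ k j : ℤ, D (y k) (x j) = (B + L1 * |(k : ℝ) - τ1|) + goldenRatio * L1 * |(j : ℝ) - τ2| :=
    fun k j => hyx k j
  have P1 : ∀ k : ℤ, D P (y k) = (d + B + goldenRatio * L1 * |τ - τ2|) + L1 * |(k : ℝ) - τ1| := by
    intro k
    rw [h.two_point hL2 hx hPx (Y1 k) h1]; ring
  have B1 : ∀ k : ℤ, D (b • P) (y k) =
      (d + B + goldenRatio * L1 * |τ - τ2|) + L1 * |(k : ℝ) - (τ1 - 2)| := by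
    intro k
    have e : y k = b • y (k + 2) := by rw [hb]; congr 1; ring
    rw [e, hinv, P1]; push_cast
    rw [show (k : ℝ) + 2 - τ1 = (k : ℝ) - (τ1 - 2) by ring]
  have X1 : ∀ j k : ℤ, D (x j) (y k) = (B + goldenRatio * L1 * |(j : ℝ) - τ2|) + L1 * |(k : ℝ) - τ1| := by
    intro j k
    rw [h.symm, hyx]; ring
  have B2 : ∀ j : ℤ, D (b • P) (x j) =
      ((d + B + goldenRatio * L1 * |τ - τ2|) + B + 2 * L1) + goldenRatio * L1 * |(j : ℝ) - τ2| := by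
    intro j
    rw [h.two_point hL1 hy B1 (X1 j) (by linarith),
      show τ1 - 2 - τ1 = -2 by ring, abs_neg, abs_of_pos (by norm_num : (0 : ℝ) < 2)]
    ring
  have C1 : ∀ j : ℤ, D ((a * b) • P) (x j) =
      ((d + B + goldenRatio * L1 * |τ - τ2|) + B + 2 * L1) + goldenRatio * L1 * |(j : ℝ) - (τ2 - 2)| := by
    intro j
    have e : x j = a • x (j + 2) := by rw [ha]; congr 1; ring
    rw [mul_smul, e, hinv, B2]; push_cast
    rw [show (j : ℝ) + 2 - τ2 = (j : ℝ) - (τ2 - 2) by ring]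
  have A2 : ∀ k : ℤ, D (a⁻¹ • P) (y k) =
      (d + B + goldenRatio * L1 * |τ + 2 - τ2|) + L1 * |(k : ℝ) - τ1| := by
    intro k
    rw [h.two_point hL2 hx A1 (Y1 k) h2]; ring
  have E1 : ∀ k : ℤ, D (b⁻¹ • a⁻¹ • P) (y k) =
      (d + B + goldenRatio * L1 * |τ + 2 - τ2|) + L1 * |(k : ℝ) - (τ1 + 2)| := by
    intro k
    rw [hinv', hb, A2]; push_cast
    rw [show (k : ℝ) - 2 - τ1 = (k : ℝ) - (τ1 + 2) by ring]
  have E2 : ∀ j : ℤ, D (b⁻¹ • a⁻¹ • P) (x j) =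
      ((d + B + goldenRatio * L1 * |τ + 2 - τ2|) + B + 2 * L1) + goldenRatio * L1 * |(j : ℝ) - τ2| := by
    intro j
    rw [h.two_point hL1 hy E1 (X1 j) (by linarith),
      show τ1 + 2 - τ1 = 2 by ring, abs_of_pos (by norm_num : (0 : ℝ) < 2)]
    ring
  have F1 : D P ((a * b) • P) = d + ((d + B + goldenRatio * L1 * |τ - τ2|) + B + 2 * L1) +
      goldenRatio * L1 * |τ + 2 - τ2| := by
    rw [mul_smul, ← hinv', h.two_point hL2 hx A1 B2 h2]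
  have F2 : D ((a * b)⁻¹ • P) ((a * b) • P) =
      ((d + B + goldenRatio * L1 * |τ + 2 - τ2|) + B + 2 * L1) +
      ((d + B + goldenRatio * L1 * |τ - τ2|) + B + 2 * L1) + goldenRatio * L1 * 2 := by
    rw [mul_inv_rev, mul_smul, h.two_point hL2 hx E2 C1 (by linarith),
      show τ2 - (τ2 - 2) = 2 by ring, abs_of_pos (by norm_num : (0 : ℝ) < 2)]
  rw [F1, F2] at hP
  have t1 : (2 : ℝ) ≤ |τ + 2 - τ2| + |τ - τ2| := by
    have := abs_sub_abs_le_abs_sub (τ + 2 - τ2) (τ - τ2)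
    have t2 := le_abs_self (τ + 2 - τ2)
    have t3 := neg_le_abs (τ - τ2)
    linarith
  have t2 : goldenRatio * L1 * 2 ≤ goldenRatio * L1 * (|τ + 2 - τ2| + |τ - τ2|) :=
    mul_le_mul_of_nonneg_left t1 hL2.le
  linarith

/-- The real-tree lemma. -/
theorem rt {X G : Type*} [Group G] [MulAction G X] {D : X → X → ℝ} (h : ZH D)
    (hinv : ∀ (g : G) (p q : X), D (g • p) (g • q) = D p q) {x y : ℤ → X} {L1 : ℝ} (hL1 : 0 < L1)
    (hx : ∀ i j : ℤ, D (x i) (x j) = goldenRatio * L1 * |(i : ℝ) - j|)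
    (hy : ∀ i j : ℤ, D (y i) (y j) = L1 * |(i : ℝ) - j|) {P : X}
    (V1 : ∀ k : ℤ, D (x (k + 1)) (y k) = goldenRatio * D P (x k))
    {a b : G} (ha : ∀ k, a • x k = x (k - 2)) (hb : ∀ k, b • y k = y (k - 2))
    (hP : D ((a * b)⁻¹ • P) ((a * b) • P) = 2 * D P ((a * b) • P)) :
    ∃ k : ℤ, D P (x k) ≤ goldenRatio / 2 * L1 := by
  obtain ⟨d, τ, hd0, hPx⟩ := h.foot (mul_pos goldenRatio_pos hL1) hx P
  rcases hd0.lt_or_eq with hd | hd
  · exfalso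
    obtain ⟨B, τ1, τ2, hyx⟩ := rt_feet h hL1 hx hy V1 hd hPx
    have hw : ∀ k : ℤ, B + L1 * |(k : ℝ) - τ1| + goldenRatio * L1 * |((k : ℝ) + 1) - τ2| =
        goldenRatio * (d + goldenRatio * L1 * |(k : ℝ) - τ|) := by
      intro k
      have h1 := V1 k
      rw [h.symm, hyx, hPx] at h1
      push_cast at h1
      exact h1
    obtain ⟨e1, e2⟩ := rt_exceptional hL1 hw
    have := rt_half h hinv hL1 hx hy hPx hyx ha hb hP e1 e2
    linarith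
  · refine ⟨round τ, ?_⟩
    rw [hPx, ← hd, zero_add]
    have h1 : |(round τ : ℝ) - τ| ≤ 1 / 2 := by
      rw [abs_sub_comm]
      exact abs_sub_round τ
    have h2 : 0 < goldenRatio * L1 := mul_pos goldenRatio_pos hL1
    nlinarith

end Pool.Agent.LR
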