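import Pool.Agent.LR.Values
import Pool.Agent.LR.RT

/-!
# LR/Descent: the descent

PROOFS.
* `descent_step`. Let `D s t = K (τ • w • s) (τ • w • t)`, good by `Good.comp` (for `τ * w`). Apply `rt` with `G = E`, `X = HT`,
  `x = line h2 h3`, `y = line h4 h5`, `L1 = D h4 h5 > 0`, `P = h1`, `a = g2`, `b = g1`:
  `hx`, `hy` are `line_dist` (`D h2 h3 = η D h4 h5` is `hV w`), `ha`, `hb` are `line_translate` (`g2 = h2.1 * h3.1`), and
  `V1`: `hV (w * dh^(-k) * v0)`: `v0 • h2 = (s1 s2) • h3`, `v0 • h3 = (s1 s2) • h4`, `v0 • h4 = h1`, `v0 • h5 = h2` (LR/Auto), so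
  `(dh^(-k) * v0) • (h4, h5) = (h1, line h2 h3 k)` and `(dh^(-k) * v0) • (h2, h3) = z • (line h2 h3 (k+1), line h4 h5 k)` with
  `z = (dh^(-k)).1 (s1 s2)` (`aut_smul_smul`, `dh_zpow_h3`, `dh_zpow_h4`, `dh_zpow_h1`, `dh_zpow_h2`), and `D` is `E`-invariant.
  `hP`: for `x₀ = g2 * g1 = s1 * s6`: `s1 x₀ s1 = x₀⁻¹` and `s1 • h1 = h1`, so `x₀⁻¹ • h1 = s1 • (x₀ • h1)`, and
  `D (s1 • t) t = 2 D h1 t` (`half`).
  The conclusion `D h1 (line h2 h3 k) ≤ η / 2 * D h4 h5` is the assertion for `w' = w * dh^(-k) * v0`.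
* `descent`. Suppose `K (τ • w • h4) (τ • w • h5) > 0` for all `w ∈ Fh`. By `exists_min_value` (index type `Fh`) there is a smallest
  value, attained for `w`; `descent_step` gives a value `≤ (η / 2)` times it, which is smaller since `η < 2`
  (`goldenRatio_lt_two`), contradiction.
-/

namespace Pool.Agent.LR

open Real

variable {K : HT → HT → ℝ} {k1 : ℝ}

theorem descent_step (hK : Good K) (τ : AutE)
    (hV : ∀ w ∈ Fh, K (τ • w • h2) (τ • w • h3) = goldenRatio * K (τ • w • h4) (τ • w • h5))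
    {w : AutE} (hw : w ∈ Fh) (hpos : 0 < K (τ • w • h4) (τ • w • h5)) :
    ∃ w' ∈ Fh, K (τ • w' • h4) (τ • w' • h5) ≤ goldenRatio / 2 * K (τ • w • h4) (τ • w • h5) := by
  have hD : Good (fun s t => K ((τ * w) • s) ((τ * w) • t)) := hK.comp (τ * w)
  have hmem : ∀ k : ℤ, w * dh ^ (-k) * v0 ∈ Fh := fun k =>
    mul_mem (mul_mem hw (zpow_mem dh_mem _)) v0_mem
  have e4 : ∀ k : ℤ, τ • (w * dh ^ (-k) * v0) • h4 = (τ * w) • h1 := by
    intro k
    rw [mul_smul, mul_smul, mul_smul, v0_h4, dh_zpow_h1]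
  have e5 : ∀ k : ℤ, τ • (w * dh ^ (-k) * v0) • h5 = (τ * w) • line h2 h3 k := by
    intro k
    rw [mul_smul, mul_smul, mul_smul, v0_h5, dh_zpow_h2]
  have e2 : ∀ k : ℤ, τ • (w * dh ^ (-k) * v0) • h2 =
      (τ * w) • ((dh ^ (-k)).1 (s1 * s2)) • line h2 h3 (k + 1) := by
    intro k
    rw [mul_smul, mul_smul, mul_smul, v0_h2, aut_smul_smul, dh_zpow_h3]
  have e3 : ∀ k : ℤ, τ • (w * dh ^ (-k) * v0) • h3 =
      (τ * w) • ((dh ^ (-k)).1 (s1 * s2)) • line h4 h5 k := by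
    intro k
    rw [mul_smul, mul_smul, mul_smul, v0_h3, aut_smul_smul, dh_zpow_h4]
  have h23 : K ((τ * w) • h2) ((τ * w) • h3) = goldenRatio * K ((τ * w) • h4) ((τ * w) • h5) := by
    have := hV w hw
    simpa only [mul_smul] using this
  have V1 : ∀ k : ℤ, K ((τ * w) • line h2 h3 (k + 1)) ((τ * w) • line h4 h5 k) =
      goldenRatio * K ((τ * w) • h1) ((τ * w) • line h2 h3 k) := by
    intro k
    have h := hV _ (hmem k)
    rw [e2, e3, e4, e5] at h
    rw [← h]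
    exact (hD.inv _ _ _).symm
  have hprod : g2 * g1 = s1 * s6 := by
    rw [s6_eq]
    simp [mul_assoc]
  have hs1 : s1 • h1 = h1 := Subtype.ext (by
    rw [smul_val]
    show s1 * s1 * s1⁻¹ = s1
    simp)
  have hinv : (g2 * g1)⁻¹ • h1 = s1 • ((g2 * g1) • h1) := by
    have e : (g2 * g1)⁻¹ = s1 * (g2 * g1) * s1 := by
      rw [hprod, mul_inv_rev, s1_inv, s6_inv]
      simp
    rw [e, mul_smul, mul_smul, hs1]
  have hP : K ((τ * w) • (g2 * g1)⁻¹ • h1) ((τ * w) • (g2 * g1) • h1) =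
      2 * K ((τ * w) • h1) ((τ * w) • (g2 * g1) • h1) := by
    rw [hinv]
    exact hD.half h1 ((g2 * g1) • h1)
  have hL : 0 < K ((τ * w) • h4) ((τ * w) • h5) := by
    simpa only [mul_smul] using hpos
  obtain ⟨k, hk⟩ := rt (G := E) hD.toZH hD.inv (x := line h2 h3) (y := line h4 h5) hL
    (fun i j => by
      have := hD.line_dist h2 h3 i j
      show K ((τ * w) • line h2 h3 i) ((τ * w) • line h2 h3 j) = _
      rw [← h23]
      exact this)
    (fun i j => hD.line_dist h4 h5 i j) (P := h1) V1 (a := g2) (b := g1)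
    (fun k => line_translate h2 h3 k) (fun k => line_translate h4 h5 k) hP
  refine ⟨w * dh ^ (-k) * v0, hmem k, ?_⟩
  rw [e4, e5]
  refine hk.trans (le_of_eq ?_)
  simp only [mul_smul]

theorem descent (h : Struct K k1 (goldenRatio * k1)) (hk1 : 0 < k1) (τ : AutE)
    (hV : ∀ w ∈ Fh, K (τ • w • h2) (τ • w • h3) = goldenRatio * K (τ • w • h4) (τ • w • h5)) :
    ∃ w ∈ Fh, K (τ • w • h4) (τ • w • h5) = 0 := by
  by_contra hcon
  push Not at hcon
  have hpos : ∀ w ∈ Fh, 0 < K (τ • w • h4) (τ • w • h5) := fun w hw =>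
    lt_of_le_of_ne (h.good.nonneg _ _) (Ne.symm (hcon w hw))
  obtain ⟨⟨w, hw⟩, hmin⟩ := exists_min_value (ι := Fh) h hk1 (mul_pos goldenRatio_pos hk1)
    (fun i => τ • i.1 • h4) (fun i => τ • i.1 • h5) (fun i => hpos i.1 i.2) ⟨1, one_mem _⟩
  obtain ⟨w', hw', hle⟩ := descent_step h.good τ hV hw (hpos w hw)
  have h1 := hmin ⟨w', hw'⟩
  have h2 := hpos w hw
  have h3 : goldenRatio < 2 := goldenRatio_lt_two
  have h4 : K (τ • w • h4) (τ • w • h5) ≤ K (τ • w' • h4) (τ • w' • h5) := h1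
  nlinarith

end Pool.Agent.LR
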