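import Pool.Agent.LR.MakeView
import Pool.Agent.LR.Descent
import Pool.Agent.LR.Comm

/-!
# LR/Core: the main argument

PROOF of `core`.
(0) `core_normalise`: `δ_A = h (δ^m ι^e) h⁻¹`, `h ∈ F`. Choose `k, l` with `a = h δ^k ι^l ∈ A` (`hA`); `a ∈ F` and `a⁻¹ δ_A a = δ^m ι^e ∈ A`
    (`delta_iota`), `δ_A = a (δ^m ι^e) a⁻¹`. Write `δ₀ = δ^m ι^e`; `δ₀ ≠ 1` by `delta_ne_one`.
(1) `hdyn` gives the fixed points of `δ₀ ∈ A ≤ G`, of `φ δ₀ φ⁻¹ ∈ G` and of `(φ w₀) δ₀ (φ w₀)⁻¹ ∈ G` (none is `1`).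
(2) `view_of` for `ϕ = 1` (lift `1`) and `View.struct_bp`: `K = Dof (lam bp)` satisfies `Struct K k₁ (η k₁)`, `k₁ > 0`, `bp` the attracting fixed point of `δ₀`.
(3) Choose `k', l'` with `v = a (δ δ')² δ^k' ι^l' ∈ A` (`hA` for `a (δ δ')² ∈ F`). Let `ṽ : Mod` be a representative with a lift `v̂` (`exists_mod_lift`) and `xv = v • bp`. By
    `hE` for `ṽ` and `Dof_lift` (for `ṽ⁻¹`, lift `v̂⁻¹`): `Dof (lam xv) s t = c * K (v̂⁻¹ • s) (v̂⁻¹ • t)`, `c > 0`.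
(4) `view_of` for a representative `φ̃` of `φ` with a lift `φ̂`, and `View.ratio` for the point `xv`: for `τ = v̂⁻¹ * φ̂` and all `w ∈ Fh`,
    `K (τ • w • h2) (τ • w • h3) = η * K (τ • w • h4) (τ • w • h5)`.
(5) `descent`: there is `w ∈ Fh` with `K (τ • w • h4) (τ • w • h5) = 0`, hence also `K (τ • w • h2) (τ • w • h3) = 0`. Let `w̃ : Mod` be given by `exists_mod_of_Fh`,
    `[w̃] ∈ F`, and `w₀ = [w̃] δ^k'' ι^l'' ∈ A`, with the representative `w̃ * deltaAut^k'' * iotaAut^l''` and the lift `ŵ₀ = w * dh^k'' * (inn s6)^l''`.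
(6) `view_of` for `ϕ = φ̃ * w̃₀` (lift `φ̂ * ŵ₀`); `(φ w₀) A (φ w₀)⁻¹ = φ A φ⁻¹ ≤ G` as `w₀ ∈ A`. The point `xv` is non-crossing:
    `Dof (lam xv) (φ̂ • ŵ₀ • h2) (φ̂ • ŵ₀ • h3) = c * K (τ • ŵ₀ • h2) (τ • ŵ₀ • h3)`; the inner automorphism is removed by invariance, and `dh^k''` by
    `line_dist` (`dh^k'' • h2`, `dh^k'' • h3` are consecutive points of `line h2 h3`), so this is `c * K (τ • w • h2) (τ • w • h3) = 0`; the same for `h4, h5`.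
    `View.struct_of_noncrossing` and `Struct.scale` (by `c⁻¹`): `K (ψ s) (ψ t)`, `ψ = τ * ŵ₀ = v̂⁻¹ * φ̂ * ŵ₀`, is a `Struct _ k₁' (η k₁')`, `k₁' > 0`.
(7) `comm`: `ψ * dh * ψ⁻¹ = inn x * dh^ε`, `parity x = 1`, so `x = j γ₀` (`even_or_odd`, `parity_j`). `α = ṽ⁻¹ * φ̃ * w̃₀` has the lift `ψ`, so
    `α * deltaAut * α⁻¹` and `conj γ₀ * deltaAut^ε` have the same lift and are equal (`IsLift.inj`). In `MCG`: `(v⁻¹ φ w₀) δ (v⁻¹ φ w₀)⁻¹ = δ^ε`.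
(8) `core_end`. `φ (w₀ δ₀² w₀⁻¹) φ⁻¹ = v (δ^ε)^(2 m) v⁻¹` since `δ₀² = δ^(2 m)` (`delta_iota`, `iota_sq`). This element is in `φ A φ⁻¹`, and it is
    `v (δ₀²)^ε v⁻¹ ∈ A`. So it is a power of `δ_A = a δ₀ a⁻¹` (`hint`): `v δ^(2 m ε) v⁻¹ = a δ₀^n a⁻¹`. As `v = a (δ δ')² δ^k' ι^l'` and by `v0_delta`,
    `delta_iota`: `δ'^(2 m ε) = δ₀^n = δ^(m n) ι^(e n)`. By `Dof_eq_of_mcg` for `F = lam bp`, with the lifts `dh'^M`, `M = 2 m ε ≠ 0`, and `dh^(m n) * (inn s6)^(e n)`: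
    `K (dh'^M • h1) (dh'^M • h6) = K (dh^(m n) • h1) (dh^(m n) • h6) = K h1 h6 = 0`, but `dh'^M • h6 = h6`, `dh'^M • h1 = line h1 h2 (-M)` and
    `K (line h1 h2 (-M)) h6 = K (line h1 h2 (-M)) h1 = |M| K h1 h2 = |M| η k₁ ≠ 0`. Contradiction.
-/

namespace Pool.Agent.LR

open Real Filter Topology

theorem IsLift.zpow {α : MulAut Surf} {φ : AutE} (h : IsLift α φ) (n : ℤ) : IsLift (α ^ n) (φ ^ n) := by
  induction n using Int.induction_on with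
  | zero => simpa using IsLift.one
  | succ n ih =>
    rw [zpow_add_one, zpow_add_one]
    exact ih.mul h
  | pred n ih =>
    rw [zpow_sub_one, zpow_sub_one]
    exact ih.mul h.inv

theorem inn_zpow (x : E) (n : ℤ) : (inn x) ^ n = inn (x ^ n) := by
  apply Subtype.ext
  show ((inn x) ^ n : AutE).1 = MulAut.conj (x ^ n)
  rw [map_zpow]
  rfl

theorem dh_inn_s6_smul (k l : ℤ) (w : AutE) :
    ∃ z : E, ∀ s : HT, (w * dh ^ k * (inn s6) ^ l) • s = z • (w • dh ^ k • s) := by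
  refine ⟨(w * dh ^ k).1 (s6 ^ l), fun s => ?_⟩
  rw [mul_smul, inn_zpow, inn_smul, aut_smul_smul, mul_smul]

/-- step (8), last part -/
theorem core_end {F₀ : Surf → ℝ} (hF : F₀ ∈ ML) {k1 : ℝ} (hk1 : 0 < k1)
    (hK : Struct (Dof F₀) k1 (goldenRatio * k1)) {M k l : ℤ} (hM : M ≠ 0)
    (h : δ' ^ M = δ ^ k * ι ^ l) : False := by
  have e1 : IsLift (deltaAut' ^ M : Mod).1 (dh' ^ M) := by
    have := isLift_delta'.zpow M
    simpa using this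
  have e2 : IsLift (deltaAut ^ k * iotaAut ^ l : Mod).1 (dh ^ k * (inn s6) ^ l) := by
    have := (isLift_delta.zpow k).mul (isLift_iota.zpow l)
    simpa using this
  have e3 : (QuotientGroup.mk (deltaAut' ^ M) : MCG) =
      QuotientGroup.mk (deltaAut ^ k * iotaAut ^ l) := h
  have e4 := Dof_eq_of_mcg e3 e1 e2 hF h1 h6
  have f1 : (dh' ^ M) • h1 = line h1 h2 (-M) := by
    have := dh'_zpow_h1 (-M)
    rwa [neg_neg] at this
  obtain ⟨z, hz⟩ := dh_inn_s6_smul k l 1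
  rw [one_mul] at hz
  rw [f1, dh'_zpow_h6, hz, hz, hK.good.inv, one_smul, one_smul, dh_zpow_h1, dh_zpow_h6, hK.h16,
    ← hK.good.congr_right hK.h16] at e4
  have f2 := hK.good.line_dist h1 h2 (-M) 0
  rw [line_zero, e4, hK.hk2] at f2
  have f3 : 0 < |(((-M : ℤ) : ℝ)) - ((0 : ℤ) : ℝ)| := by
    rw [abs_pos]
    push_cast
    have : (M : ℝ) ≠ 0 := by exact_mod_cast hM
    simpa using this
  have f4 : 0 < goldenRatio * k1 * |(((-M : ℤ) : ℝ)) - ((0 : ℤ) : ℝ)| :=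
    mul_pos (mul_pos goldenRatio_pos hk1) f3
  rw [← f2] at f4
  exact lt_irrefl _ f4

/-- step (7), last part -/
theorem mcg_comm {α : Mod} {ψ : AutE} (hψ : IsLift α.1 ψ) {ε : ℤ} {x : E} (hx : parity x = 1)
    (h : ψ * dh * ψ⁻¹ = inn x * dh ^ ε) :
    (QuotientGroup.mk α : MCG) * δ * (QuotientGroup.mk α : MCG)⁻¹ = δ ^ ε := by
  obtain ⟨γ, rfl⟩ | ⟨γ, rfl⟩ := even_or_odd x
  swap
  · exfalso
    rw [map_mul, parity_j, one_mul] at hx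
    have : parity s1 = Multiplicative.ofAdd 1 := by simp [parity]
    rw [this] at hx
    exact absurd hx (by decide)
  have hc : MulAut.conj γ ∈ Mod := Subgroup.subset_closure (Or.inr ⟨γ, rfl⟩)
  have e1 : IsLift (α * deltaAut * α⁻¹ : Mod).1 (ψ * dh * ψ⁻¹) := (hψ.mul isLift_delta).mul hψ.inv
  have e2 : IsLift ((⟨MulAut.conj γ, hc⟩ : Mod) * deltaAut ^ ε : Mod).1 (inn (j γ) * dh ^ ε) := by
    have := (isLift_conj γ).mul (isLift_delta.zpow ε)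
    simpa using this
  rw [← h] at e2
  have e3 : α * deltaAut * α⁻¹ = (⟨MulAut.conj γ, hc⟩ : Mod) * deltaAut ^ ε :=
    Subtype.ext (e1.inj e2)
  have e4 : (QuotientGroup.mk (⟨MulAut.conj γ, hc⟩ : Mod) : MCG) = 1 := by
    rw [QuotientGroup.eq_one_iff]
    exact ⟨γ, rfl⟩
  calc (QuotientGroup.mk α : MCG) * δ * (QuotientGroup.mk α : MCG)⁻¹
      = (QuotientGroup.mk (α * deltaAut * α⁻¹) : MCG) := rfl
    _ = (QuotientGroup.mk ((⟨MulAut.conj γ, hc⟩ : Mod) * deltaAut ^ ε) : MCG) := by rw [e3]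
    _ = (QuotientGroup.mk (⟨MulAut.conj γ, hc⟩ : Mod) : MCG) * δ ^ ε := rfl
    _ = δ ^ ε := by rw [e4, one_mul]

theorem core {X : Type*} [TopologicalSpace X] [T1Space X] [∀ x : X, (𝓝[≠] x).NeBot]
    {G : Subgroup MCG} [MulAction G X]
    {lam : X → Surf → ℝ} (hc : ∀ γ, Continuous fun x => lam x γ) (hML : ∀ x, lam x ∈ ML)
    (h0 : ∀ x, lam x ≠ 0)
    (hE : ∀ (α : Mod) (hα : (QuotientGroup.mk α : MCG) ∈ G) (x : X), ∃ c : ℝ, 0 < c ∧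
      ∀ γ, lam ((⟨QuotientGroup.mk α, hα⟩ : G) • x) γ = c * lam x ((α⁻¹ : Mod).1 γ))
    (hdyn : ∀ g : G, g ≠ 1 → ∃ bp bm : X, NS g bp bm)
    {A : Subgroup MCG} (hA : ∀ x ∈ F, ∃ k e : ℤ, x * δ ^ k * ι ^ e ∈ A)
    {h : MCG} (hh : h ∈ F) {m e : ℤ} (hm : m ≠ 0) (hδ : h * (δ ^ m * ι ^ e) * h⁻¹ ∈ A)
    {φ : MCG} (hAG : A ≤ G) (hφG : ∀ a ∈ A, φ * a * φ⁻¹ ∈ G)
    (hint : ∀ a ∈ A, ∀ b ∈ A, a = φ * b * φ⁻¹ → a ∈ Subgroup.zpowers (h * (δ ^ m * ι ^ e) * h⁻¹)) :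
    False := by
  -- commutation of `δ` and `ι`
  have hcomm : Commute δ ι := delta_iota
  have hδF : δ ∈ F := Subgroup.subset_closure (by simp)
  have hδ'F : δ' ∈ F := Subgroup.subset_closure (by simp)
  have hιF : ι ∈ F := pow_mem (mul_mem hδF hδ'F) 5
  -- step (0)
  obtain ⟨k, l, hak⟩ := hA h hh
  obtain ⟨a, ha⟩ : ∃ a, a = h * δ ^ k * ι ^ l := ⟨_, rfl⟩
  rw [← ha] at hak
  have haF : a ∈ F := by
    rw [ha]; exact mul_mem (mul_mem hh (zpow_mem hδF _)) (zpow_mem hιF _)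
  obtain ⟨δ0, hδ0⟩ : ∃ δ0, δ0 = δ ^ m * ι ^ e := ⟨_, rfl⟩
  have hc0 : Commute (δ ^ k * ι ^ l) δ0 := by
    rw [hδ0]
    have e1 : Commute (δ ^ k) (δ ^ m) := (Commute.refl δ).zpow_zpow k m
    have e2 : Commute (δ ^ k) (ι ^ e) := hcomm.zpow_zpow k e
    have e3 : Commute (ι ^ l) (δ ^ m) := hcomm.symm.zpow_zpow l m
    have e4 : Commute (ι ^ l) (ι ^ e) := (Commute.refl ι).zpow_zpow l e
    exact (e1.mul_right e2).mul_left (e3.mul_right e4)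
  have hδA : h * (δ ^ m * ι ^ e) * h⁻¹ = a * δ0 * a⁻¹ := by
    rw [← hδ0, ha]
    have : h * δ ^ k * ι ^ l * δ0 * (h * δ ^ k * ι ^ l)⁻¹ =
        h * ((δ ^ k * ι ^ l) * δ0 * (δ ^ k * ι ^ l)⁻¹) * h⁻¹ := by group
    rw [this, hc0.eq, mul_inv_cancel_right]
  have hδ0A : δ0 ∈ A := by
    have e1 : δ0 = a⁻¹ * (h * (δ ^ m * ι ^ e) * h⁻¹) * a := by
      rw [hδA]; group
    rw [e1]
    exact mul_mem (mul_mem (inv_mem hak) hδ) hak
  have hδ01 : δ0 ≠ 1 := by rw [hδ0]; exact delta_ne_one hm e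
  -- the views
  have getView : ∀ (ϕ : Mod) (φ' : AutE), IsLift ϕ.1 φ' →
      (∀ a ∈ A, (QuotientGroup.mk ϕ : MCG) * a * (QuotientGroup.mk ϕ : MCG)⁻¹ ∈ G) →
      ∃ bp bm : X, View (fun x s t => Dof (lam x) (φ' • s) (φ' • t)) bp bm m := by
    intro ϕ φ' hl hG
    have hδ0A' : δ ^ m * ι ^ e ∈ A := hδ0 ▸ hδ0A
    have hne : (⟨(QuotientGroup.mk ϕ : MCG) * (δ ^ m * ι ^ e) * (QuotientGroup.mk ϕ : MCG)⁻¹,
        hG _ hδ0A'⟩ : G) ≠ 1 := by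
      intro hcon
      have e1 : (QuotientGroup.mk ϕ : MCG) * (δ ^ m * ι ^ e) * (QuotientGroup.mk ϕ : MCG)⁻¹ = 1 :=
        congrArg Subtype.val hcon
      apply hδ01
      rw [hδ0]
      exact conj_eq_one_iff.1 e1
    obtain ⟨bp, bm, hNS⟩ := hdyn _ hne
    exact ⟨bp, bm, view_of hc hML h0 hE hA hm hδ0A' hl hG hNS⟩
  -- step (2)
  obtain ⟨bp, bm, V1⟩ := getView 1 1 IsLift.one (fun a ha' => by
    have : (QuotientGroup.mk (1 : Mod) : MCG) * a * (QuotientGroup.mk (1 : Mod) : MCG)⁻¹ = a := by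
      rw [QuotientGroup.mk_one]; group
    rw [this]
    exact hAG ha')
  obtain ⟨k1, hk1, hK⟩ := V1.struct_bp
  simp only [one_smul] at hK
  change Struct (Dof (lam bp)) k1 (goldenRatio * k1) at hK
  -- step (3)
  have hy : a * (δ * δ') ^ 2 ∈ F := mul_mem haF (pow_mem (mul_mem hδF hδ'F) 2)
  obtain ⟨k', l', hv⟩ := hA _ hy
  obtain ⟨v, hvdef⟩ : ∃ v, v = a * (δ * δ') ^ 2 * δ ^ k' * ι ^ l' := ⟨_, rfl⟩
  rw [← hvdef] at hv
  obtain ⟨vt, vh, hvt, hvl⟩ := exists_mod_lift v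
  have hvG : (QuotientGroup.mk vt : MCG) ∈ G := hvt ▸ hAG hv
  obtain ⟨xv, hxv⟩ : ∃ xv : X, xv = (⟨QuotientGroup.mk vt, hvG⟩ : G) • bp := ⟨_, rfl⟩
  obtain ⟨c, hcpos, hcv⟩ := hE vt hvG bp
  rw [← hxv] at hcv
  have hDv : ∀ s t, Dof (lam xv) s t = c * Dof (lam bp) (vh⁻¹ • s) (vh⁻¹ • t) := by
    intro s t
    have e1 := Dof_lift (hvl.inv) (lam bp) s t
    rw [← e1]
    exact hcv _
  -- step (4)
  obtain ⟨φt, φh, hφt, hφl⟩ := exists_mod_lift φ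
  obtain ⟨bp1, bm1, V2⟩ := getView φt φh hφl (fun a ha' => by rw [hφt]; exact hφG a ha')
  obtain ⟨τ, hτ⟩ : ∃ τ, τ = vh⁻¹ * φh := ⟨_, rfl⟩
  have hV : ∀ w ∈ Fh, Dof (lam bp) (τ • w • h2) (τ • w • h3) =
      goldenRatio * Dof (lam bp) (τ • w • h4) (τ • w • h5) := by
    intro w hw
    have e1 := V2.ratio hw xv
    simp only [hDv] at e1
    simp only [hτ, mul_smul]
    have e2 : c * Dof (lam bp) (vh⁻¹ • φh • w • h2) (vh⁻¹ • φh • w • h3) =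
        c * (goldenRatio * Dof (lam bp) (vh⁻¹ • φh • w • h4) (vh⁻¹ • φh • w • h5)) := by
      rw [e1]; ring
    exact mul_left_cancel₀ hcpos.ne' e2
  -- step (5)
  obtain ⟨w, hw, hw0⟩ := descent hK hk1 τ hV
  have hw0' : Dof (lam bp) (τ • w • h2) (τ • w • h3) = 0 := by rw [hV w hw, hw0, mul_zero]
  obtain ⟨wt, hwF, hwl⟩ := exists_mod_of_Fh hw
  obtain ⟨k'', l'', hwA⟩ := hA _ hwF
  obtain ⟨w0t, hw0t⟩ : ∃ w0t : Mod, w0t = wt * deltaAut ^ k'' * iotaAut ^ l'' := ⟨_, rfl⟩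
  have hw0mk : (QuotientGroup.mk w0t : MCG) = QuotientGroup.mk wt * δ ^ k'' * ι ^ l'' := by
    rw [hw0t]; rfl
  have hw0A : (QuotientGroup.mk w0t : MCG) ∈ A := by rw [hw0mk]; exact hwA
  obtain ⟨w0h, hw0h⟩ : ∃ w0h : AutE, w0h = w * dh ^ k'' * (inn s6) ^ l'' := ⟨_, rfl⟩
  have hw0l : IsLift w0t.1 w0h := by
    rw [hw0t, hw0h]
    have := (hwl.mul (isLift_delta.zpow k'')).mul (isLift_iota.zpow l'')
    simpa using this
  -- step (6)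
  obtain ⟨bp2, bm2, V3⟩ := getView (φt * w0t) (φh * w0h) (hφl.mul hw0l) (fun a ha' => by
    have e1 : (QuotientGroup.mk (φt * w0t) : MCG) * a * (QuotientGroup.mk (φt * w0t) : MCG)⁻¹ =
        φ * ((QuotientGroup.mk w0t : MCG) * a * (QuotientGroup.mk w0t : MCG)⁻¹) * φ⁻¹ := by
      rw [QuotientGroup.mk_mul, hφt]; group
    rw [e1]
    exact hφG _ (mul_mem (mul_mem hw0A ha') (inv_mem hw0A)))
  obtain ⟨z, hz⟩ := dh_inn_s6_smul k'' l'' w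
  rw [← hw0h] at hz
  have hgoodτw : Good (fun s t => Dof (lam bp) ((τ * w) • s) ((τ * w) • t)) := hK.good.comp (τ * w)
  have key : ∀ s t i, (dh ^ k'') • s = line s t i → (dh ^ k'') • t = line s t (i + 1) →
      Dof (lam bp) (τ • w • s) (τ • w • t) = 0 →
      Dof (lam bp) (τ • w0h • s) (τ • w0h • t) = 0 := by
    intro s t i hs ht hst
    rw [hz, hz, aut_smul_smul, aut_smul_smul, hK.good.inv, hs, ht]
    have e1 := hgoodτw.line_dist s t i (i + 1)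
    simp only [mul_smul] at e1
    rw [e1, hst, zero_mul]
  have hn1 : Dof (lam bp) (τ • w0h • h2) (τ • w0h • h3) = 0 := by
    refine key h2 h3 (-k'') ?_ ?_ hw0'
    · have := dh_zpow_h2 (-k''); rwa [neg_neg] at this
    · have := dh_zpow_h3 (-k''); rwa [neg_neg] at this
  have hn2 : Dof (lam bp) (τ • w0h • h4) (τ • w0h • h5) = 0 := by
    refine key h4 h5 (-k'') ?_ ?_ hw0
    · have := dh_zpow_h4 (-k''); rwa [neg_neg] at this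
    · have := dh_zpow_h5 (-k''); rwa [neg_neg] at this
  obtain ⟨k1', hk1', hS⟩ := V3.struct_of_noncrossing (x := xv)
    (by
      show Dof (lam xv) ((φh * w0h) • h2) ((φh * w0h) • h3) = 0
      rw [hDv, mul_smul, mul_smul]
      rw [hτ, mul_smul, mul_smul] at hn1
      rw [hn1, mul_zero])
    (by
      show Dof (lam xv) ((φh * w0h) • h4) ((φh * w0h) • h5) = 0
      rw [hDv, mul_smul, mul_smul]
      rw [hτ, mul_smul, mul_smul] at hn2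
      rw [hn2, mul_zero])
  obtain ⟨ψ, hψ⟩ : ∃ ψ, ψ = vh⁻¹ * φh * w0h := ⟨_, rfl⟩
  have hS' : Struct (fun s t => Dof (lam bp) (ψ • s) (ψ • t)) (c⁻¹ * k1')
      (goldenRatio * (c⁻¹ * k1')) := by
    have e1 := hS.scale (inv_nonneg.2 hcpos.le)
    have e2 : (fun s t => c⁻¹ * Dof (lam xv) ((φh * w0h) • s) ((φh * w0h) • t)) =
        fun s t => Dof (lam bp) (ψ • s) (ψ • t) := by
      funext s t
      rw [hDv, ← mul_assoc, inv_mul_cancel₀ hcpos.ne', one_mul, hψ]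
      simp only [mul_smul]
    rw [e2] at e1
    have e3 : c⁻¹ * (goldenRatio * k1') = goldenRatio * (c⁻¹ * k1') := by ring
    rw [e3] at e1
    exact e1
  -- step (7)
  obtain ⟨ε, x, hε, hx, hco⟩ := comm hK hk1 ψ (mul_pos (inv_pos.2 hcpos) hk1') hS'
  have hψl : IsLift (vt⁻¹ * φt * w0t : Mod).1 ψ := by
    rw [hψ]
    exact (hvl.inv.mul hφl).mul hw0l
  have hα := mcg_comm hψl hx hco
  -- step (8)
  obtain ⟨w0, hw0d⟩ : ∃ w0 : MCG, w0 = QuotientGroup.mk w0t := ⟨_, rfl⟩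
  have hα2 : (v⁻¹ * φ * w0) * δ * (v⁻¹ * φ * w0)⁻¹ = δ ^ ε := by
    rw [← hα, hw0d, ← hvt, ← hφt]; rfl
  rw [← hw0d] at hw0A
  have hsq : δ0 ^ 2 = δ ^ (2 * m) := by
    have e1 : δ0 ^ 2 = (δ ^ m) ^ 2 * (ι ^ e) ^ 2 := by
      rw [hδ0]
      exact (hcomm.zpow_zpow m e).mul_pow 2
    have e2 : (ι ^ e) ^ 2 = 1 := by
      rw [pow_two, ← (Commute.refl ι).mul_zpow, iota_sq, one_zpow]
    rw [e1, e2, mul_one, ← zpow_natCast, ← zpow_mul]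
    congr 1
    push_cast
    ring
  have hbA : w0 * δ ^ (2 * m) * w0⁻¹ ∈ A := by
    rw [← hsq]
    exact mul_mem (mul_mem hw0A (pow_mem hδ0A 2)) (inv_mem hw0A)
  have hconj : φ * (w0 * δ ^ (2 * m) * w0⁻¹) * φ⁻¹ = v * δ ^ (ε * (2 * m)) * v⁻¹ := by
    have e1 : (v⁻¹ * φ * w0) * δ ^ (2 * m) * (v⁻¹ * φ * w0)⁻¹ = δ ^ (ε * (2 * m)) := by
      rw [← conj_zpow, hα2, ← zpow_mul]
    rw [← e1]; group
  have haA : v * δ ^ (ε * (2 * m)) * v⁻¹ ∈ A := by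
    have e1 : δ ^ (ε * (2 * m)) = (δ0 ^ 2) ^ ε := by
      rw [hsq, ← zpow_mul]
      congr 1
      ring
    rw [e1]
    exact mul_mem (mul_mem hv (zpow_mem (pow_mem hδ0A 2) _)) (inv_mem hv)
  have hz := hint _ haA _ hbA hconj.symm
  rw [hδA] at hz
  obtain ⟨n, hn⟩ := Subgroup.mem_zpowers_iff.1 hz
  rw [conj_zpow] at hn
  obtain ⟨N, hN⟩ : ∃ N, N = ε * (2 * m) := ⟨_, rfl⟩
  rw [← hN] at hn
  have hcN : Commute (δ ^ k' * ι ^ l') (δ ^ N) := by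
    have e1 : Commute (δ ^ k') (δ ^ N) := (Commute.refl δ).zpow_zpow k' N
    have e3 : Commute (ι ^ l') (δ ^ N) := hcomm.symm.zpow_zpow l' N
    exact e1.mul_left e3
  have hfin : δ' ^ N = δ ^ (m * n) * ι ^ (e * n) := by
    have e1 : v * δ ^ N * v⁻¹ = a * ((δ * δ') ^ 2 * δ ^ N * ((δ * δ') ^ 2)⁻¹) * a⁻¹ := by
      have : v * δ ^ N * v⁻¹ = a * (δ * δ') ^ 2 * ((δ ^ k' * ι ^ l') * δ ^ N *
          (δ ^ k' * ι ^ l')⁻¹) * (a * (δ * δ') ^ 2)⁻¹ := by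
        rw [hvdef]; group
      rw [this, hcN.eq, mul_inv_cancel_right]
      group
    have e2 : (δ * δ') ^ 2 * δ ^ N * ((δ * δ') ^ 2)⁻¹ = δ' ^ N := by
      rw [← conj_zpow, v0_delta, mul_inv_cancel_right]
    rw [e1, e2] at hn
    have e3 : δ0 ^ n = δ' ^ N := by
      have := congrArg (fun y => a⁻¹ * y * a) hn
      simpa [mul_assoc] using this
    rw [← e3, hδ0, (hcomm.zpow_zpow m e).mul_zpow, ← zpow_mul, ← zpow_mul]
  refine core_end (hML bp) hk1 hK ?_ hfin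
  rw [hN]
  rcases hε with rfl | rfl <;> omega

end Pool.Agent.LR
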