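import Pool.Agent.LR.LenDefs

/-!
# LR/CrossLen: the intersection number with `a₂` is the translation length

PROOFS. `len_le_b2Count`: induction on the list `w`: `L 1 = 0` (by `zero`), `mk (p :: w) = p * mk w`, `L` of a
letter `a₁^{±}, b₁^{±}, a₂^{±}` is `0`, `L b₂^{±} = 1`.
`exists_word`: induction on `L g`. If `L g = 0` then `g` is in the closure of `{a₁, b₁, a₂}` (`zero`), so it is
given by a word without `b₂` (closure induction; `b2Count` of an appended / inverted word). If `L g = n + 1` use
`geod` and append the words.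
`cross_le_len`, `exists_cross_len`: `cross γ` is the infimum (`Nat.sInf_mem`, `Nat.sInf_le`) of `b2Count w` over
the words `w` with `mk w = x γ x⁻¹`; the set is nonempty by `exists_word`.
-/

namespace Pool.Agent.LR

open Surf

variable {L : Surf → ℕ}

/-- The value of a word. -/
def crossVal (w : List (Gen × Bool)) : Surf :=
  (PresentedGroup.mk ({surfRel} : Set (FreeGroup Gen))) (FreeGroup.mk w)

theorem crossVal_append (v w : List (Gen × Bool)) : crossVal (v ++ w) = crossVal v * crossVal w := by
  unfold crossVal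
  rw [← FreeGroup.mul_mk, map_mul]

theorem crossVal_nil : crossVal [] = 1 := by
  unfold crossVal
  rw [← FreeGroup.one_eq_mk, map_one]

theorem crossVal_true (g : Gen) : crossVal [(g, true)] = PresentedGroup.of g := rfl

theorem crossVal_false (g : Gen) : crossVal [(g, false)] = (PresentedGroup.of g)⁻¹ := by
  unfold crossVal
  have h : (FreeGroup.mk [(g, false)]) = (FreeGroup.of g)⁻¹ := by
    rw [FreeGroup.of, FreeGroup.inv_mk]
    rfl
  rw [h, map_inv]
  rfl

theorem crossVal_invRev (w : List (Gen × Bool)) : crossVal (FreeGroup.invRev w) = (crossVal w)⁻¹ := by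
  unfold crossVal
  rw [← FreeGroup.inv_mk, map_inv]

theorem b2Count_append (v w : List (Gen × Bool)) : b2Count (v ++ w) = b2Count v + b2Count w := by
  unfold b2Count
  rw [List.countP_append]

theorem b2Count_invRev (w : List (Gen × Bool)) : b2Count (FreeGroup.invRev w) = b2Count w := by
  unfold b2Count FreeGroup.invRev
  rw [List.countP_reverse, List.countP_map]
  rfl

theorem L_one (h : LenS L) : L 1 = 0 := (h.zero 1).2 (one_mem _)

theorem L_letter (h : LenS L) (p : Gen × Bool) : L (crossVal [p]) ≤ b2Count [p] := by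
  have h0 : ∀ g : Surf, g ∈ ({a1, b1, a2} : Set Surf) → L g = 0 := fun g hg =>
    (h.zero g).2 (Subgroup.subset_closure hg)
  have key : ∀ g : Gen, L (PresentedGroup.of g : Surf) ≤ b2Count [(g, true)] := by
    intro g
    cases g
    · exact (h0 a1 (by simp)).le.trans (Nat.zero_le _)
    · exact (h0 b1 (by simp)).le.trans (Nat.zero_le _)
    · exact (h0 a2 (by simp)).le.trans (Nat.zero_le _)
    · exact h.hb2.le
  obtain ⟨g, b⟩ := p
  cases b
  · rw [crossVal_false, h.inv]
    exact key g
  · rw [crossVal_true]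
    exact key g

theorem len_le_b2Count (h : LenS L) (w : List (Gen × Bool)) :
    L ((PresentedGroup.mk ({surfRel} : Set (FreeGroup Gen))) (FreeGroup.mk w)) ≤ b2Count w := by
  change L (crossVal w) ≤ b2Count w
  induction w with
  | nil => rw [crossVal_nil, L_one h]; exact Nat.zero_le _
  | cons p w ih =>
    have e : p :: w = [p] ++ w := rfl
    rw [e, crossVal_append, b2Count_append]
    exact (h.mul _ _).trans (Nat.add_le_add (L_letter h p) ih)

theorem word_of_closure (g : Surf) (hg : g ∈ Subgroup.closure ({a1, b1, a2} : Set Surf)) :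
    ∃ w : List (Gen × Bool), crossVal w = g ∧ b2Count w = 0 := by
  induction hg using Subgroup.closure_induction with
  | mem x hx =>
    rcases hx with rfl | rfl | rfl
    · exact ⟨[(Gen.a1, true)], rfl, rfl⟩
    · exact ⟨[(Gen.b1, true)], rfl, rfl⟩
    · exact ⟨[(Gen.a2, true)], rfl, rfl⟩
  | one => exact ⟨[], crossVal_nil, rfl⟩
  | mul x y _ _ hx hy =>
    obtain ⟨v, hv, hv'⟩ := hx
    obtain ⟨w, hw, hw'⟩ := hy
    exact ⟨v ++ w, by rw [crossVal_append, hv, hw], by rw [b2Count_append, hv', hw']⟩
  | inv x _ hx =>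
    obtain ⟨v, hv, hv'⟩ := hx
    exact ⟨FreeGroup.invRev v, by rw [crossVal_invRev, hv], by rw [b2Count_invRev, hv']⟩

theorem exists_word (h : LenS L) (g : Surf) : ∃ w : List (Gen × Bool),
    (PresentedGroup.mk ({surfRel} : Set (FreeGroup Gen))) (FreeGroup.mk w) = g ∧ b2Count w = L g := by
  change ∃ w : List (Gen × Bool), crossVal w = g ∧ b2Count w = L g
  generalize hn : L g = n
  induction n generalizing g with
  | zero => exact word_of_closure g ((h.zero g).1 hn)
  | succ n ih =>
    obtain ⟨x, g', hx, hg, hg'⟩ := h.geod g n hn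
    obtain ⟨v, hv, hv'⟩ := word_of_closure x ((h.zero x).1 hx)
    obtain ⟨w, hw, hw'⟩ := ih g' hg'
    rcases hg with rfl | rfl
    · refine ⟨v ++ ([(Gen.b2, true)] ++ w), ?_, ?_⟩
      · rw [crossVal_append, crossVal_append, hv, hw, crossVal_true, mul_assoc]
        rfl
      · rw [b2Count_append, b2Count_append, hv', hw']
        show 0 + (1 + n) = n + 1
        omega
    · refine ⟨v ++ ([(Gen.b2, false)] ++ w), ?_, ?_⟩
      · rw [crossVal_append, crossVal_append, hv, hw, crossVal_false, mul_assoc]
        rfl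
      · rw [b2Count_append, b2Count_append, hv', hw']
        show 0 + (1 + n) = n + 1
        omega

theorem cross_le_len (h : LenS L) (γ x : Surf) : cross γ ≤ L (x * γ * x⁻¹) := by
  obtain ⟨w, hw, hw'⟩ := exists_word h (x * γ * x⁻¹)
  exact Nat.sInf_le ⟨w, x, hw, hw'⟩

theorem exists_cross_len (h : LenS L) (γ : Surf) : ∃ x, cross γ = L (x * γ * x⁻¹) := by
  have hne : {n | ∃ (w : List (Gen × Bool)) (x : Surf),
      (PresentedGroup.mk ({surfRel} : Set (FreeGroup Gen))) (FreeGroup.mk w) = x * γ * x⁻¹ ∧
        b2Count w = n}.Nonempty := by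
    obtain ⟨w, hw, hw'⟩ := exists_word h (1 * γ * 1⁻¹)
    exact ⟨_, w, 1, hw, hw'⟩
  obtain ⟨w, x, hw, hc⟩ := Nat.sInf_mem hne
  refine ⟨x, le_antisymm (cross_le_len h γ x) ?_⟩
  have := len_le_b2Count h w
  rw [hw, hc] at this
  exact this

end Pool.Agent.LR
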