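import Mathlib

/-!
# LR/Defs: the mapping class group of genus two, its Veech subgroup, and projective measured laminations

`Surf` is the fundamental group of the closed oriented surface of genus two. The five Dehn twists
`twist1, …, twist5` about the chain of curves `c₁, …, c₅` (Humphries generators) and the inner automorphisms
generate the group `Mod` of orientation preserving automorphisms; `MCG` is its quotient by the inner
automorphisms, the mapping class group. `cross γ` is the geometric intersection number of (the free homotopy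
class of) `γ` with the simple closed curve `a₂ = c₄`, and `ML` is the closure of the set of all functions
`r • i(α(a₂), ·)`, `r ≥ 0`, `α` a mapping class, in the space of functions on `Surf`; `PML` is its
projectivisation, with the quotient topology.
-/

namespace Pool.Agent.LR

/-- The generators of the surface group. -/
inductive Gen
  | a1 | b1 | a2 | b2
  deriving DecidableEq

open FreeGroup in
/-- The relator `[a₁, b₁] [a₂, b₂]`. -/
def surfRel : FreeGroup Gen :=
  of Gen.a1 * of Gen.b1 * (of Gen.a1)⁻¹ * (of Gen.b1)⁻¹ *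
    (of Gen.a2 * of Gen.b2 * (of Gen.a2)⁻¹ * (of Gen.b2)⁻¹)

/-- The fundamental group of the closed orientable surface of genus two. -/
abbrev Surf : Type := PresentedGroup ({surfRel} : Set (FreeGroup Gen))

namespace Surf

/-- generator -/
def a1 : Surf := PresentedGroup.of Gen.a1
/-- generator -/
def b1 : Surf := PresentedGroup.of Gen.b1
/-- generator -/
def a2 : Surf := PresentedGroup.of Gen.a2
/-- generator -/
def b2 : Surf := PresentedGroup.of Gen.b2

theorem rel : a1 * b1 * a1⁻¹ * b1⁻¹ * (a2 * b2 * a2⁻¹ * b2⁻¹) = 1 := by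
  have h : (PresentedGroup.mk ({surfRel} : Set (FreeGroup Gen))) surfRel = 1 :=
    PresentedGroup.one_of_mem rfl
  exact h

/-- The homomorphism from the surface group with the given values on the generators. -/
def hom {G : Type*} [Group G] (x1 y1 x2 y2 : G)
    (h : x1 * y1 * x1⁻¹ * y1⁻¹ * (x2 * y2 * x2⁻¹ * y2⁻¹) = 1) : Surf →* G :=
  PresentedGroup.toGroup (f := fun g => match g with
    | Gen.a1 => x1 | Gen.b1 => y1 | Gen.a2 => x2 | Gen.b2 => y2) (by
    intro r hr
    rw [Set.mem_singleton_iff] at hr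
    subst hr
    simpa [surfRel] using h)

@[simp] theorem hom_a1 {G : Type*} [Group G] (x1 y1 x2 y2 : G) (h) :
    hom x1 y1 x2 y2 h a1 = x1 := by simp [hom, a1]
@[simp] theorem hom_b1 {G : Type*} [Group G] (x1 y1 x2 y2 : G) (h) :
    hom x1 y1 x2 y2 h b1 = y1 := by simp [hom, b1]
@[simp] theorem hom_a2 {G : Type*} [Group G] (x1 y1 x2 y2 : G) (h) :
    hom x1 y1 x2 y2 h a2 = x2 := by simp [hom, a2]
@[simp] theorem hom_b2 {G : Type*} [Group G] (x1 y1 x2 y2 : G) (h) :
    hom x1 y1 x2 y2 h b2 = y2 := by simp [hom, b2]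

theorem hom_ext {G : Type*} [Group G] {f g : Surf →* G} (h1 : f a1 = g a1) (h2 : f b1 = g b1)
    (h3 : f a2 = g a2) (h4 : f b2 = g b2) : f = g := by
  apply PresentedGroup.ext
  intro x
  cases x <;> assumption

/-- A conjugate of the relator is trivial. -/
theorem eq_one_of_conj {x w : Surf}
    (h : x = w * (a1 * b1 * a1⁻¹ * b1⁻¹ * (a2 * b2 * a2⁻¹ * b2⁻¹)) * w⁻¹) : x = 1 := by
  rw [h, rel]; group

/-- The twist `T₁` about `c₁ = a₁`: `b₁ ↦ b₁ a₁⁻¹`. -/
def twist1 : MulAut Surf :=
  MonoidHom.toMulEquiv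
    (hom a1 (b1 * a1⁻¹) a2 b2 (eq_one_of_conj (w := 1) (by group)))
    (hom a1 (b1 * a1) a2 b2 (eq_one_of_conj (w := 1) (by group)))
    (hom_ext (by simp) (by simp) (by simp) (by simp))
    (hom_ext (by simp) (by simp) (by simp) (by simp))

/-- The twist `T₂` about `c₂ = b₁`: `a₁ ↦ a₁ b₁`. -/
def twist2 : MulAut Surf :=
  MonoidHom.toMulEquiv
    (hom (a1 * b1) b1 a2 b2 (eq_one_of_conj (w := 1) (by group)))
    (hom (a1 * b1⁻¹) b1 a2 b2 (eq_one_of_conj (w := 1) (by group)))
    (hom_ext (by simp) (by simp) (by simp) (by simp))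
    (hom_ext (by simp) (by simp) (by simp) (by simp))

/-- The twist `T₃` about `c₃ = a₁⁻¹ b₂`: `b₁ ↦ c₃ b₁`, `a₂ ↦ c₃ a₂`. -/
def twist3 : MulAut Surf :=
  MonoidHom.toMulEquiv
    (hom a1 (a1⁻¹ * b2 * b1) (a1⁻¹ * b2 * a2) b2 (eq_one_of_conj (w := b2 * a1⁻¹) (by group)))
    (hom a1 (b2⁻¹ * a1 * b1) (b2⁻¹ * a1 * a2) b2 (eq_one_of_conj (w := a1 * b2⁻¹) (by group)))
    (hom_ext (by simp) (by simp [mul_assoc]) (by simp [mul_assoc]) (by simp))
    (hom_ext (by simp) (by simp [mul_assoc]) (by simp [mul_assoc]) (by simp))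

/-- The twist `T₄` about `c₄ = a₂`: `b₂ ↦ b₂ a₂⁻¹`. -/
def twist4 : MulAut Surf :=
  MonoidHom.toMulEquiv
    (hom a1 b1 a2 (b2 * a2⁻¹) (eq_one_of_conj (w := 1) (by group)))
    (hom a1 b1 a2 (b2 * a2) (eq_one_of_conj (w := 1) (by group)))
    (hom_ext (by simp) (by simp) (by simp) (by simp))
    (hom_ext (by simp) (by simp) (by simp) (by simp))

/-- The twist `T₅` about `c₅ = b₂`: `a₂ ↦ a₂ b₂`. -/
def twist5 : MulAut Surf :=
  MonoidHom.toMulEquiv
    (hom a1 b1 (a2 * b2) b2 (eq_one_of_conj (w := 1) (by group)))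
    (hom a1 b1 (a2 * b2⁻¹) b2 (eq_one_of_conj (w := 1) (by group)))
    (hom_ext (by simp) (by simp) (by simp) (by simp))
    (hom_ext (by simp) (by simp) (by simp) (by simp))

end Surf

open Surf

/-- The group of orientation preserving automorphisms of the surface group. -/
def Mod : Subgroup (MulAut Surf) :=
  Subgroup.closure ({twist1, twist2, twist3, twist4, twist5} ∪ Set.range (MulAut.conj (G := Surf)))

/-- The inner automorphisms, as a subgroup of `Mod`. -/
def Inn : Subgroup Mod := (MulAut.conj (G := Surf)).range.subgroupOf Mod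

instance : Inn.Normal := by
  refine ⟨?_⟩
  rintro ⟨α, hα⟩ ⟨x, hx⟩ ⟨β, hβ⟩
  refine ⟨β x, ?_⟩
  have hx' : MulAut.conj x = α := hx
  show MulAut.conj (β x) = β * α * β⁻¹
  rw [← hx']
  ext y
  simp

/-- The mapping class group of the closed orientable surface of genus two. -/
abbrev MCG : Type := Mod ⧸ Inn

theorem mem_mod_of_twist {α : MulAut Surf}
    (h : α ∈ ({twist1, twist2, twist3, twist4, twist5} : Set (MulAut Surf))) : α ∈ Mod :=
  Subgroup.subset_closure (Or.inl h)

/-- The automorphism `T₂ T₄`. -/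
def deltaAut : Mod := ⟨twist2 * twist4, mul_mem (mem_mod_of_twist (by simp)) (mem_mod_of_twist (by simp))⟩

/-- The automorphism `T₁ T₃`. -/
def deltaAut' : Mod := ⟨twist1 * twist3, mul_mem (mem_mod_of_twist (by simp)) (mem_mod_of_twist (by simp))⟩

/-- The multitwist `δ = T₂ T₄`. -/
def δ : MCG := QuotientGroup.mk deltaAut

/-- The multitwist `δ' = T₁ T₃`. -/
def δ' : MCG := QuotientGroup.mk deltaAut'

/-- The Veech group `F(ξ₂)`, generated by the two multitwists about the chain `c₁, c₂, c₃, c₄`. -/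
def F : Subgroup MCG := Subgroup.closure {δ, δ'}

/-- The hyperelliptic involution, the central element `-1` of the Veech group. -/
def ι : MCG := (δ * δ') ^ 5

/-- The number of letters `b₂^{±1}` in a word. -/
def b2Count (w : List (Gen × Bool)) : ℕ := w.countP (fun p => p.1 = Gen.b2)

/-- The geometric intersection number of `γ` with the curve `a₂`: the smallest number of letters `b₂^{±1}`
in a word which represents a conjugate of `γ`. -/
noncomputable def cross (γ : Surf) : ℕ :=
  sInf {n | ∃ (w : List (Gen × Bool)) (x : Surf),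
    (PresentedGroup.mk ({surfRel} : Set (FreeGroup Gen))) (FreeGroup.mk w) = x * γ * x⁻¹ ∧ b2Count w = n}

/-- The weighted simple closed curves in the orbit of `a₂`, as functions on the surface group. -/
def weightedCurves : Set (Surf → ℝ) :=
  {f | ∃ (r : ℝ) (α : MulAut Surf), 0 ≤ r ∧ α ∈ Mod ∧ f = fun γ => r * cross (α γ)}

/-- The space of measured laminations (with the zero lamination). -/
def ML : Set (Surf → ℝ) := closure weightedCurves

/-- The non-zero measured laminations. -/
def ML0 : Type := {f : Surf → ℝ // f ∈ ML ∧ f ≠ 0}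

instance : TopologicalSpace ML0 := inferInstanceAs (TopologicalSpace {f : Surf → ℝ // f ∈ ML ∧ f ≠ 0})

/-- Proportionality of measured laminations. -/
instance projSetoid : Setoid ML0 where
  r f g := ∃ c : ℝ, 0 < c ∧ g.1 = c • f.1
  iseqv := {
    refl := fun f => ⟨1, one_pos, by simp⟩
    symm := fun {f g} ⟨c, hc, h⟩ => ⟨c⁻¹, inv_pos.2 hc, by rw [h, smul_smul, inv_mul_cancel₀ hc.ne', one_smul]⟩
    trans := fun {f g h} ⟨c, hc, h1⟩ ⟨d, hd, h2⟩ => ⟨d * c, mul_pos hd hc, by rw [h2, h1, smul_smul]⟩ }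

/-- The space of projective measured laminations, with the quotient topology. -/
abbrev PML : Type := Quotient projSetoid

theorem weightedCurves_comp {f : Surf → ℝ} (hf : f ∈ weightedCurves) {α : MulAut Surf} (hα : α ∈ Mod) :
    (fun γ => f (α γ)) ∈ weightedCurves := by
  obtain ⟨r, β, hr, hβ, rfl⟩ := hf
  exact ⟨r, β * α, hr, mul_mem hβ hα, rfl⟩

theorem ML_comp {f : Surf → ℝ} (hf : f ∈ ML) {α : MulAut Surf} (hα : α ∈ Mod) :
    (fun γ => f (α γ)) ∈ ML := by
  have hc : Continuous (fun f : Surf → ℝ => fun γ => f (α γ)) :=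
    continuous_pi fun γ => continuous_apply _
  have := hc.continuousWithinAt.mem_closure_image hf
  refine closure_mono ?_ this
  rintro _ ⟨g, hg, rfl⟩
  exact weightedCurves_comp hg hα

/-- The action of an automorphism `α` on measured laminations: `i(α μ, γ) = i(μ, α⁻¹ γ)`. -/
def ML0.act (α : Mod) (f : ML0) : ML0 :=
  ⟨fun γ => f.1 ((α⁻¹ : Mod).1 γ), ML_comp f.2.1 (α⁻¹ : Mod).2, fun h => f.2.2 (by
    funext γ
    have := congrFun h ((α : MulAut Surf) γ)
    simpa using this)⟩

/-- The action of an automorphism on projective measured laminations. -/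
def PML.act (α : Mod) : PML → PML :=
  Quotient.map (ML0.act α) (by
    rintro f g ⟨c, hc, h⟩
    exact ⟨c, hc, by
      funext γ
      show g.1 _ = c * f.1 _
      rw [h]; rfl⟩)

end Pool.Agent.LR
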