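import Mathlib

/-!
# LR/Dyn: north-south dynamics of hyperbolic Möbius transformations

PROOFS.
* `continuous_mobius`: a Möbius transformation is continuous on `OnePoint ℝ`. (At a finite point `t` with `c t + d ≠ 0` the map is
  `t ↦ (a t + b) / (c t + d)` nearby; at a pole or at `∞` use `OnePoint.tendsto_nhds_infty`/`OnePoint.nhds_infty_eq` and that
  `|(a t + b) / (c t + d)| → ∞` at the pole (the numerator does not vanish there, `det ≠ 0`), `→ a / c` at `∞` for `c ≠ 0`, and for `c = 0` the map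
  is affine on `ℝ` and fixes `∞`.) It may be easier to write `GL₂` as generated by upper triangular matrices and `w = [[0,1],[1,0]]`
  (`t ↦ 1/t`), and to check continuity for these two kinds.
* `north_south`. Let `tr = M.trace`, `|tr| > 2`, `det = 1`. The characteristic polynomial has two real roots `μ`, `μ⁻¹` with `|μ| > 1`. There are
  eigenvectors, so `M = P * diag (μ, μ⁻¹) * P⁻¹` with `P ∈ GL₂(ℝ)`. `diag (μ, μ⁻¹) ^ n • t = μ^(2n) t` for real `t`, which tends to
  `∞` if `t ≠ 0`, and it fixes `∞` and `0`. So put `bp = P • ∞`, `bm = P • 0` and use the continuity of `P •`. For `M⁻¹` in the same way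
  (`μ^(-2n) t → 0` for real `t`).
-/

namespace Pool.Agent.LR

open Filter Topology OnePoint

theorem tendsto_coe_infty_of_abs {α : Type*} {l : Filter α} {g : α → ℝ}
    (h : Tendsto (fun x => |g x|) l atTop) :
    Tendsto (fun x => (g x : OnePoint ℝ)) l (𝓝 ∞) := by
  have h1 : Tendsto g l (coclosedCompact ℝ) := by
    rw [coclosedCompact_eq_cocompact, ← Metric.cobounded_eq_cocompact, ← comap_norm_atTop,
      tendsto_comap_iff]
    exact h
  exact OnePoint.tendsto_coe_infty.comp h1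

theorem tendsto_abs_cocompact : Tendsto (fun x : ℝ => |x|) (coclosedCompact ℝ) atTop := by
  rw [coclosedCompact_eq_cocompact]
  exact tendsto_norm_cocompact_atTop

theorem tendsto_abs_affine {a b : ℝ} (ha : a ≠ 0) :
    Tendsto (fun x : ℝ => |a * x + b|) (coclosedCompact ℝ) atTop := by
  have h1 : Tendsto (fun x : ℝ => |a| * |x| - |b|) (coclosedCompact ℝ) atTop := by
    exact tendsto_atTop_add_const_right _ _ (tendsto_abs_cocompact.const_mul_atTop (abs_pos.2 ha))
  refine tendsto_atTop_mono (fun x => ?_) h1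
  rw [← abs_mul]
  have := abs_sub_abs_le_abs_sub (a * x) (-b)
  rw [abs_neg, sub_neg_eq_add] at this
  exact this

theorem continuous_mobius (M : GL (Fin 2) ℝ) : Continuous (fun x : OnePoint ℝ => M • x) := by
  have hdet : M 0 0 * M 1 1 - M 0 1 * M 1 0 ≠ 0 := by
    have := M.det_ne_zero
    rwa [Matrix.det_fin_two] at this
  rw [OnePoint.continuous_iff]
  constructor
  · -- at infinity
    rw [OnePoint.smul_infty_eq_ite]
    simp only [OnePoint.smul_some_eq_ite]
    by_cases hc : M 1 0 = 0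
    · have hd : M 1 1 ≠ 0 := by
        intro h; apply hdet; rw [hc, h]; ring
      have ha : M 0 0 ≠ 0 := by
        intro h; apply hdet; rw [hc, h]; ring
      rw [if_pos hc]
      simp only [hc, zero_mul, zero_add, hd, if_false]
      apply tendsto_coe_infty_of_abs
      have : ∀ x : ℝ, |(M 0 0 * x + M 0 1) / M 1 1| = |M 1 1|⁻¹ * |M 0 0 * x + M 0 1| := by
        intro x; rw [abs_div]; ring
      simp only [this]
      exact (tendsto_abs_affine ha).const_mul_atTop (by positivity)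
    · rw [if_neg hc]
      have h1 : Tendsto (fun x : ℝ => |M 1 0 * x + M 1 1|) (coclosedCompact ℝ) atTop :=
        tendsto_abs_affine hc
      have h2 : ∀ᶠ x in coclosedCompact ℝ, M 1 0 * x + M 1 1 ≠ 0 := by
        filter_upwards [h1.eventually_gt_atTop 0] with x hx
        exact abs_pos.1 hx
      have h3 : Tendsto (fun x : ℝ => M 0 0 / M 1 0 -
          (M 0 0 * M 1 1 - M 0 1 * M 1 0) / M 1 0 * (M 1 0 * x + M 1 1)⁻¹)
          (coclosedCompact ℝ) (𝓝 (M 0 0 / M 1 0)) := by
        have h4 : Tendsto (fun x : ℝ => (M 1 0 * x + M 1 1)⁻¹) (coclosedCompact ℝ) (𝓝 0) := by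
          rw [tendsto_zero_iff_abs_tendsto_zero]
          have h5 := tendsto_inv_atTop_zero.comp h1
          refine h5.congr fun x => ?_
          simp [abs_inv]
        have h6 := (h4.const_mul ((M 0 0 * M 1 1 - M 0 1 * M 1 0) / M 1 0)).const_sub (M 0 0 / M 1 0)
        simpa using h6
      have h7 : Tendsto (fun x : ℝ => (((M 0 0 / M 1 0 -
          (M 0 0 * M 1 1 - M 0 1 * M 1 0) / M 1 0 * (M 1 0 * x + M 1 1)⁻¹ : ℝ)) : OnePoint ℝ))
          (coclosedCompact ℝ) (𝓝 ((M 0 0 / M 1 0 : ℝ) : OnePoint ℝ)) :=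
        (OnePoint.continuous_coe.tendsto _).comp h3
      refine h7.congr' ?_
      filter_upwards [h2] with x hx
      rw [if_neg hx]
      congr 1
      field_simp
      ring
  · -- finite points
    rw [continuous_iff_continuousAt]
    intro x₀
    rw [ContinuousAt]
    simp only [OnePoint.smul_some_eq_ite]
    have hden : ContinuousAt (fun x : ℝ => M 1 0 * x + M 1 1) x₀ := by fun_prop
    have hnum : ContinuousAt (fun x : ℝ => M 0 0 * x + M 0 1) x₀ := by fun_prop
    by_cases h0 : M 1 0 * x₀ + M 1 1 = 0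
    · rw [if_pos h0]
      have hn0 : M 0 0 * x₀ + M 0 1 ≠ 0 := by
        intro h
        by_cases hc : M 1 0 = 0
        · apply hdet
          have hd : M 1 1 = 0 := by rw [hc] at h0; simpa using h0
          rw [hc, hd]; ring
        · have : M 1 0 * (M 0 0 * x₀ + M 0 1) - M 0 0 * (M 1 0 * x₀ + M 1 1) = 0 := by
            rw [h, h0]; ring
          apply hdet
          linear_combination -this
      have hc : M 1 0 ≠ 0 := by
        intro hc
        apply hdet
        have hd : M 1 1 = 0 := by rw [hc] at h0; simpa using h0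
        rw [hc, hd]; ring
      rw [← nhdsNE_sup_pure, tendsto_sup]
      constructor
      · have hev : ∀ᶠ x in 𝓝[≠] x₀, M 1 0 * x + M 1 1 ≠ 0 := by
          filter_upwards [self_mem_nhdsWithin] with x hx h
          apply hx
          have : M 1 0 * (x - x₀) = 0 := by linear_combination h - h0
          rcases mul_eq_zero.1 this with h' | h'
          · exact absurd h' hc
          · exact sub_eq_zero.1 h'
        have hmain : Tendsto (fun x : ℝ => (((M 0 0 * x + M 0 1) / (M 1 0 * x + M 1 1) : ℝ) :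
            OnePoint ℝ)) (𝓝[≠] x₀) (𝓝 ∞) := by
          apply tendsto_coe_infty_of_abs
          have e : ∀ x : ℝ, |(M 0 0 * x + M 0 1) / (M 1 0 * x + M 1 1)| =
              |M 0 0 * x + M 0 1| * |M 1 0 * x + M 1 1|⁻¹ := by
            intro x; rw [abs_div]; rfl
          simp only [e]
          have t1 : Tendsto (fun x : ℝ => |M 0 0 * x + M 0 1|) (𝓝[≠] x₀)
              (𝓝 |M 0 0 * x₀ + M 0 1|) :=
            (hnum.abs.tendsto).mono_left nhdsWithin_le_nhds
          have t2 : Tendsto (fun x : ℝ => |M 1 0 * x + M 1 1|) (𝓝[≠] x₀) (𝓝[>] 0) := by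
            rw [tendsto_nhdsWithin_iff]
            constructor
            · have := (hden.abs.tendsto).mono_left (nhdsWithin_le_nhds (s := {x₀}ᶜ))
              simpa [h0] using this
            · filter_upwards [hev] with x hx
              exact abs_pos.2 hx
          exact t1.pos_mul_atTop (abs_pos.2 hn0) (tendsto_inv_nhdsGT_zero.comp t2)
        refine hmain.congr' ?_
        filter_upwards [hev] with x hx
        rw [if_neg hx]
      · rw [tendsto_pure_left]
        intro s hs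
        rw [if_pos h0]
        exact mem_of_mem_nhds hs
    · rw [if_neg h0]
      have h1 : ∀ᶠ x in 𝓝 x₀, M 1 0 * x + M 1 1 ≠ 0 := hden.eventually_ne h0
      have h2 : Tendsto (fun x : ℝ => (((M 0 0 * x + M 0 1) / (M 1 0 * x + M 1 1) : ℝ) :
          OnePoint ℝ)) (𝓝 x₀) (𝓝 (((M 0 0 * x₀ + M 0 1) / (M 1 0 * x₀ + M 1 1) : ℝ) :
          OnePoint ℝ)) :=
        (OnePoint.continuous_coe.tendsto _).comp (hnum.div hden h0).tendsto
      refine h2.congr' ?_
      filter_upwards [h1] with x hx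
      rw [if_neg hx]

/-- diagonalisation -/
theorem exists_diag (M : GL (Fin 2) ℝ) (hdet : Matrix.det (M : Matrix (Fin 2) (Fin 2) ℝ) = 1)
    (htr : 2 < |Matrix.trace (M : Matrix (Fin 2) (Fin 2) ℝ)|) :
    ∃ (P D : GL (Fin 2) ℝ) (m : ℝ), 1 < |m| ∧ M = P * D * P⁻¹ ∧ D 0 0 = m ∧ D 0 1 = 0 ∧ D 1 0 = 0 ∧
      D 1 1 = m⁻¹ := by
  set A : Matrix (Fin 2) (Fin 2) ℝ := (M : Matrix (Fin 2) (Fin 2) ℝ) with hA
  set t := A.trace with ht
  have hdisc : 0 < t ^ 2 - 4 := by
    have : 2 ^ 2 < |t| ^ 2 := by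
      exact pow_lt_pow_left₀ htr (by norm_num) (by norm_num)
    rw [sq_abs] at this
    linarith
  set s := Real.sqrt (t ^ 2 - 4) with hs
  have hs0 : 0 < s := Real.sqrt_pos.2 hdisc
  have hs2 : s ^ 2 = t ^ 2 - 4 := Real.sq_sqrt hdisc.le
  obtain ⟨m, hm1, hm2⟩ : ∃ m : ℝ, 1 < |m| ∧ m ^ 2 - t * m + 1 = 0 := by
    rcases lt_or_ge 0 t with h | h
    · refine ⟨(t + s) / 2, ?_, ?_⟩
      · rw [abs_of_pos h] at htr
        rw [abs_of_pos (by positivity)]
        linarith
      · linear_combination (1 / 4) * hs2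
    · refine ⟨(t - s) / 2, ?_, ?_⟩
      · rw [abs_of_nonpos h] at htr
        rw [abs_of_neg (by linarith)]
        linarith
      · linear_combination (1 / 4) * hs2
  have hm0 : m ≠ 0 := by
    rintro rfl
    simp at hm1
    linarith
  have hmi : m⁻¹ ^ 2 - t * m⁻¹ + 1 = 0 := by
    field_simp
    linear_combination hm2
  have key : ∀ l : ℝ, l ^ 2 - t * l + 1 = 0 → ∃ v : Fin 2 → ℝ, v ≠ 0 ∧ A.mulVec v = l • v := by
    intro l hl
    have hd : (A - l • (1 : Matrix (Fin 2) (Fin 2) ℝ)).det = 0 := by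
      rw [Matrix.det_fin_two] at hdet ⊢
      rw [Matrix.trace_fin_two] at ht
      simp only [Matrix.sub_apply, Matrix.smul_apply, Matrix.one_apply_eq, smul_eq_mul, mul_one]
      rw [Matrix.one_apply_ne (by decide), Matrix.one_apply_ne (by decide)]
      rw [ht] at hl
      linear_combination hl + hdet
    obtain ⟨v, hv0, hv⟩ := Matrix.exists_mulVec_eq_zero_iff.2 hd
    refine ⟨v, hv0, ?_⟩
    rw [Matrix.sub_mulVec, Matrix.smul_mulVec, Matrix.one_mulVec, sub_eq_zero] at hv
    exact hv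
  obtain ⟨v, hv0, hv⟩ := key m hm2
  obtain ⟨w, hw0, hw⟩ := key m⁻¹ hmi
  have hne : m ≠ m⁻¹ := by
    intro h
    have : |m| = |m|⁻¹ := by rw [← abs_inv, ← h]
    have h2 : |m|⁻¹ < 1 := inv_lt_one_of_one_lt₀ hm1
    linarith
  have hPdet : v 0 * w 1 - w 0 * v 1 ≠ 0 := by
    intro h
    have e1 := congrFun hv 0
    have e2 := congrFun hv 1
    have e3 := congrFun hw 0
    have e4 := congrFun hw 1
    simp only [Matrix.mulVec_fin_two, Matrix.cons_val_zero, Matrix.cons_val_one, Pi.smul_apply,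
      smul_eq_mul] at e1 e2 e3 e4
    have hmm : m - m⁻¹ ≠ 0 := sub_ne_zero.2 hne
    -- v and w are proportional, with different eigenvalues
    have a1 : (m - m⁻¹) * (v 0 * w 0) = 0 := by
      linear_combination -w 0 * e1 + v 0 * e3 - A 0 1 * h
    have a2 : (m - m⁻¹) * (v 1 * w 1) = 0 := by
      linear_combination -w 1 * e2 + v 1 * e4 + A 1 0 * h
    rcases mul_eq_zero.1 a1 with a1 | a1
    · exact hmm a1
    rcases mul_eq_zero.1 a2 with a2 | a2
    · exact hmm a2
    by_cases hv00 : v 0 = 0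
    · have hv1 : v 1 ≠ 0 := by
        intro h1
        apply hv0
        ext i
        fin_cases i
        · exact hv00
        · exact h1
      have hw1 : w 1 = 0 := (mul_eq_zero.1 a2).resolve_left hv1
      have hw2 : w 0 = 0 := by
        rw [hv00, zero_mul, zero_sub, neg_eq_zero] at h
        exact (mul_eq_zero.1 h).resolve_right hv1
      apply hw0
      ext i
      fin_cases i
      · exact hw2
      · exact hw1
    · have hw2 : w 0 = 0 := (mul_eq_zero.1 a1).resolve_left hv00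
      have hw1 : w 1 = 0 := by
        rw [hw2, zero_mul, sub_zero] at h
        exact (mul_eq_zero.1 h).resolve_left hv00
      apply hw0
      ext i
      fin_cases i
      · exact hw2
      · exact hw1
  have hPd : (!![v 0, w 0; v 1, w 1] : Matrix (Fin 2) (Fin 2) ℝ).det ≠ 0 := by
    rw [Matrix.det_fin_two_of]; exact hPdet
  have hDd : (!![m, 0; 0, m⁻¹] : Matrix (Fin 2) (Fin 2) ℝ).det ≠ 0 := by
    rw [Matrix.det_fin_two_of, mul_inv_cancel₀ hm0]; norm_num
  refine ⟨Matrix.GeneralLinearGroup.mkOfDetNeZero _ hPd,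
    Matrix.GeneralLinearGroup.mkOfDetNeZero _ hDd, m, hm1, ?_, rfl, rfl, rfl, rfl⟩
  rw [eq_mul_inv_iff_mul_eq]
  apply Matrix.GeneralLinearGroup.ext
  have e1 := congrFun hv 0
  have e2 := congrFun hv 1
  have e3 := congrFun hw 0
  have e4 := congrFun hw 1
  simp only [Matrix.mulVec_fin_two, Matrix.cons_val_zero, Matrix.cons_val_one, Pi.smul_apply,
    smul_eq_mul] at e1 e2 e3 e4
  have hL : ((M * Matrix.GeneralLinearGroup.mkOfDetNeZero _ hPd : GL (Fin 2) ℝ) :
      Matrix (Fin 2) (Fin 2) ℝ) = A * !![v 0, w 0; v 1, w 1] := rfl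
  have hR : ((Matrix.GeneralLinearGroup.mkOfDetNeZero _ hPd *
      Matrix.GeneralLinearGroup.mkOfDetNeZero _ hDd : GL (Fin 2) ℝ) :
      Matrix (Fin 2) (Fin 2) ℝ) = !![v 0, w 0; v 1, w 1] * !![m, 0; 0, m⁻¹] := rfl
  intro i j
  rw [hL, hR]
  fin_cases i <;> fin_cases j
  · simp [Matrix.mul_apply, Fin.sum_univ_two]; linarith
  · simp [Matrix.mul_apply, Fin.sum_univ_two]; linarith
  · simp [Matrix.mul_apply, Fin.sum_univ_two]; linarith
  · simp [Matrix.mul_apply, Fin.sum_univ_two]; linarith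

/-- the action of powers of a diagonal matrix -/
theorem diag_pow_smul {D : GL (Fin 2) ℝ} {m : ℝ} (hm : m ≠ 0) (h00 : D 0 0 = m) (h01 : D 0 1 = 0)
    (h10 : D 1 0 = 0) (h11 : D 1 1 = m⁻¹) (n : ℕ) :
    D ^ n • (∞ : OnePoint ℝ) = ∞ ∧ ∀ t : ℝ, D ^ n • (t : OnePoint ℝ) = (((m ^ 2) ^ n * t : ℝ) :
      OnePoint ℝ) := by
  induction n with
  | zero => simp
  | succ n ih =>
    rw [pow_succ']
    constructor
    · rw [mul_smul, ih.1, OnePoint.smul_infty_eq_ite, if_pos h10]
    · intro t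
      rw [mul_smul, ih.2, OnePoint.smul_some_eq_ite, h00, h01, h10, h11, zero_mul, zero_add,
        if_neg (inv_ne_zero hm)]
      congr 1
      field_simp
      ring

theorem diag_inv {D : GL (Fin 2) ℝ} {m : ℝ} (hm : m ≠ 0) (h00 : D 0 0 = m) (h01 : D 0 1 = 0)
    (h10 : D 1 0 = 0) (h11 : D 1 1 = m⁻¹) :
    (D⁻¹) 0 0 = m⁻¹ ∧ (D⁻¹) 0 1 = 0 ∧ (D⁻¹) 1 0 = 0 ∧ (D⁻¹) 1 1 = (m⁻¹)⁻¹ := by
  have hdet : (D : Matrix (Fin 2) (Fin 2) ℝ).det = 1 := by
    rw [Matrix.det_fin_two, h00, h01, h10, h11, mul_inv_cancel₀ hm]; ring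
  have h : ((D⁻¹ : GL (Fin 2) ℝ) : Matrix (Fin 2) (Fin 2) ℝ) =
      !![m⁻¹, 0; 0, m] := by
    rw [Matrix.coe_units_inv, Matrix.inv_def, hdet, Matrix.adjugate_fin_two, h00, h01, h10, h11]
    simp
  refine ⟨?_, ?_, ?_, ?_⟩
  · rw [h]; rfl
  · rw [h]; rfl
  · rw [h]; rfl
  · rw [h, inv_inv]; rfl

theorem north_south (M : GL (Fin 2) ℝ) (hdet : Matrix.det (M : Matrix (Fin 2) (Fin 2) ℝ) = 1)
    (htr : 2 < |Matrix.trace (M : Matrix (Fin 2) (Fin 2) ℝ)|) :
    ∃ bp bm : OnePoint ℝ, bp ≠ bm ∧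
      (∀ x, x ≠ bm → Tendsto (fun n : ℕ => M ^ n • x) atTop (𝓝 bp)) ∧
      (∀ x, x ≠ bp → Tendsto (fun n : ℕ => M⁻¹ ^ n • x) atTop (𝓝 bm)) := by
  obtain ⟨P, D, m, hm1, hM, h00, h01, h10, h11⟩ := exists_diag M hdet htr
  have hm0 : m ≠ 0 := by
    rintro rfl
    simp at hm1
    linarith
  have hm2 : 1 < m ^ 2 := by
    rw [← sq_abs]
    nlinarith [abs_nonneg m]
  have hpow : ∀ n : ℕ, ∀ x : OnePoint ℝ, M ^ n • x = P • (D ^ n • (P⁻¹ • x)) := by
    intro n x
    rw [hM, conj_pow, mul_smul, mul_smul]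
  have hMi : M⁻¹ = P * D⁻¹ * P⁻¹ := by rw [hM]; group
  have hpowi : ∀ n : ℕ, ∀ x : OnePoint ℝ, M⁻¹ ^ n • x = P • (D⁻¹ ^ n • (P⁻¹ • x)) := by
    intro n x
    rw [hMi, conj_pow, mul_smul, mul_smul]
  obtain ⟨i00, i01, i10, i11⟩ := diag_inv hm0 h00 h01 h10 h11
  refine ⟨P • (∞ : OnePoint ℝ), P • ((0 : ℝ) : OnePoint ℝ), ?_, ?_, ?_⟩
  · intro h
    have := smul_left_cancel P h
    exact OnePoint.infty_ne_coe _ this
  · intro x hx
    have hy : P⁻¹ • x ≠ ((0 : ℝ) : OnePoint ℝ) := by
      intro h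
      apply hx
      rw [← h, smul_inv_smul]
    simp only [hpow]
    refine ((continuous_mobius P).tendsto _).comp ?_
    generalize P⁻¹ • x = y at hy
    induction y using OnePoint.rec with
    | infty =>
      simp only [(diag_pow_smul hm0 h00 h01 h10 h11 _).1]
      exact tendsto_const_nhds
    | coe t =>
      have ht : t ≠ 0 := by
        rintro rfl; exact hy rfl
      simp only [(diag_pow_smul hm0 h00 h01 h10 h11 _).2]
      apply tendsto_coe_infty_of_abs
      simp only [abs_mul, abs_pow]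
      refine Tendsto.atTop_mul_const (abs_pos.2 ht) ?_
      have := tendsto_pow_atTop_atTop_of_one_lt hm2
      simpa using this
  · intro x hx
    have hy : P⁻¹ • x ≠ (∞ : OnePoint ℝ) := by
      intro h
      apply hx
      rw [← h, smul_inv_smul]
    simp only [hpowi]
    refine ((continuous_mobius P).tendsto _).comp ?_
    generalize P⁻¹ • x = y at hy
    induction y using OnePoint.rec with
    | infty => exact absurd rfl hy
    | coe t =>
      simp only [(diag_pow_smul (inv_ne_zero hm0) i00 i01 i10 i11 _).2]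
      refine (OnePoint.continuous_coe.tendsto _).comp ?_
      have h1 : Tendsto (fun n : ℕ => (m⁻¹ ^ 2) ^ n * t) atTop (𝓝 (0 * t)) := by
        refine (tendsto_pow_atTop_nhds_zero_of_lt_one (by positivity) ?_).mul_const t
        rw [inv_pow]
        exact inv_lt_one_of_one_lt₀ hm2
      simpa using h1

/-- the circle has no isolated points -/
theorem onePoint_nhdsNE (x : OnePoint ℝ) : (𝓝[≠] x).NeBot := by
  infer_instance

end Pool.Agent.LR
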