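import Mathlib

/-!
# LR/EDefs: the orbifold group of the sphere with six cone points of order two

`E = ⟨s₁, …, s₆ | sᵢ², s₁ s₂ s₃ s₄ s₅ s₆⟩`; `HT` is the set of all conjugates of the `sᵢ` (half-turns), on
which `E` acts by conjugation; `AutE` is the group of automorphisms of `E` which preserve `HT`;
`sg i` is the half twist `σᵢ : sᵢ ↦ sᵢ sᵢ₊₁ sᵢ, sᵢ₊₁ ↦ sᵢ`.
`Good D`: the properties of the functions `D s t = F (s t)`, `F` a measured lamination.
-/

namespace Pool.Agent.LR

open FreeGroup in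
/-- relators -/
def eRels : Set (FreeGroup (Fin 6)) :=
  {x | ∃ i, x = of i * of i} ∪ {of 0 * of 1 * of 2 * of 3 * of 4 * of 5}

/-- The orbifold fundamental group of the sphere with six cone points of order two. -/
abbrev E : Type := PresentedGroup eRels

/-- the generator `sᵢ₊₁` -/
def gen (i : Fin 6) : E := PresentedGroup.of i

/-- generator -/
def s1 : E := gen 0
/-- generator -/
def s2 : E := gen 1
/-- generator -/
def s3 : E := gen 2
/-- generator -/
def s4 : E := gen 3
/-- generator -/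
def s5 : E := gen 4
/-- generator -/
def s6 : E := gen 5

theorem gen_mul_self (i : Fin 6) : gen i * gen i = 1 := by
  have h : (PresentedGroup.mk eRels) (FreeGroup.of i * FreeGroup.of i) = 1 :=
    PresentedGroup.one_of_mem (Or.inl ⟨i, rfl⟩)
  exact h

@[simp] theorem s1_mul_self : s1 * s1 = 1 := gen_mul_self 0
@[simp] theorem s2_mul_self : s2 * s2 = 1 := gen_mul_self 1
@[simp] theorem s3_mul_self : s3 * s3 = 1 := gen_mul_self 2
@[simp] theorem s4_mul_self : s4 * s4 = 1 := gen_mul_self 3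
@[simp] theorem s5_mul_self : s5 * s5 = 1 := gen_mul_self 4
@[simp] theorem s6_mul_self : s6 * s6 = 1 := gen_mul_self 5

theorem gen_inv (i : Fin 6) : (gen i)⁻¹ = gen i := inv_eq_of_mul_eq_one_left (gen_mul_self i)

theorem prod_gen : s1 * s2 * s3 * s4 * s5 * s6 = 1 := by
  have h : (PresentedGroup.mk eRels) (FreeGroup.of 0 * FreeGroup.of 1 * FreeGroup.of 2 *
      FreeGroup.of 3 * FreeGroup.of 4 * FreeGroup.of 5) = 1 :=
    PresentedGroup.one_of_mem (Or.inr rfl)
  exact h

/-- The homomorphism from `E` with the given values on the generators. -/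
def ehom {G : Type*} [Group G] (x : Fin 6 → G) (h : ∀ i, x i * x i = 1)
    (h' : x 0 * x 1 * x 2 * x 3 * x 4 * x 5 = 1) : E →* G :=
  PresentedGroup.toGroup (f := x) (by
    rintro r (⟨i, rfl⟩ | hr)
    · simpa using h i
    · rw [Set.mem_singleton_iff] at hr
      subst hr
      simpa using h')

@[simp] theorem ehom_gen {G : Type*} [Group G] (x : Fin 6 → G) (h h') (i : Fin 6) :
    ehom x h h' (gen i) = x i := by simp [ehom, gen]

@[simp] theorem ehom_s1 {G : Type*} [Group G] (x : Fin 6 → G) (h h') : ehom x h h' s1 = x 0 := by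
  simp [s1]
@[simp] theorem ehom_s2 {G : Type*} [Group G] (x : Fin 6 → G) (h h') : ehom x h h' s2 = x 1 := by
  simp [s2]
@[simp] theorem ehom_s3 {G : Type*} [Group G] (x : Fin 6 → G) (h h') : ehom x h h' s3 = x 2 := by
  simp [s3]
@[simp] theorem ehom_s4 {G : Type*} [Group G] (x : Fin 6 → G) (h h') : ehom x h h' s4 = x 3 := by
  simp [s4]
@[simp] theorem ehom_s5 {G : Type*} [Group G] (x : Fin 6 → G) (h h') : ehom x h h' s5 = x 4 := by
  simp [s5]
@[simp] theorem ehom_s6 {G : Type*} [Group G] (x : Fin 6 → G) (h h') : ehom x h h' s6 = x 5 := by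
  simp [s6]

theorem ehom_ext {G : Type*} [Group G] {f g : E →* G} (h1 : f s1 = g s1) (h2 : f s2 = g s2)
    (h3 : f s3 = g s3) (h4 : f s4 = g s4) (h5 : f s5 = g s5) (h6 : f s6 = g s6) : f = g := by
  apply PresentedGroup.ext
  intro x
  fin_cases x <;> assumption

/-- `s` is a half-turn, i.e. a conjugate of a generator. -/
def IsHT (s : E) : Prop := ∃ (i : Fin 6) (x : E), s = x * gen i * x⁻¹

/-- The half-turns. -/
abbrev HT : Type := {s : E // IsHT s}

theorem IsHT.conj {s : E} (h : IsHT s) (x : E) : IsHT (x * s * x⁻¹) := by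
  obtain ⟨i, y, rfl⟩ := h
  exact ⟨i, x * y, by group⟩

theorem isHT_gen (i : Fin 6) : IsHT (gen i) := ⟨i, 1, by simp⟩

theorem IsHT.mul_self {s : E} (h : IsHT s) : s * s = 1 := by
  obtain ⟨i, y, rfl⟩ := h
  have : y * gen i * y⁻¹ * (y * gen i * y⁻¹) = y * (gen i * gen i) * y⁻¹ := by group
  rw [this, gen_mul_self]; group

/-- `E` acts on the half-turns by conjugation. -/
instance : MulAction E HT where
  smul x s := ⟨x * s.1 * x⁻¹, s.2.conj x⟩
  one_smul s := Subtype.ext (by show 1 * s.1 * 1⁻¹ = s.1; group)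
  mul_smul x y s := Subtype.ext (by
    show x * y * s.1 * (x * y)⁻¹ = x * (y * s.1 * y⁻¹) * x⁻¹; group)

theorem smul_val (x : E) (s : HT) : (x • s).1 = x * s.1 * x⁻¹ := rfl

/-- half-turn -/
def h1 : HT := ⟨s1, isHT_gen 0⟩
/-- half-turn -/
def h2 : HT := ⟨s2, isHT_gen 1⟩
/-- half-turn -/
def h3 : HT := ⟨s3, isHT_gen 2⟩
/-- half-turn -/
def h4 : HT := ⟨s4, isHT_gen 3⟩
/-- half-turn -/
def h5 : HT := ⟨s5, isHT_gen 4⟩
/-- half-turn -/
def h6 : HT := ⟨s6, isHT_gen 5⟩

/-- The automorphisms of `E` which preserve the set of half-turns. -/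
def AutE : Subgroup (MulAut E) where
  carrier := {φ | ∀ s, IsHT (φ s) ↔ IsHT s}
  one_mem' := fun _ => Iff.rfl
  mul_mem' := fun {a b} ha hb s => (ha (b s)).trans (hb s)
  inv_mem' := fun {a} ha s => by
    have := ha (a⁻¹ s)
    rw [MulAut.apply_inv_self] at this
    exact this.symm

/-- `AutE` acts on the half-turns. -/
instance : MulAction AutE HT where
  smul φ s := ⟨φ.1 s.1, (φ.2 s.1).2 s.2⟩
  one_smul _ := Subtype.ext rfl
  mul_smul _ _ _ := Subtype.ext rfl

theorem aut_smul_val (φ : AutE) (s : HT) : (φ • s).1 = φ.1 s.1 := rfl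

theorem aut_smul_smul (φ : AutE) (x : E) (s : HT) : φ • (x • s) = (φ.1 x) • (φ • s) :=
  Subtype.ext (by
    show φ.1 (x * s.1 * x⁻¹) = φ.1 x * φ.1 s.1 * (φ.1 x)⁻¹
    simp)

/-- inner automorphisms preserve half-turns -/
def inn (x : E) : AutE := ⟨MulAut.conj x, fun s => ⟨fun h => by
    have := h.conj x⁻¹
    have h2 : x⁻¹ * (MulAut.conj x s) * x⁻¹⁻¹ = s := by simp [mul_assoc]
    rwa [h2] at this, fun h => by
    have := h.conj x
    simpa using this⟩⟩

theorem inn_smul (x : E) (s : HT) : inn x • s = x • s := Subtype.ext rfl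

theorem mem_AutE_of {φ : MulAut E} (h : ∀ i, IsHT (φ (gen i))) (h' : ∀ i, IsHT (φ⁻¹ (gen i))) :
    φ ∈ AutE := by
  have key : ∀ ψ : MulAut E, (∀ i, IsHT (ψ (gen i))) → ∀ s, IsHT s → IsHT (ψ s) := by
    rintro ψ hψ s ⟨i, x, rfl⟩
    have := (hψ i).conj (ψ x)
    simpa using this
  intro s
  refine ⟨fun hs => ?_, key φ h s⟩
  have := key φ⁻¹ h' _ hs
  simpa using this

@[simp] theorem s1_cancel (x : E) : s1 * (s1 * x) = x := by rw [← mul_assoc, s1_mul_self, one_mul]
@[simp] theorem s2_cancel (x : E) : s2 * (s2 * x) = x := by rw [← mul_assoc, s2_mul_self, one_mul]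
@[simp] theorem s3_cancel (x : E) : s3 * (s3 * x) = x := by rw [← mul_assoc, s3_mul_self, one_mul]
@[simp] theorem s4_cancel (x : E) : s4 * (s4 * x) = x := by rw [← mul_assoc, s4_mul_self, one_mul]
@[simp] theorem s5_cancel (x : E) : s5 * (s5 * x) = x := by rw [← mul_assoc, s5_mul_self, one_mul]
@[simp] theorem s6_cancel (x : E) : s6 * (s6 * x) = x := by rw [← mul_assoc, s6_mul_self, one_mul]

@[simp] theorem s1_inv : s1⁻¹ = s1 := gen_inv 0
@[simp] theorem s2_inv : s2⁻¹ = s2 := gen_inv 1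
@[simp] theorem s3_inv : s3⁻¹ = s3 := gen_inv 2
@[simp] theorem s4_inv : s4⁻¹ = s4 := gen_inv 3
@[simp] theorem s5_inv : s5⁻¹ = s5 := gen_inv 4
@[simp] theorem s6_inv : s6⁻¹ = s6 := gen_inv 5

theorem prod_gen' : s1 * (s2 * (s3 * (s4 * (s5 * s6)))) = 1 := by
  rw [← prod_gen]; simp only [mul_assoc]

/-- The half twist `σ_1`. -/
def sg1 : MulAut E :=
  MonoidHom.toMulEquiv
    (ehom ![s1 * s2 * s1, s1, s3, s4, s5, s6] (fun i => by fin_cases i <;> simp [mul_assoc])
      (by simp [mul_assoc, prod_gen']))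
    (ehom ![s2, s2 * s1 * s2, s3, s4, s5, s6] (fun i => by fin_cases i <;> simp [mul_assoc])
      (by simp [mul_assoc, prod_gen']))
    (ehom_ext (by simp [mul_assoc]) (by simp [mul_assoc]) (by simp [mul_assoc]) (by simp [mul_assoc])
      (by simp [mul_assoc]) (by simp [mul_assoc]))
    (ehom_ext (by simp [mul_assoc]) (by simp [mul_assoc]) (by simp [mul_assoc]) (by simp [mul_assoc])
      (by simp [mul_assoc]) (by simp [mul_assoc]))

/-- The half twist `σ_2`. -/
def sg2 : MulAut E :=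
  MonoidHom.toMulEquiv
    (ehom ![s1, s2 * s3 * s2, s2, s4, s5, s6] (fun i => by fin_cases i <;> simp [mul_assoc])
      (by simp [mul_assoc, prod_gen']))
    (ehom ![s1, s3, s3 * s2 * s3, s4, s5, s6] (fun i => by fin_cases i <;> simp [mul_assoc])
      (by simp [mul_assoc, prod_gen']))
    (ehom_ext (by simp [mul_assoc]) (by simp [mul_assoc]) (by simp [mul_assoc]) (by simp [mul_assoc])
      (by simp [mul_assoc]) (by simp [mul_assoc]))
    (ehom_ext (by simp [mul_assoc]) (by simp [mul_assoc]) (by simp [mul_assoc]) (by simp [mul_assoc])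
      (by simp [mul_assoc]) (by simp [mul_assoc]))

/-- The half twist `σ_3`. -/
def sg3 : MulAut E :=
  MonoidHom.toMulEquiv
    (ehom ![s1, s2, s3 * s4 * s3, s3, s5, s6] (fun i => by fin_cases i <;> simp [mul_assoc])
      (by simp [mul_assoc, prod_gen']))
    (ehom ![s1, s2, s4, s4 * s3 * s4, s5, s6] (fun i => by fin_cases i <;> simp [mul_assoc])
      (by simp [mul_assoc, prod_gen']))
    (ehom_ext (by simp [mul_assoc]) (by simp [mul_assoc]) (by simp [mul_assoc]) (by simp [mul_assoc])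
      (by simp [mul_assoc]) (by simp [mul_assoc]))
    (ehom_ext (by simp [mul_assoc]) (by simp [mul_assoc]) (by simp [mul_assoc]) (by simp [mul_assoc])
      (by simp [mul_assoc]) (by simp [mul_assoc]))

/-- The half twist `σ_4`. -/
def sg4 : MulAut E :=
  MonoidHom.toMulEquiv
    (ehom ![s1, s2, s3, s4 * s5 * s4, s4, s6] (fun i => by fin_cases i <;> simp [mul_assoc])
      (by simp [mul_assoc, prod_gen']))
    (ehom ![s1, s2, s3, s5, s5 * s4 * s5, s6] (fun i => by fin_cases i <;> simp [mul_assoc])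
      (by simp [mul_assoc, prod_gen']))
    (ehom_ext (by simp [mul_assoc]) (by simp [mul_assoc]) (by simp [mul_assoc]) (by simp [mul_assoc])
      (by simp [mul_assoc]) (by simp [mul_assoc]))
    (ehom_ext (by simp [mul_assoc]) (by simp [mul_assoc]) (by simp [mul_assoc]) (by simp [mul_assoc])
      (by simp [mul_assoc]) (by simp [mul_assoc]))

/-- The half twist `σ_5`. -/
def sg5 : MulAut E :=
  MonoidHom.toMulEquiv
    (ehom ![s1, s2, s3, s4, s5 * s6 * s5, s5] (fun i => by fin_cases i <;> simp [mul_assoc])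
      (by simp [mul_assoc, prod_gen']))
    (ehom ![s1, s2, s3, s4, s6, s6 * s5 * s6] (fun i => by fin_cases i <;> simp [mul_assoc])
      (by simp [mul_assoc, prod_gen']))
    (ehom_ext (by simp [mul_assoc]) (by simp [mul_assoc]) (by simp [mul_assoc]) (by simp [mul_assoc])
      (by simp [mul_assoc]) (by simp [mul_assoc]))
    (ehom_ext (by simp [mul_assoc]) (by simp [mul_assoc]) (by simp [mul_assoc]) (by simp [mul_assoc])
      (by simp [mul_assoc]) (by simp [mul_assoc]))

/-- A pseudo-metric which is `0`-hyperbolic (four point condition). -/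
structure ZH {X : Type*} (D : X → X → ℝ) : Prop where
  nonneg : ∀ s t, 0 ≤ D s t
  self : ∀ s, D s s = 0
  symm : ∀ s t, D s t = D t s
  four : ∀ s t u v, D s t + D u v ≤ max (D s u + D t v) (D s v + D t u)

/-- The properties of `D s t = F (s t)` for a measured lamination `F`. -/
structure Good (D : HT → HT → ℝ) : Prop extends ZH D where
  inv : ∀ (x : E) (s t : HT), D (x • s) (x • t) = D s t
  half : ∀ s t : HT, D (s.1 • t) t = 2 * D s t
  small : ∀ x y : E, ¬ Commute x y → ∀ s t t' : HT, D s t + D s t' - D t t' ≤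
    2000 * (D s (x • s) + D t (x • t) + D s (y • s) + D t' (y • t'))

/-- the element `s₂ s₃` -/
def g2 : E := s2 * s3
/-- the element `s₄ s₅` -/
def g1 : E := s4 * s5

/-- The stabiliser of the vertex: `⟨s₁, s₆, g₂, g₁⟩`. -/
def PX : Subgroup E := Subgroup.closure {s1, s6, g2, g1}

/-- The structure of the pseudo-metric `D` of the weighted multicurve `k₁ c₁ + k₂ c₂`. -/
structure Struct (K : HT → HT → ℝ) (k1 k2 : ℝ) : Prop where
  good : Good K
  h23 : K h2 h3 = 0
  h45 : K h4 h5 = 0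
  h16 : K h1 h6 = 0
  hPX : ∀ z ∈ PX, K h1 (z • h1) = 0
  hk2 : K h1 h2 = k2
  hk1 : K h1 h4 = k1

end Pool.Agent.LR
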