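import Pool.Agent.LR.MLGood

/-!
# LR/Norm: continuous families of representatives of a continuous map to `PML`

PROOF. `N F = ∑ i, ∑ k, Dof F (hgen i) (hgen k)` is a finite sum of evaluations, so it is continuous and `N (c • F) = c * N F`, and
`N F > 0` on `ML0` (`ML_ne_zero`). The map `ν : ML0 → (Surf → ℝ)`, `F ↦ (N F)⁻¹ • F` is continuous and constant on the
classes of `projSetoid`, so it induces a continuous map `PML → (Surf → ℝ)` (`Continuous.quotient_lift`). Compose it with `f`.
The class of `ν F` is the class of `F`. `ML` is closed under multiplication with `c ≥ 0` (`smul_mem_ML`): closure.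
`norm_equi`: `Quotient.exact` gives the factor `c`.
-/

namespace Pool.Agent.LR

open Topology

theorem smul_mem_ML {F : Surf → ℝ} (hF : F ∈ ML) {c : ℝ} (hc : 0 ≤ c) : c • F ∈ ML := by
  have h1 : Continuous (fun F : Surf → ℝ => c • F) := continuous_const_smul c
  have h2 := h1.continuousWithinAt.mem_closure_image hF
  refine closure_mono ?_ h2
  rintro _ ⟨g, hg, rfl⟩
  obtain ⟨r, α, hr, hα, rfl⟩ := hg
  refine ⟨c * r, α, mul_nonneg hc hr, hα, ?_⟩
  funext γ
  simp only [Pi.smul_apply, smul_eq_mul]
  ring

/-- the normalizing functional -/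
noncomputable def normN (F : Surf → ℝ) : ℝ :=
  ∑ i : Fin 6, ∑ k : Fin 6, Dof F (hgen i) (hgen k)

theorem continuous_normN : Continuous normN := by
  unfold normN Dof
  exact continuous_finsetSum _ fun i _ => continuous_finsetSum _ fun k _ => continuous_apply _

theorem normN_smul (c : ℝ) (F : Surf → ℝ) : normN (c • F) = c * normN F := by
  unfold normN Dof
  simp only [Pi.smul_apply, smul_eq_mul]
  rw [Finset.mul_sum]
  refine Finset.sum_congr rfl fun i _ => ?_
  rw [Finset.mul_sum]

theorem normN_pos (F : ML0) : 0 < normN F.1 := ML_ne_zero F.2.1 F.2.2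

/-- the normalized representative -/
noncomputable def normV (F : ML0) : Surf → ℝ := (normN F.1)⁻¹ • F.1

theorem continuous_normV : Continuous normV := by
  have h0 : Continuous (fun F : ML0 => F.1) := continuous_subtype_val
  have h1 : Continuous (fun F : ML0 => normN F.1) := continuous_normN.comp h0
  exact (h1.inv₀ fun F => (normN_pos F).ne').smul h0

theorem normV_eq {F G : ML0} (h : projSetoid.r F G) : normV F = normV G := by
  obtain ⟨c, hc, h⟩ := h
  unfold normV
  rw [h, normN_smul, smul_smul]
  congr 1
  have := (normN_pos F).ne'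
  field_simp

/-- the normalized representative of a class -/
noncomputable def normL : PML → Surf → ℝ := Quotient.lift normV fun _ _ h => normV_eq h

theorem continuous_normL : Continuous normL :=
  continuous_normV.quotient_lift fun _ _ h => normV_eq h

theorem exists_family {X : Type*} [TopologicalSpace X] {f : X → PML} (hf : Continuous f) :
    ∃ lam : X → Surf → ℝ, (∀ γ, Continuous fun x => lam x γ) ∧
      ∀ x, ∃ h : lam x ∈ ML ∧ lam x ≠ 0, f x = Quotient.mk projSetoid ⟨lam x, h⟩ := by
  refine ⟨fun x => normL (f x), fun γ => ?_, fun x => ?_⟩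
  · exact (continuous_apply γ).comp (continuous_normL.comp hf)
  · obtain ⟨F, hF⟩ := Quotient.exists_rep (f x)
    have hN := normN_pos F
    have e : normL (f x) = (normN F.1)⁻¹ • F.1 := by
      rw [← hF]
      rfl
    have h : normL (f x) ∈ ML ∧ normL (f x) ≠ 0 := by
      rw [e]
      exact ⟨smul_mem_ML F.2.1 (inv_pos.mpr hN).le, smul_ne_zero (inv_pos.mpr hN).ne' F.2.2⟩
    refine ⟨h, ?_⟩
    rw [← hF]
    apply Quotient.sound
    exact ⟨(normN F.1)⁻¹, inv_pos.mpr hN, e⟩

/-- equivariance of representatives -/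
theorem act_rep {α : Mod} {F G : ML0}
    (h : PML.act α (Quotient.mk projSetoid F) = Quotient.mk projSetoid G) :
    ∃ c : ℝ, 0 < c ∧ ∀ γ, G.1 γ = c * F.1 ((α⁻¹ : Mod).1 γ) := by
  have h' : Quotient.mk projSetoid (ML0.act α F) = Quotient.mk projSetoid G := h
  obtain ⟨c, hc, hG⟩ := Quotient.exact h'
  refine ⟨c, hc, fun γ => ?_⟩
  rw [hG]
  rfl

end Pool.Agent.LR
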