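import Pool.Agent.LR.Core
import Pool.Agent.LR.Dyn
import Pool.Agent.LR.Norm

/-!
# LR/Final: no continuous equivariant map to `PML` for genus two

PROOF. `exists_family` gives `lam`; `act_rep` gives `hE` of `core` (`f (g • x) = PML.act α (f x)` and the two classes are the
classes of `lam (g • x)` and `lam x`). `hdyn` is `north_south`: for `g ≠ 1` with the matrix `M`, `g ^ n • x = M ^ n • x` and
`g⁻¹ ^ n • x = M⁻¹ ^ n • x` (`g⁻¹ • x = M⁻¹ • x` because `g • (M⁻¹ • x) = x`). The instance of `(𝓝[≠] x).NeBot` is `onePoint_nhdsNE`.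
-/

namespace Pool.Agent.LR

open Filter Topology

theorem final (A G : Subgroup MCG) (φ δA : MCG)
    (hcusp : ∀ x ∈ F, ∃ k e : ℤ, x * δ ^ k * ι ^ e ∈ A)
    (hδA : ∃ h ∈ F, ∃ m e : ℤ, m ≠ 0 ∧ δA = h * (δ ^ m * ι ^ e) * h⁻¹) (hδA' : δA ∈ A)
    (hint : A ⊓ A.map (MulAut.conj φ).toMonoidHom ≤ Subgroup.zpowers δA)
    (hAG : A ≤ G) (hφG : A.map (MulAut.conj φ).toMonoidHom ≤ G)
    [MulAction G (OnePoint ℝ)]
    (hyp : ∀ g : G, g ≠ 1 → ∃ M : GL (Fin 2) ℝ,
      Matrix.det (M : Matrix (Fin 2) (Fin 2) ℝ) = 1 ∧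
      2 < |Matrix.trace (M : Matrix (Fin 2) (Fin 2) ℝ)| ∧ ∀ x : OnePoint ℝ, g • x = M • x) :
    ¬ ∃ f : OnePoint ℝ → PML, Continuous f ∧
      ∀ (α : Mod) (hα : (QuotientGroup.mk α : MCG) ∈ G) (x : OnePoint ℝ),
        f ((⟨QuotientGroup.mk α, hα⟩ : G) • x) = PML.act α (f x) := by
  rintro ⟨f, hf, hfe⟩
  obtain ⟨lam, hc, hlam⟩ := exists_family hf
  choose hml hfl using hlam
  obtain ⟨h, hh, m, e, hm, rfl⟩ := hδA
  have : ∀ x : OnePoint ℝ, (𝓝[≠] x).NeBot := onePoint_nhdsNE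
  refine core (X := OnePoint ℝ) hc (fun x => (hml x).1) (fun x => (hml x).2) ?_ ?_ hcusp hh hm
    hδA' hAG ?_ ?_ (φ := φ)
  · intro α hα x
    have e1 := hfe α hα x
    rw [hfl, hfl x] at e1
    exact act_rep e1.symm
  · intro g hg
    obtain ⟨M, hdet, htr, hM⟩ := hyp g hg
    obtain ⟨bp, bm, h1, h2, h3⟩ := north_south M hdet htr
    have hpow : ∀ (n : ℕ) (x : OnePoint ℝ), g ^ n • x = M ^ n • x := by
      intro n
      induction n with
      | zero => intro x; simp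
      | succ n ih => intro x; rw [pow_succ, pow_succ, mul_smul, mul_smul, hM, ih]
    have hinv : ∀ x : OnePoint ℝ, g⁻¹ • x = M⁻¹ • x := by
      intro x
      rw [inv_smul_eq_iff, hM, smul_inv_smul]
    have hpow' : ∀ (n : ℕ) (x : OnePoint ℝ), g⁻¹ ^ n • x = M⁻¹ ^ n • x := by
      intro n
      induction n with
      | zero => intro x; simp
      | succ n ih => intro x; rw [pow_succ, pow_succ, mul_smul, mul_smul, hinv, ih]
    refine ⟨bp, bm, h1, fun x hx => ?_, fun x hx => ?_⟩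
    · simpa only [hpow] using h2 x hx
    · simpa only [hpow'] using h3 x hx
  · intro a ha
    exact hφG ⟨a, ha, rfl⟩
  · intro a ha b hb hab
    exact hint ⟨ha, b, hb, hab.symm⟩

end Pool.Agent.LR
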