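import Mathlib

/-!
# LR/FreeMal: malnormality facts in a free group of rank three

PROOFS.
* `free_mal`. The homomorphism to `Multiplicative ℤ` which sends `of 2` to the generator and the other two
  generators to `1` gives `m = n`; so `w` commutes with `x ^ m`, `x = of 2`. Choose `k : ℤ` such that
  `w' = w * x ^ k` has the smallest possible `FreeGroup.norm`; then the reduced word of `w'` does not end with
  `x` or `x⁻¹` (otherwise multiply by `x^{∓1}`). If `w' ≠ 1` then the concatenation of the reduced words of
  `w'`, `x ^ m`, `w'⁻¹` is reduced (`FreeGroup.IsReduced`/`FreeGroup.Red`), so it is the reduced word of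
  `w' x^m w'⁻¹`, of length `2 |w'| + |m| > |m|`; but `w' x^m w'⁻¹ = x^m`. So `w' = 1` and `w = x ^ (-k)`.
  (Any other proof is fine, for instance with normal forms in `Monoid.CoprodI` or with the HNN extension of
  the free group on `0, 1` by the trivial subgroups, Britton's lemma.)
* `free_mal'`. Homomorphism to the infinite dihedral group `DihedralGroup 0`: `of 0 ↦ sr 0`, `of 1 ↦ sr 1`,
  `of 2 ↦ 1`. The commutator goes to `(sr 0 * sr 1) ^ 2 = r 2` (or `r (-2)`), `of 2 ^ n` goes to `1`, and
  conjugates of `r (2 m)` are `r (± 2 m)`, which is `1` only if `m = 0`.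
-/

namespace Pool.Agent.LR

open FreeGroup

/-- exponent sum of the generator `2` -/
def expo : FreeGroup (Fin 3) →* Multiplicative ℤ :=
  FreeGroup.lift fun i => if i = 2 then Multiplicative.ofAdd 1 else 1

lemma expo_two : expo (of 2) = Multiplicative.ofAdd 1 := by simp [expo]

lemma expo_two_zpow (n : ℤ) : expo ((of 2) ^ n) = Multiplicative.ofAdd n := by
  rw [_root_.map_zpow, expo_two, ← ofAdd_zsmul]; simp

/-- the elements `x₂` and `[x₀, x₁] x₂` have infinite order -/
theorem free_inf (n : ℤ) (h : (of (2 : Fin 3)) ^ n = 1) : n = 0 := by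
  have := expo_two_zpow n
  rw [h, _root_.map_one] at this
  exact (Multiplicative.ofAdd.injective (by simpa using this)).symm

theorem free_inf' (n : ℤ) (h : (of 0 * of 1 * (of 0)⁻¹ * (of 1)⁻¹ * of (2 : Fin 3)) ^ n = 1) : n = 0 := by
  have h1 := congrArg expo h
  have e : expo (of 0 * of 1 * (of 0)⁻¹ * (of 1)⁻¹ * of (2 : Fin 3)) = Multiplicative.ofAdd 1 := by
    simp [expo]
  have e0 : expo 1 = 1 := _root_.map_one expo
  rw [_root_.map_zpow, e, e0, ← ofAdd_zsmul] at h1
  have h2 : Multiplicative.ofAdd (n • (1 : ℤ)) = Multiplicative.ofAdd 0 := by simpa using h1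
  simpa using Multiplicative.ofAdd.injective h2

lemma comm_pow (N : ℕ) : ∀ (w : FreeGroup (Fin 3)), w.toWord.length ≤ N → ∀ M : ℕ, 0 < M →
    w * (of 2) ^ M * w⁻¹ = (of 2) ^ M → w ∈ Subgroup.zpowers (of (2 : Fin 3)) := by
  induction N with
  | zero =>
    intro w hw M _ _
    have h1 : w.toWord = [] := List.eq_nil_of_length_eq_zero (by omega)
    rw [FreeGroup.toWord_eq_nil_iff] at h1
    rw [h1]; exact Subgroup.one_mem _
  | succ N ih =>
    intro w hw M hM h
    rcases List.eq_nil_or_concat w.toWord with h1 | ⟨u, c, h1⟩
    · rw [FreeGroup.toWord_eq_nil_iff] at h1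
      rw [h1]; exact Subgroup.one_mem _
    · obtain ⟨a, b⟩ := c
      rw [List.concat_eq_append] at h1
      by_cases ha : a = 2
      · subst ha
        have hw1 : w = FreeGroup.mk u * FreeGroup.mk [((2 : Fin 3), b)] := by
          rw [FreeGroup.mul_mk, ← h1, FreeGroup.mk_toWord]
        have hx : FreeGroup.mk [((2 : Fin 3), b)] ∈ Subgroup.zpowers (of (2 : Fin 3)) := by
          cases b
          · have : FreeGroup.mk [((2 : Fin 3), false)] = (of (2 : Fin 3))⁻¹ := by
              rw [FreeGroup.of, FreeGroup.inv_mk]; rfl
            rw [this]; exact Subgroup.inv_mem _ (Subgroup.mem_zpowers _)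
          · exact Subgroup.mem_zpowers _
        obtain ⟨j, hj⟩ := Subgroup.mem_zpowers_iff.1 hx
        have hw2 : FreeGroup.mk u ∈ Subgroup.zpowers (of (2 : Fin 3)) := by
          refine ih (FreeGroup.mk u) ?_ M hM ?_
          · have h2 : (FreeGroup.mk u).toWord.length ≤ u.length := FreeGroup.norm_mk_le
            rw [h1] at hw
            simp only [List.length_append, List.length_singleton] at hw
            omega
          · have h3 : FreeGroup.mk u = w * ((of (2 : Fin 3)) ^ j)⁻¹ := by
              rw [hw1, hj]; group
            rw [h3]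
            have h4 : w * ((of (2 : Fin 3)) ^ j)⁻¹ * (of 2) ^ M * (w * ((of (2 : Fin 3)) ^ j)⁻¹)⁻¹ =
                w * (of 2) ^ M * w⁻¹ := by
              rw [← zpow_natCast]; group
            rw [h4, h]
        rw [hw1]
        exact Subgroup.mul_mem _ hw2 hx
      · exfalso
        have hred : FreeGroup.IsReduced (w.toWord ++ (List.replicate M ((2 : Fin 3), true) ++
            FreeGroup.invRev w.toWord)) := by
          have r1 : FreeGroup.IsReduced w.toWord := isReduced_toWord
          have r2 : FreeGroup.IsReduced (List.replicate M ((2 : Fin 3), true)) := by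
            rw [← FreeGroup.toWord_of_pow]; exact isReduced_toWord
          have r3 : FreeGroup.IsReduced (FreeGroup.invRev w.toWord) := by
            rw [← FreeGroup.toWord_inv]; exact isReduced_toWord
          unfold FreeGroup.IsReduced at *
          rw [List.isChain_append, List.isChain_append]
          refine ⟨r1, ⟨r2, r3, ?_⟩, ?_⟩
          · intro x hx y hy hxy
            exfalso
            have hx' : x.1 = 2 := by
              have := List.mem_of_mem_getLast? hx
              rw [List.mem_replicate] at this
              rw [this.2]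
            have hy' : y.1 = a := by
              rw [h1] at hy
              simp [FreeGroup.invRev] at hy
              rw [← hy]
            exact ha (by rw [← hy', ← hxy, hx'])
          · intro x hx y hy hxy
            exfalso
            have hx' : x.1 = a := by
              rw [h1] at hx
              simp at hx
              rw [← hx]
            have hy' : y.1 = 2 := by
              obtain ⟨M', rfl⟩ : ∃ M', M = M' + 1 := ⟨M - 1, by omega⟩
              rw [List.replicate_succ] at hy
              simp at hy
              rw [← hy]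
            exact ha (by rw [← hx', hxy, hy'])
        have h2 : (w * (of 2) ^ M * w⁻¹).toWord = w.toWord ++
            (List.replicate M ((2 : Fin 3), true) ++ FreeGroup.invRev w.toWord) := by
          rw [← hred.reduce_eq, ← FreeGroup.toWord_mk]
          congr 1
          rw [← FreeGroup.mul_mk, ← FreeGroup.mul_mk, ← FreeGroup.toWord_inv, FreeGroup.mk_toWord,
            FreeGroup.mk_toWord, ← FreeGroup.toWord_of_pow, FreeGroup.mk_toWord, mul_assoc]
        rw [h, FreeGroup.toWord_of_pow] at h2
        have h3 := congrArg List.length h2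
        rw [h1] at h3
        simp only [List.length_append, List.length_replicate, FreeGroup.invRev_length,
          List.length_singleton] at h3
        omega

theorem free_mal (w : FreeGroup (Fin 3)) (m n : ℤ) (hm : m ≠ 0)
    (h : w * (of 2) ^ m * w⁻¹ = (of 2) ^ n) : w ∈ Subgroup.zpowers (of (2 : Fin 3)) := by
  have h1 := congrArg expo h
  rw [_root_.map_mul, _root_.map_mul, _root_.map_inv, expo_two_zpow, expo_two_zpow, mul_comm, inv_mul_cancel_left] at h1
  have hmn : m = n := Multiplicative.ofAdd.injective h1
  subst hmn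
  rcases Int.natAbs_eq m with e | e
  · rw [e, zpow_natCast] at h
    exact comm_pow _ w le_rfl _ (Int.natAbs_pos.2 hm) h
  · rw [e, zpow_neg, zpow_natCast] at h
    refine comm_pow _ w le_rfl m.natAbs (Int.natAbs_pos.2 hm) ?_
    have h2 := congrArg (·⁻¹) h
    simp only [mul_inv_rev, inv_inv] at h2
    rw [← mul_assoc] at h2
    exact h2

/-- to the infinite dihedral group -/
def dih : FreeGroup (Fin 3) →* DihedralGroup 0 :=
  FreeGroup.lift fun i => if i = 0 then DihedralGroup.sr 0 else if i = 1 then DihedralGroup.sr 1
    else 1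

lemma dih_comm : dih (of 0 * of 1 * (of 0)⁻¹ * (of 1)⁻¹ * of (2 : Fin 3)) = DihedralGroup.r 2 := by
  simp only [dih, _root_.map_mul, _root_.map_inv, FreeGroup.lift_apply_of]
  decide

theorem free_mal' (w : FreeGroup (Fin 3)) (m n : ℤ) (hm : m ≠ 0) :
    w * (of 0 * of 1 * (of 0)⁻¹ * (of 1)⁻¹ * of 2) ^ m * w⁻¹ ≠ (of (2 : Fin 3)) ^ n := by
  intro h
  have h1 := congrArg dih h
  have e2 : dih (of 2) = 1 := by simp [dih]
  rw [_root_.map_mul, _root_.map_mul, _root_.map_inv, _root_.map_zpow, dih_comm, _root_.map_zpow, e2, one_zpow] at h1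
  have h2 : (DihedralGroup.r (2 : ZMod 0)) ^ m = 1 := by
    have := mul_inv_eq_one.1 h1
    exact mul_left_cancel (a := dih w) (by rw [this, mul_one])
  have h3 : ∀ k : ℕ, (DihedralGroup.r (2 : ZMod 0)) ^ k = DihedralGroup.r ((k : ZMod 0) * 2) := by
    intro k
    induction k with
    | zero => simp
    | succ k ih =>
      rw [pow_succ, ih, DihedralGroup.r_mul_r]
      congr 1
      push_cast
      ring
  have h4 : ∀ k : ℕ, (DihedralGroup.r (2 : ZMod 0)) ^ k = 1 → k = 0 := by
    intro k hk
    rw [h3, DihedralGroup.one_def] at hk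
    have h5 : (k : ZMod 0) * 2 = 0 := DihedralGroup.r.inj hk
    have h6 : (k : ℤ) * 2 = 0 := h5
    omega
  rcases Int.natAbs_eq m with e | e
  · rw [e, zpow_natCast] at h2
    have := h4 _ h2
    omega
  · rw [e, zpow_neg, zpow_natCast, inv_eq_one] at h2
    have := h4 _ h2
    omega

end Pool.Agent.LR
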