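import Pool.Agent.LR.Auto

/-!
# LR/Line: lines of half-turns and the action of the multitwists

PROOF. Put `g = s.1 * t.1`. As `s.1`, `t.1` are involutions, `s.1 * g ^ n = g ^ (-n) * s.1` (see `isHT_line`
in LR/Auto). `(line s t k).1 = g ^ (-k) * s.1`, `(line s t k).1⁻¹ = (line s t k).1`.
* `line_reflect`: `g^(-i) s g^(-j) s (g^(-i) s)⁻¹ = g^(-i) s g^(-j) s g^(-i) s = g^(-(2i-j)) s`.
* `line_translate`: `g (g^(-k) s) g⁻¹ = g^(-k+2) s`, because `s g⁻¹ = g s`.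
* `dh_zpow_*`: `dh.1 g2 = g2` (`dh.1 (s2*s3) = s2 s3 s2 s2 = s2 s3`), `dh.1 s2 = g2 * s2`,
  `dh.1 s3 = s2 = g2 * s3`, so `(dh ^ n).1 s2 = g2 ^ n * s2` by induction on `n : ℤ` (`Int.induction_on`, or
  first for `n : ℕ` and then for the inverse), the same for `s3 = g2 ^ (-1) * s2`; and the same for
  `s4`, `s5`, `g1`. Similarly `dh'.1 s1 = (s1 * s2) * s1`, `dh'.1 (s1 * s2) = s1 * s2`.
* `dh_zpow_PX`: `dh.1` fixes `s1`, `s6`, `g2`, `g1` (closure induction; a subgroup: the fixed points of the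
  automorphism), hence so do all powers.
-/

namespace Pool.Agent.LR

theorem semiLN {s t : E} (hs : s * s = 1) (ht : t * t = 1) (n : ℤ) :
    s * (s * t) ^ n = (s * t) ^ (-n) * s := by
  have hs1 : s⁻¹ = s := inv_eq_of_mul_eq_one_left hs
  have ht1 : t⁻¹ = t := inv_eq_of_mul_eq_one_left ht
  have h : SemiconjBy s (s * t) (s * t)⁻¹ := by
    show s * (s * t) = (s * t)⁻¹ * s
    rw [mul_inv_rev, hs1, ht1, ← mul_assoc, hs, one_mul, mul_assoc, hs, mul_one]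
  have h2 := h.zpow_right n
  rw [inv_zpow'] at h2
  exact h2

theorem semi2LN {s t : E} (hs : s * s = 1) (ht : t * t = 1) (n : ℤ) :
    s * (s * t) ^ n * s = (s * t) ^ (-n) := by
  rw [semiLN hs ht, mul_assoc, hs, mul_one]

/-- reflection of the line -/
theorem line_reflect (s t : HT) (i j : ℤ) : (line s t i).1 • line s t j = line s t (2 * i - j) := by
  apply Subtype.ext
  rw [smul_val]
  show (s.1 * t.1) ^ (-i) * s.1 * ((s.1 * t.1) ^ (-j) * s.1) * ((s.1 * t.1) ^ (-i) * s.1)⁻¹ =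
    (s.1 * t.1) ^ (-(2 * i - j)) * s.1
  have hk := semiLN s.2.mul_self t.2.mul_self
  have e1 : ((s.1 * t.1) ^ (-i) * s.1)⁻¹ = s.1 * (s.1 * t.1) ^ i := by
    rw [mul_inv_rev, HT.inv_val, zpow_neg, inv_inv]
  rw [e1]
  have e2 : (s.1 * t.1) ^ (-i) * s.1 * ((s.1 * t.1) ^ (-j) * s.1) * (s.1 * (s.1 * t.1) ^ i) =
      (s.1 * t.1) ^ (-i) * (s.1 * ((s.1 * t.1) ^ (-j) * ((s.1 * s.1) * (s.1 * t.1) ^ i))) := by
    simp only [mul_assoc]
  rw [e2, s.2.mul_self, one_mul, ← zpow_add, hk, ← mul_assoc, ← zpow_add]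
  congr 2
  ring

/-- translation of the line -/
theorem line_translate (s t : HT) (k : ℤ) : (s.1 * t.1) • line s t k = line s t (k - 2) := by
  apply Subtype.ext
  rw [smul_val]
  show (s.1 * t.1) * ((s.1 * t.1) ^ (-k) * s.1) * (s.1 * t.1)⁻¹ = (s.1 * t.1) ^ (-(k - 2)) * s.1
  have hk := semiLN s.2.mul_self t.2.mul_self (-1)
  rw [zpow_neg_one, neg_neg, zpow_one] at hk
  have e2 : (s.1 * t.1) * ((s.1 * t.1) ^ (-k) * s.1) * (s.1 * t.1)⁻¹ =
      (s.1 * t.1) * (s.1 * t.1) ^ (-k) * (s.1 * (s.1 * t.1)⁻¹) := by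
    simp only [mul_assoc]
  rw [e2, hk, ← mul_assoc, ← zpow_one_add, ← zpow_add_one]
  congr 2
  ring

theorem aut_zpowLN (φ : MulAut E) {g x : E} (hg : φ g = g) (hx : φ x = g * x) (k : ℤ) :
    (φ ^ k) x = g ^ k * x := by
  induction k using Int.induction_on with
  | zero => simp
  | succ n ih =>
    have e : φ ^ ((n : ℤ) + 1) = φ * φ ^ (n : ℤ) := by rw [add_comm, zpow_add, zpow_one]
    rw [e, MulAut.mul_apply, ih, map_mul, map_zpow, hg, hx, ← mul_assoc, ← zpow_add_one]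
  | pred n ih =>
    apply φ.injective
    have e : φ * φ ^ (-(n : ℤ) - 1) = φ ^ (-(n : ℤ)) := by
      rw [← zpow_one_add]
      congr 1
      ring
    rw [← MulAut.mul_apply, e, ih, map_mul, map_zpow, hg, hx, ← mul_assoc, ← zpow_add_one]
    congr 2
    ring

theorem aut_fixLN (φ : MulAut E) {x : E} (hx : φ x = x) (k : ℤ) : (φ ^ k) x = x := by
  have h := aut_zpowLN φ (g := 1) (x := x) (map_one φ) (by rw [hx, one_mul]) k
  rw [one_zpow, one_mul] at h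
  exact h

theorem dh_g2LN : dh.1 g2 = g2 := by
  rw [g2, map_mul, dh_s2, dh_s3]
  simp [mul_assoc]

theorem dh_g1LN : dh.1 g1 = g1 := by
  rw [g1, map_mul, dh_s4, dh_s5]
  simp [mul_assoc]

theorem coe_zpowLN (φ : AutE) (k : ℤ) : (φ ^ k).1 = φ.1 ^ k := rfl

/-- `δ` acts on the reflections of `D₂` by left multiplication with `g₂` -/
theorem dh_zpow_s2 (k : ℤ) : (dh ^ k).1 s2 = g2 ^ k * s2 := by
  rw [coe_zpowLN]
  exact aut_zpowLN _ dh_g2LN (by rw [dh_s2, g2]) k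

/-- `δ` acts on the reflections of `D₁` by left multiplication with `g₁` -/
theorem dh_zpow_s4 (k : ℤ) : (dh ^ k).1 s4 = g1 ^ k * s4 := by
  rw [coe_zpowLN]
  exact aut_zpowLN _ dh_g1LN (by rw [dh_s4, g1]) k

theorem s3_eq : s3 = g2⁻¹ * s2 := by
  rw [g2, mul_inv_rev, s2_inv, s3_inv, mul_assoc, s2_mul_self, mul_one]

theorem s5_eq : s5 = g1⁻¹ * s4 := by
  rw [g1, mul_inv_rev, s4_inv, s5_inv, mul_assoc, s4_mul_self, mul_one]

theorem dh_zpow_h2 (k : ℤ) : (dh ^ (-k)) • h2 = line h2 h3 k := by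
  apply Subtype.ext
  rw [aut_smul_val]
  exact dh_zpow_s2 (-k)

theorem dh_zpow_h3 (k : ℤ) : (dh ^ (-k)) • h3 = line h2 h3 (k + 1) := by
  apply Subtype.ext
  rw [aut_smul_val]
  show (dh ^ (-k)).1 s3 = (s2 * s3) ^ (-(k + 1)) * s2
  have h : (dh ^ (-k)).1 s3 = g2 ^ (-k) * s3 := by
    rw [coe_zpowLN]
    exact aut_zpowLN _ dh_g2LN (by rw [dh_s3, g2, mul_assoc, s3_mul_self, mul_one]) (-k)
  have e : -(k + 1) = -k - 1 := by ring
  have e2 : g2 ^ (-k) * s3 = g2 ^ (-k - 1) * s2 := by rw [zpow_sub_one, mul_assoc, ← s3_eq]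
  rw [h, e2, e]
  rfl

theorem dh_zpow_h4 (k : ℤ) : (dh ^ (-k)) • h4 = line h4 h5 k := by
  apply Subtype.ext
  rw [aut_smul_val]
  exact dh_zpow_s4 (-k)

theorem dh_zpow_h5 (k : ℤ) : (dh ^ (-k)) • h5 = line h4 h5 (k + 1) := by
  apply Subtype.ext
  rw [aut_smul_val]
  show (dh ^ (-k)).1 s5 = (s4 * s5) ^ (-(k + 1)) * s4
  have h : (dh ^ (-k)).1 s5 = g1 ^ (-k) * s5 := by
    rw [coe_zpowLN]
    exact aut_zpowLN _ dh_g1LN (by rw [dh_s5, g1, mul_assoc, s5_mul_self, mul_one]) (-k)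
  have e : -(k + 1) = -k - 1 := by ring
  have e2 : g1 ^ (-k) * s5 = g1 ^ (-k - 1) * s4 := by rw [zpow_sub_one, mul_assoc, ← s5_eq]
  rw [h, e2, e]
  rfl

theorem dh_zpow_h1 (k : ℤ) : (dh ^ k) • h1 = h1 := by
  apply Subtype.ext
  rw [aut_smul_val, coe_zpowLN]
  exact aut_fixLN _ dh_s1 k

theorem dh_zpow_h6 (k : ℤ) : (dh ^ k) • h6 = h6 := by
  apply Subtype.ext
  rw [aut_smul_val, coe_zpowLN]
  exact aut_fixLN _ dh_s6 k

theorem dh'_zpow_h1 (k : ℤ) : (dh' ^ (-k)) • h1 = line h1 h2 k := by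
  apply Subtype.ext
  rw [aut_smul_val, coe_zpowLN]
  refine aut_zpowLN _ (g := s1 * s2) (x := s1) ?_ dh'_s1 (-k)
  rw [map_mul, dh'_s1, dh'_s2]
  simp [mul_assoc]

theorem dh'_zpow_h6 (k : ℤ) : (dh' ^ k) • h6 = h6 := by
  apply Subtype.ext
  rw [aut_smul_val, coe_zpowLN]
  exact aut_fixLN _ dh'_s6 k

theorem dh_zpow_PX (k : ℤ) {z : E} (hz : z ∈ PX) : (dh ^ k).1 z = z := by
  have h : Set.EqOn ((dh ^ k).1.toMonoidHom) (MonoidHom.id E)
      (Subgroup.closure ({s1, s6, g2, g1} : Set E)) := by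
    apply MonoidHom.eqOn_closure
    rintro x (rfl | rfl | rfl | rfl)
    · show (dh ^ k).1 s1 = s1
      rw [coe_zpowLN]
      exact aut_fixLN _ dh_s1 k
    · show (dh ^ k).1 s6 = s6
      rw [coe_zpowLN]
      exact aut_fixLN _ dh_s6 k
    · show (dh ^ k).1 g2 = g2
      rw [coe_zpowLN]
      exact aut_fixLN _ dh_g2LN k
    · show (dh ^ k).1 g1 = g1
      rw [coe_zpowLN]
      exact aut_fixLN _ dh_g1LN k
  exact h hz

/-- `s₂ g₂ s₂ = g₂⁻¹`, and `s₃ = g₂⁻¹ s₂`, `s₅ = g₁⁻¹ s₄`, `s₁ g₂ g₁ s₆ = 1` -/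
theorem s2_conj_g2 (k : ℤ) : s2 * g2 ^ k * s2 = g2 ^ (-k) :=
  semi2LN s2_mul_self s3_mul_self k

theorem s4_conj_g1 (k : ℤ) : s4 * g1 ^ k * s4 = g1 ^ (-k) :=
  semi2LN s4_mul_self s5_mul_self k

theorem s6_eq : s6 = s1 * g2 * g1 := by
  have h := prod_gen
  rw [mul_eq_one_iff_eq_inv, s6_inv] at h
  rw [← h, g2, g1]
  simp only [mul_assoc]

/-- `E` is generated by `PX`, `s₂`, `s₄` -/
theorem closure_PX_s2_s4 : Subgroup.closure ((PX : Set E) ∪ {s2, s4}) = ⊤ := by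
  set H := Subgroup.closure ((PX : Set E) ∪ {s2, s4}) with hH
  have hP : ∀ x ∈ ({s1, s6, g2, g1} : Set E), x ∈ H := fun x hx =>
    Subgroup.subset_closure (Or.inl (Subgroup.subset_closure hx))
  have m1 : s1 ∈ H := hP _ (by simp)
  have m6 : s6 ∈ H := hP _ (by simp)
  have mg2 : g2 ∈ H := hP _ (by simp)
  have mg1 : g1 ∈ H := hP _ (by simp)
  have m2 : s2 ∈ H := Subgroup.subset_closure (Or.inr (by simp))
  have m4 : s4 ∈ H := Subgroup.subset_closure (Or.inr (by simp))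
  have m3 : s3 ∈ H := by rw [s3_eq]; exact H.mul_mem (H.inv_mem mg2) m2
  have m5 : s5 ∈ H := by rw [s5_eq]; exact H.mul_mem (H.inv_mem mg1) m4
  rw [eq_top_iff, ← PresentedGroup.closure_range_of, Subgroup.closure_le]
  rintro _ ⟨i, rfl⟩
  fin_cases i
  · exact m1
  · exact m2
  · exact m3
  · exact m4
  · exact m5
  · exact m6

end Pool.Agent.LR
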