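import Pool.Agent.LR.ZHyp
import Pool.Agent.LR.Line

/-!
# LR/GoodBasic: basic facts on good pseudo-metrics on the set of half-turns

PROOFS.
* `line_dist`. Put `x k = line s t k`, `L = D s t`. `line_reflect` and `half` (with the half-turn `x i`):
  `D (x (2 i - j)) (x j) = 2 D (x i) (x j)` (*). The reflection in `x (j+1)` and `inv` give
  `D (x (j+2)) (x (j+1)) = D (x j) (x (j+1))`, so `D (x j) (x (j+1)) = L` for all `j`
  (`line_zero`, `line_one`). By (*) and induction `D (x j) (x (j + 2 ^ n)) = 2 ^ n L`. By `tri`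
  `D (x j) (x (j+n)) ≤ n L`, and with `n ≤ 2 ^ n`: `2 ^ n L = D (x j) (x (j + 2^n)) ≤ D (x j) (x (j+n)) + (2^n - n) L`.
  So `D (x j) (x (j+n)) = n L` for all natural `n`; use `symm`.
* `line_growth`: `line_dist` with `line s t 0 = s`, and `tri`.
* `stab`: closed under products: `D s (x y • s) ≤ D s (x • s) + D (x • s) (x y • s)`, `inv`; inverses: `inv`.
* `mem_stab_of`: `D s (t.1 • s) = D (t.1 • s) s = 2 * D t s`.
* `eq_zero_of_chain`: `h1`'s stabiliser contains `s1, s2, s3, s4, s5` (`mem_stab_of`, `tri`), hence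
  `s6 = (s1 s2 s3 s4 s5)⁻¹`, hence everything (`E` is generated by the `gen i`:
  `PresentedGroup.closure_range_of`). So `D h1 h6 = 0` by `mem_stab_of'`, `D h1 hi = 0` for all `i`, and
  `D h1 (x • hi) = D (x⁻¹ • h1) hi = 0`; every half-turn is some `x • hi`.
-/

namespace Pool.Agent.LR

variable {D : HT → HT → ℝ}

private theorem gb_step (h : Good D) (s t : HT) (j : ℤ) :
    D (line s t j) (line s t (j + 1)) = D s t := by
  have key : ∀ j : ℤ, D (line s t (j + 1)) (line s t (j + 1 + 1)) =
      D (line s t j) (line s t (j + 1)) := by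
    intro j
    have h1 := h.inv (line s t (j + 1)).1 (line s t j) (line s t (j + 1))
    rw [line_reflect, line_reflect] at h1
    have e1 : 2 * (j + 1) - j = j + 1 + 1 := by ring
    have e2 : 2 * (j + 1) - (j + 1) = j + 1 := by ring
    rw [e1, e2] at h1
    rw [h.symm, h1]
  induction j using Int.induction_on with
  | zero =>
    rw [zero_add, line_zero, line_one]
  | succ i ih =>
    rw [key]; exact ih
  | pred i ih =>
    have h2 := key (-(i : ℤ) - 1)
    have e1 : -(i : ℤ) - 1 + 1 = -(i : ℤ) := by ring
    rw [e1] at h2 ⊢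
    rw [← h2]; exact ih

private theorem gb_pow (h : Good D) (s t : HT) (j : ℤ) (n : ℕ) :
    D (line s t j) (line s t (j + 2 ^ n)) = 2 ^ n * D s t := by
  induction n with
  | zero => simpa using gb_step h s t j
  | succ n ih =>
    have h1 := h.half (line s t (j + 2 ^ n)) (line s t j)
    rw [line_reflect] at h1
    have e1 : 2 * (j + 2 ^ n) - j = j + 2 ^ (n + 1) := by ring
    rw [e1, h.symm, h.symm (line s t (j + 2 ^ n)), ih] at h1
    rw [h1]; ring

private theorem gb_le (h : Good D) (s t : HT) (j : ℤ) (n : ℕ) :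
    D (line s t j) (line s t (j + n)) ≤ n * D s t := by
  induction n with
  | zero => simp [h.self]
  | succ n ih =>
    have h1 := h.toZH.tri (line s t j) (line s t (j + n)) (line s t (j + n + 1))
    rw [gb_step h s t (j + n)] at h1
    push_cast
    rw [← add_assoc]
    nlinarith

private theorem gb_nat (h : Good D) (s t : HT) (j : ℤ) (n : ℕ) :
    D (line s t j) (line s t (j + n)) = n * D s t := by
  apply le_antisymm (gb_le h s t j n)
  have hn : n ≤ 2 ^ n := Nat.lt_two_pow_self.le
  obtain ⟨k, hk⟩ := Nat.exists_eq_add_of_le hn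
  have h1 := h.toZH.tri (line s t j) (line s t (j + n)) (line s t (j + 2 ^ n))
  have h2 := gb_le h s t (j + n) k
  have e1 : j + (n : ℤ) + k = j + 2 ^ n := by
    have : ((2 ^ n : ℕ) : ℤ) = (n : ℤ) + k := by rw [hk]; push_cast; ring
    push_cast at this
    rw [this]; ring
  have e2 : (2 : ℝ) ^ n = n + k := by
    have : ((2 ^ n : ℕ) : ℝ) = (n : ℝ) + k := by rw [hk]; push_cast; ring
    push_cast at this
    exact this
  rw [e1] at h2
  rw [gb_pow h s t j n, e2] at h1
  linarith

theorem Good.line_dist (h : Good D) (s t : HT) (i j : ℤ) :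
    D (line s t i) (line s t j) = D s t * |(i : ℝ) - j| := by
  rcases le_total i j with hij | hij
  · obtain ⟨n, rfl⟩ := Int.le.dest hij
    rw [gb_nat h s t i n]
    push_cast
    rw [show (i : ℝ) - (i + n) = -n by ring, abs_neg, abs_of_nonneg (by positivity)]
    ring
  · obtain ⟨n, rfl⟩ := Int.le.dest hij
    rw [h.symm, gb_nat h s t j n]
    push_cast
    rw [show (j : ℝ) + n - j = n by ring, abs_of_nonneg (by positivity)]
    ring

theorem Good.line_growth (h : Good D) (s t u : HT) (k : ℤ) :
    abs (D u (line s t k) - D s t * |(k : ℝ)|) ≤ D u s := by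
  have h1 := h.line_dist s t 0 k
  rw [line_zero] at h1
  push_cast at h1
  rw [zero_sub, abs_neg] at h1
  have h2 := h.toZH.tri u s (line s t k)
  have h3 := h.toZH.tri s u (line s t k)
  rw [h.symm s u] at h3
  rw [abs_le]
  constructor <;> linarith

/-- the stabiliser of (the class of) a half-turn -/
def stab (D : HT → HT → ℝ) (h : Good D) (s : HT) : Subgroup E where
  carrier := {x | D s (x • s) = 0}
  one_mem' := by
    show D s ((1 : E) • s) = 0
    rw [one_smul, h.self]
  mul_mem' := by
    intro a b ha hb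
    show D s ((a * b) • s) = 0
    have h1 : D s (a • s) = 0 := ha
    have h2 : D s (b • s) = 0 := hb
    have h3 := h.tri s (a • s) ((a * b) • s)
    rw [mul_smul, h.inv, h2, h1] at h3
    rw [mul_smul]
    have := h.nonneg s (a • b • s)
    linarith
  inv_mem' := by
    intro a ha
    show D s (a⁻¹ • s) = 0
    have h1 : D s (a • s) = 0 := ha
    have h2 := h.inv a⁻¹ s (a • s)
    rw [inv_smul_smul, h1, h.symm] at h2
    exact h2

theorem mem_stab (h : Good D) {s : HT} {x : E} : x ∈ stab D h s ↔ D s (x • s) = 0 := Iff.rfl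

theorem Good.stab_half (h : Good D) (s t : HT) : D s (t.1 • s) = 2 * D t s := by
  rw [h.symm, h.half]

theorem Good.eq_zero_of_chain (h : Good D) (a : D h1 h2 = 0) (b : D h2 h3 = 0) (c : D h3 h4 = 0)
    (d : D h4 h5 = 0) (s t : HT) : D s t = 0 := by
  have z2 : D h1 h2 = 0 := a
  have z3 : D h1 h3 = 0 := by
    have := h.toZH.tri h1 h2 h3
    have := h.nonneg h1 h3
    linarith
  have z4 : D h1 h4 = 0 := by
    have := h.toZH.tri h1 h3 h4
    have := h.nonneg h1 h4
    linarith
  have z5 : D h1 h5 = 0 := by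
    have := h.toZH.tri h1 h4 h5
    have := h.nonneg h1 h5
    linarith
  have m1 : s1 ∈ stab D h h1 := by
    rw [mem_stab]
    have := h.stab_half h1 h1
    rw [h.self, mul_zero] at this
    exact this
  have m2 : s2 ∈ stab D h h1 := by
    rw [mem_stab]
    have := h.stab_half h1 h2
    rw [h.symm h2, z2, mul_zero] at this
    exact this
  have m3 : s3 ∈ stab D h h1 := by
    rw [mem_stab]
    have := h.stab_half h1 h3
    rw [h.symm h3, z3, mul_zero] at this
    exact this
  have m4 : s4 ∈ stab D h h1 := by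
    rw [mem_stab]
    have := h.stab_half h1 h4
    rw [h.symm h4, z4, mul_zero] at this
    exact this
  have m5 : s5 ∈ stab D h h1 := by
    rw [mem_stab]
    have := h.stab_half h1 h5
    rw [h.symm h5, z5, mul_zero] at this
    exact this
  have m6 : s6 ∈ stab D h h1 := by
    have e : s6 = (s1 * s2 * s3 * s4 * s5)⁻¹ := by
      rw [eq_inv_iff_mul_eq_one]
      have := prod_gen
      have h7 : s6 * (s1 * s2 * s3 * s4 * s5) = s6 * (s1 * s2 * s3 * s4 * s5 * s6) * s6⁻¹ := by group
      rw [h7, this]; group
    rw [e]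
    exact inv_mem (mul_mem (mul_mem (mul_mem (mul_mem m1 m2) m3) m4) m5)
  have z6 : D h1 h6 = 0 := by
    have h7 : D h1 (s6 • h1) = 0 := m6
    have h8 := h.stab_half h1 h6
    have h9 : D h1 (h6.1 • h1) = 0 := h7
    rw [h9, h.symm h6] at h8
    linarith
  have top : stab D h h1 = ⊤ := by
    rw [eq_top_iff, ← PresentedGroup.closure_range_of eRels, Subgroup.closure_le]
    rintro _ ⟨i, rfl⟩
    fin_cases i
    · exact m1
    · exact m2
    · exact m3
    · exact m4
    · exact m5
    · exact m6
  have key : ∀ u : HT, D h1 u = 0 := by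
    rintro ⟨_, i, x, rfl⟩
    have hx : x⁻¹ ∈ stab D h h1 := by rw [top]; trivial
    have hx' : D h1 (x⁻¹ • h1) = 0 := hx
    have hi : D h1 ⟨gen i, isHT_gen i⟩ = 0 := by
      fin_cases i
      · exact h.self h1
      · exact z2
      · exact z3
      · exact z4
      · exact z5
      · exact z6
    have e1 : (⟨x * gen i * x⁻¹, ⟨i, x, rfl⟩⟩ : HT) = x • (⟨gen i, isHT_gen i⟩ : HT) := Subtype.ext rfl
    rw [e1, ← h.inv x⁻¹, inv_smul_smul]
    have h10 := h.toZH.tri (x⁻¹ • h1) h1 ⟨gen i, isHT_gen i⟩
    rw [h.symm (x⁻¹ • h1) h1, hx', hi] at h10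
    have := h.nonneg (x⁻¹ • h1) ⟨gen i, isHT_gen i⟩
    linarith
  have h11 := h.toZH.tri s h1 t
  rw [h.symm s h1, key s, key t] at h11
  have := h.nonneg s t
  linarith

/-- a good pseudo-metric which vanishes on the pairs `(hi, hj)` is zero -/
theorem Good.eq_zero_of_gen (h : Good D) (a : D h1 h2 = 0) (b : D h1 h4 = 0) (c : D h2 h3 = 0)
    (d : D h4 h5 = 0) (s t : HT) : D s t = 0 := by
  refine h.eq_zero_of_chain a c ?_ d s t
  have e1 : D h1 h3 = 0 := by
    have := h.tri h1 h2 h3
    have := h.nonneg h1 h3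
    linarith
  have e2 := h.tri h3 h1 h4
  rw [h.symm h3 h1, e1, b] at e2
  have := h.nonneg h3 h4
  linarith

theorem Good.comp (h : Good D) (φ : AutE) : Good (fun s t => D (φ • s) (φ • t)) where
  nonneg _ _ := h.nonneg _ _
  self _ := h.self _
  symm _ _ := h.symm _ _
  four _ _ _ _ := h.four _ _ _ _
  inv x s t := by
    show D (φ • x • s) (φ • x • t) = _
    rw [aut_smul_smul, aut_smul_smul, h.inv]
  half s t := by
    show D (φ • s.1 • t) (φ • t) = 2 * D (φ • s) (φ • t)
    rw [aut_smul_smul]
    exact h.half (φ • s) (φ • t)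
  small x y hxy s t t' := by
    have h1 : ¬ Commute (φ.1 x) (φ.1 y) := by
      intro hc
      apply hxy
      have := hc.map (φ.1.symm : E →* E)
      simpa using this
    have := h.small _ _ h1 (φ • s) (φ • t) (φ • t')
    simpa only [aut_smul_smul] using this

theorem Good.smul (h : Good D) {r : ℝ} (hr : 0 ≤ r) : Good (fun s t => r * D s t) where
  nonneg _ _ := mul_nonneg hr (h.nonneg _ _)
  self _ := by rw [h.self, mul_zero]
  symm _ _ := by rw [h.symm]
  four s t u v := by
    have := mul_le_mul_of_nonneg_left (h.four s t u v) hr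
    rw [mul_max_of_nonneg _ _ hr] at this
    simpa only [mul_add] using this
  inv x s t := by rw [h.inv]
  half s t := by rw [h.half]; ring
  small x y hxy s t t' := by
    have := mul_le_mul_of_nonneg_left (h.small x y hxy s t t') hr
    nlinarith

/-- pointwise limits of good pseudo-metrics are good -/
theorem isClosed_good : IsClosed {D : HT → HT → ℝ | Good D} := by
  have ca : ∀ s t : HT, Continuous fun D : HT → HT → ℝ => D s t := fun s t =>
    (continuous_apply t).comp (continuous_apply s)
  have e : {D : HT → HT → ℝ | Good D} =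
      {D | ∀ s t, 0 ≤ D s t} ∩ ({D | ∀ s, D s s = 0} ∩ ({D | ∀ s t, D s t = D t s} ∩
      ({D | ∀ s t u v, D s t + D u v ≤ max (D s u + D t v) (D s v + D t u)} ∩
      ({D | ∀ (x : E) (s t : HT), D (x • s) (x • t) = D s t} ∩
      ({D | ∀ s t : HT, D (s.1 • t) t = 2 * D s t} ∩
      {D | ∀ x y : E, ¬ Commute x y → ∀ s t t' : HT, D s t + D s t' - D t t' ≤
        2000 * (D s (x • s) + D t (x • t) + D s (y • s) + D t' (y • t'))}))))) := by
    ext D
    constructor
    · intro h
      exact ⟨h.nonneg, h.self, h.symm, h.four, h.inv, h.half, h.small⟩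
    · rintro ⟨a1, a2, a3, a4, a5, a6, a7⟩
      exact { nonneg := a1, self := a2, symm := a3, four := a4, inv := a5, half := a6, small := a7 }
  rw [e]
  refine IsClosed.inter ?_ (IsClosed.inter ?_ (IsClosed.inter ?_ (IsClosed.inter ?_
    (IsClosed.inter ?_ (IsClosed.inter ?_ ?_)))))
  · simp only [Set.setOf_forall]
    exact isClosed_iInter fun s => isClosed_iInter fun t => isClosed_le continuous_const (ca s t)
  · simp only [Set.setOf_forall]
    exact isClosed_iInter fun s => isClosed_eq (ca s s) continuous_const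
  · simp only [Set.setOf_forall]
    exact isClosed_iInter fun s => isClosed_iInter fun t => isClosed_eq (ca s t) (ca t s)
  · simp only [Set.setOf_forall]
    exact isClosed_iInter fun s => isClosed_iInter fun t => isClosed_iInter fun u =>
      isClosed_iInter fun v => isClosed_le ((ca s t).add (ca u v))
        (((ca s u).add (ca t v)).max ((ca s v).add (ca t u)))
  · simp only [Set.setOf_forall]
    exact isClosed_iInter fun x => isClosed_iInter fun s => isClosed_iInter fun t =>
      isClosed_eq (ca _ _) (ca s t)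
  · simp only [Set.setOf_forall]
    exact isClosed_iInter fun s => isClosed_iInter fun t =>
      isClosed_eq (ca _ _) ((ca s t).const_mul 2)
  · simp only [Set.setOf_forall]
    exact isClosed_iInter fun x => isClosed_iInter fun y => isClosed_iInter fun _ =>
      isClosed_iInter fun s => isClosed_iInter fun t => isClosed_iInter fun t' =>
        isClosed_le (((ca s t).add (ca s t')).sub (ca t t'))
          (((((ca s (x • s)).add (ca t (x • t))).add (ca s (y • s))).add (ca t' (y • t'))).const_mul 2000)

end Pool.Agent.LR
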