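import Mathlib

/-!
# LR/SMT: almost fixed long segments in a tree (abstract lemma)

`(V, d)` is the vertex set of a simplicial tree (`four`, `geod`, `par`), `G` acts by isometries, two elements which
both fix two points at distance `1` commute (`S1`), an element which fixes two points at distance `≥ 3` is trivial
(`S2`).

PROOF. Write `(a|b)_c = (d a c + d b c - d a b) / 2`, an integer `≥ 0` by `par`, `tri`. By `four`
`(a|b)_c ≥ min ((a|e)_c) ((e|b)_c)` (U). Let `ε` be the sum of the four displacements and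
`N = (Q|Q')_P`; suppose `N > 1000 ε`; we show `Commute x y`.

Case `ε = 0`. Then `N ≥ 1`, so `d P Q ≥ 1`; take `c` with `d P c = 1`, `d c Q = d P Q - 1`. `(c|Q)_P = 1`, so
`(c|Q')_P ≥ 1` by (U), i.e. `d c Q' = d P Q' - 1` (`≥` by `tri`). `x c` also satisfies `d P (x c) = 1`,
`d (x c) Q = d P Q - 1` (since `d P (x P) = d Q (x Q) = 0`), so `(c | x c)_P ≥ 1` by (U) and `d c (x c) ≤ 0`. The same
for `y` with `Q'`. `S1` for `P, c`.

Case `ε ≥ 1`. Say that `w` is *at position* `p` if `d P w = p`, `d w Q = d P Q - p`, `d w Q' = d P Q' - p`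
(`0 ≤ p ≤ N`).
(a) For each integer `0 ≤ p ≤ N` there is `w` at position `p`: iterate `geod` from `P` towards `Q` to get
`d P w = p`, `d w Q = d P Q - p`; then `(w|Q)_P = p`, `(w|Q')_P ≥ min (p, N) = p`, so `d w Q' ≤ d P Q' - p`, `≥` by `tri`.
(b) `w`, `w'` at positions `p`, `p'` : `d w w' = |p - p'|`: `(w|w')_P ≥ min (p, p')` by (U) twice
(`(w|Q)_P = p`, `(w'|Q)_P = p'`), so `d w w' ≤ |p - p'|`, and `≥` by `tri`.
(c) If `w` is at position `p`, `2 ε ≤ p ≤ N - 2 ε`, then `x w` is at some position `p'`, `|p' - p| ≤ ε`. Put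
`p' = d P (x w)`, `|p' - p| ≤ d P (x P) ≤ ε`. `(P|Q)_{xw} = 0`: by (U) twice
`0 = (xP|xQ)_{xw} ≥ min ((xP|P)_{xw}, (P|Q)_{xw}, (Q|xQ)_{xw})`, and `(xP|P)_{xw} ≥ p - ε > 0`,
`(Q|xQ)_{xw} ≥ (d w Q) - ε > 0` (`d w Q ≥ N - p`). So `d (x w) Q = d P Q - p'`. And `(xw|Q)_P = p' ≤ N = (Q|Q')_P` gives
`d (x w) Q' = d P Q' - p'` as in (a). The same for `y` (exchange the roles of `Q` and `Q'`).
(d) There is `τ` (depending on `x`) with `|τ| ≤ ε` such that `x w` is at position `p + τ` whenever `w` is at position `p`,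
`2 ε ≤ p ≤ N - 2 ε`. For `w, w'` at `p < p'` with `x w, x w'` at `q, q'`: `|q' - q| = p' - p` by (b) and invariance, so
`q' - q = p' - p` or `(q - p) - (q' - p') = 2 (p' - p)`, and the second alternative implies `p' - p ≤ ε`. So if
`p' - p > ε` the shifts `q - p`, `q' - p'` are equal; in general compare both with a third `w''` at distance `> ε`
from both (there is room: `N > 1000 ε`). The same for `y`, shift `σ`.
(e) For `w` at position `p`, `10 ε ≤ p ≤ N - 10 ε`: `x (y w)` and `y (x w)` are both at position `p + τ + σ`, so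
`d (x y w) (y x w) = 0` by (b), i.e. `c = (y x)⁻¹ (x y)` satisfies `d w (c w) = 0`. Apply this to points at positions
`10 ε` and `10 ε + 3` and use `S2`: `c = 1`, i.e. `x y = y x`.
-/

set_option autoImplicit false

namespace Pool.Agent.LR

section SMTaux

variable {V G : Type*} [Group G] {act : G → V → V} {d : V → V → ℤ}

/-- Gromov product inequality, in the form used below. -/
private theorem smt_U (symm : ∀ a b, d a b = d b a)
    (four : ∀ a b c e, d a b + d c e ≤ max (d a c + d b e) (d a e + d b c))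
    (a b c e : V) (k : ℤ) (h1 : k ≤ d c a + d c e - d a e) (h2 : k ≤ d c e + d c b - d e b) :
    k ≤ d c a + d c b - d a b := by
  have h := four a b c e
  have s1 := symm a c
  have s2 := symm b c
  have s3 := symm b e
  rcases le_max_iff.mp h with h | h <;> omega

private theorem smt_tri (self : ∀ a, d a a = 0) (symm : ∀ a b, d a b = d b a)
    (four : ∀ a b c e, d a b + d c e ≤ max (d a c + d b e) (d a e + d b c)) (a b c : V) :
    d a b ≤ d a c + d c b := by
  have h := four a b c c
  have s1 := symm b c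
  have s2 := self c
  rcases le_max_iff.mp h with h | h <;> omega

/-- `w` is at position `p`. -/
private def smtPos (d : V → V → ℤ) (P Q Q' w : V) (p : ℤ) : Prop :=
  d P w = p ∧ d w Q = d P Q - p ∧ d w Q' = d P Q' - p

/-- (a): existence of points at position `p`. -/
private theorem smt_exists (nonneg : ∀ a b, 0 ≤ d a b) (self : ∀ a, d a a = 0)
    (symm : ∀ a b, d a b = d b a)
    (four : ∀ a b c e, d a b + d c e ≤ max (d a c + d b e) (d a e + d b c))
    (geod : ∀ a b, ∀ n : ℤ, 0 ≤ n → d a b = n + 1 → ∃ c, d a c = 1 ∧ d c b = n)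
    (P Q Q' : V) (N : ℤ) (hN : d P Q + d P Q' - d Q Q' = 2 * N) (p : ℤ) (hp0 : 0 ≤ p) (hp : p ≤ N) :
    ∃ w, smtPos d P Q Q' w p := by
  have tri := smt_tri self symm four
  have hNQ : N ≤ d P Q := by
    have h1 := tri P Q' Q
    omega
  have step : ∀ n : ℕ, (n : ℤ) ≤ d P Q → ∃ w, d P w = n ∧ d w Q = d P Q - n := by
    intro n
    induction n with
    | zero =>
      intro _
      exact ⟨P, by simp [self], by simp⟩
    | succ n ih =>
      intro hn
      push_cast at hn ⊢
      obtain ⟨w, hw1, hw2⟩ := ih (by omega)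
      obtain ⟨c, hc1, hc2⟩ := geod w Q (d P Q - n - 1) (by omega) (by omega)
      refine ⟨c, ?_, by omega⟩
      have h1 := tri P c w
      have h2 := tri P Q c
      omega
  obtain ⟨n, rfl⟩ := Int.eq_ofNat_of_zero_le hp0
  obtain ⟨w, hw1, hw2⟩ := step n (by omega)
  refine ⟨w, hw1, hw2, ?_⟩
  have h1 := smt_U symm four w Q' P Q (2 * n) (by omega) (by omega)
  have h2 := tri P Q' w
  omega

/-- (b): distance between two points with positions. -/
private theorem smt_dist (self : ∀ a, d a a = 0) (symm : ∀ a b, d a b = d b a)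
    (four : ∀ a b c e, d a b + d c e ≤ max (d a c + d b e) (d a e + d b c))
    {P Q Q' w w' : V} {p p' : ℤ} (hw : smtPos d P Q Q' w p) (hw' : smtPos d P Q Q' w' p') :
    d w w' = |p - p'| := by
  have tri := smt_tri self symm four
  obtain ⟨a1, a2, -⟩ := hw
  obtain ⟨b1, b2, -⟩ := hw'
  have s1 := symm w' Q
  have s2 := symm w w'
  have t1 := tri P w w'
  have t2 := tri P w' w
  rcases le_total p p' with h | h
  · rw [abs_of_nonpos (by omega)]
    have h1 := smt_U symm four w w' P Q (2 * p) (by omega) (by omega)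
    omega
  · rw [abs_of_nonneg (by omega)]
    have h1 := smt_U symm four w w' P Q (2 * p') (by omega) (by omega)
    omega

/-- (c): the image of a point in the middle has a position. -/
private theorem smt_image (self : ∀ a, d a a = 0) (symm : ∀ a b, d a b = d b a)
    (four : ∀ a b c e, d a b + d c e ≤ max (d a c + d b e) (d a e + d b c))
    (f : V → V) (inv : ∀ a b, d (f a) (f b) = d a b)
    {P Q Q' w : V} {p N ε : ℤ} (hN : d P Q + d P Q' - d Q Q' = 2 * N) (hε : 1 ≤ ε)
    (hP : d P (f P) ≤ ε) (hQ : d Q (f Q) ≤ ε)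
    (hw : smtPos d P Q Q' w p) (h1 : 2 * ε ≤ p) (h2 : p ≤ N - 2 * ε) :
    smtPos d P Q Q' (f w) (d P (f w)) ∧ |d P (f w) - p| ≤ ε := by
  have tri := smt_tri self symm four
  obtain ⟨a1, a2, a3⟩ := hw
  have e1 := inv P w
  have e2 := inv w Q
  have e3 := inv P Q
  have hNQ : N ≤ d P Q := by
    have h1 := tri P Q' Q
    omega
  have t1 := tri P (f w) (f P)
  have t2 := tri (f P) (f w) P
  have s1 := symm P (f P)
  have s2 := symm Q (f Q)
  have s3 := symm (f w) Q
  have s4 := symm (f w) (f Q)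
  have s5 := symm (f w) P
  have s6 := symm (f w) (f P)
  have t3 := tri (f Q) (f w) Q
  have t4 := tri Q (f w) (f Q)
  have hd : |d P (f w) - p| ≤ ε := by
    rw [abs_le]
    constructor <;> omega
  -- the product `(P | Q)` at `f w` vanishes
  have key : d (f w) Q = d P Q - d P (f w) := by
    by_contra hcon
    have t5 := tri P Q (f w)
    have h3 : 1 ≤ d P (f w) + d (f w) Q - d P Q := by omega
    -- `(P | f Q)`
    have h4 := smt_U symm four P (f Q) (f w) Q 1 (by omega) (by omega)
    have s7 := symm (f P) P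
    have h5 := smt_U symm four (f P) (f Q) (f w) P 1 (by omega) (by omega)
    omega
  refine ⟨⟨rfl, key, ?_⟩, hd⟩
  rw [abs_le] at hd
  have h6 := smt_U symm four (f w) Q' P Q (2 * d P (f w)) (by omega) (by omega)
  have t6 := tri P Q' (f w)
  omega

/-- (d): the image is a shift. -/
private theorem smt_shift (nonneg : ∀ a b, 0 ≤ d a b) (self : ∀ a, d a a = 0)
    (symm : ∀ a b, d a b = d b a)
    (four : ∀ a b c e, d a b + d c e ≤ max (d a c + d b e) (d a e + d b c))
    (geod : ∀ a b, ∀ n : ℤ, 0 ≤ n → d a b = n + 1 → ∃ c, d a c = 1 ∧ d c b = n)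
    (f : V → V) (inv : ∀ a b, d (f a) (f b) = d a b)
    {P Q Q' : V} {N ε : ℤ} (hN : d P Q + d P Q' - d Q Q' = 2 * N) (hε : 1 ≤ ε) (hbig : 1000 * ε < N)
    (hP : d P (f P) ≤ ε) (hQ : d Q (f Q) ≤ ε) :
    ∃ τ : ℤ, |τ| ≤ ε ∧ ∀ w p, smtPos d P Q Q' w p → 2 * ε ≤ p → p ≤ N - 2 * ε →
      smtPos d P Q Q' (f w) (p + τ) := by
  have main : ∀ w w' p p', smtPos d P Q Q' w p → smtPos d P Q Q' w' p' → 2 * ε ≤ p → p ≤ N - 2 * ε →
      2 * ε ≤ p' → p' ≤ N - 2 * ε → ε < |p - p'| → d P (f w) - p = d P (f w') - p' := by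
    intro w w' p p' hw hw' h1 h2 h1' h2' hlt
    obtain ⟨i1, i2⟩ := smt_image self symm four f inv hN hε hP hQ hw h1 h2
    obtain ⟨j1, j2⟩ := smt_image self symm four f inv hN hε hP hQ hw' h1' h2'
    have k1 := smt_dist self symm four i1 j1
    have k2 := smt_dist self symm four hw hw'
    rw [inv, k2] at k1
    rw [abs_le] at i2 j2
    rcases abs_cases (p - p') with ⟨c1, c2⟩ | ⟨c1, c2⟩ <;>
    rcases abs_cases (d P (f w) - d P (f w')) with ⟨c3, c4⟩ | ⟨c3, c4⟩ <;>
    omega
  obtain ⟨w0, hw0⟩ := smt_exists nonneg self symm four geod P Q Q' N hN (2 * ε) (by omega) (by omega)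
  obtain ⟨w1, hw1⟩ := smt_exists nonneg self symm four geod P Q Q' N hN (100 * ε) (by omega) (by omega)
  have m01 := main w0 w1 _ _ hw0 hw1 (by omega) (by omega) (by omega) (by omega)
    (by rw [abs_of_nonpos (by omega)]; omega)
  refine ⟨d P (f w0) - 2 * ε, (smt_image self symm four f inv hN hε hP hQ hw0 (by omega) (by omega)).2, ?_⟩
  intro w p hw h1 h2
  obtain ⟨i1, i2⟩ := smt_image self symm four f inv hN hε hP hQ hw h1 h2
  have hs : d P (f w) - p = d P (f w0) - 2 * ε := by
    by_cases hc : ε < |p - 2 * ε|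
    · exact main w w0 _ _ hw hw0 h1 h2 (by omega) (by omega) hc
    · rw [not_lt, abs_le] at hc
      rw [m01]
      exact main w w1 _ _ hw hw1 h1 h2 (by omega) (by omega) (by rw [abs_of_nonpos (by omega)]; omega)
  have he : p + (d P (f w0) - 2 * ε) = d P (f w) := by omega
  rw [he]
  exact i1

end SMTaux

theorem smt {V G : Type*} [Group G] (act : G → V → V) (act_one : ∀ v, act 1 v = v)
    (act_mul : ∀ g h v, act (g * h) v = act g (act h v)) (d : V → V → ℤ)
    (nonneg : ∀ a b, 0 ≤ d a b) (self : ∀ a, d a a = 0) (symm : ∀ a b, d a b = d b a)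
    (four : ∀ a b c e, d a b + d c e ≤ max (d a c + d b e) (d a e + d b c))
    (inv : ∀ g a b, d (act g a) (act g b) = d a b)
    (geod : ∀ a b, ∀ n : ℤ, 0 ≤ n → d a b = n + 1 → ∃ c, d a c = 1 ∧ d c b = n)
    (par : ∀ a b c, Even (d a b + d b c + d a c))
    (S1 : ∀ x y : G, ∀ a b, d a b = 1 → d a (act x a) = 0 → d b (act x b) = 0 →
      d a (act y a) = 0 → d b (act y b) = 0 → Commute x y)
    (S2 : ∀ c : G, ∀ a b, 3 ≤ d a b → d a (act c a) = 0 → d b (act c b) = 0 → c = 1)
    (x y : G) (hxy : ¬ Commute x y) (P Q Q' : V) :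
    d P Q + d P Q' - d Q Q' ≤
      2000 * (d P (act x P) + d Q (act x Q) + d P (act y P) + d Q' (act y Q')) := by
  by_contra hcon
  rw [not_le] at hcon
  apply hxy
  have tri := smt_tri self symm four
  have n1 := nonneg P (act x P)
  have n2 := nonneg Q (act x Q)
  have n3 := nonneg P (act y P)
  have n4 := nonneg Q' (act y Q')
  obtain ⟨N, hN⟩ : ∃ N, d P Q + d P Q' - d Q Q' = 2 * N := by
    obtain ⟨r, hr⟩ := par P Q Q'
    exact ⟨r - d Q Q', by omega⟩
  have hNQ : N ≤ d P Q := by
    have h1 := tri P Q' Q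
    omega
  obtain ⟨ε, hε⟩ : ∃ ε, ε = d P (act x P) + d Q (act x Q) + d P (act y P) + d Q' (act y Q') := ⟨_, rfl⟩
  rw [← hε] at hcon
  rcases (show 0 ≤ ε by omega).eq_or_lt with h0 | h0
  · -- no displacement
    obtain ⟨c, hc1, hc2⟩ := geod P Q (d P Q - 1) (by omega) (by omega)
    have u1 := smt_U symm four c Q' P Q 2 (by omega) (by omega)
    have u2 := tri P Q' c
    have fix : ∀ g : G, ∀ R : V, d P (act g P) = 0 → d R (act g R) = 0 → d c R = d P R - 1 →
        d c (act g c) = 0 := by
      intro g R hgP hgR hcR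
      have e1 := inv g P c
      have e2 := inv g c R
      have t1 := tri P (act g c) (act g P)
      have t2 := tri (act g P) (act g c) P
      have s1 := symm (act g P) P
      have t3 := tri (act g c) R (act g R)
      have s2 := symm (act g R) R
      have t4 := tri (act g c) (act g R) R
      have s3 := symm (act g c) R
      have u := smt_U symm four c (act g c) P R 2 (by omega) (by omega)
      have := nonneg c (act g c)
      omega
    exact S1 x y P c hc1 (by omega) (fix x Q (by omega) (by omega) hc2) (by omega)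
      (fix y Q' (by omega) (by omega) (by omega))
  · -- positive displacement
    have hbig : 1000 * ε < N := by omega
    have hsym : d P Q' + d P Q - d Q' Q = 2 * N := by
      have := symm Q Q'
      omega
    obtain ⟨τ, hτ, hx⟩ := smt_shift nonneg self symm four geod (act x) (inv x) hN (by omega) hbig
      (by omega) (by omega)
    obtain ⟨σ, hσ, hy⟩ := smt_shift nonneg self symm four geod (act y) (inv y) hsym (by omega) hbig
      (by omega) (by omega)
    rw [abs_le] at hτ hσ
    have hy' : ∀ w p, smtPos d P Q Q' w p → 2 * ε ≤ p → p ≤ N - 2 * ε →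
        smtPos d P Q Q' (act y w) (p + σ) := by
      intro w p hw h1 h2
      obtain ⟨b1, b2, b3⟩ := hy w p ⟨hw.1, hw.2.2, hw.2.1⟩ h1 h2
      exact ⟨b1, b3, b2⟩
    have comm : ∀ w p, smtPos d P Q Q' w p → 10 * ε ≤ p → p ≤ N - 10 * ε →
        d w (act ((y * x)⁻¹ * (x * y)) w) = 0 := by
      intro w p hw h1 h2
      have a1 := hx _ _ (hy' w p hw (by omega) (by omega)) (by omega) (by omega)
      have a2 := hy' _ _ (hx w p hw (by omega) (by omega)) (by omega) (by omega)
      have a3 := smt_dist self symm four a2 a1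
      rw [← inv (y * x), ← act_mul, ← mul_assoc, mul_inv_cancel, one_mul, act_mul, act_mul, a3]
      have : p + τ + σ - (p + σ + τ) = 0 := by ring
      rw [this, abs_zero]
    obtain ⟨w, hw⟩ := smt_exists nonneg self symm four geod P Q Q' N hN (10 * ε) (by omega) (by omega)
    obtain ⟨w', hw'⟩ := smt_exists nonneg self symm four geod P Q Q' N hN (10 * ε + 3) (by omega) (by omega)
    have hd := smt_dist self symm four hw hw'
    have hc : (y * x)⁻¹ * (x * y) = 1 := by
      refine S2 _ w w' ?_ (comm w _ hw (by omega) (by omega)) (comm w' _ hw' (by omega) (by omega))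
      rw [hd, abs_of_nonpos (by omega)]
      omega
    exact (inv_mul_eq_one.mp hc).symm

end Pool.Agent.LR
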