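import Pool.Agent.LR.TreeV
import Pool.Agent.LR.SMT
import Pool.Agent.LR.GoodBasic

/-!
# LR/GoodBase: the tree metric on half-turns is good, and it is the intersection number

PROOFS. `Dt_eq_pd` with a suitable `y` reduces everything to `pd`.
* `nonneg`, `self`, `symm`, `four`: `Dt_eq_pd` with `y = 1`, `pd_nonneg`, ..., `pd_four`.
* `inv`: `Dt L (x • s) (x • t) = pd (x, x s x⁻¹ x) (x, x t x⁻¹ x) = pd (x, x s) (x, x t) = pd (1, s) (1, t)`.
* `half`: put `A = L s`, `T = L t`, `B = L (s t s)`... precisely let `A = vdist 1 s`, `B = vdist t (s t)` (`= L (t s t)`),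
  `C = vdist s t = L (s t)`, `T = vdist 1 t = L t`. `pd_hb` for `s` and the points `1`, `t`: `A + B = 2 max T C`.
  `(s • t)` has `Dt L (s • t) t = pd (s, s t s s) (1, t) = pd (s, s t) (1, t)` (`Dt_eq_pd`, `pd_hb` for the half-turn
  `s • t` and the points `1`, `s`, `pd_tri`) `= 2 max (max C A) (max B C) - 2 T`... (the four cross distances of
  `(s, s t)` and `(1, t)`: `d s 1 = A`, `d s t = C`, `d (s t) 1 = C`, `d (s t) t = B`). And
  `2 Dt L s t = 2 (2 max (max A T) C - A - T) = 2 (max A B) - 2 T` because `2 max T C = A + B`. Finally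
  `C ≤ max A B`, since `2 C ≤ A + B`.
* `small`: choose centres `P, Q, Q'` of `s, t, t'` (`exists_center`); then `Dt L s t = vd P Q` etc. and
  `Dt L s (x • s) = vd P (vact x P)` (`pd_tri`, `pd_hb`, `pd_smul`), and apply `smt` with `G = E`, `V = E × Bool`.
* `cross_eq_Dt`: let `s = x gen i x⁻¹`, `y = x`. `A = L (x⁻¹ t x)`, `C = L (x⁻¹ s t x) = vdist (s x) (t x)`, `l = L (x⁻¹ s x) =
  L (gen i) ∈ {0, 1}`. `Dt L s t = 2 max (max l A) C - l - A`. By `mul`, `par`: `|C - A| = l` (`C ≡ A + l`). So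
  `Dt L s t = C` (for `l = 1`: `A` is... if `C = A + 1` then `2 (A + 1) - 1 - A = C`; if `C = A - 1` then `A ≥ 1` and
  `2 A - 1 - A = C`). So `cross γ ≤ C = Dt L s t` by `cross_le`. Conversely for every `z`: with `y = z⁻¹`,
  `L (z (s t) z⁻¹) = vdist (s y) (t y) ≥ pd (y, s y) (y, t y) = Dt L s t` (triangle inequalities), so
  `cross_eq` gives `cross γ ≥ Dt L s t`.
* `exists_bound`: `j γ = ∏ (gen i_l * gen k_l)` for a list of `n` pairs (`j γ` is in the subgroup generated by the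
  `gen i * gen k`, by the values on `a₁, b₁, a₂, b₂`; inverses of such products are such products). Put
  `t_i = φ.1 (gen i)`, `S = ∑ Dt`. `φ • hgen 0` is a conjugate `x gen m x⁻¹`; take `y = x`; `f i = L (y⁻¹ t_i y)`, `f 0 ≤ 1`
  (`gen_le`). `f i ≤ Dt (t_i, t_0) + f 0` and `2 L (y⁻¹ t_i t_k y) ≤ Dt (t_i, t_k) + f i + f k` (from `Dt_eq_pd`), so
  `2 L (y⁻¹ t_i t_k y) ≤ 3 S + 2`; if `S ≥ 1` then `L (y⁻¹ t_i t_k y) ≤ 3 S`. If `S = 0` then `L (y⁻¹ t_i t_k y) ≤ 1` and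
  `f i = f 0 = f k`, so `L (y⁻¹ t_i t_k y)` is even (`par`) and `0`. So `L (y⁻¹ φ (j γ) y) ≤ 3 n S`.
-/

namespace Pool.Agent.LR

variable {L : E → ℕ}

/-- the half-turn `gen i` -/
def hgen (i : Fin 6) : HT := ⟨gen i, isHT_gen i⟩

private theorem pd_congr (h : LenE L) {p p' q q' : E × E} (hp : pd L p p' = 0) (hq : pd L q q' = 0) :
    pd L p q = pd L p' q' := by
  have h1 := pd_tri h p p' q
  have h2 := pd_tri h p' q' q
  have h3 := pd_tri h p' p q'
  have h4 := pd_tri h p q q'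
  have h5 := pd_symm h p p'
  have h6 := pd_symm h q q'
  omega

private theorem Dt_vd (h : LenE L) {s t : HT} {P Q : E × Bool} (hP : pd L (1, s.1) (emb P) = 0)
    (hQ : pd L (1, t.1) (emb Q) = 0) : Dt L s t = vd L P Q := by
  have h1 := Dt_eq_pd h s t 1
  rw [mul_one, mul_one, pd_congr h hP hQ] at h1
  exact h1

private theorem center_smul (h : LenE L) {s : HT} {P : E × Bool} (hP : pd L (1, s.1) (emb P) = 0)
    (x : E) : pd L (1, (x • s).1) (emb (vact x P)) = 0 := by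
  have h1 := pd_hb h (x • s) 1 x
  have e1 : (x • s).1 * x = x * s.1 := by
    rw [smul_val]; group
  rw [mul_one, e1] at h1
  have e : emb (vact x P) = (x * (emb P).1, x * (emb P).2) := by
    obtain ⟨p, i⟩ := P
    cases i
    · rfl
    · show (x * p, x * p * s4) = (x * p, x * (p * s4))
      rw [mul_assoc]
  have h2 := pd_smul (L := L) x (1, s.1) (emb P)
  rw [hP] at h2
  rw [e]
  have h3 : pd L (x, x * s.1) (x * (emb P).1, x * (emb P).2) = 0 := by
    simpa using h2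
  have h4 := pd_tri h (1, (x • s).1) (x, x * s.1) (x * (emb P).1, x * (emb P).2)
  have h5 := pd_nonneg h (1, (x • s).1) (x * (emb P).1, x * (emb P).2)
  omega

private theorem ht_inv (s : HT) : s.1⁻¹ = s.1 := inv_eq_of_mul_eq_one_left s.2.mul_self

private theorem Dt_half (h : LenE L) (s t : HT) : Dt L (s.1 • t) t = 2 * Dt L s t := by
  have hs := ht_inv s
  have ht := ht_inv t
  have hss := s.2.mul_self
  have htt := t.2.mul_self
  have h1 := Dt_eq_pd h (s.1 • t) t 1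
  have h2 := pd_hb h (s.1 • t) 1 s.1
  have e1 : (s.1 • t).1 * s.1 = s.1 * t.1 := by
    rw [smul_val]; group
  rw [e1] at h2
  have h3 : pd L (1, (s.1 • t).1 * 1) (1, t.1 * 1) = pd L (s.1, s.1 * t.1) (1, t.1 * 1) :=
    pd_congr h h2 (pd_self h _)
  rw [h3, mul_one] at h1
  have h4 := pd_hb h s 1 t.1
  rw [mul_one] at h4
  have h5 := Dt_eq_pd h s t 1
  rw [mul_one, mul_one] at h5
  -- distances
  have a1 : vdist L s.1 1 = vdist L 1 s.1 := vdist_symm h _ _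
  have a2 : vdist L (s.1 * t.1) 1 = vdist L s.1 t.1 := by
    unfold vdist
    congr 1
    rw [mul_one, h.inv, hs]
  have a3 : vdist L (s.1 * t.1) t.1 = vdist L t.1 (s.1 * t.1) := vdist_symm h _ _
  have a4 : vdist L s.1 (s.1 * t.1) = vdist L 1 t.1 := by
    unfold vdist
    congr 2
    group
  have a5 : vdist L 1 (s.1 * t.1) = vdist L s.1 t.1 := by
    rw [vdist_symm h, a2]
  have a6 := vdist_self h (1 : E)
  have a7 := vdist_nonneg (L := L) 1 s.1
  have a8 := vdist_nonneg (L := L) 1 t.1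
  unfold pd at h1 h4 h5
  simp only [a1, a2, a3, a4, a5, a6] at h1 h4 h5
  rw [h1, h5]
  omega

theorem good_Dt (h : LenE L) : Good (fun s t => (Dt L s t : ℝ)) := by
  refine { nonneg := ?_, self := ?_, symm := ?_, four := ?_, inv := ?_, half := ?_, small := ?_ }
  · intro s t
    rw [Dt_eq_pd h s t 1]
    exact_mod_cast pd_nonneg h _ _
  · intro s
    show (Dt L s s : ℝ) = 0
    rw [Dt_eq_pd h s s 1, pd_self h]
    norm_num
  · intro s t
    show (Dt L s t : ℝ) = Dt L t s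
    rw [Dt_eq_pd h s t 1, Dt_eq_pd h t s 1, pd_symm h]
  · intro s t u v
    show (Dt L s t : ℝ) + Dt L u v ≤ max ((Dt L s u : ℝ) + Dt L t v) ((Dt L s v : ℝ) + Dt L t u)
    simp only [fun a b => Dt_eq_pd h a b 1]
    exact_mod_cast pd_four h _ _ _ _
  · intro x s t
    show (Dt L (x • s) (x • t) : ℝ) = Dt L s t
    have e : ∀ s : HT, (x • s).1 * x = x * s.1 := by
      intro s
      rw [smul_val]; group
    have h1 := pd_smul (L := L) x (1, s.1) (1, t.1)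
    have h2 : pd L (x, x * s.1) (x, x * t.1) = pd L (1, s.1) (1, t.1) := by
      simpa using h1
    rw [Dt_eq_pd h (x • s) (x • t) x, Dt_eq_pd h s t 1, e, e, h2, mul_one, mul_one]
  · intro s t
    show (Dt L (s.1 • t) t : ℝ) = 2 * Dt L s t
    rw [Dt_half h]
    push_cast
    ring
  · intro x y hxy s t t'
    show (Dt L s t : ℝ) + Dt L s t' - Dt L t t' ≤
      2000 * ((Dt L s (x • s) : ℝ) + Dt L t (x • t) + Dt L s (y • s) + Dt L t' (y • t'))
    obtain ⟨P, hP⟩ := exists_center h s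
    obtain ⟨Q, hQ⟩ := exists_center h t
    obtain ⟨Q', hQ'⟩ := exists_center h t'
    rw [Dt_vd h hP hQ, Dt_vd h hP hQ', Dt_vd h hQ hQ', Dt_vd h hP (center_smul h hP x),
      Dt_vd h hQ (center_smul h hQ x), Dt_vd h hP (center_smul h hP y),
      Dt_vd h hQ' (center_smul h hQ' y)]
    have := smt (V := E × Bool) (G := E) vact (fun v => by simp [vact])
      (fun g g' v => by simp [vact, mul_assoc]) (vd L) (vd_nonneg h) (vd_self h) (vd_symm h)
      (vd_four h) vd_act (vd_geod h) (vd_par h) (vd_S1 h) (vd_S2 h) x y hxy P Q Q'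
    exact_mod_cast this

theorem cross_eq_Dt (h : LenE L) {s t : HT} {γ : Surf} (hγ : j γ = s.1 * t.1) :
    (cross γ : ℤ) = Dt L s t := by
  have hs := ht_inv s
  have ht := ht_inv t
  apply le_antisymm
  · obtain ⟨i, x, hx⟩ := s.2
    have h1 := h.cross_le γ x⁻¹
    have h2 := Dt_eq_pd h s t x
    unfold pd at h2
    have e1 : x⁻¹ * s.1 * x = gen i := by rw [hx]; group
    have hA : vdist L x (s.1 * x) = L (gen i) := by
      unfold vdist
      rw [← e1, mul_assoc]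
    have hC : vdist L (s.1 * x) (t.1 * x) = L (x⁻¹ * j γ * x⁻¹⁻¹) := by
      unfold vdist
      rw [hγ, mul_inv_rev, hs, inv_inv]
      congr 2
      group
    have hB : vdist L x (t.1 * x) = L (x⁻¹ * t.1 * x) := by
      unfold vdist
      rw [mul_assoc]
    have hmul : x⁻¹ * j γ * x⁻¹⁻¹ = gen i * (x⁻¹ * t.1 * x) := by
      rw [hγ, ← e1]
      group
    have m1 := h.mul (gen i) (x⁻¹ * t.1 * x)
    have m2 := h.mul (gen i) (gen i * (x⁻¹ * t.1 * x))
    rw [← mul_assoc (gen i) (gen i), gen_mul_self, one_mul] at m2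
    have m3 := h.par (gen i) (x⁻¹ * t.1 * x)
    rw [← hmul] at m1 m2 m3
    have m4 := h.gen_le i
    obtain ⟨r, hr⟩ := m3
    have a1 : vdist L (s.1 * x) x = vdist L x (s.1 * x) := vdist_symm h _ _
    simp only [a1, vdist_self h, hA, hB, hC] at h2
    rw [h2]
    omega
  · obtain ⟨z, hz⟩ := h.cross_eq γ
    rw [hz]
    have h2 := Dt_eq_pd h s t z⁻¹
    unfold pd at h2
    have hC : vdist L (s.1 * z⁻¹) (t.1 * z⁻¹) = L (z * j γ * z⁻¹) := by
      unfold vdist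
      rw [hγ, mul_inv_rev, hs, inv_inv]
      congr 2
      group
    have t1 := vdist_tri h z⁻¹ (s.1 * z⁻¹) (t.1 * z⁻¹)
    have t2 := vdist_tri h z⁻¹ (t.1 * z⁻¹) (s.1 * z⁻¹)
    have t3 := vdist_tri h (s.1 * z⁻¹) z⁻¹ (t.1 * z⁻¹)
    have s1 := vdist_symm h (s.1 * z⁻¹) (t.1 * z⁻¹)
    have s2 := vdist_symm h (s.1 * z⁻¹) z⁻¹
    have n1 := vdist_nonneg (L := L) z⁻¹ (s.1 * z⁻¹)
    have n2 := vdist_nonneg (L := L) z⁻¹ (t.1 * z⁻¹)
    have n3 := vdist_nonneg (L := L) (s.1 * z⁻¹) (t.1 * z⁻¹)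
    have s3 := vdist_self h z⁻¹
    simp only [s3] at h2
    rw [h2, ← hC]
    omega

private theorem bound_aux (h : LenE L) (γ : Surf) : ∃ n : ℕ, ∀ (f : E →* E) (y : E) (B : ℤ), 0 ≤ B →
    (∀ i k : Fin 6, (L (y⁻¹ * f (gen i * gen k) * y) : ℤ) ≤ B) → (L (y⁻¹ * f (j γ) * y) : ℤ) ≤ n * B := by
  have hcl : γ ∈ Subgroup.closure (Set.range (PresentedGroup.of (rels := ({surfRel} : Set (FreeGroup Gen))))) := by
    rw [PresentedGroup.closure_range_of]; trivial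
  induction hcl using Subgroup.closure_induction with
  | mem x hx =>
    obtain ⟨g, rfl⟩ := hx
    have key : ∀ (γ : Surf) (i k : Fin 6), j γ = gen i * gen k → ∃ n : ℕ, ∀ (f : E →* E) (y : E) (B : ℤ), 0 ≤ B →
        (∀ i k : Fin 6, (L (y⁻¹ * f (gen i * gen k) * y) : ℤ) ≤ B) →
        (L (y⁻¹ * f (j γ) * y) : ℤ) ≤ n * B := by
      intro γ i k hik
      refine ⟨1, fun f y B _ hB => ?_⟩
      rw [hik, Nat.cast_one, one_mul]
      exact hB i k
    cases g
    · exact key _ 0 1 j_a1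
    · exact key _ 2 1 j_b1
    · exact key _ 3 4 j_a2
    · exact key _ 5 4 j_b2
  | one =>
    refine ⟨0, fun f y B _ _ => ?_⟩
    have : y⁻¹ * f (j 1) * y = 1 := by rw [map_one, map_one]; group
    rw [this, h.one]
    simp
  | mul a b _ _ iha ihb =>
    obtain ⟨n, hn⟩ := iha
    obtain ⟨m, hm⟩ := ihb
    refine ⟨n + m, fun f y B hB0 hB => ?_⟩
    have h1 := hn f y B hB0 hB
    have h2 := hm f y B hB0 hB
    have h3 := h.mul (y⁻¹ * f (j a) * y) (y⁻¹ * f (j b) * y)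
    have e : y⁻¹ * f (j a) * y * (y⁻¹ * f (j b) * y) = y⁻¹ * f (j (a * b)) * y := by
      rw [map_mul, map_mul]; group
    rw [e] at h3
    have h4 : (L (y⁻¹ * f (j (a * b)) * y) : ℤ) ≤ L (y⁻¹ * f (j a) * y) + L (y⁻¹ * f (j b) * y) := by
      exact_mod_cast h3
    push_cast
    nlinarith
  | inv a _ iha =>
    obtain ⟨n, hn⟩ := iha
    refine ⟨n, fun f y B hB0 hB => ?_⟩
    have h1 := hn f y B hB0 hB
    have e : y⁻¹ * f (j a⁻¹) * y = (y⁻¹ * f (j a) * y)⁻¹ := by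
      rw [map_inv, map_inv]; group
    rw [e, h.inv]
    exact h1

theorem exists_bound (h : LenE L) (γ : Surf) : ∃ C : ℕ, ∀ φ : AutE, ∃ y : E,
    (L (y⁻¹ * φ.1 (j γ) * y) : ℤ) ≤ C * ∑ i : Fin 6, ∑ k : Fin 6, Dt L (φ • hgen i) (φ • hgen k) := by
  obtain ⟨n, hn⟩ := bound_aux h γ
  refine ⟨n * 3, fun φ => ?_⟩
  obtain ⟨m, y, hy⟩ := (φ • hgen 0).2
  refine ⟨y, ?_⟩
  set S : ℤ := ∑ i : Fin 6, ∑ k : Fin 6, Dt L (φ • hgen i) (φ • hgen k) with hS
  have hpos : ∀ i k : Fin 6, 0 ≤ Dt L (φ • hgen i) (φ • hgen k) := by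
    intro i k
    rw [Dt_eq_pd h _ _ 1]
    exact pd_nonneg h _ _
  have hle : ∀ i k : Fin 6, Dt L (φ • hgen i) (φ • hgen k) ≤ S := by
    intro i k
    calc Dt L (φ • hgen i) (φ • hgen k) ≤ ∑ k : Fin 6, Dt L (φ • hgen i) (φ • hgen k) :=
          Finset.single_le_sum (fun k _ => hpos i k) (Finset.mem_univ k)
      _ ≤ S := Finset.single_le_sum (f := fun i => ∑ k : Fin 6, Dt L (φ • hgen i) (φ • hgen k))
          (fun i _ => Finset.sum_nonneg (fun k _ => hpos i k)) (Finset.mem_univ i)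
  have hS0 : 0 ≤ S := (hpos 0 0).trans (hle 0 0)
  have hval : ∀ i : Fin 6, (φ • hgen i).1 = φ.1 (gen i) := fun i => rfl
  have f0 : L (y⁻¹ * φ.1 (gen 0) * y) ≤ 1 := by
    rw [← hval, hy]
    have : y⁻¹ * (y * gen m * y⁻¹) * y = gen m := by group
    rw [this]
    exact h.gen_le m
  have hD : ∀ i k : Fin 6, Dt L (φ • hgen i) (φ • hgen k) =
      2 * max (max 0 (L (y⁻¹ * φ.1 (gen k) * y) : ℤ)) (max (L (y⁻¹ * φ.1 (gen i) * y) : ℤ)
        (L (y⁻¹ * φ.1 (gen i * gen k) * y))) - L (y⁻¹ * φ.1 (gen i) * y) - L (y⁻¹ * φ.1 (gen k) * y) := by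
    intro i k
    have h1 := Dt_eq_pd h (φ • hgen i) (φ • hgen k) y
    unfold pd at h1
    have e1 : ∀ i : Fin 6, vdist L y ((φ • hgen i).1 * y) = L (y⁻¹ * φ.1 (gen i) * y) := by
      intro i
      unfold vdist
      rw [hval, mul_assoc]
    have e2 : vdist L ((φ • hgen i).1 * y) y = vdist L y ((φ • hgen i).1 * y) := vdist_symm h _ _
    have e3 : vdist L ((φ • hgen i).1 * y) ((φ • hgen k).1 * y) = L (y⁻¹ * φ.1 (gen i * gen k) * y) := by
      unfold vdist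
      rw [mul_inv_rev, ht_inv, hval, hval, map_mul]
      congr 2
      group
    simp only [e1, e2, e3, vdist_self h] at h1
    exact h1
  have hpar : ∀ i k : Fin 6, Even (L (y⁻¹ * φ.1 (gen i * gen k) * y) + L (y⁻¹ * φ.1 (gen i) * y) +
      L (y⁻¹ * φ.1 (gen k) * y)) := by
    intro i k
    have h1 := h.par (y⁻¹ * φ.1 (gen i) * y) (y⁻¹ * φ.1 (gen k) * y)
    have e : y⁻¹ * φ.1 (gen i) * y * (y⁻¹ * φ.1 (gen k) * y) = y⁻¹ * φ.1 (gen i * gen k) * y := by
      rw [map_mul]; group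
    rw [e] at h1
    exact h1
  have hB : ∀ i k : Fin 6, (L (y⁻¹ * φ.1 (gen i * gen k) * y) : ℤ) ≤ 3 * S := by
    intro i k
    have d1 := hD i k
    have d2 := hD i 0
    have d3 := hD k 0
    have l1 := hle i k
    have l2 := hle i 0
    have l3 := hle k 0
    obtain ⟨r, hr⟩ := hpar i k
    have m1 := le_max_right (L (y⁻¹ * φ.1 (gen i) * y) : ℤ) (L (y⁻¹ * φ.1 (gen i * gen k) * y))
    have m2 := le_max_right (max 0 (L (y⁻¹ * φ.1 (gen k) * y) : ℤ)) (max (L (y⁻¹ * φ.1 (gen i) * y) : ℤ)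
        (L (y⁻¹ * φ.1 (gen i * gen k) * y)))
    have q : ∀ a b c : ℤ, a ≤ max (max 0 a) (max b c) ∧ b ≤ max (max 0 a) (max b c) :=
      fun a b c => ⟨(le_max_right _ _).trans (le_max_left _ _), (le_max_left _ _).trans (le_max_right _ _)⟩
    obtain ⟨q1, q2⟩ := q (L (y⁻¹ * φ.1 (gen 0) * y)) (L (y⁻¹ * φ.1 (gen i) * y))
      (L (y⁻¹ * φ.1 (gen i * gen 0) * y))
    obtain ⟨q3, q4⟩ := q (L (y⁻¹ * φ.1 (gen 0) * y)) (L (y⁻¹ * φ.1 (gen k) * y))
      (L (y⁻¹ * φ.1 (gen k * gen 0) * y))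
    have z1 : 2 * (L (y⁻¹ * φ.1 (gen i * gen k) * y) : ℤ) - L (y⁻¹ * φ.1 (gen i) * y) -
        L (y⁻¹ * φ.1 (gen k) * y) ≤ S := by linarith
    have z2 : (L (y⁻¹ * φ.1 (gen i) * y) : ℤ) - L (y⁻¹ * φ.1 (gen 0) * y) ≤ S := by linarith
    have z3 : (L (y⁻¹ * φ.1 (gen 0) * y) : ℤ) - L (y⁻¹ * φ.1 (gen i) * y) ≤ S := by linarith
    have z4 : (L (y⁻¹ * φ.1 (gen k) * y) : ℤ) - L (y⁻¹ * φ.1 (gen 0) * y) ≤ S := by linarith
    have z5 : (L (y⁻¹ * φ.1 (gen 0) * y) : ℤ) - L (y⁻¹ * φ.1 (gen k) * y) ≤ S := by linarith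
    clear q1 q2 q3 q4 q m1 m2 d1 d2 d3 l1 l2 l3 hpar hD hle hpos hval hn
    generalize L (y⁻¹ * φ.1 (gen i * gen k) * y) = c at *
    generalize L (y⁻¹ * φ.1 (gen i) * y) = fi at *
    generalize L (y⁻¹ * φ.1 (gen k) * y) = fk at *
    generalize L (y⁻¹ * φ.1 (gen 0) * y) = f0 at *
    generalize S = S' at *
    omega
  have := hn φ.1.toMonoidHom y (3 * S) (by omega) hB
  have e : ((n * 3 : ℕ) : ℤ) * S = n * (3 * S) := by push_cast; ring
  rw [e]
  exact this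

end Pool.Agent.LR
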