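import Pool.Agent.LR.LenDefs
import Pool.Agent.LR.FreeMal
import Pool.Agent.BSAuto.HNNTree

/-!
# LR/HNN: the surface group as an HNN extension, and its length function

PROOF of `exists_lenS`. Let `G = FreeGroup (Fin 3)`, `x₀, x₁, x₂` its generators, `A = zpowers x₂`,
`B = zpowers ([x₀, x₁] x₂)`, `φ : A ≃* B` the isomorphism with `φ x₂ = [x₀, x₁] x₂` (both elements have infinite
order by `free_inf`, `free_inf'`; e.g. compose the isomorphisms of both with `Multiplicative ℤ`).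
`Ψ : Surf →* HNNExtension G A B φ`, `a₁ ↦ of x₀`, `b₁ ↦ of x₁`, `a₂ ↦ of x₂`, `b₂ ↦ t`; the relation holds because
`t * of x₂ * t⁻¹ = of ([x₀,x₁] x₂)` (`HNNExtension.equiv_eq_conj`). The inverse `Φ` is `HNNExtension.lift` of
`f = FreeGroup.lift ![a₁, b₁, a₂]` and `b₂`. So `Ψ` is an isomorphism, `Ψ (f w) = of w`.
Put `L g = len φ (Ψ g)`, `len` from `Pool.Agent.BSAuto.HNNLength` (number of `t`-letters of the normal form).
* `inv`: `len_inv`; `mul`: `len_mul_le`; `four`: `four_point` for `g⁻¹, h⁻¹, k⁻¹` and `len_inv`.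
* `zero`: `len_eq_zero_iff`, and `of.range = Ψ (closure {a₁, b₁, a₂})`.
* `hb2`: `len φ t = 1` (`len_t_mul_le` and `t ∉ of.range`, e.g. by `zero`/the homomorphism `HNNExtension → ℤ`).
* `geod`: `eq_of_mul_prodL` gives `Ψ g = of x * prodL (PL g)`, `PL g = (u, y) :: M`; `isChain_PL`; then
  `Ψ g = of x * t ^ u * (of y * prodL M)` and `len (of y * prodL M) = M.length = n` by `len_prodL_of_chain`.
* `par`: the homomorphism `χ : Surf →* Multiplicative (ZMod 2)`, `b₂ ↦ 1`, the others to `0`; `χ g` is the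
  parity of `L g`, by induction on `L g` with `geod` and `zero`.
* `britton`: `britton2` for `u = 1` and `toSubgroup A B 1 = A`.
* `mal`, `mal'`: `x = f w` for some `w` (by `zero`), `f` is injective (`HNNExtension.of_injective`), so these are
  `free_mal` and `free_mal'`.
-/

namespace Pool.Agent.LR

open Surf HNNExtension Pool.Agent.BSAuto

namespace HNNAux

/-- an isomorphism between infinite cyclic subgroups -/
theorem exists_equiv {G : Type*} [Group G] (x y : G) (hx : ∀ n : ℤ, x ^ n = 1 → n = 0)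
    (hy : ∀ n : ℤ, y ^ n = 1 → n = 0) :
    ∃ φ : Subgroup.zpowers x ≃* Subgroup.zpowers y, ∀ (n : ℤ) (h : x ^ n ∈ Subgroup.zpowers x),
      (φ ⟨x ^ n, h⟩ : G) = y ^ n := by
  have key : ∀ (z : G), (∀ n : ℤ, z ^ n = 1 → n = 0) →
      ∃ e : Multiplicative ℤ ≃* Subgroup.zpowers z, ∀ n : ℤ,
        (e (Multiplicative.ofAdd n) : G) = z ^ n := by
    intro z hz
    refine ⟨MulEquiv.ofBijective ((zpowersHom G z).codRestrict (Subgroup.zpowers z) (fun n => ?_))
      ⟨?_, ?_⟩, ?_⟩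
    · rw [zpowersHom_apply]; exact ⟨_, rfl⟩
    · rw [injective_iff_map_eq_one]
      intro a ha
      have h1 : zpowersHom G z a = 1 := congrArg Subtype.val ha
      rw [zpowersHom_apply] at h1
      have h2 := hz _ h1
      exact h2
    · rintro ⟨w, n, hn⟩
      refine ⟨Multiplicative.ofAdd n, ?_⟩
      apply Subtype.ext
      show zpowersHom G z (Multiplicative.ofAdd n) = w
      rw [zpowersHom_apply]
      exact hn
    · intro n
      show zpowersHom G z (Multiplicative.ofAdd n) = z ^ n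
      rw [zpowersHom_apply]
      rfl
  obtain ⟨e1, h1⟩ := key x hx
  obtain ⟨e2, h2⟩ := key y hy
  refine ⟨e1.symm.trans e2, fun n h => ?_⟩
  have h3 : (⟨x ^ n, h⟩ : Subgroup.zpowers x) = e1 (Multiplicative.ofAdd n) :=
    Subtype.ext (h1 n).symm
  rw [h3, MulEquiv.trans_apply, MulEquiv.symm_apply_apply, h2]

/-- the free group of rank three -/
abbrev F3 : Type := FreeGroup (Fin 3)

/-- the element `[x₀, x₁] x₂` -/
def cc : F3 := FreeGroup.of 0 * FreeGroup.of 1 * (FreeGroup.of 0)⁻¹ * (FreeGroup.of 1)⁻¹ *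
  FreeGroup.of (2 : Fin 3)

theorem map_cc {H : Type*} [Group H] (h : F3 →* H) :
    h cc = h (FreeGroup.of 0) * h (FreeGroup.of 1) * (h (FreeGroup.of 0))⁻¹ *
      (h (FreeGroup.of 1))⁻¹ * h (FreeGroup.of (2 : Fin 3)) := by
  simp only [cc, map_mul, map_inv]

/-- the inclusion of the vertex group -/
def ff : F3 →* Surf := FreeGroup.lift ![a1, b1, a2]

theorem ff_0 : ff (FreeGroup.of 0) = a1 := by simp [ff]
theorem ff_1 : ff (FreeGroup.of 1) = b1 := by simp [ff]
theorem ff_2 : ff (FreeGroup.of 2) = a2 := by simp [ff]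

theorem ff_cc : ff cc = a1 * b1 * a1⁻¹ * b1⁻¹ * a2 := by
  simp only [cc, map_mul, map_inv, ff_0, ff_1, ff_2]

theorem rel' : b2 * a2 * b2⁻¹ = a1 * b1 * a1⁻¹ * b1⁻¹ * a2 := by
  have h := rel
  have h2 : a1 * b1 * a1⁻¹ * b1⁻¹ = (a2 * b2 * a2⁻¹ * b2⁻¹)⁻¹ := eq_inv_of_mul_eq_one_left h
  rw [h2]; group

theorem ff_range : ff.range = Subgroup.closure {a1, b1, a2} := by
  unfold ff
  rw [FreeGroup.range_lift_eq_closure]
  congr 1
  ext x
  simp only [Matrix.range_cons, Matrix.range_empty, Set.union_empty, Set.mem_union,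
    Set.mem_singleton_iff, Set.mem_insert_iff]

/-- parity of the number of letters `b₂` -/
def chi : Surf →* Multiplicative (ZMod 2) := hom 1 1 1 (Multiplicative.ofAdd 1) (by simp)

theorem chi_ff (w : F3) : chi (ff w) = 1 := by
  have h : chi.comp ff = 1 := by
    apply FreeGroup.ext_hom
    intro i
    rw [MonoidHom.comp_apply]
    fin_cases i
    · show chi (ff (FreeGroup.of 0)) = 1
      rw [ff_0]; simp [chi]
    · show chi (ff (FreeGroup.of 1)) = 1
      rw [ff_1]; simp [chi]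
    · show chi (ff (FreeGroup.of 2)) = 1
      rw [ff_2]; simp [chi]
  exact DFunLike.congr_fun h w

section

variable (φ : Subgroup.zpowers (FreeGroup.of (2 : Fin 3)) ≃* Subgroup.zpowers cc)
  (hφ : ∀ (n : ℤ) (h : (FreeGroup.of (2 : Fin 3)) ^ n ∈ Subgroup.zpowers (FreeGroup.of (2 : Fin 3))),
    (φ ⟨(FreeGroup.of (2 : Fin 3)) ^ n, h⟩ : F3) = cc ^ n)

include hφ in
theorem t_conj : (t * of (FreeGroup.of (2 : Fin 3)) * t⁻¹ : HNNExtension F3 _ _ φ) = of cc := by
  have h1 : FreeGroup.of (2 : Fin 3) ∈ Subgroup.zpowers (FreeGroup.of (2 : Fin 3)) :=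
    Subgroup.mem_zpowers _
  have h2 := equiv_eq_conj (φ := φ) ⟨FreeGroup.of (2 : Fin 3), h1⟩
  have h3 : (φ ⟨FreeGroup.of (2 : Fin 3), h1⟩ : F3) = cc := by
    have h4 := hφ 1 (by simp)
    simpa using h4
  rw [h3] at h2
  exact h2.symm

include hφ in
theorem psi_rel : (of (FreeGroup.of 0) * of (FreeGroup.of 1) * (of (FreeGroup.of 0))⁻¹ *
    (of (FreeGroup.of 1))⁻¹ * (of (FreeGroup.of (2 : Fin 3)) * t * (of (FreeGroup.of 2))⁻¹ * t⁻¹) :
    HNNExtension F3 _ _ φ) = 1 := by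
  have h := t_conj φ hφ
  have h2 : (t * (of (FreeGroup.of (2 : Fin 3)))⁻¹ * t⁻¹ : HNNExtension F3 _ _ φ) = (of cc)⁻¹ := by
    rw [← h]; group
  have h3 : (of cc : HNNExtension F3 _ _ φ) = of (FreeGroup.of 0) * of (FreeGroup.of 1) *
    (of (FreeGroup.of 0))⁻¹ * (of (FreeGroup.of 1))⁻¹ * of (FreeGroup.of (2 : Fin 3)) := by
    exact map_cc _
  calc _ = (of (FreeGroup.of 0) * of (FreeGroup.of 1) * (of (FreeGroup.of 0))⁻¹ *
    (of (FreeGroup.of 1))⁻¹ * of (FreeGroup.of (2 : Fin 3))) *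
      (t * (of (FreeGroup.of (2 : Fin 3)))⁻¹ * t⁻¹) := by group
    _ = 1 := by rw [h2, h3]; group

/-- the homomorphism to the HNN extension -/
noncomputable def psi : Surf →* HNNExtension F3 _ _ φ :=
  hom (of (FreeGroup.of 0)) (of (FreeGroup.of 1)) (of (FreeGroup.of 2)) t (psi_rel φ hφ)

theorem psi_ff (w : F3) : psi φ hφ (ff w) = of w := by
  have h : (psi φ hφ).comp ff = of := by
    apply FreeGroup.ext_hom
    intro i
    rw [MonoidHom.comp_apply]
    fin_cases i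
    · show psi φ hφ (ff (FreeGroup.of 0)) = of (FreeGroup.of 0)
      rw [ff_0]; simp [psi]
    · show psi φ hφ (ff (FreeGroup.of 1)) = of (FreeGroup.of 1)
      rw [ff_1]; simp [psi]
    · show psi φ hφ (ff (FreeGroup.of 2)) = of (FreeGroup.of 2)
      rw [ff_2]; simp [psi]
  exact DFunLike.congr_fun h w

theorem psi_b2 : psi φ hφ b2 = t := by simp [psi]

include hφ in
theorem lift_cond (a : Subgroup.zpowers (FreeGroup.of (2 : Fin 3))) :
    b2 * ff (a : F3) = ff (φ a : F3) * b2 := by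
  obtain ⟨a, n, rfl⟩ := a
  have h1 := hφ n ⟨n, rfl⟩
  have h2 : (φ ⟨(fun x : ℤ => FreeGroup.of (2 : Fin 3) ^ x) n, ⟨n, rfl⟩⟩ : F3) = cc ^ n := h1
  rw [h2]
  show b2 * ff (FreeGroup.of (2 : Fin 3) ^ n) = ff (cc ^ n) * b2
  rw [map_zpow, map_zpow, ff_cc, ff_2, ← rel', conj_zpow]
  group

/-- the inverse homomorphism -/
noncomputable def phi : HNNExtension F3 _ _ φ →* Surf :=
  HNNExtension.lift ff b2 (lift_cond φ hφ)

theorem phi_of (w : F3) : phi φ hφ (of w) = ff w := by simp [phi]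

theorem phi_t : phi φ hφ t = b2 := by simp [phi]

theorem phi_psi (g : Surf) : phi φ hφ (psi φ hφ g) = g := by
  have h : (phi φ hφ).comp (psi φ hφ) = MonoidHom.id Surf := by
    apply Surf.hom_ext
    · rw [MonoidHom.comp_apply, ← ff_0, psi_ff, phi_of]; rfl
    · rw [MonoidHom.comp_apply, ← ff_1, psi_ff, phi_of]; rfl
    · rw [MonoidHom.comp_apply, ← ff_2, psi_ff, phi_of]; rfl
    · rw [MonoidHom.comp_apply, psi_b2, phi_t]; rfl
  exact DFunLike.congr_fun h g

theorem psi_phi (y : HNNExtension F3 _ _ φ) : psi φ hφ (phi φ hφ y) = y := by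
  have h : (psi φ hφ).comp (phi φ hφ) = MonoidHom.id _ := by
    apply HNNExtension.hom_ext
    · ext w
      simp only [MonoidHom.comp_apply, phi_of, psi_ff, MonoidHom.id_apply]
    · rw [MonoidHom.comp_apply, phi_t, psi_b2]; rfl
  exact DFunLike.congr_fun h y

theorem psi_inj {g h : Surf} (e : psi φ hφ g = psi φ hφ h) : g = h := by
  rw [← phi_psi φ hφ g, e, phi_psi]

include φ hφ in
theorem ff_inj : Function.Injective ff := by
  intro v w h
  have h1 := congrArg (psi φ hφ) h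
  rw [psi_ff, psi_ff] at h1
  exact of_injective φ h1

/-- the length function -/
noncomputable def LL (g : Surf) : ℕ := len φ (psi φ hφ g)

theorem LL_zero (g : Surf) : LL φ hφ g = 0 ↔ ∃ w, g = ff w := by
  unfold LL
  rw [len_eq_zero_iff]
  constructor
  · rintro ⟨w, hw⟩
    exact ⟨w, psi_inj φ hφ (by rw [← hw, psi_ff])⟩
  · rintro ⟨w, rfl⟩
    exact ⟨w, (psi_ff φ hφ w).symm⟩

theorem LL_b2 : LL φ hφ b2 = 1 := by
  have h1 : LL φ hφ b2 ≤ 1 := by
    unfold LL
    rw [psi_b2]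
    have h := len_t_mul_le φ 1 1
    simpa using h
  have h2 : LL φ hφ b2 ≠ 0 := by
    intro h
    obtain ⟨w, hw⟩ := (LL_zero φ hφ b2).1 h
    have h3 := chi_ff w
    rw [← hw] at h3
    simp [chi] at h3
  omega

theorem LL_geod (g : Surf) (n : ℕ) (hg : LL φ hφ g = n + 1) :
    ∃ x g', LL φ hφ x = 0 ∧ (g = x * b2 * g' ∨ g = x * b2⁻¹ * g') ∧ LL φ hφ g' = n := by
  obtain ⟨x, hx⟩ := eq_of_mul_prodL φ (psi φ hφ g)
  have hch := isChain_PL φ (psi φ hφ g)
  have hlen : (PL φ (psi φ hφ g)).length = n + 1 := hg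
  rcases hPL : PL φ (psi φ hφ g) with _ | ⟨⟨u, y⟩, M⟩
  · rw [hPL] at hlen; simp at hlen
  rw [hPL] at hx hch hlen
  have hM : M.length = n := by simpa using hlen
  refine ⟨ff x, phi φ hφ (of y * prodL φ M), (LL_zero φ hφ _).2 ⟨x, rfl⟩, ?_, ?_⟩
  · have h1 := congrArg (phi φ hφ) hx
    rw [phi_psi, prodL_cons] at h1
    simp only [map_mul, phi_of, map_zpow, phi_t] at h1
    rcases Int.units_eq_one_or u with rfl | rfl
    · left
      rw [h1, map_mul, phi_of]
      simp [mul_assoc]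
    · right
      rw [h1, map_mul, phi_of]
      simp [mul_assoc]
  · unfold LL
    rw [psi_phi, len_of_mul, len_prodL_of_chain φ M ?_, hM]
    exact hch.tail

theorem chi_LL (g : Surf) : chi g = Multiplicative.ofAdd ((LL φ hφ g : ℕ) : ZMod 2) := by
  induction hn : LL φ hφ g generalizing g with
  | zero =>
    obtain ⟨w, rfl⟩ := (LL_zero φ hφ g).1 hn
    rw [chi_ff]
    rfl
  | succ n ih =>
    obtain ⟨x, g', hx, hg, hg'⟩ := LL_geod φ hφ g n hn
    obtain ⟨w, rfl⟩ := (LL_zero φ hφ x).1 hx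
    have h1 := ih g' hg'
    have h2 : chi b2 = Multiplicative.ofAdd 1 := by simp [chi]
    have h3 : (Multiplicative.ofAdd (1 : ZMod 2))⁻¹ = Multiplicative.ofAdd 1 := by decide
    have h4 : Multiplicative.ofAdd (((n + 1 : ℕ)) : ZMod 2) =
        Multiplicative.ofAdd (1 : ZMod 2) * Multiplicative.ofAdd ((n : ℕ) : ZMod 2) := by
      rw [← ofAdd_add]; push_cast; rw [add_comm]
    rcases hg with rfl | rfl
    · rw [map_mul, map_mul, chi_ff, one_mul, h1, h2, h4]
    · rw [map_mul, map_mul, map_inv, chi_ff, one_mul, h1, h2, h3, h4]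

theorem lenS : LenS (LL φ hφ) where
  inv g := by unfold LL; rw [map_inv, len_inv]
  mul g h := by unfold LL; rw [map_mul]; exact len_mul_le φ _ _
  four g h k := by
    unfold LL
    have h1 := four_point φ (psi φ hφ g)⁻¹ (psi φ hφ h)⁻¹ (psi φ hφ k)⁻¹
    simp only [inv_inv, len_inv] at h1
    simp only [map_mul, map_inv]
    exact h1
  par g h := by
    have h1 := chi_LL φ hφ (g * h)
    rw [map_mul, chi_LL φ hφ g, chi_LL φ hφ h, ← ofAdd_add] at h1
    have h2 : ((LL φ hφ g : ℕ) : ZMod 2) + (LL φ hφ h : ℕ) = (LL φ hφ (g * h) : ℕ) := h1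
    rw [← ZMod.natCast_eq_zero_iff_even]
    push_cast
    rw [← h2]
    have h3 : ∀ a b : ZMod 2, a + b + a + b = 0 := by decide
    exact h3 _ _
  hb2 := LL_b2 φ hφ
  zero g := by
    rw [LL_zero, ← ff_range]
    constructor
    · rintro ⟨w, rfl⟩; exact ⟨w, rfl⟩
    · rintro ⟨w, rfl⟩; exact ⟨w, rfl⟩
  geod g n hg := LL_geod φ hφ g n hg
  britton x hx h := by
    obtain ⟨w, rfl⟩ := (LL_zero φ hφ x).1 hx
    unfold LL at h
    rw [len_eq_zero_iff, map_mul, map_mul, map_inv, psi_b2, psi_ff] at h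
    have h1 := britton2 φ 1 w (by simpa using h)
    have h2 : w ∈ Subgroup.zpowers (FreeGroup.of (2 : Fin 3)) := by simpa using h1
    obtain ⟨n, rfl⟩ := h2
    exact ⟨n, by simp only [map_zpow, ff_2]⟩
  mal x m n hx hm h := by
    obtain ⟨w, rfl⟩ := (LL_zero φ hφ x).1 hx
    have h1 : w * (FreeGroup.of 2) ^ m * w⁻¹ = (FreeGroup.of (2 : Fin 3)) ^ n := by
      apply ff_inj φ hφ
      rw [map_mul, map_mul, map_inv, map_zpow, map_zpow, ff_2]
      exact h
    obtain ⟨k, rfl⟩ := free_mal w m n hm h1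
    exact ⟨k, by simp only [map_zpow, ff_2]⟩
  mal' x m n hx hm h := by
    obtain ⟨w, rfl⟩ := (LL_zero φ hφ x).1 hx
    refine free_mal' w m n hm ?_
    apply ff_inj φ hφ
    have h1 := ff_cc
    unfold cc at h1
    rw [map_mul, map_mul, map_inv, map_zpow, map_zpow, ff_2, h1]
    exact h

end

end HNNAux

theorem exists_lenS : ∃ L, LenS L := by
  obtain ⟨φ, hφ⟩ := HNNAux.exists_equiv (FreeGroup.of (2 : Fin 3)) HNNAux.cc free_inf free_inf'
  exact ⟨_, HNNAux.lenS φ hφ⟩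

end Pool.Agent.LR
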