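import Pool.Agent.LR.Embed

/-!
# LR/LenDefs: length functions on the surface group and on `E`

`LenS L`: `L` is the number of letters `b₂^{±1}` in a shortest word (the length function of the HNN extension
of the free group `⟨a₁, b₁, a₂⟩` with stable letter `b₂`, `b₂ a₂ b₂⁻¹ = [a₁, b₁] a₂`).
`LenE L`: `L` is the length function of `E` acting on the same tree; the stabiliser of the base vertex is
`{L = 0} = ⟨s₁, s₂, s₃, s₆⟩`, the stabiliser of the edge from the base vertex to its image under `s₄` is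
`⟨g₁⟩`.
-/

namespace Pool.Agent.LR

open Surf

structure LenS (L : Surf → ℕ) : Prop where
  inv : ∀ g, L g⁻¹ = L g
  mul : ∀ g h, L (g * h) ≤ L g + L h
  four : ∀ g h k, L (g⁻¹ * h) + L k ≤ max (L (g⁻¹ * k) + L h) (L (h⁻¹ * k) + L g)
  par : ∀ g h, Even (L (g * h) + L g + L h)
  hb2 : L b2 = 1
  zero : ∀ g, L g = 0 ↔ g ∈ Subgroup.closure {a1, b1, a2}
  geod : ∀ g n, L g = n + 1 → ∃ x g', L x = 0 ∧ (g = x * b2 * g' ∨ g = x * b2⁻¹ * g') ∧ L g' = n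
  britton : ∀ x, L x = 0 → L (b2 * x * b2⁻¹) = 0 → x ∈ Subgroup.zpowers a2
  mal : ∀ x (m n : ℤ), L x = 0 → m ≠ 0 → x * a2 ^ m * x⁻¹ = a2 ^ n → x ∈ Subgroup.zpowers a2
  mal' : ∀ x (m n : ℤ), L x = 0 → m ≠ 0 →
    x * (a1 * b1 * a1⁻¹ * b1⁻¹ * a2) ^ m * x⁻¹ ≠ a2 ^ n

structure LenE (L : E → ℕ) : Prop where
  inv : ∀ g, L g⁻¹ = L g
  mul : ∀ g h, L (g * h) ≤ L g + L h
  four : ∀ g h k, L (g⁻¹ * h) + L k ≤ max (L (g⁻¹ * k) + L h) (L (h⁻¹ * k) + L g)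
  par : ∀ g h, Even (L (g * h) + L g + L h)
  hs1 : L s1 = 0
  hs2 : L s2 = 0
  hs3 : L s3 = 0
  hs6 : L s6 = 0
  hs4 : L s4 = 1
  hs5 : L s5 = 1
  geod : ∀ g n, L g = n + 1 → ∃ w g', L w = 0 ∧ g = w * s4 * g' ∧ L g' = n
  stab : ∀ x, L x = 0 → L (s4 * x * s4) = 0 → x ∈ Subgroup.zpowers g1
  mal : ∀ x (m n : ℤ), L x = 0 → m ≠ 0 → x * g1 ^ m * x⁻¹ = g1 ^ n → x ∈ Subgroup.zpowers g1
  cross_le : ∀ γ x, cross γ ≤ L (x * j γ * x⁻¹)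
  cross_eq : ∀ γ, ∃ x, cross γ = L (x * j γ * x⁻¹)

end Pool.Agent.LR
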