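import Pool.Agent.LR.HNN
import Pool.Agent.LR.CrossLen

/-!
# LR/LenEx: the length function on `E`

PROOF. Let `LS` be the length function on `Surf`, `LenS LS`.

(0) `LS (hyp γ) = LS γ`. Put `x₀ = a₁ b₁⁻¹ a₁⁻¹`, `u = x₀ b₂`, `LS x₀ = 0`. By the relation
`b₂ a₂ b₂⁻¹ = [a₁, b₁] a₂` (`rel_b2`), `hyp a₂ = u a₂⁻¹ u⁻¹ = x₀ ([a₁,b₁] a₂)⁻¹ x₀⁻¹` has `LS = 0`, `hyp a₁`, `hyp b₁`
too, so `LS (hyp x) = 0` for `LS x = 0` (closure induction with `zero`, `mul`, `inv`), and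
`hyp b₂ = u a₂ b₂⁻¹ a₂⁻¹ u⁻¹ = x₀ (b₂ a₂ b₂⁻¹) a₂⁻¹ b₂⁻¹ x₀⁻¹` has `LS ≤ 1`. By `geod` and induction
`LS (hyp γ) ≤ LS γ`; apply this to `hyp γ` too (`hyp` is an involution).

(1) Every `g : E` is `j γ` or `j γ * s1` (`even_or_odd`), with a unique `γ =: π g` (`j_injective`,
`not_even_and_odd`). `L g := LS (π g)`. For `g = j γ s₁^a`, `g' = j γ' s₁^b`: `g⁻¹ g' = s₁^a j (γ⁻¹ γ') s₁^b`, so by
`j_hyp` and (0) `L (g⁻¹ g') = LS (γ⁻¹ γ')`. Hence `inv` (`L g⁻¹ = L (g⁻¹ 1)`), `four`, `mul` and `par` from those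
of `LS` (`g h = (g⁻¹)⁻¹ h`).

(2) `s1 = j 1 * s1`, `s2 = j (a₁⁻¹) * s1`, `s3 = j (b₁ a₁⁻¹) * s1`, `s6 = j (b₂ a₂⁻¹ u⁻¹) * s1` and
`b₂ a₂⁻¹ u⁻¹ = (b₂ a₂⁻¹ b₂⁻¹) x₀⁻¹` has `LS = 0`; `s4 = j (u⁻¹) * s1`, `s5 = j (a₂⁻¹ u⁻¹) * s1` have `LS = 1`
(`LS u = LS b₂ = 1`).

(3) `geod`: `g = j γ s₁^e`, `LS γ = n + 1`, `γ = x b₂^{±1} γ'`. `j b₂ = s₆ s₅ = s₆ s₄ g₁`,
`j b₂⁻¹ = s₅ s₆ = s₄ g₁ s₆`: take `w = j x s₆`, `g' = g₁ j γ' s₁^e`, resp. `w = j x`, `g' = g₁ s₆ j γ' s₁^e`;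
`L w = 0`, `L g' ≤ n`, and `L g' ≥ n` because `n + 1 = L g ≤ 0 + 1 + L g'`.

(4) `mal`. `x = j γ` even: `j (γ a₂^m γ⁻¹) = j (a₂^n)`, use `LS.mal`. `x = j γ s₁` odd:
`x g₁^m x⁻¹ = j (γ hyp(a₂)^m γ⁻¹)`, `hyp a₂ = x₀ ([a₁,b₁] a₂)⁻¹ x₀⁻¹`, so
`(γ x₀) ([a₁,b₁] a₂)^(-m) (γ x₀)⁻¹ = a₂^n`, impossible by `mal'`.

(5) `stab`. First `x = j γ` even: `s₄ = s₁ j u`, `s₄ x s₄ = s₁ j (u γ u⁻¹) s₁`, so `LS (u γ u⁻¹) = 0`, hence
`LS (b₂ γ b₂⁻¹) = 0` and `γ ∈ zpowers a₂` by `britton`, `x ∈ zpowers g₁` (`j a₂ = g₁`). In general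
`y = x g₁ x⁻¹` is even with `L y = 0` and `L (s₄ y s₄) = 0` (`s₄ g₁ s₄ = g₁⁻¹`), so `y = g₁^n` and `x ∈ zpowers g₁`
by `mal`.

(6) `cross_le`, `cross_eq`: `x = j x'` : `L (x j γ x⁻¹) = LS (x' γ x'⁻¹)`; `x = j x' s₁`:
`L (x j γ x⁻¹) = LS (x' hyp γ x'⁻¹) = LS (hyp (x'' γ x''⁻¹)) = LS (x'' γ x''⁻¹)`, `x'' = hyp x'`. Use
`cross_le_len`, `exists_cross_len`.
-/

namespace Pool.Agent.LR

open Surf

namespace LenExAux

theorem rel_b2' : b2 * a2 * b2⁻¹ = a1 * b1 * a1⁻¹ * b1⁻¹ * a2 := by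
  have h := Surf.rel
  have h2 : a1 * b1 * a1⁻¹ * b1⁻¹ = (a2 * b2 * a2⁻¹ * b2⁻¹)⁻¹ := eq_inv_of_mul_eq_one_left h
  rw [h2]; group

/-- the element `x₀` -/
def x0 : Surf := a1 * b1⁻¹ * a1⁻¹

theorem u_eq : u = x0 * b2 := rfl

theorem hyp_a1 : hyp a1 = a1⁻¹ := by show hypHom a1 = _; simp [hypHom]
theorem hyp_b1 : hyp b1 = a1 * b1⁻¹ * a1⁻¹ := by show hypHom b1 = _; simp [hypHom]
theorem hyp_a2 : hyp a2 = u * a2⁻¹ * u⁻¹ := by show hypHom a2 = _; simp [hypHom]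
theorem hyp_b2 : hyp b2 = u * a2 * b2⁻¹ * a2⁻¹ * u⁻¹ := by show hypHom b2 = _; simp [hypHom]

theorem hyp_hyp (γ : Surf) : hyp (hyp γ) = γ := DFunLike.congr_fun hypHom_hypHom γ

theorem hyp_a2' : hyp a2 = x0 * (a1 * b1 * a1⁻¹ * b1⁻¹ * a2)⁻¹ * x0⁻¹ := by
  rw [hyp_a2, u_eq, ← rel_b2']; group

theorem hyp_b2' : hyp b2 = x0 * (a1 * b1 * a1⁻¹ * b1⁻¹ * a2) * a2⁻¹ * b2⁻¹ * x0⁻¹ := by
  rw [hyp_b2, u_eq, ← rel_b2']; group

section
variable {LS : Surf → ℕ} (h : LenS LS)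
include h

theorem z_mul {x y : Surf} (hx : LS x = 0) (hy : LS y = 0) : LS (x * y) = 0 := by
  have := h.mul x y
  omega

theorem z_inv {x : Surf} (hx : LS x = 0) : LS x⁻¹ = 0 := by rw [h.inv, hx]

theorem z_a1 : LS a1 = 0 := (h.zero a1).2 (Subgroup.subset_closure (by simp))
theorem z_b1 : LS b1 = 0 := (h.zero b1).2 (Subgroup.subset_closure (by simp))
theorem z_a2 : LS a2 = 0 := (h.zero a2).2 (Subgroup.subset_closure (by simp))

theorem z_x0 : LS x0 = 0 :=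
  z_mul h (z_mul h (z_a1 h) (z_inv h (z_b1 h))) (z_inv h (z_a1 h))

theorem z_comm : LS (a1 * b1 * a1⁻¹ * b1⁻¹ * a2) = 0 :=
  z_mul h (z_mul h (z_mul h (z_mul h (z_a1 h) (z_b1 h)) (z_inv h (z_a1 h))) (z_inv h (z_b1 h))) (z_a2 h)

theorem z_hyp {x : Surf} (hx : LS x = 0) : LS (hyp x) = 0 := by
  rw [h.zero] at hx
  induction hx using Subgroup.closure_induction with
  | mem x hx =>
    rcases hx with rfl | rfl | rfl
    · rw [hyp_a1]; exact z_inv h (z_a1 h)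
    · rw [hyp_b1]; exact z_x0 h
    · rw [hyp_a2']
      exact z_mul h (z_mul h (z_x0 h) (z_inv h (z_comm h))) (z_inv h (z_x0 h))
  | one => rw [map_one]; exact (h.zero 1).2 (one_mem _)
  | mul x y _ _ hx hy => rw [map_mul]; exact z_mul h hx hy
  | inv x _ hx => rw [map_inv]; exact z_inv h hx

theorem hyp_b2_le : LS (hyp b2) ≤ 1 := by
  rw [hyp_b2']
  have h1 := h.mul (x0 * (a1 * b1 * a1⁻¹ * b1⁻¹ * a2) * a2⁻¹ * b2⁻¹) x0⁻¹
  have h2 := h.mul (x0 * (a1 * b1 * a1⁻¹ * b1⁻¹ * a2) * a2⁻¹) b2⁻¹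
  have h3 : LS (x0 * (a1 * b1 * a1⁻¹ * b1⁻¹ * a2) * a2⁻¹) = 0 :=
    z_mul h (z_mul h (z_x0 h) (z_comm h)) (z_inv h (z_a2 h))
  have h4 : LS x0⁻¹ = 0 := z_inv h (z_x0 h)
  have h5 : LS b2⁻¹ = 1 := by rw [h.inv, h.hb2]
  omega

theorem hyp_le (n : ℕ) : ∀ γ, LS γ = n → LS (hyp γ) ≤ n := by
  induction n with
  | zero => intro γ hγ; rw [z_hyp h hγ]
  | succ n ih =>
    intro γ hγ
    obtain ⟨x, g', hx, hg, hg'⟩ := h.geod γ n hγ
    have hb := hyp_b2_le h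
    have hx' := z_hyp h hx
    have hi := ih g' hg'
    rcases hg with rfl | rfl
    · rw [map_mul, map_mul]
      have h1 := h.mul (hyp x * hyp b2) (hyp g')
      have h2 := h.mul (hyp x) (hyp b2)
      omega
    · rw [map_mul, map_mul, map_inv]
      have h1 := h.mul (hyp x * (hyp b2)⁻¹) (hyp g')
      have h2 := h.mul (hyp x) (hyp b2)⁻¹
      have h3 := h.inv (hyp b2)
      omega

theorem hyp_eq (γ : Surf) : LS (hyp γ) = LS γ := by
  refine le_antisymm (hyp_le h _ γ rfl) ?_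
  have := hyp_le h _ (hyp γ) rfl
  rwa [hyp_hyp] at this

theorem mul_x_left {x : Surf} (hx : LS x = 0) (g : Surf) : LS (x * g) = LS g := by
  have h1 := h.mul x g
  have h2 := h.mul x⁻¹ (x * g)
  rw [inv_mul_cancel_left, h.inv, hx] at h2
  omega

theorem mul_x_right {x : Surf} (hx : LS x = 0) (g : Surf) : LS (g * x) = LS g := by
  have h1 := h.mul g x
  have h2 := h.mul (g * x) x⁻¹
  rw [mul_inv_cancel_right, h.inv, hx] at h2
  omega

end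

/-- the even part of an element -/
noncomputable def pr (g : E) : Surf :=
  open Classical in
  if h : ∃ γ, g = j γ then h.choose else
    if h' : ∃ γ, g = j γ * s1 then h'.choose else 1

theorem pr_even (γ : Surf) : pr (j γ) = γ := by
  have h : ∃ γ', j γ = j γ' := ⟨γ, rfl⟩
  rw [pr, dif_pos h]
  exact (j_injective h.choose_spec).symm

theorem pr_odd (γ : Surf) : pr (j γ * s1) = γ := by
  have h0 : ¬ ∃ γ', j γ * s1 = j γ' := fun ⟨γ', h⟩ => not_even_and_odd γ' γ h.symm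
  have h : ∃ γ', j γ * s1 = j γ' * s1 := ⟨γ, rfl⟩
  rw [pr, dif_neg h0, dif_pos h]
  exact (j_injective (mul_right_cancel h.choose_spec)).symm

theorem s1_j (γ : Surf) : s1 * j γ = j (hyp γ) * s1 := by
  rw [j_hyp, mul_assoc, mul_assoc, s1_mul_self, mul_one]

theorem pr_s1_j (γ : Surf) : pr (s1 * j γ) = hyp γ := by rw [s1_j, pr_odd]

theorem pr_s1_j_s1 (γ : Surf) : pr (s1 * j γ * s1) = hyp γ := by rw [← j_hyp, pr_even]

end LenExAux

open LenExAux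

theorem exists_lenE : ∃ L, LenE L := by
  obtain ⟨LS, h⟩ := exists_lenS
  have key : ∀ g g' : E, LS (pr (g⁻¹ * g')) = LS ((pr g)⁻¹ * pr g') := by
    intro g g'
    rcases even_or_odd g with ⟨γ, rfl⟩ | ⟨γ, rfl⟩ <;> rcases even_or_odd g' with ⟨γ', rfl⟩ | ⟨γ', rfl⟩
    · rw [pr_even, pr_even, ← map_inv, ← map_mul, pr_even]
    · rw [pr_even, pr_odd, ← map_inv, ← mul_assoc, ← map_mul, pr_odd]
    · rw [pr_even, pr_odd, mul_inv_rev, s1_inv, mul_assoc, ← map_inv, ← map_mul, pr_s1_j, hyp_eq h]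
    · rw [pr_odd, pr_odd, mul_inv_rev, s1_inv]
      have e : s1 * (j γ)⁻¹ * (j γ' * s1) = s1 * j (γ⁻¹ * γ') * s1 := by
        rw [map_mul, map_inv]; simp only [mul_assoc]
      rw [e, pr_s1_j_s1, hyp_eq h]
  have pr_one : pr 1 = 1 := by
    have := pr_even 1
    rwa [map_one] at this
  have hinv : ∀ g : E, LS (pr g⁻¹) = LS (pr g) := by
    intro g
    have := key g 1
    rw [mul_one, pr_one, mul_one] at this
    rw [this, h.inv]
  have keym : ∀ g g' : E, LS (pr (g * g')) = LS ((pr g⁻¹)⁻¹ * pr g') := by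
    intro g g'
    have := key g⁻¹ g'
    rwa [inv_inv] at this
  have hmul : ∀ g g' : E, LS (pr (g * g')) ≤ LS (pr g) + LS (pr g') := by
    intro g g'
    rw [keym]
    refine (h.mul _ _).trans ?_
    rw [h.inv, hinv]
  have hpar : ∀ g g' : E, Even (LS (pr (g * g')) + LS (pr g) + LS (pr g')) := by
    intro g g'
    rw [keym]
    have := h.par (pr g⁻¹)⁻¹ (pr g')
    rwa [h.inv, hinv] at this
  have hs1 : LS (pr s1) = 0 := by
    have := pr_odd 1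
    rw [map_one, one_mul] at this
    rw [this]
    exact (h.zero 1).2 (one_mem _)
  have e2 : s2 = j a1⁻¹ * s1 := by rw [map_inv, j_a1]; simp [mul_assoc]
  have hs2 : LS (pr s2) = 0 := by rw [e2, pr_odd]; exact z_inv h (z_a1 h)
  have e3 : s3 = j (b1 * a1⁻¹) * s1 := by rw [map_mul, map_inv, j_a1, j_b1]; simp [mul_assoc]
  have hs3 : LS (pr s3) = 0 := by rw [e3, pr_odd]; exact z_mul h (z_b1 h) (z_inv h (z_a1 h))
  have ju : j u = s1 * s4 := by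
    have e : j u = s1 * s2 * (s2 * s3) * (s2 * s1) * (s6 * s5) := by
      rw [u, map_mul, map_mul, map_mul, map_inv, map_inv, j_a1, j_b1, j_b2]
      simp [mul_assoc]
    rw [e, ← prod4]
    simp [mul_assoc]
  have jui : j u⁻¹ = s4 * s1 := by rw [map_inv, ju]; simp
  have ja2i : j a2⁻¹ = s5 * s4 := by rw [map_inv, j_a2]; simp
  have e4 : s4 = j u⁻¹ * s1 := by rw [jui]; simp [mul_assoc]
  have e5 : s5 = j (a2⁻¹ * u⁻¹) * s1 := by rw [map_mul, jui, ja2i]; simp [mul_assoc]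
  have e6 : s6 = j (b2 * a2⁻¹ * u⁻¹) * s1 := by
    rw [map_mul, map_mul, jui, ja2i, j_b2]; simp [mul_assoc]
  have hu : LS u = 1 := by rw [u_eq, mul_x_left h (z_x0 h), h.hb2]
  have hs4 : LS (pr s4) = 1 := by rw [e4, pr_odd, h.inv, hu]
  have hs5 : LS (pr s5) = 1 := by
    rw [e5, pr_odd, mul_x_left h (z_inv h (z_a2 h)), h.inv, hu]
  have hs6 : LS (pr s6) = 0 := by
    rw [e6, pr_odd]
    have e : b2 * a2⁻¹ * u⁻¹ = (b2 * a2 * b2⁻¹)⁻¹ * x0⁻¹ := by rw [u_eq]; group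
    rw [e, rel_b2']
    exact z_mul h (z_inv h (z_comm h)) (z_inv h (z_x0 h))
  have jg1 : g1 = j a2 := by rw [j_a2]; rfl
  have hg1 : LS (pr g1) = 0 := by rw [jg1, pr_even]; exact z_a2 h
  have zpow_mem : ∀ γ : Surf, γ ∈ Subgroup.zpowers a2 → j γ ∈ Subgroup.zpowers g1 := by
    rintro γ ⟨n, rfl⟩
    refine ⟨n, ?_⟩
    show g1 ^ n = j (a2 ^ n)
    rw [map_zpow, jg1]
  have mal : ∀ x (m n : ℤ), LS (pr x) = 0 → m ≠ 0 → x * g1 ^ m * x⁻¹ = g1 ^ n →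
      x ∈ Subgroup.zpowers g1 := by
    intro x m n hx hm hxg
    rcases even_or_odd x with ⟨γ, rfl⟩ | ⟨γ, rfl⟩
    · rw [pr_even] at hx
      have e : j (γ * a2 ^ m * γ⁻¹) = j (a2 ^ n) := by
        rw [map_mul, map_mul, map_inv, map_zpow, map_zpow, ← jg1, hxg]
      exact zpow_mem _ (h.mal γ m n hx hm (j_injective e))
    · exfalso
      rw [pr_odd] at hx
      have e : j (γ * hyp (a2 ^ m) * γ⁻¹) = j (a2 ^ n) := by
        rw [map_mul, map_mul, map_inv, j_hyp, map_zpow, map_zpow, ← jg1, ← hxg, mul_inv_rev, s1_inv]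
        simp only [mul_assoc]
      have e2 := j_injective e
      have e3 : hyp (a2 ^ m) = x0 * (a1 * b1 * a1⁻¹ * b1⁻¹ * a2) ^ (-m) * x0⁻¹ := by
        rw [map_zpow, hyp_a2', conj_zpow, inv_zpow']
      rw [e3] at e2
      refine h.mal' (γ * x0) (-m) n (z_mul h hx (z_x0 h)) (neg_ne_zero.2 hm) ?_
      rw [← e2]
      group
  have stab0 : ∀ γ : Surf, LS γ = 0 → LS (pr (s4 * j γ * s4)) = 0 → j γ ∈ Subgroup.zpowers g1 := by
    intro γ hγ h4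
    have e : s4 * j γ * s4 = s1 * j (u * γ * u⁻¹) * s1 := by
      rw [map_mul, map_mul, ju, jui]; simp [mul_assoc]
    rw [e, pr_s1_j_s1, hyp_eq h] at h4
    have e' : u * γ * u⁻¹ = x0 * (b2 * γ * b2⁻¹) * x0⁻¹ := by rw [u_eq]; group
    rw [e', mul_x_right h (z_inv h (z_x0 h)), mul_x_left h (z_x0 h)] at h4
    exact zpow_mem _ (h.britton γ hγ h4)
  have conj_j : ∀ (x : E) (γ : Surf), ∃ x' : Surf, (x * j γ * x⁻¹ = j (x' * γ * x'⁻¹)) ∨
      (x * j γ * x⁻¹ = j (hyp (x' * γ * x'⁻¹))) := by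
    intro x γ
    rcases even_or_odd x with ⟨x', rfl⟩ | ⟨x', rfl⟩
    · exact ⟨x', Or.inl (by rw [map_mul, map_mul, map_inv])⟩
    · refine ⟨hyp x', Or.inr ?_⟩
      have e : hyp (hyp x' * γ * (hyp x')⁻¹) = x' * hyp γ * x'⁻¹ := by
        rw [map_mul, map_mul, map_inv, hyp_hyp]
      rw [e, map_mul, map_mul, map_inv, j_hyp, mul_inv_rev, s1_inv]
      simp only [mul_assoc]
  refine ⟨fun g => LS (pr g), ?_⟩
  refine
    { inv := hinv
      mul := hmul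
      four := ?_
      par := hpar
      hs1 := hs1
      hs2 := hs2
      hs3 := hs3
      hs6 := hs6
      hs4 := hs4
      hs5 := hs5
      geod := ?_
      stab := ?_
      mal := mal
      cross_le := ?_
      cross_eq := ?_ }
  · intro g g' k
    show LS (pr (g⁻¹ * g')) + LS (pr k) ≤ max (LS (pr (g⁻¹ * k)) + LS (pr g'))
      (LS (pr (g'⁻¹ * k)) + LS (pr g))
    rw [key, key, key]
    exact h.four _ _ _
  · intro g n hn
    replace hn : LS (pr g) = n + 1 := hn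
    obtain ⟨γ, e, he, hg⟩ : ∃ (γ : Surf) (e : E), (e = 1 ∨ e = s1) ∧ g = j γ * e := by
      rcases even_or_odd g with ⟨γ, hγ⟩ | ⟨γ, hγ⟩
      · exact ⟨γ, 1, Or.inl rfl, by rw [hγ, mul_one]⟩
      · exact ⟨γ, s1, Or.inr rfl, hγ⟩
    have hpe : LS (pr e) = 0 := by
      rcases he with rfl | rfl
      · rw [pr_one]; exact (h.zero 1).2 (one_mem _)
      · exact hs1
    have hpg : pr g = γ := by
      rcases he with rfl | rfl
      · rw [hg, mul_one, pr_even]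
      · rw [hg, pr_odd]
    rw [hpg] at hn
    obtain ⟨x, γ', hx, hγ, hγ'⟩ := h.geod γ n hn
    have hjx : LS (pr (j x)) = 0 := by rw [pr_even, hx]
    have hjγ' : LS (pr (j γ')) = n := by rw [pr_even, hγ']
    have hjb2 : j b2⁻¹ = s5 * s6 := by rw [map_inv, j_b2]; simp
    have main : ∀ w g'' : E, LS (pr w) = 0 → g = w * s4 * g'' → LS (pr g'') ≤ n →
        ∃ w g', LS (pr w) = 0 ∧ g = w * s4 * g' ∧ LS (pr g') = n := by
      intro w g'' hw hgw hle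
      refine ⟨w, g'', hw, hgw, le_antisymm hle ?_⟩
      have h1 := hmul (w * s4) g''
      have h2 := hmul w s4
      rw [← hgw, hpg] at h1
      omega
    rcases hγ with hγ | hγ
    · refine main (j x * s6) (g1 * j γ' * e) ?_ ?_ ?_
      · have := hmul (j x) s6
        omega
      · rw [hg, hγ, map_mul, map_mul, j_b2, g1]; simp [mul_assoc]
      · have h1 := hmul (g1 * j γ') e
        have h2 := hmul g1 (j γ')
        omega
    · refine main (j x) (g1 * s6 * j γ' * e) hjx ?_ ?_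
      · rw [hg, hγ, map_mul, map_mul, hjb2, g1]; simp [mul_assoc]
      · have h1 := hmul (g1 * s6 * j γ') e
        have h2 := hmul (g1 * s6) (j γ')
        have h3 := hmul g1 s6
        omega
  · intro x hx h4
    replace hx : LS (pr x) = 0 := hx
    replace h4 : LS (pr (s4 * x * s4)) = 0 := h4
    have hy : ∃ γ, x * g1 * x⁻¹ = j γ := by
      obtain ⟨x', hx' | hx'⟩ := conj_j x a2
      · exact ⟨_, by rw [jg1, hx']⟩
      · exact ⟨_, by rw [jg1, hx']⟩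
    obtain ⟨γ, hγ⟩ := hy
    have hxi : LS (pr x⁻¹) = 0 := by rw [hinv, hx]
    have h1 : LS (pr (x * g1 * x⁻¹)) = 0 := by
      have h1 := hmul (x * g1) x⁻¹
      have h2 := hmul x g1
      omega
    have h2 : LS (pr (s4 * (x * g1 * x⁻¹) * s4)) = 0 := by
      have e : s4 * (x * g1 * x⁻¹) * s4 = (s4 * x * s4) * g1⁻¹ * (s4 * x * s4)⁻¹ := by
        rw [g1]; simp [mul_assoc]
      rw [e]
      have h1 := hmul ((s4 * x * s4) * g1⁻¹) (s4 * x * s4)⁻¹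
      have h2 := hmul (s4 * x * s4) g1⁻¹
      have h3 := hinv g1
      have h5 := hinv (s4 * x * s4)
      omega
    rw [hγ] at h1 h2
    rw [pr_even] at h1
    obtain ⟨n, hn⟩ := stab0 γ h1 h2
    have hn' : g1 ^ n = x * g1 * x⁻¹ := by rw [hγ]; exact hn
    refine mal x 1 n hx one_ne_zero ?_
    rw [zpow_one, hn']
  · intro γ x
    show cross γ ≤ LS (pr (x * j γ * x⁻¹))
    obtain ⟨x', hx' | hx'⟩ := conj_j x γ
    · rw [hx', pr_even]; exact cross_le_len h γ x'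
    · rw [hx', pr_even, hyp_eq h]; exact cross_le_len h γ x'
  · intro γ
    obtain ⟨x, hx⟩ := exists_cross_len h γ
    refine ⟨j x, ?_⟩
    show cross γ = LS (pr (j x * j γ * (j x)⁻¹))
    rw [← map_inv, ← map_mul, ← map_mul, pr_even, hx]

end Pool.Agent.LR
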