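import Pool.Agent.LR.MLGood

/-!
# LR/MCGFacts: relations in the mapping class group

PROOFS.
* `IsLift.inj`: `j (α γ) = φ (j γ) = j (β γ)`, `j_injective`.
* `ML_conj`: `cross (x γ x⁻¹) = cross γ` (the defining set is the same), so `f (x γ x⁻¹) = f γ` for weighted curves (`α` is an
  automorphism) and this is a closed condition.
* `Dof_eq_of_mcg`: `β = α * conj x` in `MulAut Surf` for some `x` (equality in the quotient by `Inn`), and
  `Dof F (φ • s) (φ • t) = F (α (ev s t))` by `Dof_lift`, `F (β (ev s t)) = F (α (x * ev s t * x⁻¹)) = F (α x * α (ev s t) * (α x)⁻¹)`.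
* `isLift_iota`: `dh_dh'_pow_five`.
* `delta_iota`: the automorphisms `deltaAut * iotaAut` and `iotaAut * deltaAut` have the same lift: `dh * inn s6 = inn (dh s6) * dh`,
  `dh s6 = s6`. `iota_sq`: `inn s6 * inn s6 = 1`. `v0_delta`: `v0_dh`. (`IsLift.inj`.)
* `exists_mod_of_Fh`: closure induction (`Fh` is generated by `dh`, `dh'`; `deltaAut`, `deltaAut'`).
* `delta_ne_one`. Suppose `δ^m ι^e = 1`, `m ≠ 0`. For every `F ∈ ML`, every `n`: `δ^(m n) ι^(e n) = 1` (`δ`, `ι` commute), so by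
  `Dof_eq_of_mcg` (lifts `dh^(m n) * (inn s6)^(e n)` and `1`; `Good.inv` removes the inner automorphism: `dh^(m n) • s6^k • s = s6^k • dh^(m n) • s`)
  `Dof F (dh^(m n) • s) (dh^(m n) • t) = Dof F s t`. With `s = h1`, `t = h2`: `Dof F h1 (line h2 h3 (-(m n))) = Dof F h1 h2` for all `n`, and
  `line_growth` gives `Dof F h2 h3 * |m n|` bounded, so `Dof F h2 h3 = 0`; in the same way `Dof F h4 h5 = 0`. This holds for all
  `F ∈ ML`, so also for `F ∘ ṽ` where `ṽ = (deltaAut * deltaAut')²` has the lift `v0` (`ML_comp`, `Dof_lift`):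
  `Dof F (v0 • h2) (v0 • h3) = Dof F h3 h4 = 0`, `Dof F (v0 • h4) (v0 • h5) = Dof F h1 h2 = 0`. By `Good.eq_zero_of_chain` `Dof F = 0` for all
  `F ∈ ML`, contradiction to `ML_ne_zero'` for `F = cross` (`cross_b2`: it is not zero; it is in `weightedCurves` with `r = 1`, `α = 1`).
-/

namespace Pool.Agent.LR

theorem IsLift.inj {α β : MulAut Surf} {φ : AutE} (h : IsLift α φ) (h' : IsLift β φ) : α = β :=
  MulEquiv.ext fun γ => j_injective (by rw [h γ, h' γ])

private theorem cross_conj_aux (x γ : Surf) : cross (x * γ * x⁻¹) = cross γ := by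
  unfold cross
  congr 1
  ext n
  constructor
  · rintro ⟨w, y, h, hn⟩
    exact ⟨w, y * x, by rw [h]; group, hn⟩
  · rintro ⟨w, y, h, hn⟩
    exact ⟨w, y * x⁻¹, by rw [h]; group, hn⟩

theorem ML_conj {F : Surf → ℝ} (hF : F ∈ ML) (x γ : Surf) : F (x * γ * x⁻¹) = F γ := by
  have hcl : IsClosed {F : Surf → ℝ | F (x * γ * x⁻¹) = F γ} :=
    isClosed_eq (continuous_apply _) (continuous_apply _)
  refine closure_minimal ?_ hcl hF
  rintro _ ⟨r, α, -, -, rfl⟩
  show r * (cross (α (x * γ * x⁻¹)) : ℝ) = r * cross (α γ)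
  rw [map_mul, map_mul, map_inv, cross_conj_aux]

theorem Dof_eq_of_mcg {α β : Mod} (h : (QuotientGroup.mk α : MCG) = QuotientGroup.mk β) {φ ψ : AutE}
    (hφ : IsLift α.1 φ) (hψ : IsLift β.1 ψ) {F : Surf → ℝ} (hF : F ∈ ML) (s t : HT) :
    Dof F (φ • s) (φ • t) = Dof F (ψ • s) (ψ • t) := by
  rw [← Dof_lift hφ, ← Dof_lift hψ]
  have h1 : α⁻¹ * β ∈ Inn := QuotientGroup.eq.mp h
  obtain ⟨x, hx⟩ := h1
  have hx' : MulAut.conj x = (α : MulAut Surf)⁻¹ * (β : MulAut Surf) := hx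
  have h2 : (β : MulAut Surf) = (α : MulAut Surf) * MulAut.conj x := by
    rw [hx', mul_inv_cancel_left]
  show F (α.1 (ev s t)) = F (β.1 (ev s t))
  rw [h2]
  show _ = F (α.1 (x * ev s t * x⁻¹))
  rw [map_mul, map_mul, map_inv, ML_conj hF]

/-- a representative of `ι` -/
def iotaAut : Mod := (deltaAut * deltaAut') ^ 5

theorem mk_iotaAut : (QuotientGroup.mk iotaAut : MCG) = ι := rfl

private theorem IsLift.pow_aux {α : MulAut Surf} {φ : AutE} (h : IsLift α φ) (n : ℕ) :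
    IsLift (α ^ n) (φ ^ n) := by
  induction n with
  | zero => rw [pow_zero, pow_zero]; exact IsLift.one
  | succ n ih => rw [pow_succ, pow_succ]; exact ih.mul h

private theorem IsLift.zpow_aux {α : MulAut Surf} {φ : AutE} (h : IsLift α φ) (n : ℤ) :
    IsLift (α ^ n) (φ ^ n) := by
  obtain ⟨k, rfl | rfl⟩ := n.eq_nat_or_neg
  · rw [zpow_natCast, zpow_natCast]; exact h.pow_aux k
  · rw [zpow_neg, zpow_neg, zpow_natCast, zpow_natCast]; exact (h.pow_aux k).inv

theorem isLift_iota : IsLift iotaAut.1 (inn s6) := by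
  rw [← dh_dh'_pow_five]
  exact (isLift_delta.mul isLift_delta').pow_aux 5

private theorem aut_mul_inn (φ : AutE) (x : E) : φ * inn x = inn (φ.1 x) * φ := by
  apply Subtype.ext
  apply MulEquiv.ext
  intro y
  show φ.1 (x * y * x⁻¹) = φ.1 x * φ.1 y * (φ.1 x)⁻¹
  rw [map_mul, map_mul, map_inv]

private theorem inn_mul_aux (x y : E) : inn x * inn y = inn (x * y) := by
  apply Subtype.ext
  apply MulEquiv.ext
  intro z
  show x * (y * z * y⁻¹) * x⁻¹ = x * y * z * (x * y)⁻¹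
  group

private theorem inn_one_aux : inn 1 = 1 := by
  apply Subtype.ext
  apply MulEquiv.ext
  intro z
  show 1 * z * 1⁻¹ = z
  group

private theorem dh_inn_s6 : dh * inn s6 = inn s6 * dh := by
  rw [aut_mul_inn, dh_s6]

private theorem deltaAut_iotaAut : deltaAut * iotaAut = iotaAut * deltaAut := by
  apply Subtype.ext
  have e1 : IsLift (deltaAut.1 * iotaAut.1) (dh * inn s6) := isLift_delta.mul isLift_iota
  have e2 : IsLift (iotaAut.1 * deltaAut.1) (inn s6 * dh) := isLift_iota.mul isLift_delta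
  rw [dh_inn_s6] at e1
  exact e1.inj e2

theorem delta_iota : δ * ι = ι * δ := by
  have h : (QuotientGroup.mk (deltaAut * iotaAut) : MCG) = QuotientGroup.mk (iotaAut * deltaAut) := by
    rw [deltaAut_iotaAut]
  exact h

theorem iota_sq : ι * ι = 1 := by
  have h : iotaAut * iotaAut = 1 := by
    apply Subtype.ext
    have e1 : IsLift (iotaAut.1 * iotaAut.1) (inn s6 * inn s6) := isLift_iota.mul isLift_iota
    rw [inn_mul_aux, s6_mul_self, inn_one_aux] at e1
    exact e1.inj IsLift.one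
  have h2 : (QuotientGroup.mk (iotaAut * iotaAut) : MCG) = QuotientGroup.mk 1 := by rw [h]
  exact h2

private theorem isLift_v0 : IsLift ((deltaAut * deltaAut') ^ 2 : Mod).1 v0 := by
  have h := (isLift_delta.mul isLift_delta').pow_aux 2
  have e : (dh * dh') ^ 2 = v0 := by rw [pow_two]; rfl
  rw [e] at h
  exact h

theorem v0_delta : (δ * δ') ^ 2 * δ = δ' * (δ * δ') ^ 2 := by
  have h : (deltaAut * deltaAut') ^ 2 * deltaAut = deltaAut' * (deltaAut * deltaAut') ^ 2 := by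
    apply Subtype.ext
    have e1 : IsLift (((deltaAut * deltaAut') ^ 2 : Mod).1 * deltaAut.1) (v0 * dh) :=
      isLift_v0.mul isLift_delta
    have e2 : IsLift (deltaAut'.1 * ((deltaAut * deltaAut') ^ 2 : Mod).1) (dh' * v0) :=
      isLift_delta'.mul isLift_v0
    rw [v0_dh] at e1
    exact e1.inj e2
  have h2 : (QuotientGroup.mk ((deltaAut * deltaAut') ^ 2 * deltaAut) : MCG) =
      QuotientGroup.mk (deltaAut' * (deltaAut * deltaAut') ^ 2) := by rw [h]
  exact h2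

theorem exists_mod_of_Fh {w : AutE} (hw : w ∈ Fh) :
    ∃ α : Mod, (QuotientGroup.mk α : MCG) ∈ F ∧ IsLift α.1 w := by
  unfold Fh at hw
  induction hw using Subgroup.closure_induction with
  | mem x hx =>
    rcases hx with rfl | hx
    · exact ⟨deltaAut, Subgroup.subset_closure (Or.inl rfl), isLift_delta⟩
    · rw [Set.mem_singleton_iff] at hx
      subst hx
      exact ⟨deltaAut', Subgroup.subset_closure (Or.inr rfl), isLift_delta'⟩
  | one => exact ⟨1, one_mem F, IsLift.one⟩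
  | mul x y _ _ hx hy =>
    obtain ⟨α, h1, h2⟩ := hx
    obtain ⟨β, h3, h4⟩ := hy
    exact ⟨α * β, mul_mem h1 h3, h2.mul h4⟩
  | inv x _ hx =>
    obtain ⟨α, h1, h2⟩ := hx
    exact ⟨α⁻¹, inv_mem h1, h2.inv⟩

theorem exists_mod_lift (x : MCG) : ∃ (α : Mod) (φ : AutE), QuotientGroup.mk α = x ∧ IsLift α.1 φ := by
  obtain ⟨α, rfl⟩ := QuotientGroup.mk_surjective x
  obtain ⟨φ, hφ⟩ := exists_lift α.2
  exact ⟨α, φ, rfl, hφ⟩

private theorem inn_zpow_aux (x : E) (k : ℤ) : inn x ^ k = inn (x ^ k) := by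
  have hp : ∀ n : ℕ, inn x ^ n = inn (x ^ n) := by
    intro n
    induction n with
    | zero => rw [pow_zero, pow_zero, inn_one_aux]
    | succ n ih => rw [pow_succ, pow_succ, ih, inn_mul_aux]
  obtain ⟨n, rfl | rfl⟩ := k.eq_nat_or_neg
  · rw [zpow_natCast, zpow_natCast, hp]
  · rw [zpow_neg, zpow_neg, zpow_natCast, zpow_natCast, hp]
    apply inv_eq_of_mul_eq_one_left
    rw [inn_mul_aux, inv_mul_cancel, inn_one_aux]

private theorem archi_aux {a C : ℝ} (ha : 0 ≤ a) {m : ℤ} (hm : m ≠ 0)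
    (h : ∀ n : ℕ, a * |((m * n : ℤ) : ℝ)| ≤ C) : a = 0 := by
  by_contra hne
  have hpos : 0 < a := lt_of_le_of_ne ha (Ne.symm hne)
  obtain ⟨n, hn⟩ := exists_nat_gt (C / a)
  have h1 := h n
  have h2 : (1 : ℝ) ≤ |(m : ℝ)| := by
    have : (1 : ℤ) ≤ |m| := Int.one_le_abs hm
    exact_mod_cast this
  rw [div_lt_iff₀ hpos] at hn
  push_cast at h1
  rw [abs_mul, Nat.abs_cast] at h1
  have h3 : (n : ℝ) ≤ |(m : ℝ)| * n := by
    have : (0 : ℝ) ≤ n := Nat.cast_nonneg n
    nlinarith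
  nlinarith

private theorem delta_aux {m e : ℤ} (h : δ ^ m * ι ^ e = 1) {F : Surf → ℝ} (hF : F ∈ ML) (n : ℕ)
    (s t : HT) : Dof F ((dh ^ (m * n)) • s) ((dh ^ (m * n)) • t) = Dof F s t := by
  have hg := good_of_ML hF
  have hl : IsLift ((deltaAut ^ m * iotaAut ^ e) ^ n : Mod).1 ((dh ^ m * inn s6 ^ e) ^ n) :=
    ((isLift_delta.zpow_aux m).mul (isLift_iota.zpow_aux e)).pow_aux n
  have hq : (QuotientGroup.mk ((deltaAut ^ m * iotaAut ^ e) ^ n) : MCG) = QuotientGroup.mk 1 := by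
    have : (δ ^ m * ι ^ e) ^ n = 1 := by rw [h, one_pow]
    exact this
  have h1 := Dof_eq_of_mcg hq hl (IsLift.one : IsLift (1 : Mod).1 1) hF s t
  have hc : Commute dh (inn s6) := dh_inn_s6
  have h2 : (dh ^ m * inn s6 ^ e) ^ n = inn (s6 ^ (e * n)) * dh ^ (m * n) := by
    have hc2 : Commute (dh ^ m) (inn s6 ^ e) := (hc.zpow_zpow m e)
    rw [hc2.mul_pow, ← zpow_natCast, ← zpow_natCast, ← zpow_mul, ← zpow_mul, ← inn_zpow_aux]
    exact (hc.zpow_zpow (m * n) (e * n))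
  rw [h2, mul_smul, mul_smul, inn_smul, inn_smul, hg.inv, one_smul, one_smul] at h1
  exact h1

private theorem delta_zero_aux {m e : ℤ} (hm : m ≠ 0) (h : δ ^ m * ι ^ e = 1) {F : Surf → ℝ}
    (hF : F ∈ ML) : Dof F h2 h3 = 0 ∧ Dof F h4 h5 = 0 := by
  have hg := good_of_ML hF
  have key : ∀ s t : HT, (∀ k : ℤ, (dh ^ (-k)) • s = line s t k) → Dof F s t = 0 := by
    intro s t hst
    refine archi_aux (C := 2 * Dof F h1 s) (hg.nonneg s t) hm ?_
    intro n
    have e1 := delta_aux h hF n h1 s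
    rw [dh_zpow_h1] at e1
    have e2 := hst (-(m * n))
    rw [neg_neg] at e2
    rw [e2] at e1
    have e3 := hg.line_growth s t h1 (-(m * n))
    rw [e1] at e3
    have e4 := (abs_le.mp e3).1
    have e5 : |((-(m * (n : ℤ)) : ℤ) : ℝ)| = |((m * n : ℤ) : ℝ)| := by
      push_cast
      rw [abs_neg]
    rw [e5] at e4
    linarith
  exact ⟨key h2 h3 dh_zpow_h2, key h4 h5 dh_zpow_h4⟩

theorem delta_ne_one {m : ℤ} (hm : m ≠ 0) (e : ℤ) : δ ^ m * ι ^ e ≠ 1 := by
  intro h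
  have hall : ∀ F : Surf → ℝ, F ∈ ML → ∀ s t, Dof F s t = 0 := by
    intro F hF
    have hg := good_of_ML hF
    obtain ⟨z1, z2⟩ := delta_zero_aux hm h hF
    have hF' : (fun γ => F (((deltaAut * deltaAut') ^ 2 : Mod).1 γ)) ∈ ML :=
      ML_comp hF ((deltaAut * deltaAut') ^ 2 : Mod).2
    obtain ⟨z3, z4⟩ := delta_zero_aux hm h hF'
    rw [Dof_lift isLift_v0, v0_h2, v0_h3, hg.inv] at z3
    rw [Dof_lift isLift_v0, v0_h4, v0_h5] at z4
    exact hg.eq_zero_of_chain z4 z1 z3 z2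
  have hmem : (fun γ => (cross γ : ℝ)) ∈ ML :=
    subset_closure ⟨1, 1, zero_le_one, one_mem _, by funext γ; simp⟩
  have hne : (fun γ => (cross γ : ℝ)) ≠ 0 := by
    intro h0
    have := congrFun h0 Surf.b2
    simp [cross_b2] at this
  obtain ⟨s, t, hst⟩ := ML_ne_zero' hmem hne
  exact hst (hall _ hmem s t)

end Pool.Agent.LR
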