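import Pool.Agent.LR.GoodBase
import Pool.Agent.LR.LenEx

/-!
# LR/MLGood: measured laminations give good pseudo-metrics

PROOFS.
* `Dof_lift`: `j (α (ev s t)) = φ (s t) = (φ s) (φ t) = j (ev (φ • s) (φ • t))` and `j_injective`.
* `good_of_ML`. `{F | Good (Dof F)}` is closed: preimage of the closed set `isClosed_good` under the continuous map
  `F ↦ Dof F` (`continuous_pi`). It contains the weighted curves: `F γ = r * cross (α γ)`, `φ` a lift of `α`
  (`exists_lift`), so `Dof F s t = r * cross (ev (φ • s) (φ • t)) = r * Dt L (φ • s) (φ • t)` (`cross_eq_Dt`);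
  use `good_Dt`, `Good.comp`, `Good.smul`. `closure_minimal`.
* `ML_bound`. The inequality is closed in `F`, so one has to check it for `F γ = r * cross (α γ)`, `φ` a lift of `α`:
  `cross (α γ) ≤ L (y⁻¹ * φ (j γ) * y)` by `cross_le` (with `x = y⁻¹`, `j (α γ) = φ (j γ)`), then `exists_bound` and
  `cross_eq_Dt`.
* `ML_nonneg`: closedness.
* `ML_ne_zero`: if all `Dof F (hgen i) (hgen k) = 0` then `F γ ≤ 0` for all `γ` by `ML_bound`, so `F = 0`.
* `ML_ne_zero'` from `Good.eq_zero_of_gen`.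
-/

namespace Pool.Agent.LR

/-- the element of the surface group `s t` for half-turns `s`, `t` -/
noncomputable def ev (s t : HT) : Surf := Classical.choose (exists_mul s t)

theorem j_ev (s t : HT) : j (ev s t) = s.1 * t.1 := Classical.choose_spec (exists_mul s t)

/-- the pseudo-metric of a function on the surface group -/
noncomputable def Dof (F : Surf → ℝ) (s t : HT) : ℝ := F (ev s t)

theorem Dof_lift {α : MulAut Surf} {φ : AutE} (h : IsLift α φ) (F : Surf → ℝ) (s t : HT) :
    Dof (fun γ => F (α γ)) s t = Dof F (φ • s) (φ • t) := by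
  have e : α (ev s t) = ev (φ • s) (φ • t) := by
    apply j_injective
    rw [h, j_ev, j_ev, map_mul]
    rfl
  show F (α (ev s t)) = F (ev (φ • s) (φ • t))
  rw [e]

private theorem mg_cont (s t : HT) : Continuous fun F : Surf → ℝ => Dof F s t :=
  continuous_apply (ev s t)

private theorem mg_cross {L : E → ℕ} (hL : LenE L) {α : MulAut Surf} {φ : AutE} (hφ : IsLift α φ)
    (r : ℝ) (s t : HT) :
    Dof (fun γ => r * (cross (α γ) : ℝ)) s t = r * ((Dt L (φ • s) (φ • t) : ℤ) : ℝ) := by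
  rw [Dof_lift hφ (fun γ => r * (cross γ : ℝ))]
  show r * (cross (ev (φ • s) (φ • t)) : ℝ) = _
  rw [← cross_eq_Dt hL (j_ev (φ • s) (φ • t))]
  push_cast
  rfl

private theorem mg_curves {P : (Surf → ℝ) → Prop} (hc : IsClosed {F | P F})
    (h : ∀ (L : E → ℕ), LenE L → ∀ (r : ℝ) (α : MulAut Surf) (φ : AutE), 0 ≤ r → IsLift α φ →
      P (fun γ => r * (cross (α γ) : ℝ))) {F : Surf → ℝ} (hF : F ∈ ML) : P F := by
  obtain ⟨L, hL⟩ := exists_lenE
  have h1 : weightedCurves ⊆ {F | P F} := by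
    rintro _ ⟨r, α, hr, hα, rfl⟩
    obtain ⟨φ, hφ⟩ := exists_lift hα
    exact h L hL r α φ hr hφ
  exact closure_minimal h1 hc hF

theorem good_of_ML {F : Surf → ℝ} (hF : F ∈ ML) : Good (Dof F) := by
  refine mg_curves (P := fun F => Good (Dof F)) ?_ ?_ hF
  · have hc : Continuous fun F : Surf → ℝ => (fun s t => Dof F s t : HT → HT → ℝ) :=
      continuous_pi fun s => continuous_pi fun t => mg_cont s t
    exact isClosed_good.preimage hc
  · intro L hL r α φ hr hφ
    have e : Dof (fun γ => r * (cross (α γ) : ℝ)) =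
        fun s t => r * ((Dt L (φ • s) (φ • t) : ℤ) : ℝ) := by
      funext s t
      exact mg_cross hL hφ r s t
    show Good (Dof fun γ => r * (cross (α γ) : ℝ))
    rw [e]
    exact ((good_Dt hL).comp φ).smul hr

theorem ML_bound (γ : Surf) : ∃ C : ℝ, ∀ F ∈ ML,
    F γ ≤ C * ∑ i : Fin 6, ∑ k : Fin 6, Dof F (hgen i) (hgen k) := by
  obtain ⟨L, hL⟩ := exists_lenE
  obtain ⟨C, hC⟩ := exists_bound hL γ
  refine ⟨C, fun F hF => ?_⟩
  have hcl : IsClosed {F : Surf → ℝ | F γ ≤ C * ∑ i : Fin 6, ∑ k : Fin 6, Dof F (hgen i) (hgen k)} := by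
    refine isClosed_le (continuous_apply γ) (continuous_const.mul ?_)
    exact continuous_finsetSum _ fun i _ => continuous_finsetSum _ fun k _ => mg_cont _ _
  have h1 : weightedCurves ⊆
      {F : Surf → ℝ | F γ ≤ C * ∑ i : Fin 6, ∑ k : Fin 6, Dof F (hgen i) (hgen k)} := by
    rintro _ ⟨r, α, hr, hα, rfl⟩
    obtain ⟨φ, hφ⟩ := exists_lift hα
    obtain ⟨y, hy⟩ := hC φ
    have e1 := hL.cross_le (α γ) y⁻¹
    rw [hφ γ, inv_inv] at e1
    have e2 : ((cross (α γ) : ℤ)) ≤ C * ∑ i : Fin 6, ∑ k : Fin 6, Dt L (φ • hgen i) (φ • hgen k) :=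
      (Nat.cast_le.2 e1).trans hy
    have e3 : (cross (α γ) : ℝ) ≤
        C * ∑ i : Fin 6, ∑ k : Fin 6, ((Dt L (φ • hgen i) (φ • hgen k) : ℤ) : ℝ) := by
      exact_mod_cast e2
    show r * (cross (α γ) : ℝ) ≤ _
    have e4 : ∑ i : Fin 6, ∑ k : Fin 6, Dof (fun γ => r * (cross (α γ) : ℝ)) (hgen i) (hgen k) =
        r * ∑ i : Fin 6, ∑ k : Fin 6, ((Dt L (φ • hgen i) (φ • hgen k) : ℤ) : ℝ) := by
      simp only [mg_cross hL hφ, Finset.mul_sum]
    rw [e4]
    calc r * (cross (α γ) : ℝ) ≤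
        r * (C * ∑ i : Fin 6, ∑ k : Fin 6, ((Dt L (φ • hgen i) (φ • hgen k) : ℤ) : ℝ)) :=
          mul_le_mul_of_nonneg_left e3 hr
      _ = _ := by ring
  exact closure_minimal h1 hcl hF

theorem ML_nonneg {F : Surf → ℝ} (hF : F ∈ ML) (γ : Surf) : 0 ≤ F γ := by
  refine mg_curves (P := fun F => 0 ≤ F γ) ?_ ?_ hF
  · exact isClosed_le continuous_const (continuous_apply γ)
  · intro L hL r α φ hr hφ
    exact mul_nonneg hr (Nat.cast_nonneg _)

theorem ML_ne_zero {F : Surf → ℝ} (hF : F ∈ ML) (h0 : F ≠ 0) :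
    0 < ∑ i : Fin 6, ∑ k : Fin 6, Dof F (hgen i) (hgen k) := by
  have hnn : 0 ≤ ∑ i : Fin 6, ∑ k : Fin 6, Dof F (hgen i) (hgen k) :=
    Finset.sum_nonneg fun i _ => Finset.sum_nonneg fun k _ => ML_nonneg hF _
  rcases hnn.lt_or_eq with h | h
  · exact h
  · exfalso
    apply h0
    funext γ
    obtain ⟨C, hC⟩ := ML_bound γ
    have e := hC F hF
    rw [← h, mul_zero] at e
    exact le_antisymm e (ML_nonneg hF γ)

theorem ML_ne_zero' {F : Surf → ℝ} (hF : F ∈ ML) (h0 : F ≠ 0) : ∃ s t, Dof F s t ≠ 0 := by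
  by_contra hcon
  push Not at hcon
  have e := ML_ne_zero hF h0
  simp only [hcon, Finset.sum_const_zero, lt_irrefl] at e

/-- sanity check: the space of measured laminations is not zero -/
theorem cross_b2 : cross Surf.b2 = 1 := by
  let f : Surf →* Multiplicative ℤ :=
    Surf.hom 1 1 1 (Multiplicative.ofAdd 1) (by simp)
  have hf0 : ∀ w : List (Gen × Bool), b2Count w = 0 →
      f ((PresentedGroup.mk ({surfRel} : Set (FreeGroup Gen))) (FreeGroup.mk w)) = 1 := by
    intro w
    induction w with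
    | nil =>
      intro _
      rw [← FreeGroup.one_eq_mk, map_one, map_one]
    | cons p w ih =>
      intro hw
      have hp : p.1 ≠ Gen.b2 := by
        intro hp
        simp [b2Count, hp] at hw
      have hw' : b2Count w = 0 := by
        simpa [b2Count, hp] using hw
      have e1 : FreeGroup.mk (p :: w) = FreeGroup.mk [p] * FreeGroup.mk w := by
        rw [FreeGroup.mul_mk]; rfl
      rw [e1, map_mul, map_mul, ih hw', mul_one]
      obtain ⟨g, b⟩ := p
      have e2 : f ((PresentedGroup.mk ({surfRel} : Set (FreeGroup Gen))) (FreeGroup.of g)) = 1 := by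
        cases g
        · exact Surf.hom_a1 _ _ _ _ _
        · exact Surf.hom_b1 _ _ _ _ _
        · exact Surf.hom_a2 _ _ _ _ _
        · exact absurd rfl hp
      cases b
      · have e3 : FreeGroup.mk [(g, false)] = (FreeGroup.of g)⁻¹ := by
          simp [FreeGroup.of, FreeGroup.inv_mk, FreeGroup.invRev]
        rw [e3, map_inv, map_inv, e2, inv_one]
      · exact e2
  apply le_antisymm
  · apply Nat.sInf_le
    refine ⟨[(Gen.b2, true)], 1, ?_, by simp [b2Count]⟩
    rw [one_mul, inv_one, mul_one]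
    rfl
  · rw [Nat.one_le_iff_ne_zero]
    intro h0
    have hne : {n | ∃ (w : List (Gen × Bool)) (x : Surf),
        (PresentedGroup.mk ({surfRel} : Set (FreeGroup Gen))) (FreeGroup.mk w) = x * Surf.b2 * x⁻¹ ∧
          b2Count w = n}.Nonempty := by
      refine ⟨1, [(Gen.b2, true)], 1, ?_, by simp [b2Count]⟩
      rw [one_mul, inv_one, mul_one]
      rfl
    have hmem := Nat.sInf_mem hne
    rw [show sInf {n | ∃ (w : List (Gen × Bool)) (x : Surf),
        (PresentedGroup.mk ({surfRel} : Set (FreeGroup Gen))) (FreeGroup.mk w) = x * Surf.b2 * x⁻¹ ∧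
          b2Count w = n} = 0 from h0] at hmem
    obtain ⟨w, x, hw, hc⟩ := hmem
    have e := hf0 w hc
    rw [hw, map_mul, map_mul, map_inv] at e
    have e' : f Surf.b2 = 1 := by
      rw [mul_comm (f x), mul_assoc, mul_inv_cancel, mul_one] at e
      exact e
    have e'' : f Surf.b2 = Multiplicative.ofAdd 1 := Surf.hom_b2 _ _ _ _ _
    rw [e''] at e'
    have : (1 : ℤ) = 0 := Multiplicative.ofAdd.injective e'
    exact one_ne_zero this

end Pool.Agent.LR
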