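import Pool.Agent.LR.StructBasic

/-!
# LR/View: the dynamics of a conjugate of the multitwist

`View D bp bm m`: a continuous family `D x` of good non-zero pseudo-metrics on a space `X`, equivariant (up to scale)
under `⟨δ, δ'⟩` modulo powers of `δ`, and such that `δ^m` acts with attracting point `bp` and repelling point `bm`.

PROOFS. `η = goldenRatio`. Write `L₂ x = D x h2 h3`, `L₁ x = D x h4 h5`.
* `crossing` (there is `x ∉ {bp, bm}` with `L₂ x ≠ 0` or `L₁ x ≠ 0`). Otherwise `L₁ = L₂ = 0` on the dense (no isolated points, `T1`) set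
  `{bp, bm}ᶜ`, so everywhere by continuity. By `equi` (for `w = 1` and `w = v0`), for every `x` there are `j`, `y`, `c > 0` with
  `0 = D y h4 h5 = c * D x (v0 • dh^j • h4) (v0 • dh^j • h5)`, and `dh^j • h4 = line h4 h5 (-j)`, `dh^j • h5 = line h4 h5 (-j+1)`;
  `D x (v0 • line h4 h5 i) (v0 • line h4 h5 (i+1)) = D x (v0 • h4) (v0 • h5) = D x h1 h2` (`Good.comp v0`, `line_dist`); so
  `D x h1 h2 = 0`; in the same way `D x (v0 • h2) (v0 • h3) = D x h3 h4 = 0`. With `D x h2 h3 = D x h4 h5 = 0`, `eq_zero_of_chain`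
  gives `D x = 0`, contradiction to `ne`.
* `limit_struct`. Let `L₂ x ≠ 0` or `L₁ x ≠ 0` and let `y n → b`, `D (y n) s t = c n * D x (dh^(-e n) • s) (dh^(-e n) • t)` with
  `e n = m' * n`, `m' ≠ 0` (`m' = ± m`). By continuity `c n * D x (dh^(-e n) • s) (dh^(-e n) • t) → D b s t`. Now
  `dh^(-e) • h1 = h1`, `dh^(-e) • h6 = h6`, `dh^(-e) • h2 = line h2 h3 e`, `dh^(-e) • h3 = line h2 h3 (e+1)`, and the same for `h4, h5`.
  `D x h1 (line h2 h3 e) = |e| L₂ x + O(1)` (`line_growth`), and the same for `h4` with `L₁ x`. One of `L₂ x`, `L₁ x` is positive, so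
  from `c n * D x h1 (line ..) → D b h1 h2` (resp. `h4`) we get `c n → 0` and even `c n * |e n|` converges, and
  `D b h1 h2 = lim c n |e n| L₂ x`, `D b h1 h4 = lim c n |e n| L₁ x`. So `D b h1 h2 * L₁ x = D b h1 h4 * L₂ x`. Moreover
  `D b h2 h3 = lim c n L₂ x = 0`, `D b h4 h5 = 0`, `D b h1 h6 = lim c n D x h1 h6 = 0`, `D b h1 (z • h1) = lim c n D x h1 (z • h1) = 0`
  for `z ∈ PX` (`dh_zpow_PX`). So `Struct (D b) (D b h1 h4) (D b h1 h2)`.
* `ratio` (statement: with `k₁ = D bp h1 h4`, `k₂ = D bp h1 h2`: `L₂ x * k₁ = L₁ x * k₂` for all `x`): for `x ≠ bm` with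
  `L₂ x ≠ 0` or `L₁ x ≠ 0` by `limit_struct`; if both vanish it is trivial; for `x = bm` by continuity.
* `struct_bp`: `k₁ > 0` and `k₂ = η k₁`. Apply `ratio` to the point `y` given by `equi` for `w = v0` and `x = bp`: as in `crossing`
  `D y h2 h3 = c * D bp h3 h4`, `D y h4 h5 = c * D bp h1 h2`, so `D bp h3 h4 * k₁ = k₂ * k₂`; `D bp h3 h4 = k₁ + k₂` (`Struct.h34`). So
  `k₂² = k₁ k₂ + k₁²`. If `k₁ = 0` then `k₂ = 0` and `D bp = 0` by `eq_zero_of_gen`, contradiction. So `k₁ > 0` and `k₂ = η k₁`.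
* `view_ratio`: `ratio` for the point `y` given by `equi` for `w` and `x`, `D y h2 h3 = c * D x (w • h2) (w • h3)` (as in `crossing`, the power
  `dh^j` can be removed by `line_dist`), and the same for `h4, h5`.
* `struct_bm`: choose `x` by `crossing`; `bwd`, `limit_struct` and `view_ratio` for `w = 1` (`L₂ x = η L₁ x`): `Struct (D bm) k₁' k₂'` with
  `k₂' L₁ x = k₁' L₂ x = η k₁' L₁ x`, `L₁ x > 0`, so `k₂' = η k₁'`; `k₁' > 0` as before.
* `struct_of_noncrossing`: let `L₂ x = L₁ x = 0`. If `x = bm` use `struct_bm`. Otherwise `fwd`: `c n * D x (dh^(-m n) • s) (dh^(-m n) • t) →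
  D bp s t`. Now `D x h1 (line h2 h3 e) = D x h1 h2` for all `e` (`line_dist` gives distance `0`), so `c n * D x h1 h2 → η k₁ > 0`, so
  `D x h1 h2 > 0` and `c n → c = η k₁ / D x h1 h2 > 0`; `c * D x h1 h4 = k₁`, `c * D x h1 h6 = 0`, `c * D x h1 (z • h1) = 0`. So
  `Struct (D x) (k₁ / c) (η k₁ / c)`.
-/

namespace Pool.Agent.LR

open Real Filter Topology

variable {X : Type*} [TopologicalSpace X]

structure View (D : X → HT → HT → ℝ) (bp bm : X) (m : ℤ) : Prop where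
  good : ∀ x, Good (D x)
  ne : ∀ x, ∃ s t, D x s t ≠ 0
  cont : ∀ s t, Continuous fun x => D x s t
  equi : ∀ w ∈ Fh, ∀ x, ∃ (j : ℤ) (y : X) (c : ℝ), 0 < c ∧ ∀ s t : HT,
    D y s t = c * D x (w • (dh ^ j) • s) (w • (dh ^ j) • t)
  m_ne : m ≠ 0
  fwd : ∀ x, x ≠ bm → ∃ (y : ℕ → X) (c : ℕ → ℝ), Tendsto y atTop (𝓝 bp) ∧ ∀ n, 0 < c n ∧
    ∀ s t : HT, D (y n) s t = c n * D x ((dh ^ (-(m * n))) • s) ((dh ^ (-(m * n))) • t)
  bwd : ∀ x, x ≠ bp → ∃ (y : ℕ → X) (c : ℕ → ℝ), Tendsto y atTop (𝓝 bm) ∧ ∀ n, 0 < c n ∧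
    ∀ s t : HT, D (y n) s t = c n * D x ((dh ^ (m * n)) • s) ((dh ^ (m * n)) • t)

variable {D : X → HT → HT → ℝ} {bp bm : X} {m : ℤ}

/-- the powers of the multitwist do not change the length of `(w • h2, w • h3)` -/
theorem good_rm2 {K : HT → HT → ℝ} (h : Good K) (w : AutE) (j : ℤ) :
    K (w • (dh ^ j) • h2) (w • (dh ^ j) • h3) = K (w • h2) (w • h3) := by
  have e1 : (dh ^ j) • h2 = line h2 h3 (-j) := by
    rw [← dh_zpow_h2 (-j), neg_neg]
  have e2 : (dh ^ j) • h3 = line h2 h3 (-j + 1) := by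
    rw [← dh_zpow_h3 (-j), neg_neg]
  have h2' := (h.comp w).line_dist h2 h3 (-j) (-j + 1)
  rw [e1, e2, h2']
  push_cast
  have : (-(j : ℝ) - (-(j : ℝ) + 1)) = -1 := by ring
  rw [this]; simp

theorem good_rm4 {K : HT → HT → ℝ} (h : Good K) (w : AutE) (j : ℤ) :
    K (w • (dh ^ j) • h4) (w • (dh ^ j) • h5) = K (w • h4) (w • h5) := by
  have e1 : (dh ^ j) • h4 = line h4 h5 (-j) := by
    rw [← dh_zpow_h4 (-j), neg_neg]
  have e2 : (dh ^ j) • h5 = line h4 h5 (-j + 1) := by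
    rw [← dh_zpow_h5 (-j), neg_neg]
  have h2' := (h.comp w).line_dist h4 h5 (-j) (-j + 1)
  rw [e1, e2, h2']
  push_cast
  have : (-(j : ℝ) - (-(j : ℝ) + 1)) = -1 := by ring
  rw [this]; simp

theorem good_v0_23 {K : HT → HT → ℝ} (h : Good K) : K (v0 • h2) (v0 • h3) = K h3 h4 := by
  rw [v0_h2, v0_h3, h.inv]

theorem good_v0_45 (K : HT → HT → ℝ) : K (v0 • h4) (v0 • h5) = K h1 h2 := by
  rw [v0_h4, v0_h5]

theorem View.crossing [T1Space X] [∀ x : X, (𝓝[≠] x).NeBot] (h : View D bp bm m) :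
    ∃ x, x ≠ bp ∧ x ≠ bm ∧ (D x h2 h3 ≠ 0 ∨ D x h4 h5 ≠ 0) := by
  by_contra hcon
  push Not at hcon
  have hd : Dense ((Set.univ : Set X) \ {bp, bm}) :=
    dense_univ.sdiff_finite (Set.toFinite _)
  have hz : ∀ x, D x h2 h3 = 0 ∧ D x h4 h5 = 0 := by
    have hcl : IsClosed {x : X | D x h2 h3 = 0 ∧ D x h4 h5 = 0} := by
      have c1 : IsClosed {x : X | D x h2 h3 = 0} := isClosed_eq (h.cont _ _) continuous_const
      have c2 : IsClosed {x : X | D x h4 h5 = 0} := isClosed_eq (h.cont _ _) continuous_const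
      exact c1.inter c2
    have hsub : ((Set.univ : Set X) \ {bp, bm}) ⊆ {x : X | D x h2 h3 = 0 ∧ D x h4 h5 = 0} := by
      rintro x ⟨-, hx⟩
      simp only [Set.mem_insert_iff, Set.mem_singleton_iff, not_or] at hx
      exact hcon x hx.1 hx.2
    intro x
    have := hcl.closure_subset_iff.2 hsub
    rw [hd.closure_eq] at this
    exact this (Set.mem_univ x)
  obtain ⟨j, y, c, hc, hy⟩ := h.equi v0 v0_mem bp
  have e1 := hy h2 h3
  have e2 := hy h4 h5
  rw [(hz y).1, good_rm2 (h.good bp), good_v0_23 (h.good bp)] at e1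
  rw [(hz y).2, good_rm4 (h.good bp), good_v0_45 (D bp)] at e2
  have f1 : D bp h3 h4 = 0 := by
    rcases mul_eq_zero.1 e1.symm with h0 | h0
    · exact absurd h0 hc.ne'
    · exact h0
  have f2 : D bp h1 h2 = 0 := by
    rcases mul_eq_zero.1 e2.symm with h0 | h0
    · exact absurd h0 hc.ne'
    · exact h0
  obtain ⟨s, t, hst⟩ := h.ne bp
  exact hst ((h.good bp).eq_zero_of_chain f2 (hz bp).1 f1 (hz bp).2 s t)

theorem limit_aux {u v e c : ℕ → ℝ} {p q P Q A B : ℝ} (hp : 0 < p)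
    (hu : ∀ n, |u n - p * e n| ≤ P) (hv : ∀ n, |v n - q * e n| ≤ Q) (he : Tendsto e atTop atTop)
    (hA : Tendsto (fun n => c n * u n) atTop (𝓝 A)) (hB : Tendsto (fun n => c n * v n) atTop (𝓝 B)) :
    Tendsto c atTop (𝓝 0) ∧ A * q = B * p := by
  have hu' : Tendsto u atTop atTop := by
    have h1 : Tendsto (fun n => p * e n + (-P)) atTop atTop :=
      tendsto_atTop_add_const_right _ _ (he.const_mul_atTop hp)
    refine tendsto_atTop_mono (fun n => ?_) h1
    have := (abs_le.1 (hu n)).1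
    linarith
  have hc : Tendsto c atTop (𝓝 0) := by
    have h1 := hA.div_atTop hu'
    refine h1.congr' ?_
    filter_upwards [hu'.eventually_gt_atTop 0] with n hn
    field_simp
  refine ⟨hc, ?_⟩
  have b1 : Tendsto (fun n => c n * (u n - p * e n)) atTop (𝓝 0) := by
    refine hc.zero_mul_isBoundedUnder_le ?_
    exact isBoundedUnder_of ⟨P, fun n => by simpa using hu n⟩
  have b2 : Tendsto (fun n => c n * (v n - q * e n)) atTop (𝓝 0) := by
    refine hc.zero_mul_isBoundedUnder_le ?_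
    exact isBoundedUnder_of ⟨Q, fun n => by simpa using hv n⟩
  have d1 := (hA.sub b1).mul_const q
  have d2 := (hB.sub b2).mul_const p
  have d3 : Tendsto (fun n => (c n * u n - c n * (u n - p * e n)) * q) atTop (𝓝 ((B - 0) * p)) := by
    refine d2.congr (fun n => ?_)
    ring
  have := tendsto_nhds_unique d1 d3
  linarith

theorem tendsto_abs_mul_nat {m : ℤ} (hm : m ≠ 0) :
    Tendsto (fun n : ℕ => |(((m * n : ℤ)) : ℝ)|) atTop atTop := by
  have h1 : Tendsto (fun n : ℕ => |(m : ℝ)| * (n : ℝ)) atTop atTop :=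
    tendsto_natCast_atTop_atTop.const_mul_atTop (abs_pos.2 (by exact_mod_cast hm))
  refine h1.congr (fun n => ?_)
  push_cast
  rw [abs_mul, Nat.abs_cast]

theorem limit_struct (hg : ∀ x, Good (D x)) (hc : ∀ s t, Continuous fun x => D x s t) {x b : X}
    {y : ℕ → X} {c : ℕ → ℝ} {m : ℤ} (hm : m ≠ 0) (hy : Tendsto y atTop (𝓝 b))
    (h : ∀ n, 0 < c n ∧ ∀ s t : HT,
      D (y n) s t = c n * D x ((dh ^ (-(m * n))) • s) ((dh ^ (-(m * n))) • t))
    (hx : D x h2 h3 ≠ 0 ∨ D x h4 h5 ≠ 0) :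
    Struct (D b) (D b h1 h4) (D b h1 h2) ∧ D b h1 h2 * D x h4 h5 = D b h1 h4 * D x h2 h3 := by
  have lim : ∀ s t : HT, Tendsto (fun n : ℕ => c n * D x ((dh ^ (-(m * n))) • s)
      ((dh ^ (-(m * n))) • t)) atTop (𝓝 (D b s t)) := by
    intro s t
    have h1 := ((hc s t).tendsto b).comp hy
    refine h1.congr (fun n => ?_)
    exact (h n).2 s t
  have l12 : Tendsto (fun n : ℕ => c n * D x h1 (line h2 h3 (m * n))) atTop (𝓝 (D b h1 h2)) := by
    refine (lim h1 h2).congr (fun n => ?_)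
    rw [dh_zpow_h1, dh_zpow_h2]
  have l14 : Tendsto (fun n : ℕ => c n * D x h1 (line h4 h5 (m * n))) atTop (𝓝 (D b h1 h4)) := by
    refine (lim h1 h4).congr (fun n => ?_)
    rw [dh_zpow_h1, dh_zpow_h4]
  have g2' : ∀ n : ℕ, abs (D x h1 (line h2 h3 (m * n)) - D x h2 h3 * abs (((m * n : ℤ) : ℝ))) ≤
      D x h1 h2 := fun n => (hg x).line_growth h2 h3 h1 (m * n)
  have g4' : ∀ n : ℕ, abs (D x h1 (line h4 h5 (m * n)) - D x h4 h5 * abs (((m * n : ℤ) : ℝ))) ≤
      D x h1 h4 := fun n => (hg x).line_growth h4 h5 h1 (m * n)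
  have key : Tendsto c atTop (𝓝 0) ∧ D b h1 h2 * D x h4 h5 = D b h1 h4 * D x h2 h3 := by
    rcases hx with hx | hx
    · have hp : 0 < D x h2 h3 := lt_of_le_of_ne ((hg x).nonneg _ _) (Ne.symm hx)
      exact limit_aux hp g2' g4' (tendsto_abs_mul_nat hm) l12 l14
    · have hp : 0 < D x h4 h5 := lt_of_le_of_ne ((hg x).nonneg _ _) (Ne.symm hx)
      have := limit_aux hp g4' g2' (tendsto_abs_mul_nat hm) l14 l12
      exact ⟨this.1, this.2.symm⟩
  obtain ⟨hc0, hr⟩ := key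
  have zero : ∀ (s t : HT) (r : ℝ), (∀ n : ℕ, D x ((dh ^ (-(m * n))) • s)
      ((dh ^ (-(m * n))) • t) = r) → D b s t = 0 := by
    intro s t r hr
    have h1 : Tendsto (fun n : ℕ => c n * r) atTop (𝓝 (D b s t)) := by
      refine (lim s t).congr (fun n => ?_)
      rw [hr n]
    have h2 := hc0.mul_const r
    rw [zero_mul] at h2
    exact tendsto_nhds_unique h1 h2
  refine ⟨⟨hg b, ?_, ?_, ?_, ?_, rfl, rfl⟩, hr⟩
  · refine zero h2 h3 (D x h2 h3) (fun n => ?_)
    have := good_rm2 (hg x) 1 (-(m * n))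
    simpa only [one_smul] using this
  · refine zero h4 h5 (D x h4 h5) (fun n => ?_)
    have := good_rm4 (hg x) 1 (-(m * n))
    simpa only [one_smul] using this
  · refine zero h1 h6 (D x h1 h6) (fun n => ?_)
    rw [dh_zpow_h1, dh_zpow_h6]
  · intro z hz
    refine zero h1 (z • h1) (D x h1 (z • h1)) (fun n => ?_)
    rw [aut_smul_smul, dh_zpow_h1, dh_zpow_PX _ hz]

/-- the ratio of the two lengths is the same for all points -/
theorem View.ratio' [T1Space X] [∀ x : X, (𝓝[≠] x).NeBot] (h : View D bp bm m) (x : X) :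
    D bp h1 h2 * D x h4 h5 = D bp h1 h4 * D x h2 h3 := by
  have key : ∀ x, x ≠ bm → D bp h1 h2 * D x h4 h5 = D bp h1 h4 * D x h2 h3 := by
    intro x hx
    by_cases h0 : D x h2 h3 ≠ 0 ∨ D x h4 h5 ≠ 0
    · obtain ⟨y, c, hy, hyc⟩ := h.fwd x hx
      exact (limit_struct h.good h.cont h.m_ne hy hyc h0).2
    · push Not at h0
      rw [h0.1, h0.2, mul_zero, mul_zero]
  have hd : Dense ((Set.univ : Set X) \ {bm}) := dense_univ.sdiff_singleton bm
  have hcl : IsClosed {x : X | D bp h1 h2 * D x h4 h5 = D bp h1 h4 * D x h2 h3} :=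
    isClosed_eq (continuous_const.mul (h.cont _ _)) (continuous_const.mul (h.cont _ _))
  have hsub : ((Set.univ : Set X) \ {bm}) ⊆
      {x : X | D bp h1 h2 * D x h4 h5 = D bp h1 h4 * D x h2 h3} := by
    rintro x ⟨-, hx⟩
    exact key x hx
  have := hcl.closure_subset_iff.2 hsub
  rw [hd.closure_eq] at this
  exact this (Set.mem_univ x)

theorem k1_pos_of {K : HT → HT → ℝ} {k1 k2 : ℝ} (h : Struct K k1 k2) (hne : ∃ s t, K s t ≠ 0)
    (h0 : k1 = 0 → k2 = 0) : 0 < k1 := by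
  have hk : 0 ≤ k1 := by rw [← h.hk1]; exact h.good.nonneg _ _
  refine lt_of_le_of_ne hk (fun he => ?_)
  obtain ⟨s, t, hst⟩ := hne
  refine hst (h.good.eq_zero_of_gen ?_ ?_ h.h23 h.h45 s t)
  · rw [h.hk2]; exact h0 he.symm
  · rw [h.hk1]; exact he.symm

theorem View.struct_bp [T1Space X] [∀ x : X, (𝓝[≠] x).NeBot] (h : View D bp bm m) :
    ∃ k1, 0 < k1 ∧ Struct (D bp) k1 (goldenRatio * k1) := by
  obtain ⟨x, -, hxm, hx⟩ := h.crossing
  obtain ⟨y, c, hy, hyc⟩ := h.fwd x hxm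
  have hS := (limit_struct h.good h.cont h.m_ne hy hyc hx).1
  obtain ⟨j, y', c', hc', hy'⟩ := h.equi v0 v0_mem bp
  have e1 := hy' h2 h3
  have e2 := hy' h4 h5
  rw [good_rm2 (h.good bp), good_v0_23 (h.good bp), hS.h34] at e1
  rw [good_rm4 (h.good bp), good_v0_45 (D bp)] at e2
  have hr := h.ratio' y'
  rw [e1, e2] at hr
  have hq : D bp h1 h2 * D bp h1 h2 = D bp h1 h4 * (D bp h1 h4 + D bp h1 h2) := by
    have : c' * (D bp h1 h2 * D bp h1 h2) = c' * (D bp h1 h4 * (D bp h1 h4 + D bp h1 h2)) := by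
      linear_combination hr
    exact mul_left_cancel₀ hc'.ne' this
  have hpos : 0 < D bp h1 h4 := k1_pos_of hS (h.ne bp) (fun h0 => by
    rw [h0, zero_mul] at hq
    exact mul_self_eq_zero.1 hq)
  have hk2 : 0 ≤ D bp h1 h2 := (h.good bp).nonneg _ _
  have hη := Real.goldenRatio_sq
  have hη1 := Real.one_lt_goldenRatio
  have hk : D bp h1 h2 = goldenRatio * D bp h1 h4 := by
    have hm : (D bp h1 h2 - goldenRatio * D bp h1 h4) *
        (D bp h1 h2 + (goldenRatio - 1) * D bp h1 h4) = 0 := by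
      linear_combination hq - (D bp h1 h4) ^ 2 * hη
    rcases mul_eq_zero.1 hm with hm | hm
    · linarith
    · exfalso
      have : 0 < (goldenRatio - 1) * D bp h1 h4 := mul_pos (by linarith) hpos
      linarith
  exact ⟨D bp h1 h4, hpos, hk ▸ hS⟩

theorem View.ratio [T1Space X] [∀ x : X, (𝓝[≠] x).NeBot] (h : View D bp bm m) {w : AutE}
    (hw : w ∈ Fh) (x : X) : D x (w • h2) (w • h3) = goldenRatio * D x (w • h4) (w • h5) := by
  obtain ⟨k1, hk1, hS⟩ := h.struct_bp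
  obtain ⟨j, y, c, hc, hy⟩ := h.equi w hw x
  have e1 := hy h2 h3
  have e2 := hy h4 h5
  rw [good_rm2 (h.good x)] at e1
  rw [good_rm4 (h.good x)] at e2
  have hr := h.ratio' y
  rw [e1, e2, hS.hk2, hS.hk1] at hr
  have : (k1 * c) * D x (w • h2) (w • h3) = (k1 * c) * (goldenRatio * D x (w • h4) (w • h5)) := by
    linear_combination -hr
  exact mul_left_cancel₀ (mul_pos hk1 hc).ne' this

theorem View.struct_bm [T1Space X] [∀ x : X, (𝓝[≠] x).NeBot] (h : View D bp bm m) :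
    ∃ k1, 0 < k1 ∧ Struct (D bm) k1 (goldenRatio * k1) := by
  obtain ⟨x, hxp, -, hx⟩ := h.crossing
  obtain ⟨y, c, hy, hyc⟩ := h.bwd x hxp
  have hyc' : ∀ n : ℕ, 0 < c n ∧ ∀ s t : HT,
      D (y n) s t = c n * D x ((dh ^ (-((-m) * n))) • s) ((dh ^ (-((-m) * n))) • t) := by
    intro n
    refine ⟨(hyc n).1, fun s t => ?_⟩
    rw [(hyc n).2 s t, neg_mul, neg_neg]
  obtain ⟨hS, hr⟩ := limit_struct h.good h.cont (neg_ne_zero.2 h.m_ne) hy hyc' hx
  have hra := h.ratio (one_mem Fh) x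
  simp only [one_smul] at hra
  have hL : 0 < D x h4 h5 := by
    refine lt_of_le_of_ne ((h.good x).nonneg _ _) (fun he => ?_)
    rw [← he, mul_zero] at hra
    rcases hx with hx | hx
    · exact hx hra
    · exact hx he.symm
  have hk : D bm h1 h2 = goldenRatio * D bm h1 h4 := by
    rw [hra] at hr
    have : D x h4 h5 * D bm h1 h2 = D x h4 h5 * (goldenRatio * D bm h1 h4) := by
      linear_combination hr
    exact mul_left_cancel₀ hL.ne' this
  have hpos : 0 < D bm h1 h4 := k1_pos_of hS (h.ne bm) (fun h0 => by rw [hk, h0, mul_zero])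
  exact ⟨D bm h1 h4, hpos, hk ▸ hS⟩

theorem View.struct_of_noncrossing [T1Space X] [∀ x : X, (𝓝[≠] x).NeBot] (h : View D bp bm m)
    {x : X} (hx : D x h2 h3 = 0) (hx' : D x h4 h5 = 0) :
    ∃ k1, 0 < k1 ∧ Struct (D x) k1 (goldenRatio * k1) := by
  by_cases hxm : x = bm
  · subst hxm
    exact h.struct_bm
  obtain ⟨k1, hk1, hS⟩ := h.struct_bp
  obtain ⟨y, c, hy, hyc⟩ := h.fwd x hxm
  have lim : ∀ (s t : HT) (r : ℝ), (∀ n : ℕ, D x ((dh ^ (-(m * n))) • s)
      ((dh ^ (-(m * n))) • t) = r) → Tendsto (fun n : ℕ => c n * r) atTop (𝓝 (D bp s t)) := by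
    intro s t r hr
    have h1 := ((h.cont s t).tendsto bp).comp hy
    refine h1.congr (fun n => ?_)
    rw [Function.comp_apply, (hyc n).2 s t, hr n]
  have c2 : ∀ e : ℤ, D x h1 (line h2 h3 e) = D x h1 h2 := by
    intro e
    have h0 := (h.good x).line_dist h2 h3 e 0
    rw [hx, zero_mul, line_zero] at h0
    exact (h.good x).congr_right h0 h1
  have c4 : ∀ e : ℤ, D x h1 (line h4 h5 e) = D x h1 h4 := by
    intro e
    have h0 := (h.good x).line_dist h4 h5 e 0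
    rw [hx', zero_mul, line_zero] at h0
    exact (h.good x).congr_right h0 h1
  have l2 : Tendsto (fun n : ℕ => c n * D x h1 h2) atTop (𝓝 (D bp h1 h2)) :=
    lim h1 h2 _ (fun n => by rw [dh_zpow_h1, dh_zpow_h2, c2])
  have l4 : Tendsto (fun n : ℕ => c n * D x h1 h4) atTop (𝓝 (D bp h1 h4)) :=
    lim h1 h4 _ (fun n => by rw [dh_zpow_h1, dh_zpow_h4, c4])
  rw [hS.hk2] at l2
  rw [hS.hk1] at l4
  have hη := Real.goldenRatio_pos
  have hD : 0 < D x h1 h2 := by
    refine lt_of_le_of_ne ((h.good x).nonneg _ _) (fun he => ?_)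
    rw [← he] at l2
    simp only [mul_zero] at l2
    have := tendsto_nhds_unique l2 tendsto_const_nhds
    have h2 : 0 < goldenRatio * k1 := mul_pos hη hk1
    linarith
  set c0 : ℝ := goldenRatio * k1 / D x h1 h2 with hc0
  have hc0p : 0 < c0 := div_pos (mul_pos hη hk1) hD
  have lc : Tendsto c atTop (𝓝 c0) := by
    have := l2.div_const (D x h1 h2)
    refine this.congr (fun n => ?_)
    field_simp
  have e4 : c0 * D x h1 h4 = k1 := tendsto_nhds_unique (lc.mul_const _) l4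
  have ez : ∀ (s t : HT) (r : ℝ), (∀ n : ℕ, D x ((dh ^ (-(m * n))) • s)
      ((dh ^ (-(m * n))) • t) = r) → D bp s t = 0 → r = 0 := by
    intro s t r hr h0
    have h1 := tendsto_nhds_unique (lc.mul_const r) (lim s t r hr)
    rw [h0] at h1
    rcases mul_eq_zero.1 h1 with h2 | h2
    · exact absurd h2 hc0p.ne'
    · exact h2
  refine ⟨k1 / c0, div_pos hk1 hc0p, ⟨h.good x, hx, hx', ?_, ?_, ?_, ?_⟩⟩
  · exact ez h1 h6 _ (fun n => by rw [dh_zpow_h1, dh_zpow_h6]) hS.h16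
  · intro z hz
    exact ez h1 (z • h1) _ (fun n => by rw [aut_smul_smul, dh_zpow_h1, dh_zpow_PX _ hz])
      (hS.hPX z hz)
  · rw [hc0]
    field_simp
  · rw [eq_div_iff hc0p.ne', mul_comm]
    exact e4

end Pool.Agent.LR
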