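import Pool.Agent.LR.MCGFacts
import Pool.Agent.LR.View

/-!
# LR/MakeView: the view of an equivariant family from a mapping class

`lam x ∈ ML ∖ {0}` is a continuous family on a space `X` on which `G ≤ MCG` acts, with
`lam (g x) = c • lam x ∘ α⁻¹` for every `α : Mod` over `g ∈ G`. `A ≤ MCG` is a subgroup with `F ⊆ A ⟨δ, ι⟩`, `δ^m ι^e ∈ A`, and `ϕ : Mod` with lift
`φ` satisfies `ϕ A ϕ⁻¹ ≤ G`.

PROOF of `view_of` (`D x s t = Dof (lam x) (φ • s) (φ • t)`).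
* `good`: `good_of_ML`, `Good.comp`. `ne`: `ML_ne_zero'` for `s, t`, use `φ⁻¹ • s, φ⁻¹ • t`. `cont`: `Dof` is an evaluation.
* `equi`. Let `w ∈ Fh`; `exists_mod_of_Fh` gives `ŵ : Mod` with `[ŵ] ∈ F`; there are `k`, `e'` with `[ŵ] δ^k ι^e' ∈ A`. Put
  `α = ϕ * (ŵ * deltaAut^k * iotaAut^e') * ϕ⁻¹ : Mod`, `[α] ∈ G`, with the lift `φ * (w * dh^k * (inn s6)^e') * φ⁻¹`. Let `y = [α]⁻¹ • x`. By `hE` for
  `α⁻¹`: `lam y γ = c * lam x (α γ)`, so by `Dof_lift` `Dof (lam y) (φ • s) (φ • t) = c * Dof (lam x) (φ • w • dh^k • (s6^e' • s)) (...)` and the inner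
  automorphism can be moved to the left (`aut_smul_smul`) and removed (`Good.inv`).
* `fwd`. `β = ϕ (δ^m ι^e) ϕ⁻¹`, `y n = β^n • x → bp`. `β^n` is represented by `α = ϕ * (deltaAut^m * iotaAut^e)^n * ϕ⁻¹`, with the lift
  `φ * (dh^m * (inn s6)^e)^n * φ⁻¹`, and `dh * inn s6 = inn s6 * dh` (`dh s6 = s6`), so `α⁻¹` has the lift `φ * dh^(-(m n)) * (inn s6)^(-(e n)) * φ⁻¹`. By
  `hE`, `lam (y n) γ = c * lam x (α⁻¹ γ)`, and as before. `bwd` in the same way with `β⁻¹`.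
-/

namespace Pool.Agent.LR

open Filter Topology

/-- north-south dynamics -/
def NS {X G : Type*} [TopologicalSpace X] [Group G] [MulAction G X] (g : G) (bp bm : X) : Prop :=
  bp ≠ bm ∧ (∀ x, x ≠ bm → Tendsto (fun n : ℕ => g ^ n • x) atTop (𝓝 bp)) ∧
    (∀ x, x ≠ bp → Tendsto (fun n : ℕ => g⁻¹ ^ n • x) atTop (𝓝 bm))

private theorem IsLift.mvpow {α : MulAut Surf} {φ : AutE} (h : IsLift α φ) (n : ℕ) :
    IsLift (α ^ n) (φ ^ n) := by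
  induction n with
  | zero => rw [pow_zero, pow_zero]; exact IsLift.one
  | succ n ih => rw [pow_succ, pow_succ]; exact ih.mul h

private theorem IsLift.mvzpow {α : MulAut Surf} {φ : AutE} (h : IsLift α φ) (n : ℤ) :
    IsLift (α ^ n) (φ ^ n) := by
  obtain ⟨k, rfl | rfl⟩ := n.eq_nat_or_neg
  · rw [zpow_natCast, zpow_natCast]; exact h.mvpow k
  · rw [zpow_neg, zpow_neg, zpow_natCast, zpow_natCast]; exact (h.mvpow k).inv

private theorem mv_inn_mul (x y : E) : inn x * inn y = inn (x * y) := by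
  apply Subtype.ext
  apply MulEquiv.ext
  intro z
  show x * (y * z * y⁻¹) * x⁻¹ = x * y * z * (x * y)⁻¹
  group

private theorem mv_inn_one : inn 1 = 1 := by
  apply Subtype.ext
  apply MulEquiv.ext
  intro z
  show 1 * z * 1⁻¹ = z
  group

private theorem mv_inn_zpow (x : E) (k : ℤ) : inn x ^ k = inn (x ^ k) := by
  have hp : ∀ n : ℕ, inn x ^ n = inn (x ^ n) := by
    intro n
    induction n with
    | zero => rw [pow_zero, pow_zero, mv_inn_one]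
    | succ n ih => rw [pow_succ, pow_succ, ih, mv_inn_mul]
  obtain ⟨n, rfl | rfl⟩ := k.eq_nat_or_neg
  · rw [zpow_natCast, zpow_natCast, hp]
  · rw [zpow_neg, zpow_neg, zpow_natCast, zpow_natCast, hp]
    apply inv_eq_of_mul_eq_one_left
    rw [mv_inn_mul, inv_mul_cancel, mv_inn_one]

private theorem mv_comm : Commute dh (inn s6) := by
  show dh * inn s6 = inn s6 * dh
  apply Subtype.ext
  apply MulEquiv.ext
  intro y
  show dh.1 (s6 * y * s6⁻¹) = s6 * dh.1 y * s6⁻¹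
  rw [map_mul, map_mul, map_inv, dh_s6]

private theorem mv_pow (m e k : ℤ) : (dh ^ m * inn s6 ^ e) ^ k = dh ^ (m * k) * inn (s6 ^ (e * k)) := by
  have hc2 : Commute (dh ^ m) (inn s6 ^ e) := mv_comm.zpow_zpow m e
  rw [hc2.mul_zpow, ← zpow_mul, ← zpow_mul, mv_inn_zpow]

private theorem mv_key {X : Type*} {G : Subgroup MCG} [MulAction G X]
    {lam : X → Surf → ℝ} (hML : ∀ x, lam x ∈ ML)
    (hE : ∀ (α : Mod) (hα : (QuotientGroup.mk α : MCG) ∈ G) (x : X), ∃ c : ℝ, 0 < c ∧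
      ∀ γ, lam ((⟨QuotientGroup.mk α, hα⟩ : G) • x) γ = c * lam x ((α⁻¹ : Mod).1 γ))
    {φ : AutE} {α : Mod} (hα : (QuotientGroup.mk α : MCG) ∈ G) {Ψ : AutE} {z : E}
    (hl : IsLift (α⁻¹ : Mod).1 (φ * (Ψ * inn z) * φ⁻¹)) (x : X) :
    ∃ c : ℝ, 0 < c ∧ ∀ s t : HT,
      Dof (lam ((⟨QuotientGroup.mk α, hα⟩ : G) • x)) (φ • s) (φ • t) =
        c * Dof (lam x) (φ • Ψ • s) (φ • Ψ • t) := by
  obtain ⟨c, hc, h⟩ := hE α hα x
  refine ⟨c, hc, fun s t => ?_⟩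
  have h1 : Dof (lam ((⟨QuotientGroup.mk α, hα⟩ : G) • x)) (φ • s) (φ • t) =
      c * Dof (fun γ => lam x ((α⁻¹ : Mod).1 γ)) (φ • s) (φ • t) := h _
  have h2 : ∀ s : HT, (φ * (Ψ * inn z) * φ⁻¹) • φ • s = (φ.1 (Ψ.1 z)) • (φ • Ψ • s) := by
    intro s
    rw [mul_smul, inv_smul_smul, mul_smul, mul_smul, inn_smul, aut_smul_smul, aut_smul_smul]
  rw [h1, Dof_lift hl, h2, h2, (good_of_ML (hML x)).inv]

theorem view_of {X : Type*} [TopologicalSpace X] {G : Subgroup MCG} [MulAction G X]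
    {lam : X → Surf → ℝ} (hc : ∀ γ, Continuous fun x => lam x γ) (hML : ∀ x, lam x ∈ ML)
    (h0 : ∀ x, lam x ≠ 0)
    (hE : ∀ (α : Mod) (hα : (QuotientGroup.mk α : MCG) ∈ G) (x : X), ∃ c : ℝ, 0 < c ∧
      ∀ γ, lam ((⟨QuotientGroup.mk α, hα⟩ : G) • x) γ = c * lam x ((α⁻¹ : Mod).1 γ))
    {A : Subgroup MCG} (hA : ∀ x ∈ F, ∃ k e : ℤ, x * δ ^ k * ι ^ e ∈ A)
    {m e : ℤ} (hm : m ≠ 0) (hδ : δ ^ m * ι ^ e ∈ A)
    {ϕ : Mod} {φ : AutE} (hφ : IsLift ϕ.1 φ)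
    (hG : ∀ a ∈ A, (QuotientGroup.mk ϕ : MCG) * a * (QuotientGroup.mk ϕ : MCG)⁻¹ ∈ G)
    {bp bm : X}
    (hNS : NS (⟨(QuotientGroup.mk ϕ : MCG) * (δ ^ m * ι ^ e) * (QuotientGroup.mk ϕ : MCG)⁻¹,
      hG _ hδ⟩ : G) bp bm) :
    View (fun x s t => Dof (lam x) (φ • s) (φ • t)) bp bm m := by
  set g : G := ⟨(QuotientGroup.mk ϕ : MCG) * (δ ^ m * ι ^ e) * (QuotientGroup.mk ϕ : MCG)⁻¹,
      hG _ hδ⟩ with hg
  obtain ⟨β, hβ⟩ : ∃ β : Mod, β = ϕ * (deltaAut ^ m * iotaAut ^ e) * ϕ⁻¹ := ⟨_, rfl⟩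
  have hβg : (QuotientGroup.mk β : MCG) = g.1 := by rw [hβ]; rfl
  have hβk : ∀ k : ℤ, (QuotientGroup.mk (β ^ k) : MCG) = (g ^ k).1 := by
    intro k
    have h1 : (QuotientGroup.mk (β ^ k) : MCG) = (QuotientGroup.mk β : MCG) ^ k := rfl
    rw [h1, hβg]; rfl
  have hβG : ∀ k : ℤ, (QuotientGroup.mk (β ^ k) : MCG) ∈ G := by
    intro k
    rw [hβk]; exact (g ^ k).2
  have hgk : ∀ k : ℤ, g ^ k = ⟨QuotientGroup.mk (β ^ k), hβG k⟩ := fun k => Subtype.ext (hβk k).symm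
  have hlk : ∀ k : ℤ, IsLift ((β ^ k)⁻¹ : Mod).1
      (φ * (dh ^ (-(m * k)) * inn (s6 ^ (e * (-k)))) * φ⁻¹) := by
    intro k
    have h1 : IsLift (β.1) (φ * (dh ^ m * inn s6 ^ e) * φ⁻¹) := by
      rw [hβ]
      exact (hφ.mul ((isLift_delta.mvzpow m).mul (isLift_iota.mvzpow e))).mul hφ.inv
    have h2 := h1.mvzpow (-k)
    have h3 : (φ * (dh ^ m * inn s6 ^ e) * φ⁻¹) ^ (-k) =
        φ * (dh ^ (-(m * k)) * inn (s6 ^ (e * (-k)))) * φ⁻¹ := by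
      rw [conj_zpow, mv_pow, mul_neg]
    rw [h3] at h2
    have h4 : ((β ^ k)⁻¹ : Mod).1 = β.1 ^ (-k) := by
      rw [zpow_neg]; rfl
    rw [h4]
    exact h2
  have hiter : ∀ (k : ℤ) (x : X), ∃ c : ℝ, 0 < c ∧ ∀ s t : HT,
      Dof (lam (g ^ k • x)) (φ • s) (φ • t) =
        c * Dof (lam x) (φ • (dh ^ (-(m * k))) • s) (φ • (dh ^ (-(m * k))) • t) := by
    intro k x
    rw [hgk k]
    exact mv_key hML hE (hβG k) (hlk k) x
  refine ⟨fun x => (good_of_ML (hML x)).comp φ, ?_, fun s t => hc _, ?_, hm, ?_, ?_⟩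
  · intro x
    obtain ⟨s, t, hst⟩ := ML_ne_zero' (hML x) (h0 x)
    refine ⟨φ⁻¹ • s, φ⁻¹ • t, ?_⟩
    show Dof (lam x) (φ • φ⁻¹ • s) (φ • φ⁻¹ • t) ≠ 0
    rw [smul_inv_smul, smul_inv_smul]
    exact hst
  · intro w hw x
    obtain ⟨ŵ, hF, hl⟩ := exists_mod_of_Fh hw
    obtain ⟨k, e', hk⟩ := hA _ hF
    obtain ⟨α, hα⟩ : ∃ α : Mod, α = ϕ * (ŵ * deltaAut ^ k * iotaAut ^ e') * ϕ⁻¹ := ⟨_, rfl⟩
    have hαG : (QuotientGroup.mk α : MCG) ∈ G := by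
      have := hG _ hk
      rw [hα]
      exact this
    have hαG' : (QuotientGroup.mk α⁻¹ : MCG) ∈ G := inv_mem hαG
    have hlα : IsLift ((α⁻¹)⁻¹ : Mod).1 (φ * ((w * dh ^ k) * inn (s6 ^ e')) * φ⁻¹) := by
      rw [inv_inv, hα, ← mv_inn_zpow]
      exact (hφ.mul ((hl.mul (isLift_delta.mvzpow k)).mul (isLift_iota.mvzpow e'))).mul hφ.inv
    obtain ⟨c, hc1, hc2⟩ := mv_key hML hE hαG' hlα x
    refine ⟨k, (⟨QuotientGroup.mk α⁻¹, hαG'⟩ : G) • x, c, hc1, fun s t => ?_⟩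
    have h3 := hc2 s t
    rw [mul_smul, mul_smul] at h3
    exact h3
  · intro x hx
    choose c hc1 hc2 using fun n : ℕ => hiter (n : ℤ) x
    refine ⟨fun n => g ^ n • x, c, hNS.2.1 x hx, fun n => ⟨hc1 n, fun s t => ?_⟩⟩
    have := hc2 n s t
    rw [zpow_natCast] at this
    exact this
  · intro x hx
    choose c hc1 hc2 using fun n : ℕ => hiter (-(n : ℤ)) x
    refine ⟨fun n => g⁻¹ ^ n • x, c, hNS.2.2 x hx, fun n => ⟨hc1 n, fun s t => ?_⟩⟩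
    have := hc2 n s t
    rw [zpow_neg, zpow_natCast, ← inv_pow, mul_neg, neg_neg] at this
    exact this

end Pool.Agent.LR
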