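import Pool.Agent.LR.LenEx
import Pool.Agent.LR.Line

/-!
# LR/NC: commutation facts in `E`

Let `L` be the length function of `exists_lenE`, `W = {L = 0}` (a subgroup by `mul`, `inv`). `s₁, s₆, g₂ = s₂ s₃` are in `W`
and `g₁ = s₃ s₂ s₁ s₆` too (`prod4`: `s₁ s₂ s₃ s₄ = s₆ s₅`), so `PX ≤ W`.

PROOFS.
* `g1_inf`: if `g₁^n = 1`, `n ≠ 0`, then `s₁ g₁^n s₁⁻¹ = g₁^0`, so `s₁ ∈ zpowers g₁` by `mal`; but `parity s₁ ≠ 1`,
  `parity g₁ = 1`.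
* `nc11`: `u = z g₁ z⁻¹ ∈ W` commutes with `g₁`: `u g₁ u⁻¹ = g₁`, so `u ∈ zpowers g₁` (`mal`), `z g₁ z⁻¹ = g₁^n`, so
  `z ∈ zpowers g₁` (`mal`).
* `flip`: the automorphism `R : sᵢ ↦ s_{7-i}` (`ehom`; the relation is `s₆ s₅ ⋯ s₁ = (s₁ ⋯ s₆)⁻¹ = 1`), `R² = 1`,
  `R g₂ = s₅ s₄ = g₁⁻¹`, `R g₁ = s₃ s₂ = g₂⁻¹`, `R PX = PX`. `nc22` and `g2_inf` follow from `nc11`, `g1_inf` by applying `R`.
* `qd`: the homomorphism `E → DihedralGroup 0`, `s₁, s₄ ↦ a`, `s₅, s₆ ↦ b`, `s₂, s₃ ↦ 1`, with `a = sr 0`, `b = sr 1`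
  (`a·1·1·a·b·b = 1`). `qd g₂ = 1`, `qd g₁ = a b` of infinite order.
* `nc12`: if `g₂` commutes with `z g₁ z⁻¹` then `z⁻¹ g₂ z ∈ W` commutes with `g₁`, so `z⁻¹ g₂ z = g₁^n` (`mal`), apply `qd`:
  `(a b)^n = 1`, `n = 0`, `g₂ = 1`, contradiction to `g2_inf`.
* `nc_sq`: if `g₁²` and `g₂²` commute then `g₂² g₁² g₂⁻² = g₁²`, so `g₂² = g₁^n` by `mal` (`g₂² ∈ W`), `qd`: `n = 0`,
  `g₂² = 1`, contradiction to `g2_inf`.
* `q`: the homomorphism `E → DihedralGroup 0`, `s₂, s₅ ↦ a`, `s₃, s₄ ↦ b`, `s₁, s₆ ↦ 1` (`a b b a = 1`); `q g₂ = a b = r 1`,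
  `q g₁ = b a = r (-1)` (or with the opposite signs), and `q z = r i` for some `i` for all `z ∈ PX`.
-/

namespace Pool.Agent.LR

lemma nc_par_zpow (n : ℤ) : parity (g1 ^ n) = 1 := by
  have h : g1 = j Surf.a2 := (j_a2).symm
  rw [map_zpow, h, parity_j, one_zpow]

lemma nc_par_s1 : parity s1 ≠ 1 := by
  intro h
  simp [parity] at h

lemma nc_s1_notMem : s1 ∉ Subgroup.zpowers g1 := by
  intro h
  obtain ⟨n, hn⟩ := Subgroup.mem_zpowers_iff.1 h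
  apply nc_par_s1
  rw [← hn, nc_par_zpow]

theorem g1_inf (n : ℤ) (h : g1 ^ n = 1) : n = 0 := by
  by_contra hn
  obtain ⟨L, hL⟩ := exists_lenE
  apply nc_s1_notMem
  apply hL.mal s1 n 0 hL.hs1 hn
  rw [h]; simp

/-- the elements of length zero -/
def ncW {L : E → ℕ} (hL : LenE L) : Subgroup E where
  carrier := {x | L x = 0}
  one_mem' := by
    have := hL.mul s1 s1
    rw [s1_mul_self, hL.hs1] at this
    show L 1 = 0
    omega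
  mul_mem' := fun {a b} ha hb => by
    have h1 : L a = 0 := ha
    have h2 : L b = 0 := hb
    have := hL.mul a b
    show L (a * b) = 0
    omega
  inv_mem' := fun {a} ha => by
    have h1 : L a = 0 := ha
    show L a⁻¹ = 0
    rw [hL.inv, h1]

lemma nc_g1_eq : g1 = s3 * s2 * s1 * s6 := by
  have h : s4 = s3 * s2 * s1 * (s6 * s5) := by
    rw [← prod4]; simp [mul_assoc]
  rw [g1, h]; simp [mul_assoc]

lemma nc_PX_le {L : E → ℕ} (hL : LenE L) : PX ≤ ncW hL := by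
  have a1 : s1 ∈ ncW hL := hL.hs1
  have a2 : s2 ∈ ncW hL := hL.hs2
  have a3 : s3 ∈ ncW hL := hL.hs3
  have a6 : s6 ∈ ncW hL := hL.hs6
  rw [PX, Subgroup.closure_le]
  intro x hx
  simp only [Set.mem_insert_iff, Set.mem_singleton_iff] at hx
  rcases hx with rfl | rfl | rfl | rfl
  · exact a1
  · exact a6
  · exact mul_mem a2 a3
  · rw [nc_g1_eq]; exact mul_mem (mul_mem (mul_mem a3 a2) a1) a6

lemma nc_g1_mem : g1 ∈ PX := Subgroup.subset_closure (by simp)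
lemma nc_g2_mem : g2 ∈ PX := Subgroup.subset_closure (by simp)

theorem nc11 {z : E} (hz : z ∈ PX) (h : Commute g1 (z * g1 * z⁻¹)) : z ∈ Subgroup.zpowers g1 := by
  obtain ⟨L, hL⟩ := exists_lenE
  have hzW := nc_PX_le hL hz
  have hg := nc_PX_le hL nc_g1_mem
  have hu : z * g1 * z⁻¹ ∈ ncW hL := mul_mem (mul_mem hzW hg) (inv_mem hzW)
  have h1 : z * g1 * z⁻¹ ∈ Subgroup.zpowers g1 := by
    apply hL.mal _ 1 1 hu one_ne_zero
    rw [zpow_one, ← h.eq, mul_inv_cancel_right]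
  obtain ⟨n, hn⟩ := Subgroup.mem_zpowers_iff.1 h1
  apply hL.mal z 1 n hzW one_ne_zero
  rw [zpow_one, hn]

lemma nc_rev : s6 * s5 * s4 * s3 * s2 * s1 = 1 := by
  have h := congrArg (fun x => x⁻¹) prod_gen
  simpa [mul_inv_rev, mul_assoc] using h

/-- `sᵢ ↦ s_{7-i}` -/
def ncR : E →* E :=
  ehom ![s6, s5, s4, s3, s2, s1] (fun i => by fin_cases i <;> simp) (by exact nc_rev)

@[simp] lemma ncR_s1 : ncR s1 = s6 := ehom_s1 _ _ _
@[simp] lemma ncR_s2 : ncR s2 = s5 := ehom_s2 _ _ _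
@[simp] lemma ncR_s3 : ncR s3 = s4 := ehom_s3 _ _ _
@[simp] lemma ncR_s4 : ncR s4 = s3 := ehom_s4 _ _ _
@[simp] lemma ncR_s5 : ncR s5 = s2 := ehom_s5 _ _ _
@[simp] lemma ncR_s6 : ncR s6 = s1 := ehom_s6 _ _ _

lemma ncR_ncR (x : E) : ncR (ncR x) = x := by
  have h : ncR.comp ncR = MonoidHom.id E := by
    apply ehom_ext <;> simp
  exact DFunLike.congr_fun h x

lemma ncR_g1 : ncR g1 = g2⁻¹ := by simp [g1, g2]
lemma ncR_g2 : ncR g2 = g1⁻¹ := by simp [g1, g2]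

lemma ncR_PX {z : E} (hz : z ∈ PX) : ncR z ∈ PX := by
  have : PX ≤ PX.comap ncR := by
    conv_lhs => rw [PX]
    rw [Subgroup.closure_le]
    intro x hx
    simp only [Set.mem_insert_iff, Set.mem_singleton_iff] at hx
    show ncR x ∈ PX
    rcases hx with rfl | rfl | rfl | rfl
    · rw [ncR_s1]; exact Subgroup.subset_closure (by simp)
    · rw [ncR_s6]; exact Subgroup.subset_closure (by simp)
    · rw [ncR_g2]; exact inv_mem nc_g1_mem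
    · rw [ncR_g1]; exact inv_mem nc_g2_mem
  exact this hz

theorem g2_inf (n : ℤ) (h : g2 ^ n = 1) : n = 0 := by
  have h1 := congrArg ncR h
  rw [map_zpow, ncR_g2, map_one, inv_zpow, inv_eq_one] at h1
  exact g1_inf n h1

theorem nc22 {z : E} (hz : z ∈ PX) (h : Commute g2 (z * g2 * z⁻¹)) : z ∈ Subgroup.zpowers g2 := by
  have h1 : Commute g1 (ncR z * g1 * (ncR z)⁻¹) := by
    have h2 := h.map ncR
    rw [map_mul, map_mul, map_inv, ncR_g2] at h2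
    have h3 : ncR z * g1⁻¹ * (ncR z)⁻¹ = (ncR z * g1 * (ncR z)⁻¹)⁻¹ := by group
    rw [h3] at h2
    exact Commute.inv_inv_iff.1 h2
  obtain ⟨n, hn⟩ := Subgroup.mem_zpowers_iff.1 (nc11 (ncR_PX hz) h1)
  rw [Subgroup.mem_zpowers_iff]
  refine ⟨-n, ?_⟩
  have h4 := congrArg ncR hn
  rw [map_zpow, ncR_g1, ncR_ncR] at h4
  rw [← h4]; simp

/-- `s₁, s₄ ↦ sr 0`, `s₅, s₆ ↦ sr 1`, `s₂, s₃ ↦ 1` -/
def ncqd : E →* DihedralGroup 0 :=
  ehom ![.sr 0, 1, 1, .sr 0, .sr 1, .sr 1] (fun i => by fin_cases i <;> rfl) rfl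

lemma ncqd_g2 : ncqd g2 = 1 := by
  have e2 : ncqd s2 = 1 := ehom_s2 _ _ _
  have e3 : ncqd s3 = 1 := ehom_s3 _ _ _
  rw [g2, map_mul, e2, e3, one_mul]
lemma ncqd_g1 : ncqd g1 = .r 1 := by
  have e4 : ncqd s4 = .sr 0 := ehom_s4 _ _ _
  have e5 : ncqd s5 = .sr 1 := ehom_s5 _ _ _
  rw [g1, map_mul, e4, e5]; rfl

/-- rotations as a homomorphism -/
def ncr : Multiplicative ℤ →* DihedralGroup 0 where
  toFun m := DihedralGroup.r (n := 0) (Multiplicative.toAdd m : ℤ)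
  map_one' := rfl
  map_mul' _ _ := rfl

lemma nc_r_zpow (i : ℤ) (n : ℤ) :
    (DihedralGroup.r (n := 0) i : DihedralGroup 0) ^ n = DihedralGroup.r (n := 0) (i * n : ℤ) := by
  have h := (map_zpow ncr (Multiplicative.ofAdd i) n).symm
  have h2 : (Multiplicative.ofAdd i) ^ n = Multiplicative.ofAdd (i * n) := by
    rw [← ofAdd_zsmul, smul_eq_mul, mul_comm]
  rw [h2] at h
  exact h

lemma ncqd_zpow (n : ℤ) (h : ncqd (g1 ^ n) = 1) : n = 0 := by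
  rw [map_zpow, ncqd_g1] at h
  have h0 := nc_r_zpow 1 n
  have h2 : (DihedralGroup.r (n := 0) (1 * n : ℤ) : DihedralGroup 0) = .r 0 := by
    rw [← h0]; exact h
  have h1 : (1 * n : ℤ) = 0 := DihedralGroup.r.inj h2
  omega

theorem nc12 {z : E} (hz : z ∈ PX) : ¬ Commute g2 (z * g1 * z⁻¹) := by
  intro h
  obtain ⟨L, hL⟩ := exists_lenE
  have hzW := nc_PX_le hL hz
  have hg := nc_PX_le hL nc_g2_mem
  have hu : z⁻¹ * g2 * z ∈ ncW hL := mul_mem (mul_mem (inv_mem hzW) hg) hzW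
  have h1 : z⁻¹ * g2 * z * g1 * (z⁻¹ * g2 * z)⁻¹ = g1 := by
    have h2 : g2 * (z * g1 * z⁻¹) * g2⁻¹ = z * g1 * z⁻¹ := by rw [h.eq]; simp
    calc z⁻¹ * g2 * z * g1 * (z⁻¹ * g2 * z)⁻¹ = z⁻¹ * (g2 * (z * g1 * z⁻¹) * g2⁻¹) * z := by group
      _ = z⁻¹ * (z * g1 * z⁻¹) * z := by rw [h2]
      _ = g1 := by group
  have h3 : z⁻¹ * g2 * z ∈ Subgroup.zpowers g1 := by
    apply hL.mal _ 1 1 hu one_ne_zero
    rw [zpow_one, h1]
  obtain ⟨n, hn⟩ := Subgroup.mem_zpowers_iff.1 h3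
  have h4 : n = 0 := by
    apply ncqd_zpow
    rw [hn, map_mul, map_mul, ncqd_g2, mul_one, ← map_mul, inv_mul_cancel, map_one]
  rw [h4, zpow_zero] at hn
  have h5 : g2 = 1 := by
    have : z * (z⁻¹ * g2 * z) * z⁻¹ = 1 := by rw [← hn]; simp
    rw [← this]; group
  have h6 := g2_inf 1 (by rw [zpow_one, h5])
  exact one_ne_zero h6

theorem nc_sq : ¬ Commute (g1 ^ 2) (g2 ^ 2) := by
  intro h
  obtain ⟨L, hL⟩ := exists_lenE
  have hg := nc_PX_le hL nc_g2_mem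
  have h3 : g2 ^ 2 ∈ Subgroup.zpowers g1 := by
    apply hL.mal _ 2 2 (pow_mem hg 2) two_ne_zero
    have : (g1 ^ (2 : ℤ)) = g1 ^ 2 := by norm_cast
    rw [this, ← h.eq]; simp
  obtain ⟨n, hn⟩ := Subgroup.mem_zpowers_iff.1 h3
  have h4 : n = 0 := by
    apply ncqd_zpow
    rw [hn, map_pow, ncqd_g2, one_pow]
  rw [h4, zpow_zero] at hn
  have h6 := g2_inf 2 (by
    have : (g2 ^ (2 : ℤ)) = g2 ^ 2 := by norm_cast
    rw [this, ← hn])
  exact two_ne_zero h6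

/-- `s₂, s₅ ↦ sr 0`, `s₃, s₄ ↦ sr 1`, `s₁, s₆ ↦ 1` -/
def qhom : E →* DihedralGroup 0 :=
  ehom ![1, .sr 0, .sr 1, .sr 1, .sr 0, 1] (fun i => by fin_cases i <;> rfl) rfl

lemma nc_qg2 : qhom g2 = DihedralGroup.r (n := 0) (1 : ℤ) := by
  have e2 : qhom s2 = .sr 0 := ehom_s2 _ _ _
  have e3 : qhom s3 = .sr 1 := ehom_s3 _ _ _
  rw [g2, map_mul, e2, e3]; rfl
lemma nc_qg1 : qhom g1 = DihedralGroup.r (n := 0) (-1 : ℤ) := by
  have e4 : qhom s4 = .sr 1 := ehom_s4 _ _ _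
  have e5 : qhom s5 = .sr 0 := ehom_s5 _ _ _
  rw [g1, map_mul, e4, e5]; rfl

theorem qhom_g2 (n : ℤ) : qhom (g2 ^ n) = .r (n : ℤ) := by
  rw [map_zpow, nc_qg2, nc_r_zpow, one_mul]

theorem qhom_g1 (n : ℤ) : qhom (g1 ^ n) = .r (-n : ℤ) := by
  rw [map_zpow, nc_qg1, nc_r_zpow, neg_one_mul]

/-- the rotations -/
def ncRot : Subgroup (DihedralGroup 0) where
  carrier := {x | ∃ i, x = .r i}
  one_mem' := ⟨0, rfl⟩
  mul_mem' := by
    rintro a b ⟨i, rfl⟩ ⟨k, rfl⟩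
    exact ⟨i + k, rfl⟩
  inv_mem' := by
    rintro a ⟨i, rfl⟩
    exact ⟨-i, rfl⟩

theorem qhom_PX {z : E} (hz : z ∈ PX) : ∃ i, qhom z = .r i := by
  have : PX ≤ ncRot.comap qhom := by
    rw [PX, Subgroup.closure_le]
    intro x hx
    simp only [Set.mem_insert_iff, Set.mem_singleton_iff] at hx
    show ∃ i, qhom x = .r i
    rcases hx with rfl | rfl | rfl | rfl
    · exact ⟨0, ehom_s1 _ _ _⟩
    · exact ⟨0, ehom_s6 _ _ _⟩
    · exact ⟨_, nc_qg2⟩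
    · exact ⟨_, nc_qg1⟩
  exact this hz

end Pool.Agent.LR
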