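import Pool.Agent.LR.UForm

/-!
# LR/Pairs: midpoints of pairs

For `p = (a, b)`, `q = (a', b')` in `E × E`, `pd p q` is twice the distance of the midpoints of `[a, b]` and
`[a', b']` in the tree: `2 max (four cross distances) - d a b - d a' b'`.

PROOFS. `pd_four`: the terms `d a b` cancel, and if `M p q = d x y`, `M r t = d z w` (each is one of the four cross
distances) then `d x y + d z w ≤ max (d x z + d y w) (d x w + d y z) ≤ max (M p r + M q t) (M p t + M q r)`.
`pd_nonneg`: `d a b ≤ d a a' + d a' b ≤ 2 M`, the same for the other pair. `pd_tri`: `pd_four` with `t = r`.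
`pd_hb`: for `s = x gen i x⁻¹` one has `pd (y, s y) (x, s x) = 0` for every `y`: this is
`2 max (L (y⁻¹ x), L (y⁻¹ s x)) = L (y⁻¹ s y) + L (x⁻¹ s x)` i.e. `uform` for `x⁻¹ y` (note
`x⁻¹ s x = gen i`, `(x⁻¹ y)⁻¹ gen i (x⁻¹ y) = y⁻¹ s y`, `L (gen i x⁻¹ y) = L (x⁻¹ s y) = L (y⁻¹ s x)`).
Then use `pd_tri`.
`Dt_eq_pd`: `Dt s t = pd (1, s) (1, t)` by definition (`L 1 = 0`), and `pd (1, s) (y, s y) = 0` (`pd_hb`), so the value
does not change.
-/

namespace Pool.Agent.LR

variable {L : E → ℕ}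

/-- distance of vertices -/
def vdist (L : E → ℕ) (x y : E) : ℤ := L (x⁻¹ * y)

/-- twice the distance of midpoints -/
def pd (L : E → ℕ) (p q : E × E) : ℤ :=
  2 * max (max (vdist L p.1 q.1) (vdist L p.1 q.2)) (max (vdist L p.2 q.1) (vdist L p.2 q.2)) -
    vdist L p.1 p.2 - vdist L q.1 q.2

theorem vdist_self (h : LenE L) (x : E) : vdist L x x = 0 := by
  unfold vdist
  rw [inv_mul_cancel, h.one]
  rfl

theorem vdist_symm (h : LenE L) (x y : E) : vdist L x y = vdist L y x := by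
  unfold vdist
  rw [← h.inv (x⁻¹ * y), mul_inv_rev, inv_inv]

theorem vdist_nonneg (x y : E) : 0 ≤ vdist L x y := Int.natCast_nonneg _

theorem vdist_tri (h : LenE L) (x y z : E) : vdist L x z ≤ vdist L x y + vdist L y z := by
  unfold vdist
  have h1 := h.mul (x⁻¹ * y) (y⁻¹ * z)
  have h2 : x⁻¹ * y * (y⁻¹ * z) = x⁻¹ * z := by group
  rw [h2] at h1
  exact_mod_cast h1

theorem vdist_smul (g x y : E) : vdist L (g * x) (g * y) = vdist L x y := by
  unfold vdist
  congr 2
  group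

/-- the maximum of the four cross distances -/
private def mx (L : E → ℕ) (p q : E × E) : ℤ :=
  max (max (vdist L p.1 q.1) (vdist L p.1 q.2)) (max (vdist L p.2 q.1) (vdist L p.2 q.2))

private theorem pd_mx (p q : E × E) :
    pd L p q = 2 * mx L p q - vdist L p.1 p.2 - vdist L q.1 q.2 := rfl

private theorem le_mx (p q : E × E) {x y : E} (hx : x = p.1 ∨ x = p.2) (hy : y = q.1 ∨ y = q.2) :
    vdist L x y ≤ mx L p q := by
  unfold mx
  rcases hx with rfl | rfl <;> rcases hy with rfl | rfl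
  · exact (le_max_left _ _).trans (le_max_left _ _)
  · exact (le_max_right _ _).trans (le_max_left _ _)
  · exact (le_max_left _ _).trans (le_max_right _ _)
  · exact (le_max_right _ _).trans (le_max_right _ _)

private theorem mx_ex (p q : E × E) :
    ∃ x y, (x = p.1 ∨ x = p.2) ∧ (y = q.1 ∨ y = q.2) ∧ mx L p q = vdist L x y := by
  unfold mx
  rcases max_choice (max (vdist L p.1 q.1) (vdist L p.1 q.2)) (max (vdist L p.2 q.1) (vdist L p.2 q.2))
    with h | h
  · rcases max_choice (vdist L p.1 q.1) (vdist L p.1 q.2) with h' | h'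
    · exact ⟨_, _, Or.inl rfl, Or.inl rfl, h.trans h'⟩
    · exact ⟨_, _, Or.inl rfl, Or.inr rfl, h.trans h'⟩
  · rcases max_choice (vdist L p.2 q.1) (vdist L p.2 q.2) with h' | h'
    · exact ⟨_, _, Or.inr rfl, Or.inl rfl, h.trans h'⟩
    · exact ⟨_, _, Or.inr rfl, Or.inr rfl, h.trans h'⟩

private theorem vdist_four (h : LenE L) (x y z w : E) :
    vdist L x y + vdist L z w ≤ max (vdist L x z + vdist L y w) (vdist L x w + vdist L y z) := by
  unfold vdist
  exact_mod_cast h.four' x y z w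

theorem pd_self (h : LenE L) (p : E × E) : pd L p p = 0 := by
  unfold pd
  rw [vdist_self h, vdist_self h, vdist_symm h p.2 p.1]
  have h0 : 0 ≤ vdist L p.1 p.2 := vdist_nonneg _ _
  rw [max_eq_right h0, max_eq_left h0, max_self]
  ring

theorem pd_nonneg (h : LenE L) (p q : E × E) : 0 ≤ pd L p q := by
  rw [pd_mx]
  have h1 := le_mx (L := L) p q (Or.inl rfl) (Or.inl rfl)
  have h2 := le_mx (L := L) p q (Or.inl rfl) (Or.inr rfl)
  have h3 := le_mx (L := L) p q (Or.inr rfl) (Or.inl rfl)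
  have h4 := le_mx (L := L) p q (Or.inr rfl) (Or.inr rfl)
  rcases le_max_iff.mp (vdist_four h p.1 p.2 q.1 q.2) with h5 | h5 <;> linarith

private theorem mx_symm (h : LenE L) (p q : E × E) : mx L p q = mx L q p := by
  apply le_antisymm
  · obtain ⟨x, y, hx, hy, he⟩ := mx_ex (L := L) p q
    rw [he, vdist_symm h]
    exact le_mx q p hy hx
  · obtain ⟨x, y, hx, hy, he⟩ := mx_ex (L := L) q p
    rw [he, vdist_symm h]
    exact le_mx p q hy hx

theorem pd_symm (h : LenE L) (p q : E × E) : pd L p q = pd L q p := by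
  rw [pd_mx, pd_mx, mx_symm h]
  ring

theorem pd_four (h : LenE L) (p q r t : E × E) :
    pd L p q + pd L r t ≤ max (pd L p r + pd L q t) (pd L p t + pd L q r) := by
  simp only [pd_mx]
  obtain ⟨x, y, hx, hy, he⟩ := mx_ex (L := L) p q
  obtain ⟨z, w, hz, hw, he'⟩ := mx_ex (L := L) r t
  rw [he, he']
  rcases le_max_iff.mp (vdist_four h x y z w) with h1 | h1
  · apply le_max_of_le_left
    have h2 := le_mx (L := L) p r hx hz
    have h3 := le_mx (L := L) q t hy hw
    linarith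
  · apply le_max_of_le_right
    have h2 := le_mx (L := L) p t hx hw
    have h3 := le_mx (L := L) q r hy hz
    linarith

theorem pd_tri (h : LenE L) (p q r : E × E) : pd L p r ≤ pd L p q + pd L q r := by
  have := pd_four h p r q q
  rw [pd_self h, pd_symm h r q, max_self] at this
  linarith

theorem pd_smul (g : E) (p q : E × E) : pd L (g * p.1, g * p.2) (g * q.1, g * q.2) = pd L p q := by
  simp only [pd, vdist_smul]

/-- the midpoint of `[y, s y]` does not depend on `y` -/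
theorem pd_hb (h : LenE L) (s : HT) (y z : E) : pd L (y, s.1 * y) (z, s.1 * z) = 0 := by
  obtain ⟨s, i, x, rfl⟩ := s
  have key : ∀ y : E, pd L (y, x * gen i * x⁻¹ * y) (x, x * gen i * x⁻¹ * x) = 0 := by
    intro y
    have hu := h.uform i (x⁻¹ * y)
    have e1 : L (y⁻¹ * x) = L (x⁻¹ * y) := by
      rw [← h.inv (y⁻¹ * x), mul_inv_rev, inv_inv]
    have e2 : L (y⁻¹ * (x * gen i * x⁻¹ * x)) = L (gen i * (x⁻¹ * y)) := by
      rw [← h.inv (y⁻¹ * (x * gen i * x⁻¹ * x))]
      congr 1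
      simp only [mul_inv_rev, inv_inv, gen_inv]
      group
    have e3 : L ((x * gen i * x⁻¹ * y)⁻¹ * x) = L (gen i * (x⁻¹ * y)) := by
      rw [← h.inv ((x * gen i * x⁻¹ * y)⁻¹ * x)]
      congr 1
      simp only [mul_inv_rev, inv_inv]
      group
    have e4 : L ((x * gen i * x⁻¹ * y)⁻¹ * (x * gen i * x⁻¹ * x)) = L (x⁻¹ * y) := by
      rw [← e1]
      congr 1
      group
    have e5 : L (y⁻¹ * (x * gen i * x⁻¹ * y)) = L ((x⁻¹ * y)⁻¹ * gen i * (x⁻¹ * y)) := by
      congr 1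
      group
    have e6 : L (x⁻¹ * (x * gen i * x⁻¹ * x)) = L (gen i) := by
      congr 1
      group
    simp only [pd, vdist, e1, e2, e3, e4, e5, e6]
    rw [max_comm (L (gen i * (x⁻¹ * y)) : ℤ), max_self]
    have hu' : (L ((x⁻¹ * y)⁻¹ * gen i * (x⁻¹ * y)) : ℤ) + L (gen i) =
        2 * max (L (x⁻¹ * y) : ℤ) (L (gen i * (x⁻¹ * y))) := by exact_mod_cast hu
    linarith
  show pd L (y, x * gen i * x⁻¹ * y) (z, x * gen i * x⁻¹ * z) = 0
  apply le_antisymm _ (pd_nonneg h _ _)
  refine (pd_tri h _ (x, x * gen i * x⁻¹ * x) _).trans ?_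
  rw [key y, pd_symm h, key z]
  norm_num

/-- the distance of the fixed points of two half-turns -/
def Dt (L : E → ℕ) (s t : HT) : ℤ :=
  2 * max (max (L s.1 : ℤ) (L t.1)) (L (s.1 * t.1)) - L s.1 - L t.1

theorem Dt_eq_pd (h : LenE L) (s t : HT) (y : E) :
    Dt L s t = pd L (y, s.1 * y) (y, t.1 * y) := by
  have h1 : Dt L s t = pd L (1, s.1 * 1) (1, t.1 * 1) := by
    have hs : s.1⁻¹ = s.1 := inv_eq_of_mul_eq_one_left s.2.mul_self
    have a0 : (0 : ℤ) ≤ L s.1 := Int.natCast_nonneg _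
    have a1 : (0 : ℤ) ≤ L t.1 := Int.natCast_nonneg _
    simp only [pd, vdist, Dt, mul_one, inv_one, one_mul, hs, h.one, Nat.cast_zero]
    rw [max_eq_right a1, ← max_assoc, max_comm (L t.1 : ℤ)]
  rw [h1]
  apply le_antisymm
  · have h2 := pd_tri h (1, s.1 * 1) (y, s.1 * y) (1, t.1 * 1)
    have h3 := pd_tri h (y, s.1 * y) (y, t.1 * y) (1, t.1 * 1)
    rw [pd_hb h s] at h2
    rw [pd_hb h t] at h3
    linarith
  · have h2 := pd_tri h (y, s.1 * y) (1, s.1 * 1) (y, t.1 * y)
    have h3 := pd_tri h (1, s.1 * 1) (1, t.1 * 1) (y, t.1 * y)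
    rw [pd_hb h s] at h2
    rw [pd_hb h t] at h3
    linarith

end Pool.Agent.LR
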