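import Pool.Agent.LR.Defs

/-!
# LR/SDefs: the definitions in which the final statement is read

`S` is the fundamental group of the closed oriented surface of genus two. An automorphism is given by the
images of the four generators. `T1, …, T5` are the Dehn twists about the chain of curves `c₁ = a₁, c₂ = b₁,
c₃ = a₁⁻¹ b₂, c₄ = a₂, c₅ = b₂` (Humphries generators); with the inner automorphisms they generate the group
`Mod` of orientation preserving automorphisms, and `MCG` is its quotient by the inner automorphisms, the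
mapping class group. `cross γ` is the geometric intersection number of `γ` with the simple closed curve
`a₂ = c₄`; `ML` is the closure of the set of all functions `r • i(α(a₂), ·)`, `r ≥ 0`, `α` a mapping class, in
the space of functions on `S`; `PML` is its projectivisation, with the quotient topology.

Everything here unfolds to the corresponding definition of `LR/Defs` (same names); the types are plain
definitions with an instance of their own, so that statements over them stay short.
-/

namespace Pool.Agent.LRS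

open Pool.Agent.LR (Gen)

/-- words in the generators `a₁, b₁, a₂, b₂`: `(x, true)` is the letter `x`, `(x, false)` its inverse -/
abbrev Word : Type := List (Gen × Bool)

/-- the relator `[a₁, b₁] [a₂, b₂]` -/
def relator : Word :=
  [(.a1, true), (.b1, true), (.a1, false), (.b1, false), (.a2, true), (.b2, true), (.a2, false), (.b2, false)]

/-- the fundamental group of the closed orientable surface of genus two -/
def S : Type := PresentedGroup ({FreeGroup.mk relator} : Set (FreeGroup Gen))

instance : Group S := instGroupPresentedGroup ({FreeGroup.mk relator} : Set (FreeGroup Gen))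

/-- the element of `S` represented by a word -/
def val (w : Word) : S := PresentedGroup.mk ({FreeGroup.mk relator} : Set (FreeGroup Gen)) (FreeGroup.mk w)

/-- the values `f x` of the generators satisfy the relation -/
def Ok (f : Gen → S) : Prop := FreeGroup.lift f (FreeGroup.mk relator) = 1

theorem ok_rel {f : Gen → S} (h : Ok f) :
    ∀ r ∈ ({FreeGroup.mk relator} : Set (FreeGroup Gen)), FreeGroup.lift f r = 1 := by
  intro r hr
  rw [Set.mem_singleton_iff] at hr
  subst hr
  exact h

/-- the endomorphism of `S` with `x ↦ f x` for every generator `x` -/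
def endo (f : Gen → S) (h : Ok f) : S →* S := PresentedGroup.toGroup (ok_rel h)

/-- the endomorphisms given by `f` and `g` are inverse to each other -/
def MutInv (f g : Gen → S) (hf : Ok f) (hg : Ok g) : Prop :=
  (endo g hg).comp (endo f hf) = MonoidHom.id S ∧ (endo f hf).comp (endo g hg) = MonoidHom.id S

/-- automorphisms of `S` -/
def Aut : Type := MulAut S

instance : Group Aut := MulAut.instGroup S

/-- the value of an automorphism -/
def Aut.app (α : Aut) (γ : S) : S := MulEquiv.toEquiv (α : MulAut S) γ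

/-- the inner automorphism of `x` -/
def inner (x : S) : Aut := MulAut.conj x

/-- the automorphism of `S` with `x ↦ f x` and inverse `x ↦ g x` for every generator `x` -/
def aut (f g : Gen → S) (hf : Ok f) (hg : Ok g) (h : MutInv f g hf hg) : Aut :=
  MonoidHom.toMulEquiv (endo f hf) (endo g hg) h.1 h.2

/-- `T₁`: `b₁ ↦ b₁ a₁⁻¹` -/
def f1 : Gen → S
  | .a1 => val [(.a1, true)]
  | .b1 => val [(.b1, true), (.a1, false)]
  | .a2 => val [(.a2, true)]
  | .b2 => val [(.b2, true)]
/-- the inverse of `T₁` -/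
def g1 : Gen → S
  | .a1 => val [(.a1, true)]
  | .b1 => val [(.b1, true), (.a1, true)]
  | .a2 => val [(.a2, true)]
  | .b2 => val [(.b2, true)]

/-- `T₂`: `a₁ ↦ a₁ b₁` -/
def f2 : Gen → S
  | .a1 => val [(.a1, true), (.b1, true)]
  | .b1 => val [(.b1, true)]
  | .a2 => val [(.a2, true)]
  | .b2 => val [(.b2, true)]
/-- the inverse of `T₂` -/
def g2 : Gen → S
  | .a1 => val [(.a1, true), (.b1, false)]
  | .b1 => val [(.b1, true)]
  | .a2 => val [(.a2, true)]
  | .b2 => val [(.b2, true)]

/-- `T₃`: `b₁ ↦ c₃ b₁`, `a₂ ↦ c₃ a₂`, where `c₃ = a₁⁻¹ b₂` -/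
def f3 : Gen → S
  | .a1 => val [(.a1, true)]
  | .b1 => val [(.a1, false), (.b2, true), (.b1, true)]
  | .a2 => val [(.a1, false), (.b2, true), (.a2, true)]
  | .b2 => val [(.b2, true)]
/-- the inverse of `T₃` -/
def g3 : Gen → S
  | .a1 => val [(.a1, true)]
  | .b1 => val [(.b2, false), (.a1, true), (.b1, true)]
  | .a2 => val [(.b2, false), (.a1, true), (.a2, true)]
  | .b2 => val [(.b2, true)]

/-- `T₄`: `b₂ ↦ b₂ a₂⁻¹` -/
def f4 : Gen → S
  | .a1 => val [(.a1, true)]
  | .b1 => val [(.b1, true)]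
  | .a2 => val [(.a2, true)]
  | .b2 => val [(.b2, true), (.a2, false)]
/-- the inverse of `T₄` -/
def g4 : Gen → S
  | .a1 => val [(.a1, true)]
  | .b1 => val [(.b1, true)]
  | .a2 => val [(.a2, true)]
  | .b2 => val [(.b2, true), (.a2, true)]

/-- `T₅`: `a₂ ↦ a₂ b₂` -/
def f5 : Gen → S
  | .a1 => val [(.a1, true)]
  | .b1 => val [(.b1, true)]
  | .a2 => val [(.a2, true), (.b2, true)]
  | .b2 => val [(.b2, true)]
/-- the inverse of `T₅` -/
def g5 : Gen → S
  | .a1 => val [(.a1, true)]
  | .b1 => val [(.b1, true)]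
  | .a2 => val [(.a2, true), (.b2, false)]
  | .b2 => val [(.b2, true)]

section
open Pool.Agent.LR.Surf

theorem ok_f1 : Ok f1 := by
  have h := eq_one_of_conj (x := a1 * (b1 * a1⁻¹) * a1⁻¹ * (b1 * a1⁻¹)⁻¹ * (a2 * b2 * a2⁻¹ * b2⁻¹))
    (w := 1) (by group)
  exact h
theorem ok_g1 : Ok g1 := by
  have h := eq_one_of_conj (x := a1 * (b1 * a1) * a1⁻¹ * (b1 * a1)⁻¹ * (a2 * b2 * a2⁻¹ * b2⁻¹))
    (w := 1) (by group)
  exact h
theorem ok_f2 : Ok f2 := by
  have h := eq_one_of_conj (x := (a1 * b1) * b1 * (a1 * b1)⁻¹ * b1⁻¹ * (a2 * b2 * a2⁻¹ * b2⁻¹))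
    (w := 1) (by group)
  exact h
theorem ok_g2 : Ok g2 := by
  have h := eq_one_of_conj (x := (a1 * b1⁻¹) * b1 * (a1 * b1⁻¹)⁻¹ * b1⁻¹ * (a2 * b2 * a2⁻¹ * b2⁻¹))
    (w := 1) (by group)
  exact h
theorem ok_f3 : Ok f3 := by
  have h := eq_one_of_conj (x := a1 * (a1⁻¹ * b2 * b1) * a1⁻¹ * (a1⁻¹ * b2 * b1)⁻¹ * ((a1⁻¹ * b2 * a2) * b2 * (a1⁻¹ * b2 * a2)⁻¹ * b2⁻¹))
    (w := b2 * a1⁻¹) (by group)
  exact h
theorem ok_g3 : Ok g3 := by
  have h := eq_one_of_conj (x := a1 * (b2⁻¹ * a1 * b1) * a1⁻¹ * (b2⁻¹ * a1 * b1)⁻¹ * ((b2⁻¹ * a1 * a2) * b2 * (b2⁻¹ * a1 * a2)⁻¹ * b2⁻¹))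
    (w := a1 * b2⁻¹) (by group)
  exact h
theorem ok_f4 : Ok f4 := by
  have h := eq_one_of_conj (x := a1 * b1 * a1⁻¹ * b1⁻¹ * (a2 * (b2 * a2⁻¹) * a2⁻¹ * (b2 * a2⁻¹)⁻¹))
    (w := 1) (by group)
  exact h
theorem ok_g4 : Ok g4 := by
  have h := eq_one_of_conj (x := a1 * b1 * a1⁻¹ * b1⁻¹ * (a2 * (b2 * a2) * a2⁻¹ * (b2 * a2)⁻¹))
    (w := 1) (by group)
  exact h
theorem ok_f5 : Ok f5 := by
  have h := eq_one_of_conj (x := a1 * b1 * a1⁻¹ * b1⁻¹ * ((a2 * b2) * b2 * (a2 * b2)⁻¹ * b2⁻¹))
    (w := 1) (by group)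
  exact h
theorem ok_g5 : Ok g5 := by
  have h := eq_one_of_conj (x := a1 * b1 * a1⁻¹ * b1⁻¹ * ((a2 * b2⁻¹) * b2 * (a2 * b2⁻¹)⁻¹ * b2⁻¹))
    (w := 1) (by group)
  exact h
theorem inv1 : MutInv f1 g1 ok_f1 ok_g1 :=
  ⟨MonoidHom.ext fun x => twist1.symm_apply_apply x, MonoidHom.ext fun x => twist1.apply_symm_apply x⟩
theorem inv2 : MutInv f2 g2 ok_f2 ok_g2 :=
  ⟨MonoidHom.ext fun x => twist2.symm_apply_apply x, MonoidHom.ext fun x => twist2.apply_symm_apply x⟩
theorem inv3 : MutInv f3 g3 ok_f3 ok_g3 :=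
  ⟨MonoidHom.ext fun x => twist3.symm_apply_apply x, MonoidHom.ext fun x => twist3.apply_symm_apply x⟩
theorem inv4 : MutInv f4 g4 ok_f4 ok_g4 :=
  ⟨MonoidHom.ext fun x => twist4.symm_apply_apply x, MonoidHom.ext fun x => twist4.apply_symm_apply x⟩
theorem inv5 : MutInv f5 g5 ok_f5 ok_g5 :=
  ⟨MonoidHom.ext fun x => twist5.symm_apply_apply x, MonoidHom.ext fun x => twist5.apply_symm_apply x⟩

end

/-- the Dehn twist about `c_1` -/
def T1 : Aut := aut f1 g1 ok_f1 ok_g1 inv1
/-- the Dehn twist about `c_2` -/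
def T2 : Aut := aut f2 g2 ok_f2 ok_g2 inv2
/-- the Dehn twist about `c_3` -/
def T3 : Aut := aut f3 g3 ok_f3 ok_g3 inv3
/-- the Dehn twist about `c_4` -/
def T4 : Aut := aut f4 g4 ok_f4 ok_g4 inv4
/-- the Dehn twist about `c_5` -/
def T5 : Aut := aut f5 g5 ok_f5 ok_g5 inv5
theorem T1_eq : T1 = Pool.Agent.LR.Surf.twist1 := rfl
theorem T2_eq : T2 = Pool.Agent.LR.Surf.twist2 := rfl
theorem T3_eq : T3 = Pool.Agent.LR.Surf.twist3 := rfl
theorem T4_eq : T4 = Pool.Agent.LR.Surf.twist4 := rfl
theorem T5_eq : T5 = Pool.Agent.LR.Surf.twist5 := rfl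

/-- the group of orientation preserving automorphisms of the surface group -/
def Mod : Subgroup Aut := Subgroup.closure ({T1, T2, T3, T4, T5} ∪ Set.range inner)

/-- the elements of `Mod` -/
def ModT : Type := Mod

instance : Group ModT := Subgroup.toGroup Mod

/-- an element of `Mod`, as an automorphism -/
def ModT.aut (α : ModT) : Aut := Subtype.val α

/-- the inner automorphisms, as a subgroup of `Mod` -/
def Inn : Subgroup ModT := (MulAut.conj (G := S)).range.subgroupOf Mod

theorem inn_normal : Inn.Normal := (inferInstance : Pool.Agent.LR.Inn.Normal)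

instance : Inn.Normal := inn_normal

/-- the mapping class group of the closed orientable surface of genus two -/
def MCG : Type := ModT ⧸ Inn

instance : Group MCG := QuotientGroup.Quotient.group Inn

/-- the mapping class of an automorphism -/
def cls (α : ModT) : MCG := QuotientGroup.mk α

theorem mem_mod {α : Aut} (h : α ∈ ({T1, T2, T3, T4, T5} : Set Aut)) : α ∈ Mod :=
  Subgroup.subset_closure (Or.inl h)

theorem mem_24 : T2 * T4 ∈ Mod := mul_mem (mem_mod (by simp)) (mem_mod (by simp))

theorem mem_13 : T1 * T3 ∈ Mod := mul_mem (mem_mod (by simp)) (mem_mod (by simp))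

/-- the multitwist `δ = T₂ T₄` -/
def δ : MCG := cls ⟨T2 * T4, mem_24⟩

/-- the multitwist `δ' = T₁ T₃` -/
def δ' : MCG := cls ⟨T1 * T3, mem_13⟩

/-- the Veech group `F(ξ₂)`, generated by the two multitwists about the chain `c₁, c₂, c₃, c₄` -/
def F : Subgroup MCG := Subgroup.closure {δ, δ'}

/-- the hyperelliptic involution, the central element `-1` of the Veech group -/
def ι : MCG := (δ * δ') ^ 5

/-- the number of letters `b₂^{±1}` in a word -/
def b2Count (w : Word) : ℕ := w.countP (fun p => p.1 = .b2)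

/-- the geometric intersection number of `γ` with the curve `a₂`: the smallest number of letters `b₂^{±1}`
in a word which represents a conjugate of `γ` -/
noncomputable def cross (γ : S) : ℕ :=
  sInf {n | ∃ (w : Word) (x : S), val w = x * γ * x⁻¹ ∧ b2Count w = n}

/-- the weighted simple closed curves in the orbit of `a₂`, as functions on the surface group -/
def weightedCurves : Set (S → ℝ) :=
  {f | ∃ (r : ℝ) (α : Aut), 0 ≤ r ∧ α ∈ Mod ∧ f = fun γ => r * cross (α.app γ)}

/-- the space of measured laminations (with the zero lamination) -/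
def ML : Set (S → ℝ) := closure weightedCurves

/-- the non-zero measured laminations -/
def ML0 : Type := {f : S → ℝ // f ∈ ML ∧ f ≠ 0}

instance : TopologicalSpace ML0 := TopologicalSpace.induced (Subtype.val) Pi.topologicalSpace

/-- proportionality of measured laminations -/
def Proportional (f g : ML0) : Prop := ∃ c : ℝ, 0 < c ∧ g.1 = fun γ => c * f.1 γ

theorem prop_equiv : Equivalence Proportional := Pool.Agent.LR.projSetoid.iseqv

/-- proportionality as a setoid -/
instance projSetoid : Setoid ML0 := ⟨Proportional, prop_equiv⟩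

/-- the space of projective measured laminations, with the quotient topology -/
def PML : Type := Quotient projSetoid

instance : TopologicalSpace PML := instTopologicalSpaceQuotient

theorem ML_comp (α : ModT) (f : ML0) : (fun γ => f.1 ((α⁻¹).aut.app γ)) ∈ ML ∧
    (fun γ => f.1 ((α⁻¹).aut.app γ)) ≠ 0 := (Pool.Agent.LR.ML0.act α f).2

/-- the action of an automorphism `α` on measured laminations: `i(α μ, γ) = i(μ, α⁻¹ γ)` -/
def ML0.act (α : ModT) (f : ML0) : ML0 := ⟨fun γ => f.1 ((α⁻¹).aut.app γ), ML_comp α f⟩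

theorem act_rel (α : ModT) (f g : ML0) (h : projSetoid.r f g) : projSetoid.r (ML0.act α f) (ML0.act α g) := by
  obtain ⟨c, hc, h⟩ := h
  exact ⟨c, hc, by
    funext γ
    exact congrFun h _⟩

/-- the action of an automorphism on projective measured laminations -/
def PML.act (α : ModT) : PML → PML := Quotient.map (ML0.act α) (act_rel α)

example : Mod = Pool.Agent.LR.Mod := rfl
example : MCG = Pool.Agent.LR.MCG := rfl
example : δ = Pool.Agent.LR.δ := rfl
example : F = Pool.Agent.LR.F := rfl
example : cross = Pool.Agent.LR.cross := rfl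
example : ML = Pool.Agent.LR.ML := rfl
example : PML = Pool.Agent.LR.PML := rfl

end Pool.Agent.LRS
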