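import Pool.Agent.LR.NC
import Pool.Agent.LR.GoodBasic

/-!
# LR/StructBasic: directions at a vertex of the tree of `k₁ c₁ + k₂ c₂`

PROOFS (`K` is `E`-invariant, `K a b = 0` means that `a`, `b` can be exchanged: `congr_left/right`).
* `zm2`: `K h1 (z • h2) = K (z⁻¹ • h1) h2 = K h1 h2`.
* `same2`: `z = g₂^k`; by `line_dist`/`line_translate`: `g2 • h2 = g2 • line h2 h3 0 = line h2 h3 (-2)`, distance
  `2 K h2 h3 = 0`; so `g2 ∈ stab h2`, and `zpowers`.
* `dir22`, `dir11`, `dir12`: `small` with `x = g₂`, `y = z g₂ z⁻¹`, `s = h1`, `t = h2`, `t' = z • h2` (the elements do not commute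
  by `nc22`): the right hand side is `0`: `K h1 (x • h1) = 0` (`g₂ ∈ PX`), `K h2 (g₂ • h2) = 0` (`same2`),
  `K h1 (y • h1) = 0` (`y ∈ PX`), `K (z • h2) (y • z • h2) = K h2 (g₂ • h2) = 0`. So
  `K h2 (z • h2) ≥ K h1 h2 + K h1 (z • h2) = 2 k2`; `≤` by `tri`. The same with `nc11`, `nc12`.
* `h34`: `dir12` with `z = 1`, `K h2 h3 = 0`.
* `midpoint2`: `four` for `h2, t, h1, s2 • h1`, `K h1 (s2 • h1) = 2 k2` (`half`), and `tri`.
-/

namespace Pool.Agent.LR

variable {K : HT → HT → ℝ} {k1 k2 : ℝ}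

theorem g2_mem_PX : g2 ∈ PX := Subgroup.subset_closure (by simp)
theorem g1_mem_PX : g1 ∈ PX := Subgroup.subset_closure (by simp)
theorem s1_mem_PX : s1 ∈ PX := Subgroup.subset_closure (by simp)
theorem s6_mem_PX : s6 ∈ PX := Subgroup.subset_closure (by simp)

theorem Struct.h13 (h : Struct K k1 k2) : K h1 h3 = k2 := by
  rw [← h.good.congr_right h.h23 h1, h.hk2]

theorem Struct.h15 (h : Struct K k1 k2) : K h1 h5 = k1 := by
  rw [← h.good.congr_right h.h45 h1, h.hk1]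

theorem Struct.zmaux (h : Struct K k1 k2) {z : E} (hz : z ∈ PX) (t : HT) :
    K h1 (z • t) = K h1 t := by
  have e := h.good.inv z⁻¹ h1 (z • t)
  rw [inv_smul_smul] at e
  rw [← e, ← h.good.congr_left (h.hPX z⁻¹ (inv_mem hz)) t]

theorem Struct.zm2 (h : Struct K k1 k2) {z : E} (hz : z ∈ PX) : K h1 (z • h2) = k2 := by
  rw [h.zmaux hz, h.hk2]

theorem Struct.zm1 (h : Struct K k1 k2) {z : E} (hz : z ∈ PX) : K h1 (z • h4) = k1 := by
  rw [h.zmaux hz, h.hk1]

private theorem sb_same (h : Good K) {s t : HT} (h0 : K s t = 0) {z : E}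
    (hz : z ∈ Subgroup.zpowers (s.1 * t.1)) : K s (z • s) = 0 := by
  have h1 : s.1 * t.1 ∈ stab K h s := by
    rw [mem_stab]
    have e1 := line_translate s t 0
    rw [line_zero, zero_sub] at e1
    rw [e1]
    have e2 := h.line_dist s t 0 (-2)
    rw [line_zero, h0, zero_mul] at e2
    exact e2
  have h2 : Subgroup.zpowers (s.1 * t.1) ≤ stab K h s := by
    rw [Subgroup.zpowers_le]
    exact h1
  exact (mem_stab h).1 (h2 hz)

theorem Struct.same2 (h : Struct K k1 k2) {z : E} (hz : z ∈ Subgroup.zpowers g2) :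
    K h2 (z • h2) = 0 :=
  sb_same h.good h.h23 hz

theorem Struct.same1 (h : Struct K k1 k2) {z : E} (hz : z ∈ Subgroup.zpowers g1) :
    K h4 (z • h4) = 0 :=
  sb_same h.good h.h45 hz

private theorem sb_dir (h : Struct K k1 k2) {z x y : E} (hz : z ∈ PX) {s t : HT} (hx : x ∈ PX)
    (hy : y ∈ PX) (hxs : K s (x • s) = 0) (hyt : K t (y • t) = 0)
    (hc : ¬ Commute x (z * y * z⁻¹)) : K s (z • t) = K h1 s + K h1 t := by
  apply le_antisymm
  · have e := h.good.tri s h1 (z • t)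
    rw [h.zmaux hz, h.good.symm s h1] at e
    exact e
  · have e := h.good.small _ _ hc h1 s (z • t)
    have e1 : K h1 (x • h1) = 0 := h.hPX x hx
    have e2 : K h1 ((z * y * z⁻¹) • h1) = 0 := h.hPX _ (mul_mem (mul_mem hz hy) (inv_mem hz))
    have e3 : K (z • t) ((z * y * z⁻¹) • (z • t)) = 0 := by
      have e4 : (z * y * z⁻¹) • (z • t) = z • (y • t) := by
        rw [mul_smul, mul_smul, inv_smul_smul]
      rw [e4, h.good.inv, hyt]
    rw [e1, e2, e3, hxs, h.zmaux hz] at e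
    linarith

theorem Struct.dir22 (h : Struct K k1 k2) {z : E} (hz : z ∈ PX) (hz' : z ∉ Subgroup.zpowers g2) :
    K h2 (z • h2) = 2 * k2 := by
  have h0 : K h2 (g2 • h2) = 0 := h.same2 (Subgroup.mem_zpowers g2)
  rw [sb_dir h hz g2_mem_PX g2_mem_PX h0 h0 (fun hc => hz' (nc22 hz hc)), h.hk2]
  ring

theorem Struct.dir11 (h : Struct K k1 k2) {z : E} (hz : z ∈ PX) (hz' : z ∉ Subgroup.zpowers g1) :
    K h4 (z • h4) = 2 * k1 := by
  have h0 : K h4 (g1 • h4) = 0 := h.same1 (Subgroup.mem_zpowers g1)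
  rw [sb_dir h hz g1_mem_PX g1_mem_PX h0 h0 (fun hc => hz' (nc11 hz hc)), h.hk1]
  ring

theorem Struct.dir12 (h : Struct K k1 k2) {z : E} (hz : z ∈ PX) : K h2 (z • h4) = k1 + k2 := by
  have h0 : K h2 (g2 • h2) = 0 := h.same2 (Subgroup.mem_zpowers g2)
  have h0' : K h4 (g1 • h4) = 0 := h.same1 (Subgroup.mem_zpowers g1)
  rw [sb_dir h hz g2_mem_PX g1_mem_PX h0 h0' (nc12 hz), h.hk2, h.hk1]
  ring

theorem Struct.h34 (h : Struct K k1 k2) : K h3 h4 = k1 + k2 := by
  have h0 := h.dir12 (one_mem PX)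
  rw [one_smul, h.good.congr_left h.h23] at h0
  exact h0

private theorem sb_mid (h : Good K) (a s t : HT) :
    K s t = max (K a t) (K a (s.1 • t)) - K a s := by
  have hss : ∀ u : HT, s.1 • s.1 • u = u := fun u => by
    rw [← mul_smul, s.2.mul_self, one_smul]
  have hs : s.1 • s = s := Subtype.ext (by
    rw [smul_val, HT.inv_val, mul_assoc, s.2.mul_self, mul_one])
  have e1 : K t (s.1 • a) = K a (s.1 • t) := by
    rw [← h.inv s.1, hss, h.symm]
  have e2 : K s (s.1 • a) = K a s := by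
    rw [← h.inv s.1, hss, hs, h.symm]
  have e3 : K a (s.1 • a) = 2 * K a s := by
    rw [h.stab_half, h.symm]
  have e4 : K s (s.1 • t) = K s t := by
    rw [← h.inv s.1, hss, hs]
  have f := h.four s t a (s.1 • a)
  rw [e1, e2, e3, h.symm s a, h.symm t a] at f
  have t1 := h.tri a s t
  have t2 := h.tri a s (s.1 • t)
  rw [e4] at t2
  rw [max_add_add_left, max_comm] at f
  apply le_antisymm
  · linarith
  · have : max (K a t) (K a (s.1 • t)) ≤ K a s + K s t := max_le t1 t2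
    linarith

theorem Struct.midpoint2 (h : Struct K k1 k2) (t : HT) :
    K h2 t = max (K h1 t) (K h1 (s2 • t)) - k2 := by
  rw [← h.hk2]
  exact sb_mid h.good h1 h2 t

theorem Struct.midpoint1 (h : Struct K k1 k2) (t : HT) :
    K h4 t = max (K h1 t) (K h1 (s4 • t)) - k1 := by
  rw [← h.hk1]
  exact sb_mid h.good h1 h4 t

theorem Struct.scale (h : Struct K k1 k2) {c : ℝ} (hc : 0 ≤ c) :
    Struct (fun s t => c * K s t) (c * k1) (c * k2) where
  good := h.good.smul hc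
  h23 := by rw [h.h23, mul_zero]
  h45 := by rw [h.h45, mul_zero]
  h16 := by rw [h.h16, mul_zero]
  hPX z hz := by rw [h.hPX z hz, mul_zero]
  hk2 := by rw [h.hk2]
  hk1 := by rw [h.hk1]

end Pool.Agent.LR
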