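import Pool.Agent.LR.Pairs

/-!
# LR/TreeV: the subdivided tree

Vertices: `V = E × Bool`; `(x, false)` is the vertex `x` of the tree, `(x, true)` is the midpoint of the edge from `x`
to `x s₄`. `vd a b` is the distance in the subdivided tree.

PROOFS. Write `d = vdist L`. `vd (x,false) (y,false) = 2 d x y`; `vd (x,true) (y,false) = 2 max (d x y) (d (x s₄) y) - 1`;
`vd (x,true) (y,true) = 2 max (d x y) (d x (y s₄)) (d (x s₄) y) (d (x s₄) (y s₄)) - 2` (`d x (x s₄) = L s₄ = 1`). By `par` for `L`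
adjacent endpoints have distances to any third vertex of different parity, so they differ by exactly one.
* `vd_par`: `vd (x, i) (y, j) ≡ i + j (mod 2)`.
* `vd_geod`, `vd a b = n + 1`, `n ≥ 0`:
  - `a = (x,false)`, `b = (y,false)`: `d x y = l ≥ 1`, `geod`: `x⁻¹ y = w s₄ g'`, `L w = 0`, `L g' = l - 1`. `c = (x w, true)`.
    `vd a c = 2 max (L w) (L (w s₄)) - 1 = 1`, `vd c b = 2 max (L (s₄ g')) (L g') - 1 = 2 l - 1` since
    `L (s₄ g') = L (w⁻¹ x⁻¹ y) = l` (`mul`, `L w = 0`).
  - `a = (x,false)`, `b = (y,true)`: `l = max (d x y) (d x (y s₄))`, `vd a b = 2 l - 1`. If `l = 1` take `c = b`. If `l ≥ 2`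
    choose `y' ∈ {y, y s₄}` with `d x y' = l`, `d x (y' s₄) = l - 1`, `x⁻¹ y' = w s₄ g'`, `L g' = l - 1`, `c = (x w, true)`;
    `vd c b = 2 l - 2`: the four distances are `d (x w) y' = l` and `L g' = l - 1`, `d (x w) (y' s₄) = l - 1`,
    `L (g' s₄) ≤ l`.
  - `a = (x,true)`, `b = (y,false)`: choose `x' ∈ {x, x s₄}` with the smaller `d x' y`; `c = (x', false)`.
  - `a = (x,true)`, `b = (y,true)`: `M = max ≥ 2`. Let `p = d x y`, `q = d x (y s₄)`, `r = d (x s₄) y`, `t = d (x s₄) (y s₄)`.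
    The three sums of the four points `x, x s₄, y, y s₄` are `2`, `p + t`, `q + r`, the two largest are equal. If `p = M`
    then `q = r = M - 1` (parity, neighbours), and `t = M - 2` (if `t = M` then `p + t = 2 M` would be the unique largest
    sum). So `x' = x s₄` satisfies `max (d x' y) (d x' (y s₄)) = M - 1`; `c = (x', false)`. The other cases are the same
    by symmetry (exchange `x, x s₄` and `y, y s₄`).
* `vd_S1`: `vd a b = 1` means one of them, say `a`, is `(x, false)`, and `b = (y, true)`, `max (d x y) (d x (y s₄)) = 1`; let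
  `y' ∈ {y, y s₄}` with `d x y' = 0`. If `g` fixes `a` and `b` then `L (y'⁻¹ g y') = 0` (as `L (x⁻¹ g x) = 0`, `d x y' = 0`), and
  all four cross distances of `(y, y s₄)` and `(g y, g y s₄)` are `≤ 1`, so `L (s₄ (y'⁻¹ g y') s₄) ≤ 1`, it is even
  (`par`), so `0`, and `y'⁻¹ g y' ∈ zpowers g₁` by `stab`. So both elements are in `y' ⟨g₁⟩ y'⁻¹` and commute.
* `vd_S2`: let `c` fix `a` and `b`, `vd a b ≥ 3`. By `vd_geod` three times there are `c₁, c₂, c₃` with consecutive distances
  `1` on the geodesic (`vd a c₁ = 1`, `vd c₁ b = vd a b - 1`, ...). `c` fixes them (the point at distance `k` from `a` on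
  a geodesic from `a` to `b` is unique up to distance `0`, by `vd_four`). One of `c₁`, `c₂` is of the form `(x, false)`
  (`vd_par`) and its two neighbours in the chain `a, c₁, c₂, c₃` are `(y, true)`, `(y', true)` at distance `2`. Choose as in
  `S1` `w, w'` with `L w = L w' = 0` and `(y,true) ~ (x w, true)`, `(y',true) ~ (x w', true)` (`~`: distance `0`). As in `S1`,
  `c = x w g₁^k w⁻¹ x⁻¹ = x w' g₁^l w'⁻¹ x⁻¹`. If `k ≠ 0` then by `mal` `w'⁻¹ w ∈ zpowers g₁`, and then
  `(x w, true) ~ (x w', true)` (`s₄ g₁^i s₄ = g₁^(-i)`), contradiction to distance `2`. So `k = 0`, `c = 1`.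
* `exists_center`: `s = x gen i x⁻¹`. If `i ≠ 3, 4` take `v = (x, false)`: `pd (x, s x) (x, x) = 0` because
  `d x (s x) = L (gen i) = 0`. If `i = 3`: `v = (x, true)`, `s x = x s₄`. If `i = 4`: `v = (x, true)`, `s x = x s₅ = x s₄ g₁`, and
  `d (x s₄ g₁) (x s₄) = L g₁ = 0` (`L g₁ = 0` because it is `≤ 2`... `g₁ = s₃ s₂ s₁ s₆` by `prod4`, so `L g₁ ≤ 0`). Then
  `pd_hb` and `pd_tri`.
-/

namespace Pool.Agent.LR

variable {L : E → ℕ}

/-- the pair of endpoints of a vertex of the subdivided tree -/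
def emb (v : E × Bool) : E × E := if v.2 then (v.1, v.1 * s4) else (v.1, v.1)

/-- the distance in the subdivided tree -/
def vd (L : E → ℕ) (a b : E × Bool) : ℤ := pd L (emb a) (emb b)

/-- the action of `E` -/
def vact (g : E) (v : E × Bool) : E × Bool := (g * v.1, v.2)

/-! ### distances of vertices -/

theorem vdist_par (h : LenE L) (x y z : E) : Even (vdist L x y + vdist L y z + vdist L x z) := by
  have h1 := h.par (x⁻¹ * y) (y⁻¹ * z)
  have h2 : x⁻¹ * y * (y⁻¹ * z) = x⁻¹ * z := by group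
  rw [h2] at h1
  unfold vdist
  have h3 : ((L (x⁻¹ * y) : ℤ) + L (y⁻¹ * z) + L (x⁻¹ * z)) =
      ((L (x⁻¹ * z) + L (x⁻¹ * y) + L (y⁻¹ * z) : ℕ) : ℤ) := by push_cast; ring
  rw [h3]
  exact_mod_cast h1

theorem vdist_four (h : LenE L) (p q r t : E) :
    vdist L p q + vdist L r t ≤ max (vdist L p r + vdist L q t) (vdist L p t + vdist L q r) := by
  have h1 := h.four' p q r t
  unfold vdist
  exact_mod_cast h1

theorem vdist_s4 (h : LenE L) (x : E) : vdist L x (x * s4) = 1 := by
  unfold vdist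
  rw [inv_mul_cancel_left, h.hs4]
  rfl

/-- the distances to the two ends of an edge differ by one -/
theorem vdist_edge (h : LenE L) {y z : E} (hyz : vdist L y z = 1) (x : E) :
    vdist L x z = vdist L x y + 1 ∨ vdist L x y = vdist L x z + 1 := by
  have h1 := vdist_tri h x y z
  have h2 := vdist_tri h x z y
  rw [vdist_symm h z y] at h2
  have h3 := vdist_par h x y z
  rw [hyz] at h1 h2 h3
  obtain ⟨k, hk⟩ := h3
  omega

theorem vdist_zero (h : LenE L) {x z : E} (hxz : vdist L x z = 0) (y : E) :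
    vdist L x y = vdist L z y := by
  have h1 := vdist_tri h x z y
  have h2 := vdist_tri h z x y
  rw [vdist_symm h z x] at h2
  omega

theorem vdist_geod (h : LenE L) (x y : E) (l : ℤ) (hl : 1 ≤ l) (hxy : vdist L x y = l) :
    ∃ z, vdist L x z = 0 ∧ vdist L z y = l ∧ vdist L (z * s4) y = l - 1 := by
  have h0 : L (x⁻¹ * y) = (l - 1).toNat + 1 := by
    have : (L (x⁻¹ * y) : ℤ) = l := hxy
    omega
  obtain ⟨w, g', hw, he, hg⟩ := h.geod _ _ h0
  refine ⟨x * w, ?_, ?_, ?_⟩
  · unfold vdist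
    rw [inv_mul_cancel_left, hw]; rfl
  · have h1 : vdist L x (x * w) = 0 := by
      unfold vdist
      rw [inv_mul_cancel_left, hw]; rfl
    rw [← vdist_zero h h1 y, hxy]
  · unfold vdist
    have h2 : (x * w * s4)⁻¹ * y = g' := by
      have : y = x * (w * s4 * g') := by rw [← he]; group
      rw [this]; group
    rw [h2, hg]
    omega

/-! ### the four forms of `vd` -/

theorem vd_ff (x y : E) (h : LenE L) : vd L (x, false) (y, false) = 2 * vdist L x y := by
  show pd L (x, x) (y, y) = _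
  unfold pd
  rw [vdist_self h, vdist_self h]
  simp

theorem vd_ft (x y : E) (h : LenE L) :
    vd L (x, false) (y, true) = 2 * max (vdist L x y) (vdist L x (y * s4)) - 1 := by
  show pd L (x, x) (y, y * s4) = _
  unfold pd
  simp only [vdist_self h, vdist_s4 h, max_self]
  ring

theorem vd_tf (x y : E) (h : LenE L) :
    vd L (x, true) (y, false) = 2 * max (vdist L x y) (vdist L (x * s4) y) - 1 := by
  show pd L (x, x * s4) (y, y) = _
  unfold pd
  simp only [vdist_self h, vdist_s4 h, max_self]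
  ring

theorem vd_tt (x y : E) (h : LenE L) :
    vd L (x, true) (y, true) = 2 * max (max (vdist L x y) (vdist L x (y * s4)))
      (max (vdist L (x * s4) y) (vdist L (x * s4) (y * s4))) - 2 := by
  show pd L (x, x * s4) (y, y * s4) = _
  unfold pd
  simp only [vdist_s4 h]
  ring

theorem vd_symm (h : LenE L) (a b : E × Bool) : vd L a b = vd L b a := pd_symm h _ _

theorem vd_tri (h : LenE L) (a b c : E × Bool) : vd L a c ≤ vd L a b + vd L b c := pd_tri h _ _ _

theorem vd_nonneg (h : LenE L) (a b : E × Bool) : 0 ≤ vd L a b := pd_nonneg h _ _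

theorem vd_self (h : LenE L) (a : E × Bool) : vd L a a = 0 := pd_self h _

theorem vd_four (h : LenE L) (p q r t : E × Bool) :
    vd L p q + vd L r t ≤ max (vd L p r + vd L q t) (vd L p t + vd L q r) := pd_four h _ _ _ _

theorem vd_act (g : E) (a b : E × Bool) : vd L (vact g a) (vact g b) = vd L a b := by
  have e : ∀ v : E × Bool, emb (vact g v) = (g * (emb v).1, g * (emb v).2) := by
    rintro ⟨x, i⟩
    cases i
    · rfl
    · show (g * x, g * x * s4) = (g * x, g * (x * s4))
      rw [mul_assoc]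
  unfold vd
  rw [e, e, pd_smul]

theorem vd_par' (h : LenE L) (a b : E × Bool) :
    ∃ k, vd L a b = 2 * k + (if a.2 then 1 else 0) + (if b.2 then 1 else 0) := by
  obtain ⟨x, i⟩ := a
  obtain ⟨y, j⟩ := b
  cases i <;> cases j
  · exact ⟨vdist L x y, by rw [vd_ff _ _ h]; simp⟩
  · exact ⟨max (vdist L x y) (vdist L x (y * s4)) - 1, by rw [vd_ft _ _ h]; simp; ring⟩
  · exact ⟨max (vdist L x y) (vdist L (x * s4) y) - 1, by rw [vd_tf _ _ h]; simp; ring⟩
  · exact ⟨max (max (vdist L x y) (vdist L x (y * s4)))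
      (max (vdist L (x * s4) y) (vdist L (x * s4) (y * s4))) - 2, by rw [vd_tt _ _ h]; simp; ring⟩

theorem vd_par (h : LenE L) (a b c : E × Bool) : Even (vd L a b + vd L b c + vd L a c) := by
  obtain ⟨k, hk⟩ := vd_par' h a b
  obtain ⟨l, hl⟩ := vd_par' h b c
  obtain ⟨m, hm⟩ := vd_par' h a c
  rw [hk, hl, hm]
  exact ⟨k + l + m + (if a.2 then 1 else 0) + (if b.2 then 1 else 0) + (if c.2 then 1 else 0),
    by ring⟩

theorem s4_symm (h : LenE L) (x : E) : vdist L (x * s4) x = 1 := by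
  rw [vdist_symm h, vdist_s4 h]

theorem vd_geod (h : LenE L) (a b : E × Bool) (n : ℤ) (hn : 0 ≤ n) (hab : vd L a b = n + 1) :
    ∃ c, vd L a c = 1 ∧ vd L c b = n := by
  obtain ⟨x, i⟩ := a
  obtain ⟨y, j⟩ := b
  cases i <;> cases j
  · rw [vd_ff _ _ h] at hab
    obtain ⟨z, h1, h2, h3⟩ := vdist_geod h x y _ (by omega) rfl
    refine ⟨(z, true), ?_, ?_⟩
    · rw [vd_ft _ _ h, h1, vdist_zero h h1, vdist_s4 h]; rfl
    · rw [vd_tf _ _ h, h2, h3]; omega
  · rw [vd_ft _ _ h] at hab
    by_cases hn0 : n = 0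
    · refine ⟨(y, true), ?_, ?_⟩
      · rw [vd_ft _ _ h]; omega
      · rw [vd_self h, hn0]
    · have he := vdist_edge h (vdist_s4 h y) x
      have key : ∀ y1 y2 : E, vdist L y1 y2 = 1 → vdist L x y2 + 1 = vdist L x y1 →
          2 * vdist L x y1 - 1 = n + 1 → ∃ z, vdist L x z = 0 ∧
            max (max (vdist L z y1) (vdist L z y2)) (max (vdist L (z * s4) y1)
              (vdist L (z * s4) y2)) = vdist L x y1 := by
        intro y1 y2 h12 h1 h2
        obtain ⟨z, hz1, hz2, hz3⟩ := vdist_geod h x y1 _ (by omega) rfl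
        refine ⟨z, hz1, ?_⟩
        have h4 := vdist_zero h hz1 y2
        have h5 := vdist_tri h (z * s4) y1 y2
        omega
      rcases he with he | he
      · obtain ⟨z, hz1, hz2⟩ := key (y * s4) y (s4_symm h y) he.symm (by omega)
        refine ⟨(z, true), ?_, ?_⟩
        · rw [vd_ft _ _ h, hz1, vdist_zero h hz1, vdist_s4 h]; rfl
        · rw [vd_tt _ _ h]; omega
      · obtain ⟨z, hz1, hz2⟩ := key y (y * s4) (vdist_s4 h y) he.symm (by omega)
        refine ⟨(z, true), ?_, ?_⟩
        · rw [vd_ft _ _ h, hz1, vdist_zero h hz1, vdist_s4 h]; rfl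
        · rw [vd_tt _ _ h]; omega
  · rw [vd_tf _ _ h] at hab
    have he := vdist_edge h (vdist_s4 h x) y
    rw [vdist_symm h y, vdist_symm h y] at he
    rcases he with he | he
    · refine ⟨(x, false), ?_, ?_⟩
      · rw [vd_tf _ _ h, vdist_self h, s4_symm h]; rfl
      · rw [vd_ff _ _ h]; omega
    · refine ⟨(x * s4, false), ?_, ?_⟩
      · rw [vd_tf _ _ h, vdist_self h, vdist_s4 h]; rfl
      · rw [vd_ff _ _ h]; omega
  · rw [vd_tt _ _ h] at hab
    have e1 := vdist_edge h (vdist_s4 h y) x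
    have e2 := vdist_edge h (vdist_s4 h y) (x * s4)
    have e3 := vdist_edge h (vdist_s4 h x) y
    have e4 := vdist_edge h (vdist_s4 h x) (y * s4)
    rw [vdist_symm h y, vdist_symm h y] at e3
    rw [vdist_symm h (y * s4), vdist_symm h (y * s4)] at e4
    have f1 := vdist_four h x (y * s4) (x * s4) y
    have f2 := vdist_four h x y (x * s4) (y * s4)
    rw [vdist_s4 h, s4_symm h, vdist_symm h (y * s4) (x * s4)] at f1
    rw [vdist_s4 h, vdist_s4 h, vdist_symm h y (x * s4)] at f2
    by_cases hx : max (vdist L x y) (vdist L x (y * s4)) <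
        max (vdist L (x * s4) y) (vdist L (x * s4) (y * s4))
    · refine ⟨(x, false), ?_, ?_⟩
      · rw [vd_tf _ _ h, vdist_self h, s4_symm h]; rfl
      · rw [vd_ft _ _ h]; omega
    · refine ⟨(x * s4, false), ?_, ?_⟩
      · rw [vd_tf _ _ h, vdist_self h, vdist_s4 h]; rfl
      · rw [vd_ft _ _ h]; omega

/-! ### stabilisers -/

theorem edge_stab (h : LenE L) (p g : E) (h1 : vdist L p (g * p) = 0)
    (h2 : vdist L (p * s4) (g * p * s4) ≤ 1) : p⁻¹ * g * p ∈ Subgroup.zpowers g1 := by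
  apply h.stab
  · unfold vdist at h1
    have : p⁻¹ * (g * p) = p⁻¹ * g * p := by group
    rw [this] at h1
    exact_mod_cast h1
  · have h3 := vdist_edge h (vdist_s4 h (g * p)) (p * s4)
    have h4 := vdist_edge h (vdist_s4 h p) (g * p)
    rw [vdist_symm h (g * p), vdist_symm h (g * p)] at h4
    have h5 : vdist L (p * s4) (g * p * s4) = 0 := by
      have := vdist_nonneg (L := L) (p * s4) (g * p * s4)
      omega
    unfold vdist at h5
    have : (p * s4)⁻¹ * (g * p * s4) = s4 * (p⁻¹ * g * p) * s4 := by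
      rw [mul_inv_rev, s4_inv]; group
    rw [this] at h5
    exact_mod_cast h5

/-- the stabiliser of an edge of the subdivided tree -/
theorem fix_edge (h : LenE L) (u v : E) (hab : vd L (u, false) (v, true) = 1) :
    ∃ p, vdist L u p = 0 ∧ (p = v ∨ p = v * s4) ∧
      ∀ g, vd L (u, false) (vact g (u, false)) = 0 → vd L (v, true) (vact g (v, true)) = 0 →
        p⁻¹ * g * p ∈ Subgroup.zpowers g1 := by
  rw [vd_ft _ _ h] at hab
  have he := vdist_edge h (vdist_s4 h v) u
  have hfix : ∀ g p, vdist L u p = 0 → vd L (u, false) (vact g (u, false)) = 0 →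
      vdist L p (g * p) = 0 := by
    intro g p hp hg
    have h1 : vd L (u, false) (g * u, false) = 0 := hg
    rw [vd_ff _ _ h] at h1
    have h2 := vdist_zero h hp (g * p)
    have h3 := vdist_tri h u (g * u) (g * p)
    rw [vdist_smul, hp] at h3
    have := vdist_nonneg (L := L) p (g * p)
    omega
  rcases he with he | he
  · refine ⟨v, by have := vdist_nonneg (L := L) u v; omega, Or.inl rfl, ?_⟩
    intro g hg1 hg2
    have h0 : vdist L u v = 0 := by have := vdist_nonneg (L := L) u v; omega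
    have h2 : vd L (v, true) (g * v, true) = 0 := hg2
    rw [vd_tt _ _ h] at h2
    exact edge_stab h v g (hfix g v h0 hg1) (by omega)
  · refine ⟨v * s4, by have := vdist_nonneg (L := L) u (v * s4); omega, Or.inr rfl, ?_⟩
    intro g hg1 hg2
    have h0 : vdist L u (v * s4) = 0 := by
      have := vdist_nonneg (L := L) u (v * s4); omega
    have h2 : vd L (v, true) (g * v, true) = 0 := hg2
    rw [vd_tt _ _ h] at h2
    refine edge_stab h (v * s4) g (hfix g _ h0 hg1) ?_
    have e1 : v * s4 * s4 = v := by rw [mul_assoc, s4_mul_self, mul_one]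
    have e2 : g * (v * s4) * s4 = g * v := by rw [mul_assoc, e1]
    rw [e1, e2]
    omega

theorem vd_S1 (h : LenE L) (x y : E) (a b : E × Bool) (hab : vd L a b = 1)
    (xa : vd L a (vact x a) = 0) (xb : vd L b (vact x b) = 0) (ya : vd L a (vact y a) = 0)
    (yb : vd L b (vact y b) = 0) : Commute x y := by
  have key : ∀ u v : E, vd L (u, false) (v, true) = 1 →
      vd L (u, false) (vact x (u, false)) = 0 → vd L (v, true) (vact x (v, true)) = 0 →
      vd L (u, false) (vact y (u, false)) = 0 → vd L (v, true) (vact y (v, true)) = 0 →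
      Commute x y := by
    intro u v huv h1 h2 h3 h4
    obtain ⟨p, _, _, hp⟩ := fix_edge h u v huv
    obtain ⟨k, hk⟩ := Subgroup.mem_zpowers_iff.1 (hp x h1 h2)
    obtain ⟨l, hl⟩ := Subgroup.mem_zpowers_iff.1 (hp y h3 h4)
    have hx : x = p * g1 ^ k * p⁻¹ := by rw [hk]; group
    have hy : y = p * g1 ^ l * p⁻¹ := by rw [hl]; group
    show x * y = y * x
    rw [hx, hy]
    have e1 : p * g1 ^ k * p⁻¹ * (p * g1 ^ l * p⁻¹) = p * (g1 ^ k * g1 ^ l) * p⁻¹ := by group
    have e2 : p * g1 ^ l * p⁻¹ * (p * g1 ^ k * p⁻¹) = p * (g1 ^ l * g1 ^ k) * p⁻¹ := by group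
    rw [e1, e2, ← zpow_add, ← zpow_add, add_comm]
  obtain ⟨u, i⟩ := a
  obtain ⟨v, j⟩ := b
  cases i <;> cases j
  · rw [vd_ff _ _ h] at hab; omega
  · exact key u v hab xa xb ya yb
  · rw [vd_symm h] at hab
    exact key v u hab xb xa yb ya
  · rw [vd_tt _ _ h] at hab; omega

/-- fixed points are convex -/
theorem fix_convex (h : LenE L) (c : E) (a b e : E × Bool) (hle : vd L a e + vd L e b ≤ vd L a b)
    (ca : vd L a (vact c a) = 0) (cb : vd L b (vact c b) = 0) : vd L e (vact c e) = 0 := by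
  have h1 := vd_tri h a (vact c a) (vact c e)
  rw [vd_act] at h1
  have h2 := vd_tri h b (vact c b) (vact c e)
  rw [vd_act] at h2
  have h3 := vd_four h a b e (vact c e)
  rw [vd_symm h b e] at h3 h2
  have := vd_nonneg h e (vact c e)
  omega

theorem L_g1 (h : LenE L) : L g1 = 0 := by
  have h1 : g1 = s3 * (s2 * (s1 * s6)) := by
    have h2 := prod_gen'
    have h3 : s4 * (s5 * s6) = s3 * (s2 * s1) := by
      calc s4 * (s5 * s6) = s3 * (s2 * (s1 * (s1 * (s2 * (s3 * (s4 * (s5 * s6))))))) := by simp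
        _ = s3 * (s2 * s1) := by rw [h2, mul_one]
    calc g1 = s4 * (s5 * s6) * s6 := by simp [g1, mul_assoc]
      _ = _ := by rw [h3]; simp [mul_assoc]
  rw [h1]
  have a1 := h.mul s3 (s2 * (s1 * s6))
  have a2 := h.mul s2 (s1 * s6)
  have a3 := h.mul s1 s6
  rw [h.hs3] at a1
  rw [h.hs2] at a2
  rw [h.hs1, h.hs6] at a3
  omega

theorem L_g1_zpow (h : LenE L) (k : ℤ) : L (g1 ^ k) = 0 := by
  have hn : ∀ n : ℕ, L (g1 ^ n) = 0 := by
    intro n
    induction n with
    | zero => rw [pow_zero]; exact h.one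
    | succ n ih =>
      rw [pow_succ]
      have := h.mul (g1 ^ n) g1
      rw [ih, L_g1 h] at this
      omega
  cases k with
  | ofNat n => rw [Int.ofNat_eq_natCast, zpow_natCast]; exact hn n
  | negSucc n => rw [zpow_negSucc, h.inv]; exact hn _

theorem s4_g1_zpow (k : ℤ) : s4 * g1 ^ k * s4 = g1 ^ (-k) := by
  have h1 : s4 * g1 * s4⁻¹ = g1⁻¹ := by
    rw [s4_inv]
    simp [g1]
  have h2 : (s4 * g1 * s4⁻¹) ^ k = s4 * g1 ^ k * s4⁻¹ := conj_zpow
  rw [h1, s4_inv, inv_zpow'] at h2
  exact h2.symm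

/-- the two edges at a vertex -/
theorem S2_aux (h : LenE L) (c u v v' : E) (h1 : vd L (u, false) (v, true) = 1)
    (h2 : vd L (u, false) (v', true) = 1) (h3 : 0 < vd L (v, true) (v', true))
    (cu : vd L (u, false) (vact c (u, false)) = 0) (cv : vd L (v, true) (vact c (v, true)) = 0)
    (cv' : vd L (v', true) (vact c (v', true)) = 0) : c = 1 := by
  obtain ⟨p, hp0, hpv, hp⟩ := fix_edge h u v h1
  obtain ⟨q, hq0, hqv, hq⟩ := fix_edge h u v' h2
  obtain ⟨k, hk⟩ := Subgroup.mem_zpowers_iff.1 (hp c cu cv)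
  obtain ⟨l, hl⟩ := Subgroup.mem_zpowers_iff.1 (hq c cu cv')
  by_cases hk0 : k = 0
  · rw [hk0, zpow_zero] at hk
    have : c = p * (p⁻¹ * c * p) * p⁻¹ := by group
    rw [this, ← hk]; group
  · exfalso
    have hqp : vdist L q p = 0 := by
      rw [← vdist_zero h hq0, hp0]
    have hL : L (q⁻¹ * p) = 0 := by
      unfold vdist at hqp
      exact_mod_cast hqp
    have hconj : (q⁻¹ * p) * g1 ^ k * (q⁻¹ * p)⁻¹ = g1 ^ l := by
      rw [hk, hl]; group
    obtain ⟨i, hi⟩ := Subgroup.mem_zpowers_iff.1 (h.mal _ k l hL hk0 hconj)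
    have d1 : vdist L p q = 0 := by rw [vdist_symm h, hqp]
    have d2 : vdist L (p * s4) (q * s4) = 0 := by
      unfold vdist
      have e : (p * s4)⁻¹ * (q * s4) = s4 * (q⁻¹ * p)⁻¹ * s4 := by
        rw [mul_inv_rev, s4_inv]; group
      rw [e, ← hi, ← zpow_neg, s4_g1_zpow, L_g1_zpow h]
      rfl
    have d3 : vdist L p (q * s4) = 1 := by rw [vdist_zero h d1, vdist_s4 h]
    have d4 : vdist L (p * s4) q = 1 := by
      rw [vdist_symm h, vdist_zero h hqp, vdist_s4 h]
    rw [vd_tt _ _ h] at h3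
    have e4 : ∀ w : E, w * s4 * s4 = w := fun w => by rw [mul_assoc, s4_mul_self, mul_one]
    rcases hpv with rfl | rfl <;> rcases hqv with rfl | rfl
    · omega
    · rw [e4] at d2 d3; omega
    · rw [e4] at d2 d4; omega
    · rw [e4] at d2 d3 d4
      rw [e4] at d2
      omega

theorem vd_S2 (h : LenE L) (c : E) (a b : E × Bool) (hab : 3 ≤ vd L a b)
    (ca : vd L a (vact c a) = 0) (cb : vd L b (vact c b) = 0) : c = 1 := by
  obtain ⟨c1, h1, h1'⟩ := vd_geod h a b (vd L a b - 1) (by omega) (by ring)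
  obtain ⟨c2, h2, h2'⟩ := vd_geod h c1 b (vd L a b - 2) (by omega) (by omega)
  obtain ⟨c3, h3, h3'⟩ := vd_geod h c2 b (vd L a b - 3) (by omega) (by omega)
  have t1 := vd_tri h a c1 c2
  have t2 := vd_tri h a c2 c3
  have t3 := vd_tri h a c2 b
  have t4 := vd_tri h c1 c3 b
  have f1 := fix_convex h c a b c1 (by omega) ca cb
  have f2 := fix_convex h c a b c2 (by omega) ca cb
  have f3 := fix_convex h c a b c3 (by omega) ca cb
  obtain ⟨u, i⟩ := a
  obtain ⟨u1, i1⟩ := c1
  obtain ⟨u2, i2⟩ := c2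
  obtain ⟨u3, i3⟩ := c3
  cases i1
  · cases i
    · rw [vd_ff _ _ h] at h1; omega
    · cases i2
      · rw [vd_ff _ _ h] at h2; omega
      · rw [vd_symm h] at h1
        exact S2_aux h c u1 u u2 h1 h2 (by omega) f1 ca f2
  · cases i2
    · cases i3
      · rw [vd_ff _ _ h] at h3; omega
      · rw [vd_symm h] at h2
        exact S2_aux h c u2 u1 u3 h2 h3 (by omega) f2 f1 f3
    · rw [vd_tt _ _ h] at h2; omega

/-- every half-turn has a centre -/
theorem exists_center (h : LenE L) (s : HT) : ∃ v : E × Bool, pd L (1, s.1) (emb v) = 0 := by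
  obtain ⟨i, x, hs⟩ := s.2
  have hb := pd_hb h s 1 x
  rw [mul_one] at hb
  have hsx : s.1 * x = x * gen i := by rw [hs]; group
  rw [hsx] at hb
  have key : ∀ v : E × Bool, pd L (x, x * gen i) (emb v) = 0 → pd L (1, s.1) (emb v) = 0 := by
    intro v hv
    have h1 := pd_tri h (1, s.1) (x, x * gen i) (emb v)
    have h2 := pd_nonneg h (1, s.1) (emb v)
    omega
  have hzero : L (gen i) = 0 → ∃ v : E × Bool, pd L (1, s.1) (emb v) = 0 := by
    intro hi
    refine ⟨(x, false), key _ ?_⟩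
    show pd L (x, x * gen i) (x, x) = 0
    have e : vdist L x (x * gen i) = 0 := by
      unfold vdist; rw [inv_mul_cancel_left, hi]; rfl
    unfold pd
    simp only [vdist_self h, vdist_symm h (x * gen i) x, e]
    rfl
  fin_cases i
  · exact hzero h.hs1
  · exact hzero h.hs2
  · exact hzero h.hs3
  · exact ⟨(x, true), hb⟩
  · refine ⟨(x, true), key _ ?_⟩
    show pd L (x, x * s5) (x, x * s4) = 0
    have e1 : vdist L x (x * s5) = 1 := by
      unfold vdist; rw [inv_mul_cancel_left, h.hs5]; rfl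
    have e2 : vdist L (x * s5) (x * s4) = 0 := by
      unfold vdist
      have : (x * s5)⁻¹ * (x * s4) = g1⁻¹ := by
        show (x * s5)⁻¹ * (x * s4) = (s4 * s5)⁻¹
        rw [mul_inv_rev, mul_inv_rev, s5_inv, s4_inv]; group
      rw [this, h.inv, L_g1 h]; rfl
    unfold pd
    simp only [vdist_self h, vdist_symm h (x * s5) x, e1, e2, vdist_s4 h]
    rfl
  · exact hzero h.hs6

end Pool.Agent.LR
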