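import Pool.Agent.LR.LenDefs

/-!
# LR/UForm: half-turns have exactly one fixed point

Write `d x y = L (x⁻¹ y)`; `four'` is the four point condition for `d`.

PROOF of `uform`. `s = gen i`.
(A) `L s = 0` (`i = 0, 1, 2, 5`). Then `L (s y) = L y =: n` (`mul`, `s s = 1`), and the claim is
`L (y⁻¹ s y) = 2 n`; `≤` is `mul`, `inv`. If `n = 0` done. Otherwise `y = w s₄ y'`, `L w = 0`, `L y' = n - 1`
(`geod`). Put `q = y⁻¹`, `v = y'⁻¹ = q w s₄`, `v' = q s w s₄`, `z = y⁻¹ s y`. Then `d 1 q = n`, `d 1 v = n - 1`,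
`d q v ≤ 1`, `d q v' ≤ 1`, `v'⁻¹ z = y'` so `d v' z = n - 1`, `d q z = L (s y) = n`, and
`d v v' = L (s₄ (w⁻¹ s w) s₄) ≥ 2`: it is even by `par` and if it were `0` then `w⁻¹ s w ∈ zpowers g₁` by `stab`,
which is impossible since `parity (w⁻¹ s w) ≠ 1` and `parity g₁ = 1`.
`four' 1 q v v'`: `n + 2 ≤ d 1 q + d v v' ≤ max (d 1 v + d q v') (d 1 v' + d q v)`, so `d 1 v' ≥ n + 1`.
`four' 1 v' q z`: `(n+1) + n ≤ d 1 v' + d q z ≤ max (d 1 q + d v' z) (d 1 z + d v' q)`, so `d 1 z ≥ 2 n`.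
(B) `L s = 1` (`i = 3, 4`). By `par` and `mul`, `L y` and `L (s y)` differ by exactly one. As
`(s y)⁻¹ s (s y) = y⁻¹ s y` we may assume `b = L (s y) = L y + 1 = a + 1`. With `z = y⁻¹ s y`:
`four' 1 (y⁻¹ s) y⁻¹ z`: `b + b ≤ max (a + a) (L z + 1)`, so `L z ≥ 2 b - 1`, and `L z ≤ a + b` by `mul`.
-/

namespace Pool.Agent.LR

variable {L : E → ℕ}

theorem LenE.four' (h : LenE L) (p q r t : E) :
    L (p⁻¹ * q) + L (r⁻¹ * t) ≤ max (L (p⁻¹ * r) + L (q⁻¹ * t)) (L (p⁻¹ * t) + L (q⁻¹ * r)) := by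
  have h1 := h.four (p⁻¹ * r) (p⁻¹ * t) (p⁻¹ * q)
  have e1 : (p⁻¹ * r)⁻¹ * (p⁻¹ * t) = r⁻¹ * t := by group
  have e2 : (p⁻¹ * r)⁻¹ * (p⁻¹ * q) = (q⁻¹ * r)⁻¹ := by group
  have e3 : (p⁻¹ * t)⁻¹ * (p⁻¹ * q) = (q⁻¹ * t)⁻¹ := by group
  rw [e1, e2, e3, h.inv, h.inv] at h1
  rw [max_comm, add_comm (L (p⁻¹ * q)), add_comm (L (p⁻¹ * r)), add_comm (L (p⁻¹ * t))]
  exact h1

theorem LenE.one (h : LenE L) : L 1 = 0 := by
  have h1 := h.mul s1 s1
  rw [s1_mul_self, h.hs1] at h1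
  omega

theorem LenE.gen_le (h : LenE L) (i : Fin 6) : L (gen i) ≤ 1 := by
  fin_cases i
  · exact (le_of_eq h.hs1).trans (by norm_num)
  · exact (le_of_eq h.hs2).trans (by norm_num)
  · exact (le_of_eq h.hs3).trans (by norm_num)
  · exact le_of_eq h.hs4
  · exact le_of_eq h.hs5
  · exact (le_of_eq h.hs6).trans (by norm_num)

theorem parity_gen (i : Fin 6) : parity (gen i) = Multiplicative.ofAdd 1 := by
  unfold parity
  rw [ehom_gen]

theorem parity_g1 : parity g1 = 1 := by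
  unfold g1 s4 s5
  rw [map_mul, parity_gen, parity_gen]
  decide

/-- half-turns fixing the base vertex -/
theorem LenE.uformA (h : LenE L) (i : Fin 6) (hi : L (gen i) = 0) (y : E) :
    L (y⁻¹ * gen i * y) = 2 * L y := by
  have hinv : (gen i)⁻¹ = gen i := gen_inv i
  have hss := gen_mul_self i
  generalize hs : gen i = s at *
  have hsy : L (s * y) = L y := by
    have h1 := h.mul s y
    have h2 := h.mul s (s * y)
    rw [← mul_assoc, hss, one_mul] at h2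
    omega
  have hup : L (y⁻¹ * s * y) ≤ 2 * L y := by
    have h1 := h.mul y⁻¹ (s * y)
    rw [h.inv, hsy] at h1
    rw [mul_assoc]
    omega
  rcases Nat.eq_zero_or_pos (L y) with h0 | h0
  · omega
  obtain ⟨m, hm⟩ : ∃ m, L y = m + 1 := ⟨L y - 1, by omega⟩
  obtain ⟨w, y', hw, hy, hy'⟩ := h.geod y m hm
  have hx : L (w⁻¹ * s * w) = 0 := by
    have h1 := h.mul (w⁻¹ * s) w
    have h2 := h.mul w⁻¹ s
    rw [h.inv] at h2
    omega
  -- the displacement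
  have hd : 2 ≤ L (s4 * (w⁻¹ * s * w) * s4) := by
    have p1 := h.par s4 (w⁻¹ * s * w)
    have p2 := h.par (s4 * (w⁻¹ * s * w)) s4
    rw [hx, h.hs4] at p1
    rw [h.hs4] at p2
    have hne : L (s4 * (w⁻¹ * s * w) * s4) ≠ 0 := by
      intro h3
      have h4 := h.stab _ hx h3
      rw [Subgroup.mem_zpowers_iff] at h4
      obtain ⟨k, hk⟩ := h4
      have h5 := congrArg parity hk
      rw [map_zpow, parity_g1, one_zpow, map_mul, map_mul, map_inv, ← hs, parity_gen,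
        mul_comm (parity w)⁻¹, mul_assoc, inv_mul_cancel, mul_one] at h5
      exact absurd h5 (by decide)
    rw [Nat.even_iff] at p1 p2
    omega
  have hv' : L y + 1 ≤ L (y⁻¹ * s * w * s4) := by
    have h1 := h.four' 1 y⁻¹ (y⁻¹ * w * s4) (y⁻¹ * s * w * s4)
    have e1 : (1 : E)⁻¹ * y⁻¹ = y⁻¹ := by group
    have e2 : (y⁻¹ * w * s4)⁻¹ * (y⁻¹ * s * w * s4) = s4 * (w⁻¹ * s * w) * s4 := by
      rw [mul_inv_rev, s4_inv]; group
    have e3 : (1 : E)⁻¹ * (y⁻¹ * w * s4) = y'⁻¹ := by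
      rw [hy, inv_one, one_mul]
      simp only [mul_inv_rev, s4_inv]
      have : y'⁻¹ * (s4 * w⁻¹) * w * s4 = y'⁻¹ * (s4 * s4) := by group
      rw [this, s4_mul_self, mul_one]
    have e4 : y⁻¹⁻¹ * (y⁻¹ * s * w * s4) = s * w * s4 := by group
    have e5 : (1 : E)⁻¹ * (y⁻¹ * s * w * s4) = y⁻¹ * s * w * s4 := by group
    have e6 : y⁻¹⁻¹ * (y⁻¹ * w * s4) = w * s4 := by group
    rw [e1, e2, e3, e4, e5, e6, h.inv, h.inv] at h1
    have b1 := h.mul (s * w) s4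
    have b2 := h.mul s w
    have b3 := h.mul w s4
    rw [h.hs4] at b1 b3
    rcases le_max_iff.1 h1 with h2 | h2 <;> omega
  have hz : 2 * L y ≤ L (y⁻¹ * s * y) := by
    have h1 := h.four' 1 (y⁻¹ * s * w * s4) y⁻¹ (y⁻¹ * s * y)
    have e1 : (1 : E)⁻¹ * (y⁻¹ * s * w * s4) = y⁻¹ * s * w * s4 := by group
    have e2 : y⁻¹⁻¹ * (y⁻¹ * s * y) = s * y := by group
    have e3 : (1 : E)⁻¹ * y⁻¹ = y⁻¹ := by group
    have e4 : (y⁻¹ * s * w * s4)⁻¹ * (y⁻¹ * s * y) = y' := by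
      have : (y⁻¹ * s * w * s4)⁻¹ * (y⁻¹ * s * y) = s4⁻¹ * (w⁻¹ * y) := by group
      rw [this, hy, s4_inv]
      have : s4 * (w⁻¹ * (w * s4 * y')) = s4 * s4 * y' := by group
      rw [this, s4_mul_self, one_mul]
    have e5 : (1 : E)⁻¹ * (y⁻¹ * s * y) = y⁻¹ * s * y := by group
    have e6 : (y⁻¹ * s * w * s4)⁻¹ * y⁻¹ = (s * w * s4)⁻¹ := by group
    rw [e1, e2, e3, e4, e5, e6, h.inv, h.inv] at h1
    have b1 := h.mul (s * w) s4
    have b2 := h.mul s w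
    rw [h.hs4] at b1
    rcases le_max_iff.1 h1 with h2 | h2 <;> omega
  omega

/-- half-turns moving the base vertex, first case -/
theorem LenE.uformB1 (h : LenE L) {s : E} (hss : s * s = 1) (hs : L s = 1) (y : E)
    (hy : L (s * y) = L y + 1) : L (y⁻¹ * s * y) + 1 = 2 * (L y + 1) := by
  have hinv : s⁻¹ = s := inv_eq_of_mul_eq_one_left hss
  have h1 := h.four' 1 (y⁻¹ * s) y⁻¹ (y⁻¹ * s * y)
  have e1 : (1 : E)⁻¹ * (y⁻¹ * s) = (s * y)⁻¹ := by
    rw [mul_inv_rev, hinv]; group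
  have e2 : y⁻¹⁻¹ * (y⁻¹ * s * y) = s * y := by group
  have e3 : (1 : E)⁻¹ * y⁻¹ = y⁻¹ := by group
  have e4 : (y⁻¹ * s)⁻¹ * (y⁻¹ * s * y) = y := by group
  have e5 : (1 : E)⁻¹ * (y⁻¹ * s * y) = y⁻¹ * s * y := by group
  have e6 : (y⁻¹ * s)⁻¹ * y⁻¹ = s⁻¹ := by group
  rw [e1, e2, e3, e4, e5, e6, h.inv, h.inv, h.inv] at h1
  have h2 := h.mul y⁻¹ (s * y)
  rw [← mul_assoc, h.inv] at h2
  rcases le_max_iff.1 h1 with h3 | h3 <;> omega

/-- half-turns moving the base vertex -/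
theorem LenE.uformB (h : LenE L) {s : E} (hss : s * s = 1) (hs : L s = 1) (y : E) :
    L (y⁻¹ * s * y) + 1 = 2 * max (L y) (L (s * y)) := by
  have h1 := h.mul s y
  have h2 := h.mul s (s * y)
  rw [← mul_assoc, hss, one_mul] at h2
  have h3 := h.par s y
  rw [Nat.even_iff] at h3
  have h4 : L (s * y) = L y + 1 ∨ L y = L (s * y) + 1 := by omega
  rcases h4 with h4 | h4
  · rw [h.uformB1 hss hs y h4, h4, max_eq_right (by omega)]
  · have h5 := h.uformB1 hss hs (s * y) (by rw [← mul_assoc, hss, one_mul, h4])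
    have hinv : s⁻¹ = s := inv_eq_of_mul_eq_one_left hss
    have e1 : (s * y)⁻¹ * s * (s * y) = y⁻¹ * s * y := by
      have : (s * y)⁻¹ * s * (s * y) = y⁻¹ * (s⁻¹ * s * s) * y := by group
      rw [this, inv_mul_cancel, one_mul]
    rw [e1] at h5
    rw [h5, h4, max_eq_left (by omega)]

theorem LenE.uform (h : LenE L) (i : Fin 6) (y : E) :
    L (y⁻¹ * gen i * y) + L (gen i) = 2 * max (L y) (L (gen i * y)) := by
  have hle := h.gen_le i
  rcases Nat.eq_zero_or_pos (L (gen i)) with h0 | h0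
  · have h1 := h.uformA i h0 y
    have h2 : L (gen i * y) = L y := by
      have h3 := h.mul (gen i) y
      have h4 := h.mul (gen i) (gen i * y)
      rw [← mul_assoc, gen_mul_self, one_mul] at h4
      omega
    rw [h1, h0, h2, max_self, add_zero]
  · have h1 : L (gen i) = 1 := by omega
    rw [h1]
    exact h.uformB (gen_mul_self i) h1 y

end Pool.Agent.LR
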