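import Pool.Agent.LR.Words

/-!
# LR/Values: the values of `K`, determinacy, discreteness, stabilisers

PROOFS. Every half-turn is `g • hi`; `h6` can be replaced by `h1` (`K h1 h6 = 0`), `h3` by `h2`, `h5` by `h4` (with the same
`g`; use invariance and `congr`). So (`cases`): for every `s : HT`, either
(v) there is a reduced `w` with `K s (wval w • h1) = 0` for all `Struct K k1 k2` (`exists_red`, `K h1 (z • h1) = 0`), or
(m) there are `t`, `w`, `z` with `Red ((z, t) :: w)` and `K s ((wval w * z) • mm t) = 0` for all such `K` (`exists_red_m`).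
By `path`, `path_m`, `wsum_eq`: `K h1 s = 2 N₁ k₁ + 2 N₂ k₂` in case (v), and the same plus `kk t` in case (m).
* `value_h1`: immediate.
* `disc`: `K (g • h1) t = K h1 (g⁻¹ • t)`; for `g • h2`: `midpoint2` and `value_h1` (the maximum is one of the two
  expressions; subtract `k₂`), for `g • h4`: `midpoint1`.
* `det`: `K h1 t = K' h1 t` by `value_h1`, then `midpoint2`, `midpoint1` give `K h2 t = K' h2 t`, `K h4 t = K' h4 t`, and invariance.
* `class2`: `k₂ = η k₁`, `η` irrational. Case (v): `2 N₁ + 2 N₂ η = η`, impossible. Case (m), `t = false`: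
  `2 N₁ + 1 + 2 N₂ η = η`, impossible. Case (m), `t = true`: `N₁ = N₂ = 0`, so `w = []` and `z ∈ PX`.
  `class1` in the same way: (v) `2 N₁ + 2 N₂ η = 1`, (m) `t = true`: `2 N₁ + (2 N₂ + 1) η = 1` are impossible.
* `stab_v`: `g = wval w * z`, `K h1 (g • h1) = K h1 (wval w • h1) = 2 wsum w = 0` (as `z • h1 ~ h1`), so `w = []`.
* `stab_2`: `g = wval w * z`, and `K h1 (g • h2) = K h1 h2 = k₂`. If `Red ((z, true) :: w)`: `path_m` gives `wsum w = 0`, `w = []`,
  `g = z ∈ PX`, and `K h2 (z • h2) = 0 ≠ 2 k₂` gives `z ∈ zpowers g₂` by `dir22`. Otherwise `w = (z', true) :: w'`,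
  `z ∈ zpowers g₂`, `g • h2 ~ (wval w' * z') • h2`, so `w' = []` by `path_m`, and `z' ∈ zpowers g₂` by `dir22` as before, so
  `g = z' * s₂ * z = (z' * z⁻¹) * s₂`. `stab_1` in the same way.
* `exists_min_value`: the values `≤ R = K (f i0) (g i0)` are `N₁ k₁ + N₂ k₂` with integers `-1 ≤ N₁, N₂ ≤ M` (`disc`), so
  there are finitely many of them; take the index of the smallest value `≤ R`.
-/

namespace Pool.Agent.LR

open Real

variable {K K' : HT → HT → ℝ} {k1 k2 : ℝ}

theorem mm_true : mm true = h2 := rfl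
theorem mm_false : mm false = h4 := rfl

/-- every half-turn is a translate of a generator -/
theorem ht_form (s : HT) : ∃ g : E, s = g • h1 ∨ s = g • h2 ∨ s = g • h3 ∨ s = g • h4 ∨
    s = g • h5 ∨ s = g • h6 := by
  obtain ⟨s, i, x, hx⟩ := s
  refine ⟨x, ?_⟩
  fin_cases i
  · exact Or.inl (Subtype.ext hx)
  · exact Or.inr (Or.inl (Subtype.ext hx))
  · exact Or.inr (Or.inr (Or.inl (Subtype.ext hx)))
  · exact Or.inr (Or.inr (Or.inr (Or.inl (Subtype.ext hx))))
  · exact Or.inr (Or.inr (Or.inr (Or.inr (Or.inl (Subtype.ext hx)))))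
  · exact Or.inr (Or.inr (Or.inr (Or.inr (Or.inr (Subtype.ext hx)))))

theorem Struct.PX_h1 (h : Struct K k1 k2) {z : E} (hz : z ∈ PX) (x : E) :
    K ((x * z) • h1) (x • h1) = 0 := by
  rw [mul_smul, h.good.inv, h.good.symm]
  exact h.hPX z hz

theorem ht_cases (s : HT) :
    (∃ w : List (E × Bool), Red w ∧ ∀ (K : HT → HT → ℝ) (k1 k2 : ℝ), Struct K k1 k2 →
      K s (wval w • h1) = 0) ∨
    (∃ (t : Bool) (w : List (E × Bool)) (z : E), Red ((z, t) :: w) ∧
      ∀ (K : HT → HT → ℝ) (k1 k2 : ℝ), Struct K k1 k2 → K s ((wval w * z) • mm t) = 0) := by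
  obtain ⟨g, hg⟩ := ht_form s
  have hv : ∀ s' : HT, (∀ (K : HT → HT → ℝ) (k1 k2 : ℝ), Struct K k1 k2 → K s' (g • h1) = 0) →
      (∃ w : List (E × Bool), Red w ∧ ∀ (K : HT → HT → ℝ) (k1 k2 : ℝ), Struct K k1 k2 →
      K s' (wval w • h1) = 0) := by
    intro s' hs'
    obtain ⟨w, z, hw, hz, rfl⟩ := exists_red g
    refine ⟨w, hw, fun K k1 k2 h => ?_⟩
    rw [h.good.congr_left (hs' K k1 k2 h)]
    exact h.PX_h1 hz _
  have hm : ∀ (s' : HT) (t : Bool), (∀ (K : HT → HT → ℝ) (k1 k2 : ℝ), Struct K k1 k2 →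
      K s' (g • mm t) = 0) →
      (∃ (t : Bool) (w : List (E × Bool)) (z : E), Red ((z, t) :: w) ∧
      ∀ (K : HT → HT → ℝ) (k1 k2 : ℝ), Struct K k1 k2 → K s' ((wval w * z) • mm t) = 0) := by
    intro s' t hs'
    obtain ⟨w, z, hw, hz⟩ := exists_red_m g t
    refine ⟨t, w, z, hw, fun K k1 k2 h => ?_⟩
    rw [h.good.congr_left (hs' K k1 k2 h)]
    exact hz K k1 k2 h
  rcases hg with rfl | rfl | rfl | rfl | rfl | rfl
  · exact Or.inl (hv _ fun K k1 k2 h => h.good.self _)
  · exact Or.inr (hm _ true fun K k1 k2 h => h.good.self _)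
  · refine Or.inr (hm _ true fun K k1 k2 h => ?_)
    rw [mm_true, h.good.inv, h.good.symm]
    exact h.h23
  · exact Or.inr (hm _ false fun K k1 k2 h => h.good.self _)
  · refine Or.inr (hm _ false fun K k1 k2 h => ?_)
    rw [mm_false, h.good.inv, h.good.symm]
    exact h.h45
  · refine Or.inl (hv _ fun K k1 k2 h => ?_)
    rw [h.good.inv, h.good.symm]
    exact h.h16

theorem value_v (h : Struct K k1 k2) (hk1 : 0 < k1) (hk2 : 0 < k2) {s : HT}
    {w : List (E × Bool)} (hw : Red w) (hs : K s (wval w • h1) = 0) :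
    K h1 s = 2 * ((w.countP (fun p => !p.2) : ℕ) * k1 + (w.countP (fun p => p.2) : ℕ) * k2) := by
  rw [h.good.congr_right hs, path h hk1 hk2 w hw, wsum_eq]

theorem value_m (h : Struct K k1 k2) (hk1 : 0 < k1) (hk2 : 0 < k2) {s : HT} {t : Bool}
    {w : List (E × Bool)} {z : E} (hw : Red ((z, t) :: w)) (hs : K s ((wval w * z) • mm t) = 0) :
    K h1 s = 2 * ((w.countP (fun p => !p.2) : ℕ) * k1 + (w.countP (fun p => p.2) : ℕ) * k2) +
      kk k1 k2 t := by
  rw [h.good.congr_right hs, path_m h hk1 hk2 w z t hw, wsum_eq]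

theorem value_h1 (s : HT) : ∃ N1 N2 : ℕ, ∀ (K : HT → HT → ℝ) (k1 k2 : ℝ), 0 < k1 → 0 < k2 →
    Struct K k1 k2 → K h1 s = N1 * k1 + N2 * k2 := by
  rcases ht_cases s with ⟨w, hw, hs⟩ | ⟨t, w, z, hw, hs⟩
  · refine ⟨2 * w.countP (fun p => !p.2), 2 * w.countP (fun p => p.2), fun K k1 k2 hk1 hk2 h => ?_⟩
    rw [value_v h hk1 hk2 hw (hs K k1 k2 h)]
    push_cast
    ring
  · cases t
    · refine ⟨2 * w.countP (fun p => !p.2) + 1, 2 * w.countP (fun p => p.2),
        fun K k1 k2 hk1 hk2 h => ?_⟩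
      rw [value_m h hk1 hk2 hw (hs K k1 k2 h)]
      have : kk k1 k2 false = k1 := rfl
      rw [this]
      push_cast
      ring
    · refine ⟨2 * w.countP (fun p => !p.2), 2 * w.countP (fun p => p.2) + 1,
        fun K k1 k2 hk1 hk2 h => ?_⟩
      rw [value_m h hk1 hk2 hw (hs K k1 k2 h)]
      have : kk k1 k2 true = k2 := rfl
      rw [this]
      push_cast
      ring

theorem Struct.smul_left (h : Struct K k1 k2) (g : E) (a t : HT) :
    K (g • a) t = K a (g⁻¹ • t) := by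
  rw [← h.good.inv g⁻¹ (g • a) t, inv_smul_smul]

theorem disc_h1 (h : Struct K k1 k2) (hk1 : 0 < k1) (hk2 : 0 < k2) (t : HT) :
    ∃ N1 N2 : ℤ, -1 ≤ N1 ∧ -1 ≤ N2 ∧ K h1 t = N1 * k1 + N2 * k2 := by
  obtain ⟨N1, N2, hN⟩ := value_h1 t
  exact ⟨N1, N2, by omega, by omega, by rw [hN K k1 k2 hk1 hk2 h]; push_cast; ring⟩

theorem disc_h2 (h : Struct K k1 k2) (hk1 : 0 < k1) (hk2 : 0 < k2) (t : HT) :
    ∃ N1 N2 : ℤ, -1 ≤ N1 ∧ -1 ≤ N2 ∧ K h2 t = N1 * k1 + N2 * k2 := by
  obtain ⟨N1, N2, hN⟩ := value_h1 t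
  obtain ⟨M1, M2, hM⟩ := value_h1 (s2 • t)
  rcases max_choice (K h1 t) (K h1 (s2 • t)) with h0 | h0
  · refine ⟨N1, N2 - 1, by omega, by omega, ?_⟩
    rw [h.midpoint2, h0, hN K k1 k2 hk1 hk2 h]
    push_cast
    ring
  · refine ⟨M1, M2 - 1, by omega, by omega, ?_⟩
    rw [h.midpoint2, h0, hM K k1 k2 hk1 hk2 h]
    push_cast
    ring

theorem disc_h4 (h : Struct K k1 k2) (hk1 : 0 < k1) (hk2 : 0 < k2) (t : HT) :
    ∃ N1 N2 : ℤ, -1 ≤ N1 ∧ -1 ≤ N2 ∧ K h4 t = N1 * k1 + N2 * k2 := by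
  obtain ⟨N1, N2, hN⟩ := value_h1 t
  obtain ⟨M1, M2, hM⟩ := value_h1 (s4 • t)
  rcases max_choice (K h1 t) (K h1 (s4 • t)) with h0 | h0
  · refine ⟨N1 - 1, N2, by omega, by omega, ?_⟩
    rw [h.midpoint1, h0, hN K k1 k2 hk1 hk2 h]
    push_cast
    ring
  · refine ⟨M1 - 1, M2, by omega, by omega, ?_⟩
    rw [h.midpoint1, h0, hM K k1 k2 hk1 hk2 h]
    push_cast
    ring

theorem disc (h : Struct K k1 k2) (hk1 : 0 < k1) (hk2 : 0 < k2) (s t : HT) :
    ∃ N1 N2 : ℤ, -1 ≤ N1 ∧ -1 ≤ N2 ∧ K s t = N1 * k1 + N2 * k2 := by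
  obtain ⟨g, hg⟩ := ht_form s
  rcases hg with rfl | rfl | rfl | rfl | rfl | rfl
  · rw [h.smul_left]
    exact disc_h1 h hk1 hk2 _
  · rw [h.smul_left]
    exact disc_h2 h hk1 hk2 _
  · rw [h.smul_left, ← h.good.congr_left h.h23]
    exact disc_h2 h hk1 hk2 _
  · rw [h.smul_left]
    exact disc_h4 h hk1 hk2 _
  · rw [h.smul_left, ← h.good.congr_left h.h45]
    exact disc_h4 h hk1 hk2 _
  · rw [h.smul_left, ← h.good.congr_left h.h16]
    exact disc_h1 h hk1 hk2 _

theorem det (h : Struct K k1 k2) (h' : Struct K' k1 k2) (hk1 : 0 < k1) (hk2 : 0 < k2) (s t : HT) :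
    K s t = K' s t := by
  have e1 : ∀ t, K h1 t = K' h1 t := by
    intro t
    obtain ⟨N1, N2, hN⟩ := value_h1 t
    rw [hN K k1 k2 hk1 hk2 h, hN K' k1 k2 hk1 hk2 h']
  have e2 : ∀ t, K h2 t = K' h2 t := by
    intro t
    rw [h.midpoint2, h'.midpoint2, e1, e1]
  have e4 : ∀ t, K h4 t = K' h4 t := by
    intro t
    rw [h.midpoint1, h'.midpoint1, e1, e1]
  obtain ⟨g, hg⟩ := ht_form s
  rcases hg with rfl | rfl | rfl | rfl | rfl | rfl
  · rw [h.smul_left, h'.smul_left, e1]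
  · rw [h.smul_left, h'.smul_left, e2]
  · rw [h.smul_left, h'.smul_left, ← h.good.congr_left h.h23, ← h'.good.congr_left h'.h23, e2]
  · rw [h.smul_left, h'.smul_left, e4]
  · rw [h.smul_left, h'.smul_left, ← h.good.congr_left h.h45, ← h'.good.congr_left h'.h45, e4]
  · rw [h.smul_left, h'.smul_left, ← h.good.congr_left h.h16, ← h'.good.congr_left h'.h16, e1]

/-- the golden ratio satisfies no linear equation with integer coefficients -/
theorem golden_lin {a b : ℤ} (h : (a : ℝ) * goldenRatio = b) : a = 0 := by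
  by_contra ha
  have ha' : (a : ℝ) ≠ 0 := by exact_mod_cast ha
  have h1 : goldenRatio = ((b / a : ℚ) : ℝ) := by
    push_cast
    rw [eq_div_iff ha', mul_comm]
    exact h
  have h2 := Real.goldenRatio_irrational
  rw [h1] at h2
  exact (Rat.not_irrational _) h2

theorem eq_nil_of_count {w : List (E × Bool)} (h1 : w.countP (fun p => !p.2) = 0)
    (h2 : w.countP (fun p => p.2) = 0) : w = [] := by
  cases w with
  | nil => rfl
  | cons p w =>
    exfalso
    rw [List.countP_eq_zero] at h1 h2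
    have a1 := h1 p List.mem_cons_self
    have a2 := h2 p List.mem_cons_self
    cases hp : p.2 <;> simp [hp] at a1 a2

theorem red_singleton {z : E} {t : Bool} (h : Red ((z, t) :: [])) : z ∈ PX := h

theorem class2 (h : Struct K k1 (goldenRatio * k1)) (hk1 : 0 < k1) {s : HT}
    (hs : K h1 s = goldenRatio * k1) : ∃ z ∈ PX, K s (z • h2) = 0 := by
  have hk2 : 0 < goldenRatio * k1 := mul_pos Real.goldenRatio_pos hk1
  rcases ht_cases s with ⟨w, hw, hs'⟩ | ⟨t, w, z, hw, hs'⟩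
  · exfalso
    have h1 := value_v h hk1 hk2 hw (hs' _ _ _ h)
    set N1 := w.countP (fun p => !p.2)
    set N2 := w.countP (fun p => p.2)
    rw [hs] at h1
    have h2 : (((2 * N2 - 1 : ℤ)) : ℝ) * goldenRatio = ((-2 * N1 : ℤ) : ℝ) := by
      apply mul_right_cancel₀ hk1.ne'
      push_cast
      linear_combination -h1
    have := golden_lin h2
    omega
  · cases t
    · exfalso
      have h1 := value_m h hk1 hk2 hw (hs' _ _ _ h)
      set N1 := w.countP (fun p => !p.2)
      set N2 := w.countP (fun p => p.2)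
      have h0 : kk k1 (goldenRatio * k1) false = k1 := rfl
      rw [hs, h0] at h1
      have h2 : (((2 * N2 - 1 : ℤ)) : ℝ) * goldenRatio = ((-2 * N1 - 1 : ℤ) : ℝ) := by
        apply mul_right_cancel₀ hk1.ne'
        push_cast
        linear_combination -h1
      have := golden_lin h2
      omega
    · have h1 := value_m h hk1 hk2 hw (hs' _ _ _ h)
      have h0 : kk k1 (goldenRatio * k1) true = goldenRatio * k1 := rfl
      rw [hs, h0] at h1
      have a1 : (0 : ℝ) ≤ (w.countP (fun p => !p.2) : ℕ) * k1 := by positivity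
      have a2 : (0 : ℝ) ≤ (w.countP (fun p => p.2) : ℕ) * (goldenRatio * k1) :=
        mul_nonneg (Nat.cast_nonneg _) hk2.le
      have b1 : ((w.countP (fun p => !p.2) : ℕ) : ℝ) * k1 = 0 := by linarith
      have b2 : ((w.countP (fun p => p.2) : ℕ) : ℝ) * (goldenRatio * k1) = 0 := by linarith
      have c1 : w.countP (fun p => !p.2) = 0 := by
        rcases mul_eq_zero.1 b1 with h | h
        · exact_mod_cast h
        · exact absurd h hk1.ne'
      have c2 : w.countP (fun p => p.2) = 0 := by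
        rcases mul_eq_zero.1 b2 with h | h
        · exact_mod_cast h
        · exact absurd h hk2.ne'
      have hw0 : w = [] := eq_nil_of_count c1 c2
      subst hw0
      refine ⟨z, red_singleton hw, ?_⟩
      have := hs' _ _ _ h
      rwa [mm_true, wval, one_mul] at this

theorem class1 (h : Struct K k1 (goldenRatio * k1)) (hk1 : 0 < k1) {s : HT} (hs : K h1 s = k1) :
    ∃ z ∈ PX, K s (z • h4) = 0 := by
  have hk2 : 0 < goldenRatio * k1 := mul_pos Real.goldenRatio_pos hk1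
  rcases ht_cases s with ⟨w, hw, hs'⟩ | ⟨t, w, z, hw, hs'⟩
  · exfalso
    have h1 := value_v h hk1 hk2 hw (hs' _ _ _ h)
    set N1 := w.countP (fun p => !p.2)
    set N2 := w.countP (fun p => p.2)
    rw [hs] at h1
    have h2 : (((2 * N2 : ℤ)) : ℝ) * goldenRatio = ((1 - 2 * N1 : ℤ) : ℝ) := by
      apply mul_right_cancel₀ hk1.ne'
      push_cast
      linear_combination -h1
    have h3 := golden_lin h2
    rw [h3] at h2
    have h4 : ((1 - 2 * N1 : ℤ) : ℝ) = 0 := by rw [← h2]; simp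
    have h5 : (1 - 2 * N1 : ℤ) = 0 := by exact_mod_cast h4
    omega
  · cases t
    · have h1 := value_m h hk1 hk2 hw (hs' _ _ _ h)
      have h0 : kk k1 (goldenRatio * k1) false = k1 := rfl
      rw [hs, h0] at h1
      have a1 : (0 : ℝ) ≤ (w.countP (fun p => !p.2) : ℕ) * k1 := by positivity
      have a2 : (0 : ℝ) ≤ (w.countP (fun p => p.2) : ℕ) * (goldenRatio * k1) :=
        mul_nonneg (Nat.cast_nonneg _) hk2.le
      have b1 : ((w.countP (fun p => !p.2) : ℕ) : ℝ) * k1 = 0 := by linarith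
      have b2 : ((w.countP (fun p => p.2) : ℕ) : ℝ) * (goldenRatio * k1) = 0 := by linarith
      have c1 : w.countP (fun p => !p.2) = 0 := by
        rcases mul_eq_zero.1 b1 with h | h
        · exact_mod_cast h
        · exact absurd h hk1.ne'
      have c2 : w.countP (fun p => p.2) = 0 := by
        rcases mul_eq_zero.1 b2 with h | h
        · exact_mod_cast h
        · exact absurd h hk2.ne'
      have hw0 : w = [] := eq_nil_of_count c1 c2
      subst hw0
      refine ⟨z, red_singleton hw, ?_⟩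
      have := hs' _ _ _ h
      rwa [mm_false, wval, one_mul] at this
    · exfalso
      have h1 := value_m h hk1 hk2 hw (hs' _ _ _ h)
      set N1 := w.countP (fun p => !p.2)
      set N2 := w.countP (fun p => p.2)
      have h0 : kk k1 (goldenRatio * k1) true = goldenRatio * k1 := rfl
      rw [hs, h0] at h1
      have h2 : (((2 * N2 + 1 : ℤ)) : ℝ) * goldenRatio = ((1 - 2 * N1 : ℤ) : ℝ) := by
        apply mul_right_cancel₀ hk1.ne'
        push_cast
        linear_combination -h1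
      have := golden_lin h2
      omega

/-- a word of length zero is empty -/
theorem eq_nil_of_wsum (hk1 : 0 < k1) (hk2 : 0 < k2) {w : List (E × Bool)}
    (h : wsum k1 k2 w = 0) : w = [] := by
  rw [wsum_eq] at h
  have a1 : (0 : ℝ) ≤ (w.countP (fun p => !p.2) : ℕ) * k1 := by positivity
  have a2 : (0 : ℝ) ≤ (w.countP (fun p => p.2) : ℕ) * k2 := by positivity
  have b1 : ((w.countP (fun p => !p.2) : ℕ) : ℝ) * k1 = 0 := by linarith
  have b2 : ((w.countP (fun p => p.2) : ℕ) : ℝ) * k2 = 0 := by linarith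
  apply eq_nil_of_count
  · rcases mul_eq_zero.1 b1 with h | h
    · exact_mod_cast h
    · exact absurd h hk1.ne'
  · rcases mul_eq_zero.1 b2 with h | h
    · exact_mod_cast h
    · exact absurd h hk2.ne'

theorem stab_v (h : Struct K k1 k2) (hk1 : 0 < k1) (hk2 : 0 < k2) {g : E} (hg : K h1 (g • h1) = 0) :
    g ∈ PX := by
  obtain ⟨w, z, hw, hz, rfl⟩ := exists_red g
  have h1 := path h hk1 hk2 w hw
  rw [← h.good.congr_right (h.PX_h1 hz (wval w)), hg] at h1
  have hw0 : w = [] := eq_nil_of_wsum hk1 hk2 (by linarith)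
  subst hw0
  rwa [wval, one_mul]

/-- the two stabilisers of edge midpoints together -/
theorem stab_m (h : Struct K k1 k2) (hk1 : 0 < k1) (hk2 : 0 < k2) (t : Bool)
    (hm : K h1 (mm t) = kk k1 k2 t)
    (hsame : ∀ z ∈ Subgroup.zpowers (gg t), K (mm t) (z • mm t) = 0)
    (hdir : ∀ z ∈ PX, z ∉ Subgroup.zpowers (gg t) → K (mm t) (z • mm t) ≠ 0)
    (hss : ss t • mm t = mm t) (hconj : ∀ k : ℤ, ss t * gg t ^ k = gg t ^ (-k) * ss t)
    {g : E} (hg : K (mm t) (g • mm t) = 0) :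
    ∃ k : ℤ, g = gg t ^ k ∨ g = gg t ^ k * ss t := by
  obtain ⟨w, z, hw, hz, rfl⟩ := exists_red g
  have hkk : K h1 ((wval w * z) • mm t) = kk k1 k2 t := by
    rw [← h.good.congr_right hg, hm]
  by_cases hred : Red ((z, t) :: w)
  · have h1 := path_m h hk1 hk2 w z t hred
    rw [hkk] at h1
    have hw0 : w = [] := eq_nil_of_wsum hk1 hk2 (by linarith)
    subst hw0
    rw [wval, one_mul] at hg ⊢
    have hz' : z ∈ Subgroup.zpowers (gg t) := by
      by_contra hz'
      exact hdir z hz hz' hg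
    obtain ⟨k, hk⟩ := Subgroup.mem_zpowers_iff.1 hz'
    exact ⟨k, Or.inl hk.symm⟩
  · cases w with
    | nil => exact absurd (show Red ((z, t) :: []) from hz) hred
    | cons p w' =>
      obtain ⟨z', t'⟩ := p
      have h2 : t = t' ∧ z ∈ Subgroup.zpowers (gg t) := by
        by_contra hcon
        apply hred
        refine ⟨hz, fun htt hzz => hcon ⟨htt, hzz⟩, hw⟩
      obtain ⟨rfl, hzz⟩ := h2
      have e1 : (wval ((z', t) :: w') * z) • mm t = (wval w' * (z' * ss t)) • (z • mm t) := by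
        rw [wval, mul_smul]
      have e2 : (wval w' * z') • mm t = (wval w' * (z' * ss t)) • mm t := by
        rw [← mul_assoc, mul_smul (wval w' * z') (ss t), hss]
      have e3 : K ((wval w' * z') • mm t) ((wval ((z', t) :: w') * z) • mm t) = 0 := by
        rw [e1, e2, h.good.inv]
        exact hsame z hzz
      have h3 : K h1 ((wval w' * z') • mm t) = kk k1 k2 t := by
        rw [h.good.congr_right e3, hkk]
      have h4 := path_m h hk1 hk2 w' z' t hw
      rw [h3] at h4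
      have hw0 : w' = [] := eq_nil_of_wsum hk1 hk2 (by linarith)
      subst hw0
      have hz'P : z' ∈ PX := red_singleton hw
      have h5 : K (mm t) (z' • mm t) = 0 := by
        rw [h.good.congr_right (show K (z' • mm t) ((wval ((z', t) :: []) * z) • mm t) = 0 by
          rw [wval, one_mul] at e3
          exact e3)]
        exact hg
      have h6 : z' ∈ Subgroup.zpowers (gg t) := by
        by_contra hz''
        exact hdir z' hz'P hz'' h5
      obtain ⟨k, hk⟩ := Subgroup.mem_zpowers_iff.1 hzz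
      obtain ⟨k', hk'⟩ := Subgroup.mem_zpowers_iff.1 h6
      refine ⟨k' - k, Or.inr ?_⟩
      rw [wval, wval, one_mul, ← hk, ← hk', mul_assoc, hconj k, ← mul_assoc, ← zpow_add, sub_eq_add_neg]

theorem smul_self_h2 : s2 • h2 = h2 := Subtype.ext (by
  show s2 * s2 * s2⁻¹ = s2
  simp)

theorem smul_self_h4 : s4 • h4 = h4 := Subtype.ext (by
  show s4 * s4 * s4⁻¹ = s4
  simp)

theorem stab_2 (h : Struct K k1 k2) (hk1 : 0 < k1) (hk2 : 0 < k2) {g : E} (hg : K h2 (g • h2) = 0) :
    ∃ k : ℤ, g = g2 ^ k ∨ g = g2 ^ k * s2 := by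
  refine stab_m h hk1 hk2 true h.hk2 (fun z hz => h.same2 hz) (fun z hz hz' => ?_) smul_self_h2
    (fun k => ?_) hg
  · rw [mm_true, h.dir22 hz hz']
    positivity
  · show s2 * g2 ^ k = g2 ^ (-k) * s2
    rw [← s2_conj_g2 k]
    simp [mul_assoc]

theorem stab_1 (h : Struct K k1 k2) (hk1 : 0 < k1) (hk2 : 0 < k2) {g : E} (hg : K h4 (g • h4) = 0) :
    ∃ k : ℤ, g = g1 ^ k ∨ g = g1 ^ k * s4 := by
  refine stab_m h hk1 hk2 false h.hk1 (fun z hz => h.same1 hz) (fun z hz hz' => ?_) smul_self_h4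
    (fun k => ?_) hg
  · rw [mm_false, h.dir11 hz hz']
    positivity
  · show s4 * g1 ^ k = g1 ^ (-k) * s4
    rw [← s4_conj_g1 k]
    simp [mul_assoc]

/-- the positive values of `K` have a smallest element in every set of half-turn pairs -/
theorem exists_min_value (h : Struct K k1 k2) (hk1 : 0 < k1) (hk2 : 0 < k2) {ι : Type*}
    (f g : ι → HT) (hpos : ∀ i, 0 < K (f i) (g i)) (i0 : ι) :
    ∃ i, ∀ i', K (f i) (g i) ≤ K (f i') (g i') := by
  have _ := hpos
  set R := K (f i0) (g i0) with hR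
  let V : Set ℝ := {v | (∃ i, K (f i) (g i) = v) ∧ v ≤ R}
  obtain ⟨M1, hM1⟩ := exists_nat_ge ((R + k2) / k1)
  obtain ⟨M2, hM2⟩ := exists_nat_ge ((R + k1) / k2)
  have hfin : V.Finite := by
    apply Set.Finite.subset (((Finset.Icc (-1 : ℤ) M1) ×ˢ (Finset.Icc (-1 : ℤ) M2)).image
      (fun p : ℤ × ℤ => (p.1 : ℝ) * k1 + (p.2 : ℝ) * k2)).finite_toSet
    rintro v ⟨⟨i, rfl⟩, hv⟩
    obtain ⟨N1, N2, a1, a2, hN⟩ := disc h hk1 hk2 (f i) (g i)
    rw [Finset.coe_image]
    refine ⟨(N1, N2), ?_, hN.symm⟩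
    rw [Finset.mem_coe, Finset.mem_product, Finset.mem_Icc, Finset.mem_Icc]
    have b1 : (-1 : ℝ) ≤ N1 := by exact_mod_cast a1
    have b2 : (-1 : ℝ) ≤ N2 := by exact_mod_cast a2
    rw [hN] at hv
    rw [div_le_iff₀ hk1] at hM1
    rw [div_le_iff₀ hk2] at hM2
    refine ⟨⟨a1, ?_⟩, ⟨a2, ?_⟩⟩
    · have : (N1 : ℝ) ≤ M1 := by
        by_contra hcon
        push Not at hcon
        nlinarith
      exact_mod_cast this
    · have : (N2 : ℝ) ≤ M2 := by
        by_contra hcon
        push Not at hcon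
        nlinarith
      exact_mod_cast this
  have hne : V.Nonempty := ⟨R, ⟨i0, hR.symm⟩, le_refl _⟩
  obtain ⟨v, ⟨⟨i, hi⟩, hv⟩, hmin⟩ := Set.exists_min_image V id hfin hne
  refine ⟨i, fun i' => ?_⟩
  rw [hi]
  rcases le_total (K (f i') (g i')) R with h0 | h0
  · exact hmin _ ⟨⟨i', rfl⟩, h0⟩
  · exact hv.trans h0

end Pool.Agent.LR
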