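import Pool.Agent.LR.StructBasic

/-!
# LR/Words: reduced words and the values of `K`

`E` acts on the tree of `k₁ c₁ + k₂ c₂`; the vertices are the classes of `g • h1` (stabiliser `PX`), `g • h2`
(stabiliser `⟨s₂, s₃⟩`, at distance `k₂`), `g • h4` (stabiliser `⟨s₄, s₅⟩`, at distance `k₁`). For `t : Bool`:
`mm true = h2`, `mm false = h4`, and so on.

A word is a list of pairs `(z, t)`, the *head being the last letter*: `wval ((z, t) :: w) = wval w * (z * ss t)`.
`Red w`: all `z ∈ PX`, and for consecutive entries `(z, t) :: (z', t) :: w` with the same `t` one has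
`z ∉ zpowers (gg t)`.

PROOFS.
* `path`. Induction on `w`. `w = []`: `K h1 h1 = 0`. For `(z, t) :: w` let `q = wval w • h1`, `m = (wval w * z) • mm t`,
  `q' = (wval w * (z * ss t)) • h1`. `K q m = K h1 (z • mm t) = kk t`, `K m q' = K (mm t) (ss t • h1) = kk t` (as
  `ss t • mm t = mm t`), `K q q' = K h1 ((z * ss t) • h1) = K (z • h1) ((z * ss t) • h1) = K h1 (ss t • h1) = 2 kk t`.
  First `K h1 m = K h1 q + kk t`: if `w = []` this is clear (`q = h1`). If `w = (z', t') :: w'`, let
  `m' = (wval w' * z') • mm t'`, so that `wval w • mm t' = m'` and by induction `K h1 q = K h1 m' + kk t'`,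
  `K m' q = kk t'`; `K m' m = K (mm t') (z • mm t) = kk t' + kk t` by `dir22`, `dir11`, `dir12` (for `t' = false`,
  `t = true`: `K h4 (z • h2) = K (z⁻¹ • h4) h2`); then `ZH.chain`. Next `K h1 q' = K h1 m + kk t` by `ZH.chain` for
  `q, m, q'`. (It is convenient to prove both statements of `path` simultaneously by induction.)
* `exists_red`: the set of all `g = wval w * z` with `Red w`, `z ∈ PX` contains `1` and is closed under right
  multiplication with elements of `PX` and with `ss t`: `wval w * z * ss t` is `wval ((z, t) :: w)` and this word is reduced,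
  unless `w = (z', t) :: w'` and `z ∈ zpowers (gg t)`; in that case `ss t * z * ss t = z⁻¹` (`s2_conj_g2`, `s4_conj_g1`), so
  `wval w * z * ss t = wval w' * (z' * z⁻¹)`. Use `closure_PX_s2_s4`.
* `exists_red_m`: `g = wval w * z`. If `Red ((z, t) :: w)` we are done. Otherwise `w = (z', t) :: w'`, `z ∈ zpowers (gg t)`, and
  `K (z • mm t) (mm t) = 0`, `ss t • mm t = mm t`, so `g • mm t` can be replaced by `(wval w' * z') • mm t`, and
  `Red ((z', t) :: w')` is `Red w`.
-/

namespace Pool.Agent.LR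

/-- centre of type `t` -/
def mm (t : Bool) : HT := if t then h2 else h4
/-- edge element of type `t` -/
def gg (t : Bool) : E := if t then g2 else g1
/-- reflection of type `t` -/
def ss (t : Bool) : E := if t then s2 else s4
/-- length of type `t` -/
def kk (k1 k2 : ℝ) (t : Bool) : ℝ := if t then k2 else k1

/-- the group element of a word (head = last letter) -/
def wval : List (E × Bool) → E
  | [] => 1
  | (z, t) :: w => wval w * (z * ss t)

/-- half of the length of the path of a word -/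
def wsum (k1 k2 : ℝ) : List (E × Bool) → ℝ
  | [] => 0
  | (_, t) :: w => wsum k1 k2 w + kk k1 k2 t

/-- reduced words -/
def Red : List (E × Bool) → Prop
  | [] => True
  | [(z, _)] => z ∈ PX
  | (z, t) :: (z', t') :: w => z ∈ PX ∧ (t = t' → z ∉ Subgroup.zpowers (gg t)) ∧ Red ((z', t') :: w)

variable {K : HT → HT → ℝ} {k1 k2 : ℝ}

theorem mem_PX_of_red {z : E} {t : Bool} {w : List (E × Bool)} (h : Red ((z, t) :: w)) : z ∈ PX := by
  cases w with
  | nil => exact h
  | cons p w => exact h.1

theorem red_tail {z : E} {t : Bool} {w : List (E × Bool)} (h : Red ((z, t) :: w)) : Red w := by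
  cases w with
  | nil => exact trivial
  | cons p w => exact h.2.2

theorem ss_smul_mm (t : Bool) : ss t • mm t = mm t := by
  cases t
  · apply Subtype.ext
    show s4 * s4 * s4⁻¹ = s4
    simp
  · apply Subtype.ext
    show s2 * s2 * s2⁻¹ = s2
    simp

theorem gg_mem_PX (t : Bool) : gg t ∈ PX := by
  cases t
  · exact g1_mem_PX
  · exact g2_mem_PX

theorem zpowers_gg_le (t : Bool) {z : E} (h : z ∈ Subgroup.zpowers (gg t)) : z ∈ PX := by
  obtain ⟨k, rfl⟩ := h
  exact zpow_mem (gg_mem_PX t) k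

theorem ss_conj (t : Bool) {z : E} (h : z ∈ Subgroup.zpowers (gg t)) : ss t * z * ss t = z⁻¹ := by
  obtain ⟨k, rfl⟩ := h
  cases t
  · show s4 * g1 ^ k * s4 = (g1 ^ k)⁻¹
    rw [s4_conj_g1, zpow_neg]
  · show s2 * g2 ^ k * s2 = (g2 ^ k)⁻¹
    rw [s2_conj_g2, zpow_neg]

theorem kk_pos (hk1 : 0 < k1) (hk2 : 0 < k2) (t : Bool) : 0 < kk k1 k2 t := by
  cases t
  · exact hk1
  · exact hk2

theorem Struct.zmm (h : Struct K k1 k2) {z : E} (hz : z ∈ PX) (t : Bool) :
    K h1 (z • mm t) = kk k1 k2 t := by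
  cases t
  · exact h.zm1 hz
  · exact h.zm2 hz

theorem Struct.smm (h : Struct K k1 k2) {z : E} (t : Bool) (hz : z ∈ Subgroup.zpowers (gg t)) :
    K (mm t) (z • mm t) = 0 := by
  cases t
  · exact h.same1 hz
  · exact h.same2 hz

theorem Struct.mm_ss (h : Struct K k1 k2) (t : Bool) :
    K (mm t) (ss t • h1) = kk k1 k2 t := by
  have h2 := h.good.inv (ss t) (mm t) h1
  rw [ss_smul_mm] at h2
  rw [h2, h.good.symm]
  have h3 := h.zmm (one_mem PX) t
  rwa [one_smul] at h3

theorem Struct.h1_ss (h : Struct K k1 k2) {z : E} (hz : z ∈ PX) (t : Bool) :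
    K h1 ((z * ss t) • h1) = 2 * kk k1 k2 t := by
  rw [h.good.congr_left (h.hPX z hz), mul_smul, h.good.inv, h.good.symm]
  have h3 := h.zmm (one_mem PX) t
  rw [one_smul] at h3
  rw [← h3, h.good.symm h1]
  cases t
  · exact h.good.half h4 h1
  · exact h.good.half h2 h1

theorem Struct.dirs (h : Struct K k1 k2) {z : E} (hz : z ∈ PX) {t t' : Bool}
    (hz' : t = t' → z ∉ Subgroup.zpowers (gg t)) :
    K (mm t') (z • mm t) = kk k1 k2 t' + kk k1 k2 t := by
  cases t
  · cases t'
    · have := h.dir11 hz (hz' rfl)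
      show K h4 (z • h4) = k1 + k1
      rw [this]; ring
    · have := h.dir12 hz
      show K h2 (z • h4) = k2 + k1
      rw [this]; ring
  · cases t'
    · have := h.dir12 (inv_mem hz)
      show K h4 (z • h2) = k1 + k2
      rw [← this, h.good.symm h2, ← h.good.inv z (z⁻¹ • h4), smul_smul, mul_inv_cancel, one_smul]
    · have := h.dir22 hz (hz' rfl)
      show K h2 (z • h2) = k2 + k2
      rw [this]; ring

theorem path_aux (h : Struct K k1 k2) (hk1 : 0 < k1) (hk2 : 0 < k2) (w : List (E × Bool)) :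
    (Red w → K h1 (wval w • h1) = 2 * wsum k1 k2 w) ∧
    ∀ z t, Red ((z, t) :: w) → K h1 ((wval w * z) • mm t) = 2 * wsum k1 k2 w + kk k1 k2 t := by
  induction w with
  | nil =>
    refine ⟨fun _ => ?_, fun z t hz => ?_⟩
    · show K h1 ((1 : E) • h1) = 2 * 0
      rw [one_smul, h.good.self, mul_zero]
    · show K h1 (((1 : E) * z) • mm t) = 2 * 0 + kk k1 k2 t
      rw [one_mul, h.zmm (mem_PX_of_red hz)]; ring
  | cons p w ih =>
    obtain ⟨z', t'⟩ := p
    have hA : Red ((z', t') :: w) → K h1 (wval ((z', t') :: w) • h1) =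
        2 * wsum k1 k2 ((z', t') :: w) := by
      intro hw
      have hz' := mem_PX_of_red hw
      have i1 := ih.1 (red_tail hw)
      have i2 := ih.2 z' t' hw
      have e1 : K (wval w • h1) ((wval w * z') • mm t') = kk k1 k2 t' := by
        rw [mul_smul, h.good.inv, h.zmm hz']
      have e2 : K ((wval w * z') • mm t') (wval ((z', t') :: w) • h1) = kk k1 k2 t' := by
        show K ((wval w * z') • mm t') ((wval w * (z' * ss t')) • h1) = _
        rw [← mul_assoc, mul_smul (wval w * z') (ss t'), h.good.inv, h.mm_ss]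
      have e3 : K (wval w • h1) (wval ((z', t') :: w) • h1) = 2 * kk k1 k2 t' := by
        show K (wval w • h1) ((wval w * (z' * ss t')) • h1) = _
        rw [mul_smul (wval w), h.good.inv, h.h1_ss hz']
      have hc := h.good.chain (p := h1) (a := wval w • h1) (b := (wval w * z') • mm t')
        (c := wval ((z', t') :: w) • h1) (by rw [e1]; exact kk_pos hk1 hk2 t')
        (by rw [i2, i1, e1]) (by rw [e3, e1, e2]; ring)
      rw [hc, i2, e2]
      show _ = 2 * (wsum k1 k2 w + kk k1 k2 t')
      ring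
    refine ⟨hA, fun z t hw => ?_⟩
    have hw' := red_tail hw
    have hz := mem_PX_of_red hw
    have i2 := ih.2 z' t' hw'
    have a1 := hA hw'
    have e0 : (wval w * z') • mm t' = wval ((z', t') :: w) • mm t' := by
      show _ = (wval w * (z' * ss t')) • mm t'
      rw [← mul_assoc, mul_smul (wval w * z') (ss t'), ss_smul_mm]
    have e2 : K ((wval w * z') • mm t') (wval ((z', t') :: w) • h1) = kk k1 k2 t' := by
      show K ((wval w * z') • mm t') ((wval w * (z' * ss t')) • h1) = _
      rw [← mul_assoc, mul_smul (wval w * z') (ss t'), h.good.inv, h.mm_ss]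
    have e4 : K (wval ((z', t') :: w) • h1) ((wval ((z', t') :: w) * z) • mm t) = kk k1 k2 t := by
      rw [mul_smul (wval ((z', t') :: w)), h.good.inv, h.zmm hz]
    have e5 : K ((wval w * z') • mm t') ((wval ((z', t') :: w) * z) • mm t) =
        kk k1 k2 t' + kk k1 k2 t := by
      rw [e0, mul_smul (wval ((z', t') :: w)), h.good.inv, h.dirs hz hw.2.1]
    have hc := h.good.chain (p := h1) (a := (wval w * z') • mm t') (b := wval ((z', t') :: w) • h1)
      (c := (wval ((z', t') :: w) * z) • mm t) (by rw [e2]; exact kk_pos hk1 hk2 t')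
      (by
        rw [a1, i2, e2]
        show 2 * (wsum k1 k2 w + kk k1 k2 t') = _
        ring) (by rw [e5, e2, e4])
    rw [hc, a1, e4]

theorem path (h : Struct K k1 k2) (hk1 : 0 < k1) (hk2 : 0 < k2) (w : List (E × Bool)) (hw : Red w) :
    K h1 (wval w • h1) = 2 * wsum k1 k2 w :=
  (path_aux h hk1 hk2 w).1 hw

theorem path_m (h : Struct K k1 k2) (hk1 : 0 < k1) (hk2 : 0 < k2) (w : List (E × Bool)) (z : E)
    (t : Bool) (hw : Red ((z, t) :: w)) :
    K h1 ((wval w * z) • mm t) = 2 * wsum k1 k2 w + kk k1 k2 t :=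
  (path_aux h hk1 hk2 w).2 z t hw

/-- either the extended word is reduced, or the last two letters cancel -/
theorem red_or {w : List (E × Bool)} {z : E} (hw : Red w) (hz : z ∈ PX) (t : Bool) :
    Red ((z, t) :: w) ∨ ∃ z' w', w = (z', t) :: w' ∧ z ∈ Subgroup.zpowers (gg t) := by
  cases w with
  | nil => exact Or.inl hz
  | cons p w =>
    obtain ⟨z', t'⟩ := p
    by_cases h : t = t' ∧ z ∈ Subgroup.zpowers (gg t)
    · obtain ⟨rfl, h⟩ := h
      exact Or.inr ⟨z', w, rfl, h⟩
    · left
      exact ⟨hz, fun h1 h2 => h ⟨h1, h2⟩, hw⟩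

theorem exists_red_mul_ss {g : E} (hg : ∃ (w : List (E × Bool)) (z : E), Red w ∧ z ∈ PX ∧
    g = wval w * z) (t : Bool) :
    ∃ (w : List (E × Bool)) (z : E), Red w ∧ z ∈ PX ∧ g * ss t = wval w * z := by
  obtain ⟨w, z, hw, hz, rfl⟩ := hg
  rcases red_or hw hz t with h | ⟨z', w', rfl, h⟩
  · refine ⟨(z, t) :: w, 1, h, one_mem _, ?_⟩
    show _ = wval w * (z * ss t) * 1
    rw [mul_one, mul_assoc]
  · refine ⟨w', z' * z⁻¹, red_tail hw, mul_mem (mem_PX_of_red hw) (inv_mem hz), ?_⟩
    show wval w' * (z' * ss t) * z * ss t = _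
    rw [← ss_conj t h]
    simp only [mul_assoc]

theorem exists_red (g : E) : ∃ (w : List (E × Bool)) (z : E), Red w ∧ z ∈ PX ∧ g = wval w * z := by
  have hg : g ∈ Subgroup.closure ((PX : Set E) ∪ {s2, s4}) := by
    rw [closure_PX_s2_s4]; exact Subgroup.mem_top g
  have step : ∀ x y : E, y ∈ (PX : Set E) ∪ {s2, s4} →
      (∃ (w : List (E × Bool)) (z : E), Red w ∧ z ∈ PX ∧ x = wval w * z) →
      ∃ (w : List (E × Bool)) (z : E), Red w ∧ z ∈ PX ∧ x * y = wval w * z := by
    rintro x y (hy | hy) hx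
    · obtain ⟨w, z, hw, hz, rfl⟩ := hx
      exact ⟨w, z * y, hw, mul_mem hz hy, by rw [mul_assoc]⟩
    · rcases hy with rfl | hy
      · exact exists_red_mul_ss hx true
      · rw [Set.mem_singleton_iff] at hy
        subst hy
        exact exists_red_mul_ss hx false
  have hinv : ∀ y : E, y ∈ (PX : Set E) ∪ {s2, s4} → y⁻¹ ∈ (PX : Set E) ∪ {s2, s4} := by
    rintro y (hy | hy)
    · exact Or.inl (PX.inv_mem hy)
    · right
      rcases hy with rfl | hy
      · rw [s2_inv]; exact Or.inl rfl
      · rw [Set.mem_singleton_iff] at hy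
        subst hy
        rw [s4_inv]; exact Or.inr rfl
  induction hg using Subgroup.closure_induction_right with
  | one => exact ⟨[], 1, trivial, one_mem _, by simp [wval]⟩
  | mul_right x hx y hy ih => exact step x y hy ih
  | mul_inv_cancel x hx y hy ih => exact step x y⁻¹ (hinv y hy) ih

theorem exists_red_m (g : E) (t : Bool) : ∃ (w : List (E × Bool)) (z : E), Red ((z, t) :: w) ∧
    ∀ (K : HT → HT → ℝ) (k1 k2 : ℝ), Struct K k1 k2 → K (g • mm t) ((wval w * z) • mm t) = 0 := by
  obtain ⟨w, z, hw, hz, rfl⟩ := exists_red g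
  rcases red_or hw hz t with h | ⟨z', w', rfl, h⟩
  · exact ⟨w, z, h, fun K k1 k2 hK => hK.good.self _⟩
  · refine ⟨w', z', hw, fun K k1 k2 hK => ?_⟩
    show K ((wval w' * (z' * ss t) * z) • mm t) _ = 0
    have e0 : (wval w' * z') • mm t = (wval w' * (z' * ss t)) • mm t := by
      rw [← mul_assoc, mul_smul (wval w' * z') (ss t), ss_smul_mm]
    rw [e0, mul_smul (wval w' * (z' * ss t)), hK.good.inv, hK.good.symm]
    exact hK.smm t h

theorem wsum_eq (k1 k2 : ℝ) (w : List (E × Bool)) :
    wsum k1 k2 w = (w.countP (fun p => !p.2)) * k1 + (w.countP (fun p => p.2)) * k2 := by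
  induction w with
  | nil => simp [wsum]
  | cons p w ih =>
    obtain ⟨z, t⟩ := p
    show wsum k1 k2 w + kk k1 k2 t = _
    rw [ih]
    cases t
    · simp [kk]; ring
    · simp [kk]; ring

end Pool.Agent.LR
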