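import Pool.Agent.LR.EDefs

/-!
# LR/ZHyp: elementary lemmas on 0-hyperbolic pseudo-metrics

PROOFS. Everything follows from `four` with suitable points; `tri` is proved below.

* `foot`. `f k = D P (x k) ≥ 0`. By `tri`, `|f (k+1) - f k| ≤ L`. `four` for `P, x k, x (k-1), x (k+1)`:
  `f k + 2 L ≤ max (f (k-1) + L) (f (k+1) + L)`, so for every `k` one has `f (k+1) = f k + L` or
  `f (k-1) = f k + L`. If `f (k+1) = f k + L` then also `f (k+2) = f (k+1) + L` (the other alternative at
  `k+1` would be `f k = f (k+1) + L`). So `U = {k | f (k+1) = f k + L}` is closed under `k ↦ k+1`,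
  `V = {k | f (k-1) = f k + L}` is closed under `k ↦ k-1`, `U ∪ V = ℤ`. `U ≠ ℤ`: otherwise
  `f (-n) = f 0 - n L < 0` for large `n`; the same for `V`. Let `u` be the least element of `U`
  (`U` is bounded below, since `U ≠ ℤ` is upwards closed, and nonempty, since `V ≠ ℤ`). Then `u - 1 ∉ U`,
  so `u - 1 ∈ V` and `f k = f u + (k-u) L` for `k ≥ u`, `f k = f (u-1) + (u-1-k) L` for `k ≤ u-1`.
  Put `τ = u - 1/2 - (f u - f (u-1)) / (2 L)`, `d = (f u + f (u-1) - L) / 2`. As `|f u - f (u-1)| ≤ L`,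
  `u - 1 ≤ τ ≤ u`; `d ≥ 0` by the triangle inequality (`L = D (x (u-1)) (x u)`); then
  `d + L |k - τ| = f k` in both cases.
* `foot_unique`. Take `k` larger than `τ, τ'` and `k` smaller than `τ, τ'`.
* `two_point`. Choose integers `i ≤ min τ σ`, `k ≥ max τ σ`, `i < k`. The three sums for `P, Q, x i, x k` are
  `D P Q + L (k - i)`, `d + e + L (k - i) + L (τ - σ)`, `d + e + L (k - i) + L (σ - τ)`. The last two are
  different, so (applying `four` in the three possible ways) the first equals the larger one of them.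
* `two_point_le`. The same points, `four` once.
* `ZH.chain`. One step of local geodesics are geodesics:
  `four` for `p, c, b, a`... precisely `D p b + D a c ≤ max (D p a + D b c) (D p c + D a b)`; the first
  alternative is impossible as `D a b > 0`, so `D p c ≥ D p b + D b c`; the other inequality is `tri`.
-/

namespace Pool.Agent.LR

variable {X : Type*} {D : X → X → ℝ}

theorem ZH.tri (h : ZH D) (x y z : X) : D x z ≤ D x y + D y z := by
  have := h.four x z y y
  rw [h.self, h.symm z y, max_self] at this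
  linarith

theorem ZH.congr_left (h : ZH D) {x y : X} (hxy : D x y = 0) (z : X) : D x z = D y z := by
  have h1 := h.tri x y z
  have h2 := h.tri y x z
  rw [h.symm y x] at h2
  linarith

theorem ZH.congr_right (h : ZH D) {x y : X} (hxy : D x y = 0) (z : X) : D z x = D z y := by
  rw [h.symm z x, h.symm z y, h.congr_left hxy]

theorem ZH.foot (h : ZH D) {x : ℤ → X} {L : ℝ} (hL : 0 < L)
    (hx : ∀ i j : ℤ, D (x i) (x j) = L * |(i : ℝ) - j|) (P : X) :
    ∃ d τ : ℝ, 0 ≤ d ∧ ∀ k : ℤ, D P (x k) = d + L * |(k : ℝ) - τ| := by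
  have hnn : ∀ k, 0 ≤ D P (x k) := fun k => h.nonneg _ _
  have halt : ∀ k : ℤ, D P (x (k + 1)) = D P (x k) + L ∨ D P (x (k - 1)) = D P (x k) + L := by
    intro k
    have h4 := h.four P (x k) (x (k - 1)) (x (k + 1))
    have e1 : D (x (k - 1)) (x (k + 1)) = L * 2 := by
      rw [hx]; push_cast
      rw [show (k : ℝ) - 1 - (k + 1) = -2 by ring, abs_neg, abs_of_pos (by norm_num : (0 : ℝ) < 2)]
    have e2 : D (x k) (x (k + 1)) = L := by
      rw [hx]; push_cast
      rw [show (k : ℝ) - (k + 1) = -1 by ring, abs_neg, abs_one, mul_one]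
    have e3 : D (x k) (x (k - 1)) = L := by
      rw [hx]; push_cast
      rw [show (k : ℝ) - (k - 1) = 1 by ring, abs_one, mul_one]
    have t1 := h.tri P (x k) (x (k + 1))
    have t2 := h.tri P (x k) (x (k - 1))
    rw [e1, e2, e3] at h4
    rw [e2] at t1
    rw [e3] at t2
    rcases le_max_iff.mp h4 with h5 | h5
    · right; linarith
    · left; linarith
  have hUup : ∀ k : ℤ, D P (x (k + 1)) = D P (x k) + L →
      D P (x (k + 1 + 1)) = D P (x (k + 1)) + L := by
    intro k hk
    rcases halt (k + 1) with h5 | h5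
    · exact h5
    · exfalso
      rw [show k + 1 - 1 = k by ring] at h5
      linarith
  have hVdn : ∀ k : ℤ, D P (x (k - 1)) = D P (x k) + L →
      D P (x (k - 1 - 1)) = D P (x (k - 1)) + L := by
    intro k hk
    rcases halt (k - 1) with h5 | h5
    · exfalso
      rw [show k - 1 + 1 = k by ring] at h5
      linarith
    · exact h5
  have hUall : ∀ k : ℤ, D P (x (k + 1)) = D P (x k) + L → ∀ n : ℕ,
      D P (x (k + n)) = D P (x k) + n * L ∧ D P (x (k + n + 1)) = D P (x (k + n)) + L := by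
    intro k hk n
    induction n with
    | zero => simp [hk]
    | succ n ih =>
      obtain ⟨i1, i2⟩ := ih
      push_cast
      refine ⟨?_, ?_⟩
      · rw [← add_assoc, i2, i1]; ring
      · rw [← add_assoc]
        exact hUup _ i2
  have hVall : ∀ k : ℤ, D P (x (k - 1)) = D P (x k) + L → ∀ n : ℕ,
      D P (x (k - n)) = D P (x k) + n * L ∧ D P (x (k - n - 1)) = D P (x (k - n)) + L := by
    intro k hk n
    induction n with
    | zero => simp [hk]
    | succ n ih =>
      obtain ⟨i1, i2⟩ := ih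
      push_cast
      refine ⟨?_, ?_⟩
      · rw [← sub_sub, i2, i1]; ring
      · rw [← sub_sub]
        exact hVdn _ i2
  obtain ⟨K, hK⟩ : ∃ K : ℕ, D P (x 0) < K * L := by
    obtain ⟨K, hK⟩ := exists_nat_gt (D P (x 0) / L)
    exact ⟨K, by rwa [div_lt_iff₀ hL] at hK⟩
  -- below `-K` no element of `U`
  have hUlow : ∀ z : ℤ, D P (x (z + 1)) = D P (x z) + L → -(K : ℤ) ≤ z := by
    intro z hz
    by_contra hlt
    push Not at hlt
    obtain ⟨n, hn⟩ := Int.eq_ofNat_of_zero_le (show 0 ≤ -z by omega)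
    have h5 := (hUall z hz n).1
    rw [show z + (n : ℤ) = 0 by omega] at h5
    have h6 : (K : ℝ) ≤ n := by
      have : (K : ℤ) ≤ n := by omega
      exact_mod_cast this
    nlinarith [hnn z]
  have hVup : ∀ z : ℤ, D P (x (z - 1)) = D P (x z) + L → z ≤ (K : ℤ) := by
    intro z hz
    by_contra hlt
    push Not at hlt
    obtain ⟨n, hn⟩ := Int.eq_ofNat_of_zero_le (show 0 ≤ z by omega)
    have h5 := (hVall z hz n).1
    rw [show z - (n : ℤ) = 0 by omega] at h5
    have h6 : (K : ℝ) ≤ n := by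
      have : (K : ℤ) ≤ n := by omega
      exact_mod_cast this
    nlinarith [hnn z]
  have hUne : ∃ z : ℤ, D P (x (z + 1)) = D P (x z) + L := by
    rcases halt ((K : ℤ) + 1) with h5 | h5
    · exact ⟨_, h5⟩
    · have := hVup _ h5
      omega
  obtain ⟨u, hu, humin⟩ := Int.exists_least_of_bdd ⟨-(K : ℤ), hUlow⟩ hUne
  have hV : D P (x (u - 1 - 1)) = D P (x (u - 1)) + L := by
    rcases halt (u - 1) with h5 | h5
    · have := humin _ h5
      omega
    · exact h5
  have hright : ∀ k : ℤ, u ≤ k → D P (x k) = D P (x u) + (k - u) * L := by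
    intro k hk
    obtain ⟨n, hn⟩ := Int.eq_ofNat_of_zero_le (show 0 ≤ k - u by omega)
    have h5 := (hUall u hu n).1
    rw [show u + (n : ℤ) = k by omega] at h5
    rw [h5]
    have : (n : ℝ) = (k : ℝ) - u := by
      have : (n : ℤ) = k - u := hn.symm
      exact_mod_cast this
    rw [this]
  have hleft : ∀ k : ℤ, k ≤ u - 1 → D P (x k) = D P (x (u - 1)) + (u - 1 - k) * L := by
    intro k hk
    obtain ⟨n, hn⟩ := Int.eq_ofNat_of_zero_le (show 0 ≤ u - 1 - k by omega)
    have h5 := (hVall (u - 1) hV n).1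
    rw [show u - 1 - (n : ℤ) = k by omega] at h5
    rw [h5]
    have : (n : ℝ) = (u : ℝ) - 1 - k := by
      have : (n : ℤ) = u - 1 - k := hn.symm
      exact_mod_cast this
    rw [this]
  have eL : D (x (u - 1)) (x u) = L := by
    rw [hx]; push_cast
    rw [show (u : ℝ) - 1 - u = -1 by ring, abs_neg, abs_one, mul_one]
  have t1 := h.tri P (x (u - 1)) (x u)
  have t2 := h.tri P (x u) (x (u - 1))
  have t3 := h.tri (x (u - 1)) P (x u)
  rw [h.symm (x (u - 1)) P, eL] at t3
  rw [h.symm (x u) (x (u - 1)), eL] at t2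
  rw [eL] at t1
  set a := D P (x u) with ha
  set b := D P (x (u - 1)) with hb
  have hLne : L ≠ 0 := hL.ne'
  have hr1 : (a - b) / (2 * L) ≤ 1 / 2 := by
    rw [div_le_iff₀ (by positivity)]; linarith
  have hr2 : -(1 / 2) ≤ (a - b) / (2 * L) := by
    rw [le_div_iff₀ (by positivity)]; linarith
  have hr3 : L * ((a - b) / (2 * L)) = (a - b) / 2 := by
    field_simp
  refine ⟨(a + b - L) / 2, u - 1 / 2 - (a - b) / (2 * L), by linarith, fun k => ?_⟩
  rcases le_or_gt u k with hk | hk
  · have hk' : (u : ℝ) ≤ k := by exact_mod_cast hk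
    rw [hright k hk, abs_of_nonneg (by linarith)]
    have : L * ((k : ℝ) - (u - 1 / 2 - (a - b) / (2 * L))) =
        L * (k - u) + L / 2 + L * ((a - b) / (2 * L)) := by ring
    rw [this, hr3]; ring
  · have hk1 : k ≤ u - 1 := by omega
    have hk' : (k : ℝ) ≤ u - 1 := by exact_mod_cast hk1
    rw [hleft k hk1, abs_of_nonpos (by linarith)]
    have : L * (-((k : ℝ) - (u - 1 / 2 - (a - b) / (2 * L)))) =
        L * (u - k) - L / 2 - L * ((a - b) / (2 * L)) := by ring
    rw [this, hr3]; ring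

theorem foot_unique {L d τ d' τ' : ℝ} (hL : 0 < L)
    (h : ∀ k : ℤ, d + L * |(k : ℝ) - τ| = d' + L * |(k : ℝ) - τ'|) : d = d' ∧ τ = τ' := by
  have h1 := h ⌈max τ τ'⌉
  have h2 := h ⌊min τ τ'⌋
  have c1 : max τ τ' ≤ (⌈max τ τ'⌉ : ℝ) := Int.le_ceil _
  have c2 : (⌊min τ τ'⌋ : ℝ) ≤ min τ τ' := Int.floor_le _
  have c3 := le_max_left τ τ'
  have c4 := le_max_right τ τ'
  have c5 := min_le_left τ τ'
  have c6 := min_le_right τ τ'
  rw [abs_of_nonneg (by linarith), abs_of_nonneg (by linarith)] at h1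
  rw [abs_of_nonpos (by linarith), abs_of_nonpos (by linarith)] at h2
  have hd : d = d' := by linarith
  refine ⟨hd, ?_⟩
  have : L * τ = L * τ' := by linarith
  exact mul_left_cancel₀ hL.ne' this

theorem ZH.two_point (h : ZH D) {x : ℤ → X} {L : ℝ} (hL : 0 < L)
    (hx : ∀ i j : ℤ, D (x i) (x j) = L * |(i : ℝ) - j|) {P Q : X} {d e τ σ : ℝ}
    (hP : ∀ k : ℤ, D P (x k) = d + L * |(k : ℝ) - τ|) (hQ : ∀ k : ℤ, D Q (x k) = e + L * |(k : ℝ) - σ|)
    (hne : τ ≠ σ) : D P Q = d + e + L * |τ - σ| := by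
  have hle : ∀ k : ℤ, D (x k) (x k) = 0 := fun k => h.self _
  have c1 : max τ σ ≤ (⌈max τ σ⌉ : ℝ) := Int.le_ceil _
  have c2 : (⌊min τ σ⌋ : ℝ) ≤ min τ σ := Int.floor_le _
  have c3 := le_max_left τ σ
  have c4 := le_max_right τ σ
  have c5 := min_le_left τ σ
  have c6 := min_le_right τ σ
  set k := ⌈max τ σ⌉ with hk
  set i := ⌊min τ σ⌋ with hi
  have p1 : D P (x i) = d + L * (τ - i) := by
    rw [hP, abs_of_nonpos (by linarith)]; ring
  have p2 : D P (x k) = d + L * (k - τ) := by
    rw [hP, abs_of_nonneg (by linarith)]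
  have p3 : D Q (x i) = e + L * (σ - i) := by
    rw [hQ, abs_of_nonpos (by linarith)]; ring
  have p4 : D Q (x k) = e + L * (k - σ) := by
    rw [hQ, abs_of_nonneg (by linarith)]
  have p5 : D (x i) (x k) = L * (k - i) := by
    rw [hx, abs_of_nonpos (by linarith)]; ring
  have f1 := h.four P Q (x i) (x k)
  have f2 := h.four P (x i) Q (x k)
  have f3 := h.four P (x k) Q (x i)
  rw [p1, p2, p3, p4, p5] at f1
  rw [h.symm (x i) Q, p1, p2, p3, p4, p5] at f2
  rw [h.symm (x k) Q, h.symm (x k) (x i), p1, p2, p3, p4, p5] at f3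
  rcases lt_or_gt_of_ne hne with hlt | hlt
  · have q : 0 < L * (σ - τ) := mul_pos hL (by linarith)
    rw [abs_of_nonpos (by linarith)]
    apply le_antisymm
    · rcases le_max_iff.mp f1 with h5 | h5 <;> linarith
    · rcases le_max_iff.mp f3 with h5 | h5 <;> linarith
  · have q : 0 < L * (τ - σ) := mul_pos hL (by linarith)
    rw [abs_of_nonneg (by linarith)]
    apply le_antisymm
    · rcases le_max_iff.mp f1 with h5 | h5 <;> linarith
    · rcases le_max_iff.mp f2 with h5 | h5 <;> linarith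

theorem ZH.two_point_le (h : ZH D) {x : ℤ → X} {L : ℝ} (hL : 0 < L)
    (hx : ∀ i j : ℤ, D (x i) (x j) = L * |(i : ℝ) - j|) {P Q : X} {d e τ σ : ℝ}
    (hP : ∀ k : ℤ, D P (x k) = d + L * |(k : ℝ) - τ|) (hQ : ∀ k : ℤ, D Q (x k) = e + L * |(k : ℝ) - σ|) :
    D P Q ≤ d + e + L * |τ - σ| := by
  have c1 : max τ σ ≤ (⌈max τ σ⌉ : ℝ) := Int.le_ceil _
  have c2 : (⌊min τ σ⌋ : ℝ) ≤ min τ σ := Int.floor_le _
  have c3 := le_max_left τ σ
  have c4 := le_max_right τ σ
  have c5 := min_le_left τ σ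
  have c6 := min_le_right τ σ
  set k := ⌈max τ σ⌉ with hk
  set i := ⌊min τ σ⌋ with hi
  have p1 : D P (x i) = d + L * (τ - i) := by
    rw [hP, abs_of_nonpos (by linarith)]; ring
  have p2 : D P (x k) = d + L * (k - τ) := by
    rw [hP, abs_of_nonneg (by linarith)]
  have p3 : D Q (x i) = e + L * (σ - i) := by
    rw [hQ, abs_of_nonpos (by linarith)]; ring
  have p4 : D Q (x k) = e + L * (k - σ) := by
    rw [hQ, abs_of_nonneg (by linarith)]
  have p5 : D (x i) (x k) = L * (k - i) := by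
    rw [hx, abs_of_nonpos (by linarith)]; ring
  have f1 := h.four P Q (x i) (x k)
  rw [p1, p2, p3, p4, p5] at f1
  have q1 : L * (τ - σ) ≤ L * |τ - σ| := mul_le_mul_of_nonneg_left (le_abs_self _) hL.le
  have q2 : L * (-(τ - σ)) ≤ L * |τ - σ| := mul_le_mul_of_nonneg_left (neg_le_abs _) hL.le
  rcases le_max_iff.mp f1 with h5 | h5 <;> linarith

/-- a step of local geodesics are geodesics -/
theorem ZH.chain (h : ZH D) {p a b c : X} (hab : 0 < D a b) (h1 : D p b = D p a + D a b)
    (h2 : D a c = D a b + D b c) : D p c = D p b + D b c := by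
  have h4 := h.four p b a c
  have h5 := h.tri p b c
  rw [h.symm b a] at h4
  apply le_antisymm h5
  rcases le_max_iff.mp h4 with h6 | h6 <;> linarith

end Pool.Agent.LR
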